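import Pool.Agent.H.MP_fbbc72_al.h41.Core4
import Pool.Agent.H.MP_fbbc72_al.h41.Core10

set_option autoImplicit false

namespace Pool.Agent.BQG

open Module

universe u

variable {E : Type u} [DivisionRing E]

/-- A basis over the centre consisting of elements of `G`: `E` is spanned over its centre `Z` by
`G`. Indeed, let `e = u v⁻¹`; `v` is algebraic over `Z` (`E` is finite-dimensional), so `v⁻¹` is
a `Z`-combination of powers of `v` and `e` one of the `u v^i ∈ G`. A spanning set contains a
basis (`Basis.extend`, `exists_linearIndependent` or similar), finite of size `finrank Z E`. -/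
theorem basis_in (hE : FinCent E) (G : Subring E)
    (hr : ∀ e : E, ∃ u ∈ G, ∃ v ∈ G, v ≠ 0 ∧ e = u * v⁻¹) :
    ∃ (m : ℕ) (b : Basis (Fin m) (Subring.center E) E), ∀ i, b i ∈ G := by
  classical
  have hfin : Module.Finite (Subring.center E) E := hE
  have hspan : Submodule.span (Subring.center E) (G : Set E) = ⊤ := by
    rw [eq_top_iff]
    intro e _
    obtain ⟨u, hu, v, hv, hv0, rfl⟩ := hr e
    have h1 : IsIntegral (Subring.center E) v := Algebra.IsIntegral.isIntegral v
    have h2 : v⁻¹ ∈ Algebra.adjoin (Subring.center E) {v} := h1.inv_mem_adjoin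
    rw [Algebra.adjoin_singleton_eq_range_aeval] at h2
    obtain ⟨p, hp⟩ := h2
    have hp' : Polynomial.aeval v p = v⁻¹ := hp
    rw [← hp', Polynomial.aeval_eq_sum_range, Finset.mul_sum]
    apply Submodule.sum_mem
    intro i _
    rw [mul_smul_comm]
    apply Submodule.smul_mem
    exact Submodule.subset_span (G.mul_mem hu (G.pow_mem hv i))
  obtain ⟨s, hsG, hs1, hs2⟩ := exists_linearIndependent (Subring.center E) (G : Set E)
  rw [hspan] at hs1
  have hsfin : s.Finite := hs2.setFinite
  have hft : Fintype s := hsfin.fintype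
  let b0 : Basis s (Subring.center E) E := Basis.mk hs2 (by
    rw [Subtype.range_coe]; exact hs1.ge)
  let e := Fintype.equivFin s
  refine ⟨Fintype.card s, b0.reindex e, fun i => ?_⟩
  rw [Basis.reindex_apply]
  have h3 : b0 (e.symm i) = ((e.symm i : s) : E) := by
    rw [Basis.mk_apply]
  rw [h3]
  exact hsG (e.symm i).2

/-- Every endomorphism `f` of the `Z`-space `E` is `w ↦ ∑ l_j w b_j`: the map
`(l_j) ↦ (w ↦ ∑ l_j w b_j)`, from `E^m` to `End_Z E` is `Z`-linear, injective by `ops_indep`, and
both sides have dimension `m^2` over `Z`. -/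
theorem endo_form {m : ℕ} (b : Basis (Fin m) (Subring.center E) E)
    (f : E →ₗ[Subring.center E] E) :
    ∃ l : Fin m → E, ∀ w : E, f w = ∑ j, l j * w * b j := by
  classical
  have hfin : Module.Finite (Subring.center E) E := Module.Finite.of_basis b
  let Φ : (Fin m → E) →ₗ[Subring.center E] (E →ₗ[Subring.center E] E) :=
    { toFun := fun l =>
        { toFun := fun w => ∑ j, l j * w * b j
          map_add' := by
            intro x y
            rw [← Finset.sum_add_distrib]
            apply Finset.sum_congr rfl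
            intro j _
            rw [mul_add, add_mul]
          map_smul' := by
            intro c x
            rw [RingHom.id_apply, Finset.smul_sum]
            apply Finset.sum_congr rfl
            intro j _
            rw [mul_smul_comm, smul_mul_assoc] }
      map_add' := by
        intro l l'
        ext w
        simp only [LinearMap.coe_mk, AddHom.coe_mk, LinearMap.add_apply, Pi.add_apply]
        rw [← Finset.sum_add_distrib]
        apply Finset.sum_congr rfl
        intro j _
        rw [add_mul, add_mul]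
      map_smul' := by
        intro c l
        ext w
        simp only [LinearMap.coe_mk, AddHom.coe_mk, LinearMap.smul_apply, Pi.smul_apply,
          RingHom.id_apply]
        rw [Finset.smul_sum]
        apply Finset.sum_congr rfl
        intro j _
        rw [smul_mul_assoc, smul_mul_assoc] }
  have hΦ : ∀ l w, Φ l w = ∑ j, l j * w * b j := fun l w => rfl
  have hinj : Function.Injective Φ := by
    rw [← LinearMap.ker_eq_bot, LinearMap.ker_eq_bot']
    intro l hl
    have h1 : ∀ x : E, ∑ i ∈ (Finset.univ : Finset (Fin m)), l i * x * b i = 0 := by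
      intro x
      rw [← hΦ, hl, LinearMap.zero_apply]
    have h2 := ops_indep b b.linearIndependent _ Finset.univ rfl l h1
    funext i
    exact h2 i (Finset.mem_univ i)
  have hdim : finrank (Subring.center E) (Fin m → E) =
      finrank (Subring.center E) (E →ₗ[Subring.center E] E) := by
    rw [Module.finrank_pi_fintype, Module.finrank_linearMap]
    have h3 : finrank (Subring.center E) E = m := by
      rw [Module.finrank_eq_card_basis b, Fintype.card_fin]
    simp [h3]
  have hsurj : Function.Surjective Φ :=
    (LinearMap.injective_iff_surjective_of_finrank_eq_finrank hdim).mp hinj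
  obtain ⟨l, hl⟩ := hsurj f
  exact ⟨l, fun w => by rw [← hl, hΦ]⟩

/-- Common left denominators: induction on `N`; if `u x_i ∈ G` for the first ones and
`u x = v⁻¹ g` for the new one, then `v u` works for all. -/
theorem common_left (G : Subring E)
    (hl : ∀ e : E, ∃ u ∈ G, ∃ v ∈ G, v ≠ 0 ∧ e = v⁻¹ * u) (N : ℕ) (x : Fin N → E) :
    ∃ u ∈ G, u ≠ 0 ∧ ∀ i, u * x i ∈ G := by
  induction N with
  | zero => exact ⟨1, G.one_mem, one_ne_zero, fun i => i.elim0⟩
  | succ N ih =>
    obtain ⟨u, hu, hu0, hux⟩ := ih (fun i => x i.succ)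
    obtain ⟨g, hg, v, hv, hv0, hvg⟩ := hl (u * x 0)
    refine ⟨v * u, G.mul_mem hv hu, mul_ne_zero hv0 hu0, fun i => ?_⟩
    refine Fin.cases ?_ (fun i => ?_) i
    · rw [mul_assoc, hvg, ← mul_assoc, mul_inv_cancel₀ hv0, one_mul]
      exact hg
    · rw [mul_assoc]
      exact G.mul_mem hv (hux i)

/-- Every nonzero right ideal `h G` contains a nonzero central element.

Basis `b` in `G` (`basis_in`); the `i`-th coordinate `ζ_i : E → Z ⊆ E` is of the form
`ζ_i w = ∑_j l_ij w b_j` (`endo_form`). Let `u ∈ G`, `u ≠ 0`, `u l_ij ∈ G` for all `i, j`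
(`common_left`, after reindexing `Fin m × Fin m`). Put `c = h u`. Let `𝒯` be the subring generated
by the `ζ_i (c x)`, `x ∈ G`; it is contained in the centre. Claim: for `t ∈ 𝒯` and every central
`t'` with `u t' ∈ G` one has `u t t' ∈ G`. (`Subring.closure_induction`: for a generator
`t = ζ_i (c x)`: `u t t' = ∑_j (u l_ij) h u x b_j t' = ∑_j (u l_ij) h (u t') x b_j ∈ G`; sums and
negatives are clear; for a product `u t₁ t₂ t' = u t₁ (t₂ t')` with `t₂ t'` central and
`u t₂ t' ∈ G`.) In particular (`t' = 1`) `u t ∈ G` for `t ∈ 𝒯`.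
The left multiplication by `c` is `Z`-linear with matrix `M_ij = ζ_i (c b_j)`, entries in `𝒯`.
Its characteristic polynomial `X^m + ∑_{s<m} σ_s X^s` has coefficients in `𝒯`
(`Matrix.charpoly_map` for the inclusion of `𝒯`, or of the corresponding subring of `Z`), and
`c^m + ∑ σ_s c^s = 0` (`LinearMap.aeval_self_charpoly` applied to the vector `1`, or
`Matrix.aeval_self_charpoly`). `σ_0 = ± det ≠ 0` since `c ≠ 0` acts invertibly. With
`σ_m := 1`: `σ_0 = - ∑_{1 ≤ s ≤ m} σ_s c^s = - ∑ h (u σ_s) c^{s-1}`, which is `h y`
with `y = - ∑ (u σ_s) c^(s-1) ∈ G`. -/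
theorem exists_central_mul (hE : FinCent E) (G : Subring E)
    (hr : ∀ e : E, ∃ u ∈ G, ∃ v ∈ G, v ≠ 0 ∧ e = u * v⁻¹)
    (hl : ∀ e : E, ∃ u ∈ G, ∃ v ∈ G, v ≠ 0 ∧ e = v⁻¹ * u) {h : E} (hh : h ∈ G) (h0 : h ≠ 0) :
    ∃ y ∈ G, h * y ∈ Subring.center E ∧ h * y ≠ 0 := by
  classical
  have hfin : Module.Finite (Subring.center E) E := hE
  obtain ⟨m, b, hb⟩ := basis_in hE G hr
  have hform : ∀ i : Fin m, ∃ l : Fin m → E, ∀ w : E,
      ((b.coord i w : Subring.center E) : E) = ∑ j, l j * w * b j := by
    intro i
    obtain ⟨l, hl⟩ := endo_form b ((Algebra.linearMap (Subring.center E) E).comp (b.coord i))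
    refine ⟨l, fun w => ?_⟩
    rw [← hl w]
    rfl
  choose l hl' using hform
  obtain ⟨u, hu, hu0, hul⟩ := common_left G hl (m * m)
    (fun q => l (finProdFinEquiv.symm q).1 (finProdFinEquiv.symm q).2)
  have hul' : ∀ i j, u * l i j ∈ G := by
    intro i j
    have := hul (finProdFinEquiv (i, j))
    simpa using this
  let c : E := h * u
  have hc0 : c ≠ 0 := mul_ne_zero h0 hu0
  have hcG : c ∈ G := G.mul_mem hh hu
  let T : Subring (Subring.center E) :=
    Subring.closure {t | ∃ i, ∃ x ∈ G, t = b.coord i (c * x)}
  have hcomm : ∀ (t : Subring.center E) (x : E), (t : E) * x = x * t := by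
    intro t x
    exact (Subring.mem_center_iff.mp t.2 x).symm
  have hT : ∀ t ∈ T, ∀ t' : Subring.center E, u * (t' : E) ∈ G →
      u * (t : E) * (t' : E) ∈ G := by
    intro t ht
    refine Subring.closure_induction (R := Subring.center E)
      (s := {t | ∃ i, ∃ x ∈ G, t = b.coord i (c * x)})
      (p := fun (t : Subring.center E) _ => ∀ t' : Subring.center E,
      u * (t' : E) ∈ G → u * (t : E) * (t' : E) ∈ G) ?_ ?_ ?_ ?_ ?_ ?_ (x := t) ht
    · rintro t ⟨i, x, hx, rfl⟩ t' ht'
      rw [hl' i, Finset.mul_sum, Finset.sum_mul]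
      apply G.sum_mem
      intro j _
      have e1 : u * (l i j * (c * x) * b j) * (t' : E) =
          (u * l i j) * h * (u * (t' : E)) * x * b j := by
        change u * (l i j * (h * u * x) * b j) * (t' : E) = _
        have e2 : b j * (t' : E) = (t' : E) * b j := (hcomm t' _).symm
        have e3 : x * (t' : E) = (t' : E) * x := (hcomm t' _).symm
        simp only [mul_assoc]
        rw [e2, ← mul_assoc x (t' : E), e3]
        simp only [mul_assoc]
      rw [e1]
      exact G.mul_mem (G.mul_mem (G.mul_mem (G.mul_mem (hul' i j) hh) ht') hx) (hb j)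
    · intro t' _
      rw [ZeroMemClass.coe_zero, mul_zero, zero_mul]
      exact G.zero_mem
    · intro t' ht'
      rw [OneMemClass.coe_one, mul_one]
      exact ht'
    · intro x y _ _ hx hy t' ht'
      rw [Subring.coe_add, mul_add, add_mul]
      exact G.add_mem (hx t' ht') (hy t' ht')
    · intro x _ hx t' ht'
      rw [Subring.coe_neg, mul_neg, neg_mul]
      exact G.neg_mem (hx t' ht')
    · intro x y _ _ hx hy t' ht'
      have h1 := hx (y * t') (by
        rw [Subring.coe_mul, ← mul_assoc]
        exact hy t' ht')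
      rw [Subring.coe_mul] at h1 ⊢
      simpa only [mul_assoc] using h1
  have hT1 : ∀ t ∈ T, u * (t : E) ∈ G := by
    intro t ht
    have := hT t ht 1 (by rw [OneMemClass.coe_one, mul_one]; exact hu)
    rwa [OneMemClass.coe_one, mul_one] at this
  let L : E →ₗ[Subring.center E] E := Algebra.lmul (Subring.center E) E c
  have hL : ∀ x, L x = c * x := fun x => rfl
  let M := LinearMap.toMatrix b b L
  have hM : ∀ i j, M i j ∈ T := by
    intro i j
    apply Subring.subset_closure
    refine ⟨i, b j, hb j, ?_⟩
    simp only [M, LinearMap.toMatrix_apply, hL, Basis.coord_apply]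
  let M' : Matrix (Fin m) (Fin m) T := fun i j => ⟨M i j, hM i j⟩
  have hMM : M'.map T.subtype = M := by
    ext i j
    rfl
  let χ := M.charpoly
  have hχT : ∀ s, χ.coeff s ∈ T := by
    intro s
    have h1 : χ = M'.charpoly.map T.subtype := by
      rw [← Matrix.charpoly_map, hMM]
    rw [h1, Polynomial.coeff_map]
    exact (M'.charpoly.coeff s).2
  have hχ0 : Polynomial.aeval c χ = 0 := by
    have h1 : Polynomial.aeval L χ = 0 := by
      have := LinearMap.aeval_self_charpoly L
      rw [← LinearMap.charpoly_toMatrix L b] at this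
      exact this
    have h2 : Polynomial.aeval L χ = Algebra.lmul (Subring.center E) E (Polynomial.aeval c χ) :=
      Polynomial.aeval_algHom_apply (Algebra.lmul (Subring.center E) E) c χ
    have h3 : Algebra.lmul (Subring.center E) E (Polynomial.aeval c χ) (1 : E) = 0 := by
      rw [← h2, h1, LinearMap.zero_apply]
    have h4 : Algebra.lmul (Subring.center E) E (Polynomial.aeval c χ) (1 : E) =
        Polynomial.aeval c χ * 1 := rfl
    rw [h4, mul_one] at h3
    exact h3
  have hdet : χ.coeff 0 ≠ 0 := by
    intro h1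
    have h2 : M.det = 0 := by
      rw [Matrix.det_eq_sign_charpoly_coeff, h1, mul_zero]
    have h3 : LinearMap.det L = 0 := by
      rw [← LinearMap.det_toMatrix b]
      exact h2
    have h4 := LinearMap.bot_lt_ker_of_det_eq_zero h3
    rw [bot_lt_iff_ne_bot] at h4
    apply h4
    rw [LinearMap.ker_eq_bot']
    intro x hx
    rw [hL] at hx
    exact (mul_eq_zero.mp hx).resolve_left hc0
  refine ⟨-(u * Polynomial.aeval c χ.divX), ?_, ?_⟩
  · apply G.neg_mem
    rw [Polynomial.aeval_eq_sum_range, Finset.mul_sum]
    apply G.sum_mem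
    intro s _
    have e1 : u * (χ.divX.coeff s • c ^ s) = (u * ((χ.divX.coeff s : Subring.center E) : E)) * c ^ s := by
      rw [Algebra.smul_def, ← mul_assoc]
      rfl
    rw [e1]
    apply G.mul_mem _ (G.pow_mem hcG s)
    apply hT1
    rw [Polynomial.coeff_divX]
    exact hχT _
  · have e1 : h * -(u * Polynomial.aeval c χ.divX) = ((χ.coeff 0 : Subring.center E) : E) := by
      have e2 : Polynomial.aeval c (Polynomial.divX χ * Polynomial.X + Polynomial.C (χ.coeff 0)) = 0 := by
        rw [Polynomial.divX_mul_X_add]; exact hχ0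
      rw [map_add, map_mul, Polynomial.aeval_X, Polynomial.aeval_C] at e2
      have e3 : Polynomial.aeval c χ.divX * c = c * Polynomial.aeval c χ.divX := by
        have h5 : Commute (Polynomial.aeval c χ.divX) (Polynomial.aeval c (Polynomial.X : Polynomial (Subring.center E))) := by
          unfold Commute SemiconjBy
          rw [← map_mul, ← map_mul, mul_comm]
        rw [Polynomial.aeval_X] at h5
        exact h5
      rw [e3] at e2
      have e4 : algebraMap (Subring.center E) E (χ.coeff 0) = ((χ.coeff 0 : Subring.center E) : E) := rfl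
      rw [e4] at e2
      rw [mul_neg, ← mul_assoc]
      exact neg_eq_of_add_eq_zero_right e2
    rw [e1]
    refine ⟨(χ.coeff 0).2, ?_⟩
    intro h6
    apply hdet
    exact Subtype.ext h6

end Pool.Agent.BQG
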