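import Pool.Agent.H.MP_fbbc72_al.h23.T2

set_option autoImplicit false

namespace Pool.Agent.BQG

open Module MulOpposite

universe u v

variable {k : Type v} {E : Type u} [Field k] [DivisionRing E] [Algebra k E]

/-- the space of homogeneous fractions of degree `j` -/
def GrDom.Lam {H : ℕ → Submodule k E} {C : ℕ} (h : GrDom H C) (j : ℕ) : Submodule k E where
  carrier := LamSet H j
  add_mem' := fun he hf => h.lam_add he hf
  zero_mem' := ⟨0, 0, Submodule.zero_mem _, 1, h.one, one_ne_zero, by simp⟩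
  smul_mem' := by
    rintro c e ⟨i, x, hx, u, hu, hu0, rfl⟩
    exact ⟨i, c • x, Submodule.smul_mem _ _ hx, u, hu, hu0, by rw [smul_mul_assoc]⟩

theorem GrDom.mem_Lam {H : ℕ → Submodule k E} {C : ℕ} (h : GrDom H C) {j : ℕ} {e : E} :
    e ∈ h.Lam j ↔ e ∈ LamSet H j := Iff.rfl

theorem GrDom.le_Lam {H : ℕ → Submodule k E} {C : ℕ} (h : GrDom H C) (j : ℕ) :
    H j ≤ h.Lam j := by
  intro x hx
  exact ⟨0, x, by rwa [zero_add], 1, h.one, one_ne_zero, by simp⟩

/-- the division subring of homogeneous fractions of degree `0` -/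
def GrDom.Lam0 {H : ℕ → Submodule k E} {C : ℕ} (h : GrDom H C) : Subfield E where
  carrier := LamSet H 0
  add_mem' := fun he hf => h.lam_add he hf
  zero_mem' := (h.Lam 0).zero_mem
  mul_mem' := fun he hf => h.lam_mul he hf
  one_mem' := h.le_Lam 0 h.one
  neg_mem' := fun he => (h.Lam 0).neg_mem he
  inv_mem' := by
    intro e he
    rcases eq_or_ne e 0 with rfl | he0
    · rw [inv_zero]; exact (h.Lam 0).zero_mem
    · have := h.lam_div (h.le_Lam 0 h.one) he he0
      rwa [one_mul] at this

/-- Common homogeneous right denominators for a finite family of elements of degree `j`.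
Induction on `N`: if `x i = y i u⁻¹` for the first ones and `x = z w⁻¹` for the new one, take
`u s = w s'` (Ore); the new denominator is `u s`. -/
theorem GrDom.common {H : ℕ → Submodule k E} {C : ℕ} (h : GrDom H C) {j : ℕ} (N : ℕ)
    (x : Fin N → E) (hx : ∀ i, x i ∈ h.Lam j) :
    ∃ b, ∃ u ∈ H b, u ≠ 0 ∧ ∀ i, x i * u ∈ H (b + j) := by
  induction N with
  | zero => exact ⟨0, 1, h.one, one_ne_zero, fun i => i.elim0⟩
  | succ N ih =>
    obtain ⟨b, u, hu, hu0, hxu⟩ := ih (fun i => x i.castSucc) (fun i => hx _)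
    obtain ⟨i, y, hy, w, hw, hw0, he⟩ := hx (Fin.last N)
    obtain ⟨c, c', s, hs, s', hs', hs0, hs0', hus, hdeg⟩ := h.ore hu hw hu0 hw0
    refine ⟨b + c, u * s, h.mul _ _ _ hu _ hs, mul_ne_zero hu0 hs0, fun l => ?_⟩
    refine Fin.lastCases ?_ (fun l => ?_) l
    · rw [he, hus, mul_assoc y, ← mul_assoc w⁻¹, inv_mul_cancel₀ hw0, one_mul]
      have h1 := h.mul _ _ _ hy _ hs'
      have h2 : i + j + c' = b + c + j := by omega
      rwa [h2] at h1
    · rw [← mul_assoc]
      have h1 := h.mul _ _ _ (hxu l) _ hs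
      have h2 : b + j + c = b + c + j := by omega
      rwa [h2] at h1

/-- The `Lam j` are independent: multiply by a common homogeneous denominator. For this choose a
common denominator for elements of different degrees: by induction there is `u ∈ H b`, `u ≠ 0`,
with `x n * u ∈ H (b + n)` for all `n < M`; then apply `h.indep` (shifted by `b`). -/
theorem GrDom.Lam_indep {H : ℕ → Submodule k E} {C : ℕ} (h : GrDom H C) (M : ℕ) (x : ℕ → E)
    (hx : ∀ n, x n ∈ h.Lam n) (h0 : ∑ n ∈ Finset.range M, x n = 0) : ∀ n < M, x n = 0 := by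
  have key : ∀ N : ℕ, ∃ b, ∃ u ∈ H b, u ≠ 0 ∧ ∀ n < N, x n * u ∈ H (b + n) := by
    intro N
    induction N with
    | zero => exact ⟨0, 1, h.one, one_ne_zero, fun n hn => absurd hn (Nat.not_lt_zero n)⟩
    | succ N ih =>
      obtain ⟨b, u, hu, hu0, hxu⟩ := ih
      obtain ⟨i, y, hy, w, hw, hw0, he⟩ := hx N
      obtain ⟨c, c', s, hs, s', hs', hs0, hs0', hus, hdeg⟩ := h.ore hu hw hu0 hw0
      refine ⟨b + c, u * s, h.mul _ _ _ hu _ hs, mul_ne_zero hu0 hs0, fun n hn => ?_⟩
      rcases Nat.lt_succ_iff_lt_or_eq.1 hn with hlt | heq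
      · rw [← mul_assoc]
        have h1 := h.mul _ _ _ (hxu n hlt) _ hs
        have h2 : b + n + c = b + c + n := by omega
        rwa [h2] at h1
      · subst heq
        rw [he, hus, mul_assoc y, ← mul_assoc w⁻¹, inv_mul_cancel₀ hw0, one_mul]
        have h1 := h.mul _ _ _ hy _ hs'
        have h2 : i + n + c' = b + c + n := by omega
        rwa [h2] at h1
  obtain ⟨b, u, hu, hu0, hxu⟩ := key M
  let z : ℕ → E := fun m => if b ≤ m ∧ m < b + M then x (m - b) * u else 0
  have hz : ∀ m, z m ∈ H m := by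
    intro m
    by_cases hm : b ≤ m ∧ m < b + M
    · have h1 := hxu (m - b) (by omega)
      have h2 : b + (m - b) = m := by omega
      rw [h2] at h1
      simpa [z, hm] using h1
    · simp [z, hm]
  have hsum : ∑ m ∈ Finset.range (b + M), z m = 0 := by
    rw [Finset.sum_range_add]
    have e1 : ∑ m ∈ Finset.range b, z m = 0 := by
      refine Finset.sum_eq_zero fun m hm => ?_
      have hm' := Finset.mem_range.1 hm
      have : ¬ (b ≤ m ∧ m < b + M) := by omega
      simp [z, this]
    have e2 : ∑ n ∈ Finset.range M, z (b + n) = ∑ n ∈ Finset.range M, x n * u := by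
      refine Finset.sum_congr rfl fun n hn => ?_
      have hn' := Finset.mem_range.1 hn
      have : b ≤ b + n ∧ b + n < b + M := by omega
      simp [z, hn']
    rw [e1, e2, zero_add, ← Finset.sum_mul, h0, zero_mul]
  intro n hn
  have h1 := h.indep (b + M) z hz hsum (b + n) (by omega)
  have h2 : z (b + n) = x n * u := by simp [z, hn]
  rw [h2] at h1
  exact (mul_eq_zero.1 h1).resolve_right hu0

/-- For the opposite domain. `(h.opp).Lam 0` consists of the opposites of the elements
`u⁻¹ x` with `u, x` homogeneous of the same degree; these are the elements of `Lam 0`: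
`x u⁻¹ = v⁻¹ y` by the left Ore condition, i.e. `GrDom.ore` for `h.opp` (`v x = y u`). The same
for all `j` (left fractions `v⁻¹ y` with `y ∈ H (i+j)`, `v ∈ H i` are the right fractions of degree
`j`, and conversely). -/
theorem GrDom.Lam_opp {H : ℕ → Submodule k E} {C : ℕ} (h : GrDom H C) (j : ℕ) (e : E) :
    op e ∈ h.opp.Lam j ↔ e ∈ h.Lam j := by
  constructor
  · rintro ⟨i, X, hX, U, hU, hU0, he⟩
    have hx : X.unop ∈ H (i + j) := mem_opS.1 hX
    have hu : U.unop ∈ H i := mem_opS.1 hU
    have hu0 : U.unop ≠ 0 := fun h0 => hU0 (MulOpposite.unop_injective (by rw [h0]; rfl))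
    have he' : e = U.unop⁻¹ * X.unop := by
      have := congrArg MulOpposite.unop he
      simpa using this
    rcases eq_or_ne X.unop 0 with hx0 | hx0
    · rw [he', hx0, mul_zero]
      exact (h.Lam j).zero_mem
    · obtain ⟨c, c', s, hs, s', hs', hs0, hs0', hus, hdeg⟩ := h.ore hx hu hx0 hu0
      have hc : c' = c + j := by omega
      subst hc
      refine ⟨c, s', hs', s, hs, hs0, ?_⟩
      rw [he', eq_mul_inv_iff_mul_eq₀ hs0, mul_assoc, hus, ← mul_assoc, inv_mul_cancel₀ hu0, one_mul]
  · rintro ⟨i, x, hx, u, hu, hu0, he⟩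
    rcases eq_or_ne x 0 with hx0 | hx0
    · rw [he, hx0, zero_mul]
      exact (h.opp.Lam j).zero_mem
    · have hX : op x ∈ (fun n => opS (H n)) (i + j) := mem_opS.2 hx
      have hU : op u ∈ (fun n => opS (H n)) i := mem_opS.2 hu
      obtain ⟨c, c', S, hS, S', hS', hS0, hS0', hus, hdeg⟩ := h.opp.ore hX hU
        (fun h0 => hx0 (MulOpposite.op_injective h0)) (fun h0 => hu0 (MulOpposite.op_injective h0))
      have hc : c' = c + j := by omega
      subst hc
      refine ⟨c, S', hS', S, hS, hS0, ?_⟩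
      rw [eq_mul_inv_iff_mul_eq₀ hS0, he, op_mul, mul_assoc, hus, ← mul_assoc, op_inv,
        inv_mul_cancel₀ (fun h0 => hu0 (MulOpposite.op_injective h0)), one_mul]

end Pool.Agent.BQG
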