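import Pool.Agent.H.MP_fbbc72_al.h23.C1
import Pool.Agent.H.MP_fbbc72_al.h23.T3

set_option autoImplicit false

namespace Pool.Agent.BQG

open Module MulOpposite

universe u v

variable {k : Type v} {E : Type u} [Field k] [DivisionRing E] [Algebra k E]

/-- shifted sequence -/
def C2_sh (M a : ℕ) (d : ℕ → E) (m : ℕ) : E := if a ≤ m ∧ m < a + M then d (m - a) else 0

theorem C2_shift_mem {H : ℕ → Submodule k E} {M a : ℕ} {d : ℕ → E} (hd : ∀ n < M, d n ∈ H (a + n))
    (m : ℕ) : C2_sh M a d m ∈ H m := by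
  unfold C2_sh
  split_ifs with hm
  · have h1 := hd (m - a) (by omega)
    have h2 : a + (m - a) = m := by omega
    rwa [h2] at h1
  · exact Submodule.zero_mem _

theorem C2_shift_val {M a : ℕ} (d : ℕ → E) {n : ℕ} (hn : n < M) :
    C2_sh M a d (a + n) = d n := by
  unfold C2_sh
  rw [if_pos (by omega)]
  congr 1
  omega

theorem C2_shift_sum (M a : ℕ) (d : ℕ → E) :
    ∑ m ∈ Finset.range (a + M), C2_sh M a d m = ∑ n ∈ Finset.range M, d n := by
  rw [Finset.sum_range_add]
  have e1 : ∑ m ∈ Finset.range a, C2_sh M a d m = 0 := by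
    refine Finset.sum_eq_zero fun m hm => ?_
    have hm' := Finset.mem_range.1 hm
    unfold C2_sh
    rw [if_neg (by omega)]
  rw [e1, zero_add]
  exact Finset.sum_congr rfl fun n hn => C2_shift_val d (Finset.mem_range.1 hn)

theorem C2_sup_mul {H : ℕ → Submodule k E} {C : ℕ} (h : GrDom H C) {x y : E}
    (hx : x ∈ ⨆ n, H n) (hy : y ∈ ⨆ n, H n) : x * y ∈ ⨆ n, H n := by
  refine Submodule.iSup_induction H (motive := fun x => x * y ∈ ⨆ n, H n) hx ?_ ?_ ?_
  · intro m x hx
    refine Submodule.iSup_induction H (motive := fun y => x * y ∈ ⨆ n, H n) hy ?_ ?_ ?_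
    · intro n y hy
      exact Submodule.mem_iSup_of_mem (m + n) (h.mul _ _ _ hx _ hy)
    · rw [mul_zero]; exact Submodule.zero_mem _
    · intro y y' hy hy'
      rw [mul_add]; exact Submodule.add_mem _ hy hy'
  · rw [zero_mul]; exact Submodule.zero_mem _
  · intro x x' hx hx'
    rw [add_mul]; exact Submodule.add_mem _ hx hx'

/-- the subring of all elements -/
def C2_G {H : ℕ → Submodule k E} {C : ℕ} (h : GrDom H C) : Subring E where
  carrier := {x | x ∈ (⨆ n, H n : Submodule k E)}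
  mul_mem' := fun hx hy => C2_sup_mul h hx hy
  one_mem' := Submodule.mem_iSup_of_mem 0 h.one
  add_mem' := fun hx hy => (⨆ n, H n : Submodule k E).add_mem hx hy
  zero_mem' := (⨆ n, H n : Submodule k E).zero_mem
  neg_mem' := fun hx => (⨆ n, H n : Submodule k E).neg_mem hx

theorem C2_mem_G {H : ℕ → Submodule k E} {C : ℕ} (h : GrDom H C) {x : E} :
    x ∈ C2_G h ↔ x ∈ (⨆ n, H n : Submodule k E) := Iff.rfl

theorem C2_pow_mem {H : ℕ → Submodule k E} {C : ℕ} (h : GrDom H C) {a : ℕ} {x : E}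
    (hx : x ∈ H a) (s : ℕ) : x ^ s ∈ H (s * a) := by
  induction s with
  | zero => rw [pow_zero, Nat.zero_mul]; exact h.one
  | succ s ih =>
    rw [pow_succ]
    have h1 := h.mul _ _ _ ih _ hx
    have h2 : s * a + a = (s + 1) * a := by ring
    rwa [h2] at h1

/-- Homogeneous components of a central element are central: if `z = ∑ z_n` commutes with
`x ∈ H a` then `∑ z_n x = ∑ x z_n`, and comparing degrees (`GrDom.uniq` after a shift) each
`z_n x = x z_n`; so `z_n` commutes with all homogeneous elements, with `⨆ n, H n` and with all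
fractions. -/
theorem GrDom.comp_central {H : ℕ → Submodule k E} {C : ℕ} (h : GrDom H C) {M : ℕ} {z : ℕ → E}
    (hz : ∀ n, z n ∈ H n) (hc : ∑ n ∈ Finset.range M, z n ∈ Subring.center E) :
    ∀ n < M, z n ∈ Subring.center E := by
  intro n hn
  have hhom : ∀ (a : ℕ) (x : E), x ∈ H a → x * z n = z n * x := by
    intro a x hx
    have hmem : ∀ n < M, z n * x - x * z n ∈ H (a + n) := by
      intro n _
      refine Submodule.sub_mem _ ?_ (h.mul _ _ _ hx _ (hz n))
      rw [add_comm]
      exact h.mul _ _ _ (hz n) _ hx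
    have hsum : ∑ m ∈ Finset.range (a + M), C2_sh M a (fun n => z n * x - x * z n) m = 0 := by
      rw [C2_shift_sum, Finset.sum_sub_distrib, ← Finset.sum_mul, ← Finset.mul_sum,
        Subring.mem_center_iff.1 hc x, sub_self]
    have h1 := h.indep (a + M) _ (C2_shift_mem hmem) hsum (a + n) (by omega)
    rw [C2_shift_val _ hn] at h1
    exact (sub_eq_zero.1 h1).symm
  have hsup : ∀ u ∈ ⨆ n, H n, u * z n = z n * u := by
    intro u hu
    refine Submodule.iSup_induction H (motive := fun u => u * z n = z n * u) hu ?_ ?_ ?_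
    · intro a x hx
      exact hhom a x hx
    · rw [mul_zero, zero_mul]
    · intro x y hx hy
      rw [add_mul, mul_add, hx, hy]
  rw [Subring.mem_center_iff]
  intro g
  obtain ⟨u, hu, v, hv, hv0, rfl⟩ := h.frac g
  have hu' : u ∈ cent (z n) := hsup u hu
  have hv' : v ∈ cent (z n) := hsup v hv
  exact (cent (z n)).mul_mem hu' ((cent (z n)).inv_mem hv')

/-- Homogeneous central elements in the right ideal generated by a homogeneous `x ≠ 0`.
Apply `exists_central_mul` to the subring `G = ⨆ n, H n` (left fractions: `GrDom.opp`,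
or `Quad.leftFrac`): `z = x y` central, nonzero, `y = ∑ y_n`, so
`z = ∑ x y_n` is the decomposition of `z` (in degrees `a + n`); some `x y_n ≠ 0` and it is
central (`comp_central`, applied to the sequence `n ↦ x y_{n-a}` for `n ≥ a`, else `0`). -/
theorem GrDom.central {H : ℕ → Submodule k E} {C : ℕ} (h : GrDom H C) (hE : FinCent E)
    {a : ℕ} {x : E} (hx : x ∈ H a) (hx0 : x ≠ 0) :
    ∃ b, ∃ y ∈ H b, x * y ∈ Subring.center E ∧ x * y ≠ 0 := by
  have hl : ∀ e : E, ∃ u ∈ C2_G h, ∃ v ∈ C2_G h, v ≠ 0 ∧ e = v⁻¹ * u := by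
    intro e
    obtain ⟨U, hU, V, hV, hV0, he⟩ := h.opp.frac (op e)
    have hun : ∀ U : Eᵐᵒᵖ, U ∈ ⨆ n, (fun n => opS (H n)) n → unop U ∈ ⨆ n, H n := by
      intro U hU
      refine Submodule.iSup_induction (fun n => opS (H n)) (motive := fun U => unop U ∈ ⨆ n, H n) hU
        ?_ ?_ ?_
      · intro n x hx
        exact Submodule.mem_iSup_of_mem n (mem_opS.1 hx)
      · exact Submodule.zero_mem _
      · intro x y hx hy
        rw [unop_add]; exact Submodule.add_mem _ hx hy
    refine ⟨unop U, (C2_mem_G h).2 (hun U hU), unop V, (C2_mem_G h).2 (hun V hV), ?_, ?_⟩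
    · intro h0
      exact hV0 (MulOpposite.unop_injective (by rw [h0]; rfl))
    · have := congrArg MulOpposite.unop he
      simpa using this
  obtain ⟨y, hy, hyc, hy0⟩ := exists_central_mul hE (C2_G h)
    (fun e => by
      obtain ⟨u, hu, v, hv, hv0, he⟩ := h.frac e
      exact ⟨u, (C2_mem_G h).2 hu, v, (C2_mem_G h).2 hv, hv0, he⟩) hl
    (h := x) ((C2_mem_G h).2 (Submodule.mem_iSup_of_mem a hx)) hx0
  obtain ⟨M, yy, hyy, -, hsum⟩ := GrDom.dec H (z := y) ((C2_mem_G h).1 hy)
  have hmem : ∀ n < M, (fun n => x * yy n) n ∈ H (a + n) := fun n _ => h.mul _ _ _ hx _ (hyy n)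
  have hZ : ∑ m ∈ Finset.range (a + M), C2_sh M a (fun n => x * yy n) m = x * y := by
    rw [C2_shift_sum, ← Finset.mul_sum, ← hsum]
  have h1 := h.comp_central (M := a + M) (C2_shift_mem hmem) (by rw [hZ]; exact hyc)
  by_contra hcon
  push Not at hcon
  apply hy0
  rw [hsum, Finset.mul_sum]
  refine Finset.sum_eq_zero fun n hn => ?_
  have hn' := Finset.mem_range.1 hn
  have h2 := h1 (a + n) (by omega)
  rw [C2_shift_val _ hn'] at h2
  exact hcon n (yy n) (hyy n) h2

/-- Bound for the left `k(w)`-dimension of `Lam j`. `w = x u⁻¹` with `x, u ∈ H i`, `u ≠ 0`; by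
`GrDom.central` `c = u y` is central and nonzero, `y ∈ H b`; so `w = X c⁻¹` with
`X = x y`, `X, c ∈ H β`, `β = i + b`. `w^s = X^s c^{-s}` and `c^l w^s = X^s c^{l-s} ∈ H (l β)` for
`s ≤ l`. Given `k(w)`-independent `x_1, ..., x_N ∈ Lam j` take a common right denominator
`t ∈ H b'`, `x_i t ∈ H (b' + j)` (`GrDom.common`). The `(l+1) N` elements `c^l w^s x_i t`,
`s ≤ l`, are `k`-independent (`indep_mul_k`, `indep_pow`, `rmul_indep`, `indep_left_mul`) and lie in
`H (l β + b' + j)`. So `(l+1) N ≤ C (l β + b' + j + 1)` for all `l`; for large `l` this gives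
`N ≤ C β`. -/
theorem GrDom.lam_bound_central {H : ℕ → Submodule k E} {C : ℕ} (h : GrDom H C) (hE : FinCent E)
    {w : E} (hw : w ∈ h.Lam 0) (hwt : Transcendental k w) :
    ∃ B : ℕ, ∀ (j N : ℕ) (x : Fin N → E), LinearIndependent (BQG.gen k w) x →
      (∀ i, x i ∈ h.Lam j) → N ≤ B := by
  obtain ⟨i, x, hx, u, hu, hu0, hwe⟩ := hw
  obtain ⟨b, y, hy, hyc, hy0⟩ := h.central hE hu hu0
  have hyne : y ≠ 0 := right_ne_zero_of_mul hy0
  have hc : u * y ∈ H (i + b) := h.mul _ _ _ hu _ hy
  have hX : x * y ∈ H (i + b) := by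
    have := h.mul _ _ _ hx _ hy
    simpa using this
  have hcw : (u * y) * w = x * y := by
    rw [hwe, ← Subring.mem_center_iff.1 hyc (x * u⁻¹), mul_assoc x, ← mul_assoc u⁻¹,
      inv_mul_cancel₀ hu0, one_mul]
  have hcomm : Commute (u * y) w := (Subring.mem_center_iff.1 hyc w).symm
  have hpow : ∀ l s : ℕ, s ≤ l → (u * y) ^ l * w ^ s ∈ H (l * (i + b)) := by
    intro l s hsl
    have e1 : (u * y) ^ l = (u * y) ^ (l - s) * (u * y) ^ s := by
      rw [← pow_add]; congr 1; omega
    rw [e1, mul_assoc, ← hcomm.mul_pow, hcw]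
    have h1 := h.mul _ _ _ (C2_pow_mem h hc (l - s)) _ (C2_pow_mem h hX s)
    have h2 : (l - s) * (i + b) + s * (i + b) = l * (i + b) := by
      rw [← Nat.add_mul]; congr 1; omega
    rwa [h2] at h1
  refine ⟨C * (i + b), ?_⟩
  intro j N z hz hzL
  obtain ⟨b', t, ht, ht0, hzt⟩ := h.common N z hzL
  have key : ∀ l : ℕ, (l + 1) * N ≤ C * (l * (i + b) + (b' + j) + 1) := by
    intro l
    have h1 : LinearIndependent k (fun s : Fin (l + 1) => w ^ (s : ℕ)) :=
      (indep_pow hwt).comp _ Fin.val_injective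
    have h2 := indep_mul_k (k := k) (K := BQG.gen k w) (algebraMap_mem_gen w) _ h1
      (fun s => pow_mem_gen w s) _ (rmul_indep (BQG.gen k w) ht0 hz)
    have h3 := indep_left_mul (w := (u * y) ^ l) (pow_ne_zero _ hy0) h2
    have hm : ∀ p : Fin (l + 1) × Fin N, (u * y) ^ l * (w ^ (p.1 : ℕ) * (z p.2 * t)) ∈
        H (l * (i + b) + (b' + j)) := by
      intro p
      rw [← mul_assoc]
      exact h.mul _ _ _ (hpow l p.1 (Nat.lt_succ_iff.1 p.1.2)) _ (hzt p.2)
    have hfin : FiniteDimensional k ↥(H (l * (i + b) + (b' + j))) :=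
      Module.Finite.iff_fg.mpr (h.fg _)
    have h4 : LinearIndependent k (fun p : Fin (l + 1) × Fin N =>
        (⟨(u * y) ^ l * (w ^ (p.1 : ℕ) * (z p.2 * t)), hm p⟩ :
          ↥(H (l * (i + b) + (b' + j))))) := by
      apply LinearIndependent.of_comp (H (l * (i + b) + (b' + j))).subtype
      exact h3
    have h5 := h4.fintype_card_le_finrank.trans (h.growth _)
    simpa using h5
  have h6 := key (C * (b' + j + 1))
  have h7 : C * (C * (b' + j + 1) * (i + b) + (b' + j) + 1) =
      (C * (i + b)) * (C * (b' + j + 1)) + C * (b' + j + 1) := by ring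
  rw [h7] at h6
  by_contra hcon
  push Not at hcon
  have h8 : (C * (b' + j + 1) + 1) * (C * (i + b) + 1) ≤ (C * (b' + j + 1) + 1) * N :=
    Nat.mul_le_mul_left _ hcon
  have h9 : (C * (b' + j + 1) + 1) * (C * (i + b) + 1) =
      (C * (i + b)) * (C * (b' + j + 1)) + C * (b' + j + 1) + C * (i + b) + 1 := by ring
  omega

end Pool.Agent.BQG
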