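import Pool.Agent.H.MP_fbbc72_al.h41.Core12

set_option autoImplicit false

namespace Pool.Agent.BQG

open Module Polynomial

universe u v

variable {k : Type v} {E : Type u} [Field k] [DivisionRing E] [Algebra k E]

/-- The elements `p(w) D(w)^{-s}` of `F = k(w)`. -/
def locSet (k : Type v) {E : Type u} [Field k] [DivisionRing E] [Algebra k E] (w : E)
    (D : k[X]) : Set E :=
  {f | ∃ (p : k[X]) (s : ℕ), f = aeval w p * (aeval w D ^ s)⁻¹}

/-- `locSet` is a subring: closed under sums and products (common denominators; everything in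
`gen k w` commutes, `gen_comm`, `aeval_mem_gen`). `D` is nonzero, so `aeval w D ≠ 0`
(`aeval_ne_zero`). -/
theorem locSet_ring {w : E} (hw : Transcendental k w) {D : k[X]} (hD : D ≠ 0) :
    ∃ O : Subring E, (O : Set E) = locSet k w D ∧ (∀ c : k, algebraMap k E c ∈ O) ∧
      (O : Set E) ⊆ gen k w := by
  have hd : aeval w D ≠ 0 := aeval_ne_zero hw hD
  have hds : ∀ s, aeval w D ^ s ≠ 0 := fun s => pow_ne_zero s hd
  have hdm : ∀ s, aeval w D ^ s ∈ gen k w := fun s => pow_mem (aeval_mem_gen w D) s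
  have hdi : ∀ s, (aeval w D ^ s)⁻¹ ∈ gen k w := fun s => (gen k w).inv_mem (hdm s)
  have hinv : ∀ s t, (aeval w D ^ (s + t))⁻¹ = (aeval w D ^ t)⁻¹ * (aeval w D ^ s)⁻¹ := by
    intro s t
    rw [pow_add, mul_inv_rev]
  refine ⟨{ carrier := locSet k w D, mul_mem' := ?_, one_mem' := ?_, add_mem' := ?_, zero_mem' := ?_, neg_mem' := ?_ }, rfl, ?_, ?_⟩
  · rintro _ _ ⟨p, s, rfl⟩ ⟨q, t, rfl⟩
    refine ⟨p * q, s + t, ?_⟩
    rw [hinv, map_mul]
    have h1 : (aeval w D ^ s)⁻¹ * (aeval w q * (aeval w D ^ t)⁻¹) =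
        aeval w q * ((aeval w D ^ t)⁻¹ * (aeval w D ^ s)⁻¹) := by
      rw [gen_comm (hdi s) ((gen k w).mul_mem (aeval_mem_gen w q) (hdi t)), mul_assoc]
    rw [mul_assoc, h1, mul_assoc]
  · exact ⟨1, 0, by rw [map_one, pow_zero, inv_one, mul_one]⟩
  · rintro _ _ ⟨p, s, rfl⟩ ⟨q, t, rfl⟩
    refine ⟨p * D ^ t + q * D ^ s, s + t, ?_⟩
    rw [hinv, map_add, map_mul, map_mul, map_pow, map_pow, add_mul]
    congr 1
    · rw [mul_assoc, ← mul_assoc (aeval w D ^ t), mul_inv_cancel₀ (hds t), one_mul]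
    · rw [gen_comm (hdi t) (hdi s), mul_assoc, ← mul_assoc (aeval w D ^ s),
        mul_inv_cancel₀ (hds s), one_mul]
  · exact ⟨0, 0, by rw [map_zero, zero_mul]⟩
  · rintro _ ⟨p, s, rfl⟩
    exact ⟨-p, s, by rw [map_neg, neg_mul]⟩
  · intro c
    exact ⟨C c, 0, by rw [aeval_C, pow_zero, inv_one, mul_one]⟩
  · rintro _ ⟨p, s, rfl⟩
    exact (gen k w).mul_mem (aeval_mem_gen w p) (hdi s)

/-- finitely many elements of `k(w)` have a common denominator (`gen_frac_fin` or `gen_frac`
and induction) -/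
theorem locSet_finite {w : E} (hw : Transcendental k w) (S : Finset E)
    (hS : ∀ f ∈ S, f ∈ gen k w) : ∃ D : k[X], D ≠ 0 ∧ ∀ f ∈ S, f ∈ locSet k w D := by
  classical
  obtain ⟨D, hD, hq⟩ := gen_frac_fin hw S.card (fun i => ((S.equivFin.symm i : S) : E))
    (fun i => hS _ (S.equivFin.symm i).2)
  refine ⟨D, hD, fun f hf => ?_⟩
  obtain ⟨q, hq'⟩ := hq (S.equivFin ⟨f, hf⟩)
  rw [Equiv.symm_apply_apply] at hq'
  have hd : aeval w D ≠ 0 := aeval_ne_zero hw hD
  refine ⟨q, 1, ?_⟩
  rw [pow_one, ← hq', gen_comm (aeval_mem_gen w D) (hS f hf), mul_assoc, mul_inv_cancel₀ hd,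
    mul_one]

/-- `k(w)` is larger than `k[w, 1/D(w)]`: take `π = X * D + 1`, which has positive degree (`D ≠ 0`)
and is coprime to `D`. If `π(w)⁻¹ = p(w) D(w)^{-s}` then `D^s = p π` (`w` is transcendental), so
`π` divides `D^s`, but it is coprime to `D^s`: `π` would be a unit. -/
theorem locSet_ne {w : E} (hw : Transcendental k w) {D : k[X]} (hD : D ≠ 0) :
    ∃ f ∈ gen k w, f ∉ locSet k w D := by
  have hd : aeval w D ≠ 0 := aeval_ne_zero hw hD
  have hdeg : (X * D + 1 : k[X]).natDegree = D.natDegree + 1 := by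
    rw [← C_1, natDegree_add_C, natDegree_X_mul hD]
  have hπ : (X * D + 1 : k[X]) ≠ 0 := by
    intro h
    rw [h, natDegree_zero] at hdeg
    omega
  have hπw : aeval w (X * D + 1 : k[X]) ≠ 0 := aeval_ne_zero hw hπ
  refine ⟨(aeval w (X * D + 1 : k[X]))⁻¹, (gen k w).inv_mem (aeval_mem_gen w _), ?_⟩
  rintro ⟨p, s, hps⟩
  have hds : aeval w D ^ s ≠ 0 := pow_ne_zero s hd
  have h1 : aeval w (D ^ s) = aeval w (p * (X * D + 1)) := by
    rw [map_mul, map_pow]
    have h2 : (aeval w (X * D + 1 : k[X]))⁻¹ * aeval w D ^ s = aeval w p := by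
      rw [hps, mul_assoc, inv_mul_cancel₀ hds, mul_one]
    rw [← h2, mul_assoc, gen_comm (pow_mem (aeval_mem_gen w D) s) (aeval_mem_gen w _),
      ← mul_assoc, inv_mul_cancel₀ hπw, one_mul]
  have h3 : D ^ s = p * (X * D + 1) := (transcendental_iff_injective.mp hw) h1
  have h4 : IsCoprime (X * D + 1 : k[X]) (D ^ s) := by
    apply IsCoprime.pow_right
    exact ⟨1, -X, by ring⟩
  have h5 : IsUnit (X * D + 1 : k[X]) :=
    h4.isUnit_of_dvd' dvd_rfl (by rw [h3]; exact dvd_mul_left _ _)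
  have h6 := natDegree_eq_zero_of_isUnit h5
  omega

/-- ORBIT LEMMA. Let `F = k(w)`, `w` transcendental over `k`, `W` a finite-dimensional left
`F`-space, `ρ_i` finitely many `F`-linear operators on `W` and `0 ≠ e ∈ W`. Then there is an
additive subgroup `T` of `W` containing `e`, stable under `k` and the `ρ_i`, which does not contain
`F e`.

Choose a basis `b` of `W`, the coordinates of `e` and of all `ρ_i (b_s)`: finitely many elements of
`F`, so all in `O = locSet k w D` for a suitable `D` (`locSet_finite`, `locSet_ring`). `T` := the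
vectors with all coordinates in `O`; it is stable under `ρ_i`:
`ρ_i (∑ f_s b_s) = ∑ f_s ρ_i (b_s)`. Let `c ≠ 0` be a nonzero coordinate of `e`. If `F e ⊆ T` then
`f c ∈ O` for all `f ∈ F`, so `F ⊆ O` (replace `f` by `f c⁻¹`), contradiction to `locSet_ne`. -/
theorem orbit_lemma {w : E} (hw : Transcendental k w) {W : Type*} [AddCommGroup W]
    [Module (gen k w) W] [Module.Finite (gen k w) W] {r : ℕ} (ρ : Fin r → W →ₗ[gen k w] W)
    {e : W} (he : e ≠ 0) :
    ∃ T : AddSubgroup W, e ∈ T ∧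
      (∀ (c : k) (x : W), x ∈ T → (⟨algebraMap k E c, algebraMap_mem_gen w c⟩ : gen k w) • x ∈ T) ∧
      (∀ i, ∀ x ∈ T, ρ i x ∈ T) ∧ ∃ f : gen k w, f • e ∉ T := by
  classical
  let b := Module.finBasis (gen k w) W
  let S : Finset E := (Finset.univ.image fun s => ((b.repr e s : gen k w) : E)) ∪
    (Finset.univ.image fun q : Fin r × Fin (finrank (gen k w) W) × Fin (finrank (gen k w) W) =>
      ((b.repr (ρ q.1 (b q.2.1)) q.2.2 : gen k w) : E))
  have hS : ∀ f ∈ S, f ∈ gen k w := by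
    intro f hf
    rcases Finset.mem_union.mp hf with h | h
    · obtain ⟨s, -, rfl⟩ := Finset.mem_image.mp h
      exact (b.repr e s).2
    · obtain ⟨q, -, rfl⟩ := Finset.mem_image.mp h
      exact (b.repr (ρ q.1 (b q.2.1)) q.2.2).2
  obtain ⟨D, hD, hSD⟩ := locSet_finite hw S hS
  obtain ⟨O, hO, hOk, -⟩ := locSet_ring hw hD
  have hmem : ∀ f ∈ S, f ∈ O := by
    intro f hf
    have h1 : f ∈ (O : Set E) := by rw [hO]; exact hSD f hf
    exact h1
  have he1 : ∀ s, ((b.repr e s : gen k w) : E) ∈ O := fun s =>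
    hmem _ (Finset.mem_union_left _ (Finset.mem_image_of_mem _ (Finset.mem_univ s)))
  have hρ1 : ∀ i s t, ((b.repr (ρ i (b s)) t : gen k w) : E) ∈ O := fun i s t =>
    hmem _ (Finset.mem_union_right _ (Finset.mem_image.mpr ⟨(i, s, t), Finset.mem_univ _, rfl⟩))
  let T : AddSubgroup W :=
    { carrier := {x | ∀ s, ((b.repr x s : gen k w) : E) ∈ O}
      add_mem' := by
        intro x y hx hy s
        rw [map_add, Finsupp.add_apply, Subfield.coe_add]
        exact O.add_mem (hx s) (hy s)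
      zero_mem' := by
        intro s
        rw [map_zero, Finsupp.zero_apply, ZeroMemClass.coe_zero]
        exact O.zero_mem
      neg_mem' := by
        intro x hx s
        rw [map_neg, Finsupp.neg_apply, Subfield.coe_neg]
        exact O.neg_mem (hx s) }
  have hT : ∀ x, x ∈ T ↔ ∀ s, ((b.repr x s : gen k w) : E) ∈ O := fun x => Iff.rfl
  refine ⟨T, he1, ?_, ?_, ?_⟩
  · intro c x hx
    rw [hT] at hx ⊢
    intro s
    rw [map_smul, Finsupp.smul_apply, smul_eq_mul, Subfield.coe_mul]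
    exact O.mul_mem (hOk c) (hx s)
  · intro i x hx
    rw [hT] at hx ⊢
    intro t
    have h1 : ρ i x = ∑ s, b.repr x s • ρ i (b s) := by
      conv_lhs => rw [← b.sum_repr x]
      rw [map_sum]
      apply Finset.sum_congr rfl
      intro s _
      rw [map_smul]
    rw [h1, map_sum, Finset.sum_apply']
    have h2 : ((∑ s, (b.repr (b.repr x s • ρ i (b s))) t : gen k w) : E) =
        ∑ s, ((b.repr x s : gen k w) : E) * ((b.repr (ρ i (b s)) t : gen k w) : E) := by
      rw [← Subfield.subtype_apply, map_sum]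
      apply Finset.sum_congr rfl
      intro s _
      rw [map_smul, Finsupp.smul_apply, smul_eq_mul, map_mul]
      rfl
    rw [h2]
    exact O.sum_mem fun s _ => O.mul_mem (hx s) (hρ1 i s t)
  · have h1 : ∃ s, b.repr e s ≠ 0 := by
      by_contra hcon
      push Not at hcon
      apply he
      have h2 : b.repr e = 0 := by
        ext s
        rw [hcon s]
        rfl
      exact b.repr.map_eq_zero_iff.mp h2
    obtain ⟨s, hs⟩ := h1
    obtain ⟨f, hf, hfn⟩ := locSet_ne hw hD
    refine ⟨⟨f, hf⟩ * (b.repr e s)⁻¹, ?_⟩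
    intro h3
    rw [hT] at h3
    have h4 := h3 s
    rw [map_smul, Finsupp.smul_apply, smul_eq_mul, mul_assoc, inv_mul_cancel₀ hs, mul_one] at h4
    apply hfn
    rw [← hO]
    exact h4

end Pool.Agent.BQG
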