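import Pool.Agent.H.MP_fbbc72_al.h23.D1
import Pool.Agent.H.MP_fbbc72_al.h23.C2

set_option autoImplicit false

namespace Pool.Agent.BQG

open Module MulOpposite

universe u v

variable {k : Type v} {E : Type u} [Field k] [DivisionRing E] [Algebra k E]

theorem D2_R {H : ℕ → Submodule k E} {C : ℕ} (h : GrDom H C) {m : ℕ}
    (hm : ∀ n, m < n → H n ≤ ⨆ i ∈ Finset.Ioo 0 n, H i * H (n - i)) (n b : ℕ) :
    ∀ a, a + b = n → 1 ≤ b → H a * H b ≤ ⨆ i ∈ Finset.Icc 1 m, H (n - i) * H i := by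
  induction b using Nat.strong_induction_on with
  | _ b ih =>
    intro a hab hb
    rcases le_or_gt b m with hbm | hbm
    · refine le_iSup₂_of_le b (Finset.mem_Icc.2 ⟨hb, hbm⟩) ?_
      have h1 : n - b = a := by omega
      rw [h1]
    · refine (mul_le_mul' le_rfl (hm b hbm)).trans ?_
      rw [Submodule.mul_iSup]
      refine iSup_le fun j => ?_
      rw [Submodule.mul_iSup]
      refine iSup_le fun hj => ?_
      rw [Finset.mem_Ioo] at hj
      rw [← mul_assoc]
      have h1 : H a * H j ≤ H (a + j) := Submodule.mul_le.2 fun x hx y hy => h.mul a j x hx y hy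
      exact (mul_le_mul' h1 le_rfl).trans (ih (b - j) (by omega) (a + j) (by omega) (by omega))

/-- nonzero elements have at most one degree -/
theorem D2_deg {H : ℕ → Submodule k E} {C : ℕ} (h : GrDom H C) {a b : ℕ} {z : E}
    (ha : z ∈ H a) (hb : z ∈ H b) (h0 : z ≠ 0) : a = b := by
  classical
  by_contra hab
  have hs : ∀ c : ℕ, z ∈ H c → ∀ n, (Pi.single c z : ℕ → E) n ∈ H n := by
    intro c hc n
    rcases eq_or_ne n c with rfl | hn
    · rw [Pi.single_eq_same]; exact hc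
    · rw [Pi.single_eq_of_ne hn]; exact Submodule.zero_mem _
  have hsum : ∀ c : ℕ, ∑ n ∈ Finset.range (c + 1), (Pi.single c z : ℕ → E) n = z := by
    intro c
    rw [Finset.sum_eq_single c]
    · rw [Pi.single_eq_same]
    · intro n _ hn
      rw [Pi.single_eq_of_ne hn]
    · intro hc
      exact absurd (Finset.mem_range.2 (Nat.lt_succ_self c)) hc
  have h1 := h.uniq (M := a + 1) (M' := b + 1) (x := Pi.single a z) (x' := Pi.single b z)
    (hs a ha) (hs b hb) (fun n hn => by rw [Pi.single_eq_of_ne (show n ≠ a by omega)])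
    (fun n hn => by rw [Pi.single_eq_of_ne (show n ≠ b by omega)]) (by rw [hsum, hsum])
  have h2 := congrFun h1 a
  rw [Pi.single_eq_same, Pi.single_eq_of_ne hab] at h2
  exact h0 h2

theorem D2_lam_div {H : ℕ → Submodule k E} {C : ℕ} (h : GrDom H C) {i j : ℕ} {e f : E}
    (he : e ∈ LamSet H (i + j)) (hf : f ∈ LamSet H j) (hf0 : f ≠ 0) : e * f⁻¹ ∈ LamSet H i := by
  obtain ⟨i₁, x₁, hx₁, u₁, hu₁, hu₁0, rfl⟩ := he
  obtain ⟨i₂, x₂, hx₂, u₂, hu₂, hu₂0, rfl⟩ := hf
  have hx₂0 : x₂ ≠ 0 := fun h0 => hf0 (by rw [h0, zero_mul])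
  obtain ⟨c, c', s, hs, s', hs', hs0, hs'0, h1, h2⟩ := h.ore hu₂ hu₁ hu₂0 hu₁0
  refine ⟨i₂ + j + c, x₁ * s', ?_, x₂ * s, h.mul _ _ _ hx₂ _ hs, mul_ne_zero hx₂0 hs0, ?_⟩
  · have h3 := h.mul _ _ _ hx₁ _ hs'
    have h4 : i₁ + (i + j) + c' = i₂ + j + c + i := by omega
    rwa [h4] at h3
  · have h5 := T2_swap hu₁0 hs0 h1
    have h6 : x₁ * u₁⁻¹ * (x₂ * u₂⁻¹)⁻¹ = x₁ * (u₁⁻¹ * u₂) * x₂⁻¹ := by
      rw [mul_inv_rev, inv_inv]
      simp only [mul_assoc]
    rw [h6, h5, mul_inv_rev]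
    simp only [mul_assoc]

theorem D2_pow {H : ℕ → Submodule k E} {C : ℕ} (h : GrDom H C) {d : ℕ} {v : E} (hv : v ∈ H d)
    (n : ℕ) : v ^ n ∈ H (n * d) := by
  induction n with
  | zero => rw [pow_zero, Nat.zero_mul]; exact h.one
  | succ n ih =>
    rw [pow_succ, Nat.succ_mul]
    exact h.mul _ _ _ ih _ hv

/-- Right multiplication by the elements of small degree generates: for `m` as in `gen` and
`n > m`, `H n ≤ ∑_{1 ≤ i ≤ m} H (n-i) * H i`. Strong induction on the degree of the right factor: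
`H n ≤ ∑_{0<i<n} H i * H (n-i)`, and for `n - i > m` expand `H (n-i)` further,
`H i * (H j * H (n-i-j)) ≤ H (i+j) * H (n-i-j)`. (For `m = 0`: `H n ≤ ∑_{0<i<n} H i H (n-i)` for all
`n ≥ 1` forces `H n = ⊥` for `n ≥ 1` by strong induction.) -/
theorem GrDom.gen_right {H : ℕ → Submodule k E} {C : ℕ} (h : GrDom H C) :
    ∃ m, ∀ n, m < n → H n ≤ ⨆ i ∈ Finset.Icc 1 m, H (n - i) * H i := by
  obtain ⟨m, hm⟩ := h.gen
  refine ⟨m, fun n hn => (hm n hn).trans (iSup₂_le fun i hi => ?_)⟩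
  rw [Finset.mem_Ioo] at hi
  exact D2_R h hm n (n - i) i (by omega) (by omega)

/-- If every homogeneous element `a ≠ 0` of positive degree divides a power of `v` on the left
then `Lam 0` consists of the `x v^{-i}`, `x ∈ H (i d)`. Let `x u⁻¹`, `x, u ∈ H j`; replacing
`x, u` by `x v, u v` we may assume `j ≥ 1`. `v^i = u g`, `g ∈ H n`, `j + n = i d` (by `h.indep`,
as `v^i ≠ 0`), so `u⁻¹ = g v^{-i}` and `x u⁻¹ = (x g) v^{-i}`, `x g ∈ H (i d)`. -/
theorem GrDom.lam0_eq {H : ℕ → Submodule k E} {C : ℕ} (h : GrDom H C) {d : ℕ} (hd : 1 ≤ d)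
    {v : E} (hv : v ∈ H d) (hv0 : v ≠ 0) (hvc : v ∈ Subring.center E)
    (hdiv : ∀ e, 1 ≤ e → ∀ a ∈ H e, a ≠ 0 → ∃ i n, ∃ g ∈ H n, v ^ i = a * g) {x : E}
    (hx : x ∈ h.Lam 0) : ∃ i, ∃ y ∈ H (i * d), x = y * (v ^ i)⁻¹ := by
  obtain ⟨j, X, hX, u, hu, hu0, rfl⟩ := hx
  rw [add_zero] at hX
  have hu' : u * v ∈ H (j + d) := h.mul _ _ _ hu _ hv
  have hX' : X * v ∈ H (j + d) := h.mul _ _ _ hX _ hv
  have hu0' : u * v ≠ 0 := mul_ne_zero hu0 hv0
  obtain ⟨i, n, g, hg, hvg⟩ := hdiv (j + d) (by omega) _ hu' hu0'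
  have h1 : u * v * g ∈ H (j + d + n) := h.mul _ _ _ hu' _ hg
  have h2 : v ^ i ≠ 0 := pow_ne_zero _ hv0
  have h3 : i * d = j + d + n := D2_deg h (D2_pow h hv i) (by rw [hvg]; exact h1) h2
  have h4 : X * v * g ∈ H (j + d + n) := h.mul _ _ _ hX' _ hg
  refine ⟨i, X * v * g, by rw [h3]; exact h4, ?_⟩
  have h5 : u⁻¹ = v * g * (v ^ i)⁻¹ := by
    rw [eq_mul_inv_iff_mul_eq₀ h2, hvg, mul_assoc u v g, inv_mul_cancel_left₀ hu0]
  rw [h5]
  simp only [mul_assoc]

/-- the vector of an element of degree `n` -/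
noncomputable def D2_vec {d : ℕ} (hd : 1 ≤ d) (v : E) (n : ℕ) (x : E) : Fin d → E :=
  Pi.single ⟨n % d, Nat.mod_lt _ hd⟩ (x * (v ^ (n / d))⁻¹)

/-- the operators -/
noncomputable def D2_rho (F : Subfield E) {d : ℕ} (hd : 1 ≤ d) (v : E) (i : ℕ) (x : E) :
    (Fin d → E) →ₗ[F] (Fin d → E) :=
  ∑ j : Fin d, (LinearMap.single F (fun _ : Fin d => E) ⟨(j + i) % d, Nat.mod_lt _ hd⟩).comp
    ((rmul F (x * (v ^ ((j + i) / d))⁻¹)).comp (LinearMap.proj j))

theorem D2_rho_vec (F : Subfield E) {d : ℕ} (hd : 1 ≤ d) {v : E} (hv0 : v ≠ 0)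
    (hvc : v ∈ Subring.center E) (i n : ℕ) (x x' : E) :
    D2_rho F hd v i x (D2_vec hd v n x') = D2_vec hd v (n + i) (x' * x) := by
  have h0 : D2_rho F hd v i x (D2_vec hd v n x') = ∑ j : Fin d,
      (Pi.single ⟨(j + i) % d, Nat.mod_lt _ hd⟩
        (D2_vec hd v n x' j * (x * (v ^ ((j + i) / d))⁻¹)) : Fin d → E) := by
    unfold D2_rho
    rw [LinearMap.sum_apply]
    rfl
  rw [h0, Finset.sum_eq_single (⟨n % d, Nat.mod_lt _ hd⟩ : Fin d)]
  · have h1 : D2_vec hd v n x' ⟨n % d, Nat.mod_lt _ hd⟩ = x' * (v ^ (n / d))⁻¹ :=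
      Pi.single_eq_same _ _
    rw [h1]
    unfold D2_vec
    have h2 : (n % d + i) % d = (n + i) % d := by rw [Nat.mod_add_mod]
    have h3 : (n + i) / d = n / d + (n % d + i) / d := by
      have h4 : n + i = (n % d + i) + d * (n / d) := by
        have := Nat.mod_add_div n d
        omega
      rw [h4, Nat.add_mul_div_left _ _ (by omega), Nat.add_comm]
    have h5 : (v ^ (n / d))⁻¹ * x = x * (v ^ (n / d))⁻¹ := by
      have h6 : v * x = x * v := (Subring.mem_center_iff.1 hvc x).symm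
      have h7 : Commute v x := h6
      exact ((h7.pow_left (n / d)).inv_left₀).eq
    have h6 : x' * (v ^ (n / d))⁻¹ * (x * (v ^ ((n % d + i) / d))⁻¹)
        = x' * x * (v ^ ((n + i) / d))⁻¹ := by
      rw [h3, pow_add, ← pow_add, Nat.add_comm (n / d), pow_add, mul_inv_rev]
      calc x' * (v ^ (n / d))⁻¹ * (x * (v ^ ((n % d + i) / d))⁻¹)
          = x' * ((v ^ (n / d))⁻¹ * x) * (v ^ ((n % d + i) / d))⁻¹ := by simp only [mul_assoc]
        _ = _ := by rw [h5]; simp only [mul_assoc]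
    have h7 : (⟨((⟨n % d, Nat.mod_lt _ hd⟩ : Fin d) + i) % d, Nat.mod_lt _ hd⟩ : Fin d)
        = ⟨(n + i) % d, Nat.mod_lt _ hd⟩ := Fin.ext h2
    change (Pi.single _ (x' * (v ^ (n / d))⁻¹ * (x * (v ^ ((n % d + i) / d))⁻¹)) : Fin d → E) = _
    rw [h6, h7]
  · intro j _ hj
    have h1 : D2_vec hd v n x' j = 0 := Pi.single_eq_of_ne hj _
    rw [h1, zero_mul, Pi.single_zero]
  · intro h1
    exact absurd (Finset.mem_univ _) h1

/-- NONDIVISIBILITY. There is a homogeneous element `a ≠ 0` of positive degree which divides no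
power of `v`.

Suppose not; `GrDom.lam0_eq` applies. Let `F = k(w)`. By `lam_bound_central` the left `F`-spaces
`Lam j` are finite-dimensional (`finite_of_bound`). Let
`W = {y : Fin d → E | ∀ j, y j ∈ Lam j}`, a finite-dimensional left `F`-subspace of
`Fin d → E`. For `i ≤ m` (`m` of `gen_right`) and `x ∈ H i` define `ρ_x : W → W` by
`(ρ_x y) j' = y j * x * v^{-q}`, where `j < d` and `q` are given by `j + i = q d + j'`
(that is `j ≡ j' - i` modulo `d`). It is left `F`-linear and maps `W` to `W`, since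
`y j x ∈ Lam (j + i)` and `Lam (q d + j') v^{-q} ≤ Lam j'` (`lam_div'` of T5, or write the
fraction `z u⁻¹` with `z ∈ H (i' + q d + j')` as `z (u v^q)⁻¹`). It depends linearly on `x`, so it
is enough to take the `x` in finite `k`-bases of the `H i`, `i ≤ m`. Let `e = (1, 0, ..., 0)` and
`T` as in `orbit_lemma`. CLAIM: for `x ∈ H n` the vector `x v^{-(n/d)}` at the place `n % d` is in
`T` (`Pi.single`). For `n ≤ m`: it is `ρ_x e`. For `n > m`: by `gen_right` `x` is a sum of products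
`x' x''` with `x' ∈ H (n-i)`, `x'' ∈ H i`, `1 ≤ i ≤ m`, and `ρ_{x''}` maps the vector of `x'` to the
vector of `x' x''`. By `lam0_eq` every `f ∈ F ⊆ Lam 0` is `x v^{-i}` with `x ∈ H (i d)`, so
`f e ∈ T`: contradiction. -/
theorem GrDom.nondiv {H : ℕ → Submodule k E} {C : ℕ} (h : GrDom H C) (hE : FinCent E)
    {w : E} (hw : w ∈ h.Lam 0) (hwt : Transcendental k w) {d : ℕ} (hd : 1 ≤ d)
    {v : E} (hv : v ∈ H d) (hv0 : v ≠ 0) (hvc : v ∈ Subring.center E) :
    ∃ e, 1 ≤ e ∧ ∃ a ∈ H e, a ≠ 0 ∧ ∀ i n, ∀ g ∈ H n, v ^ i ≠ a * g := by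
  classical
  by_contra hcon
  have hdiv : ∀ e, 1 ≤ e → ∀ a ∈ H e, a ≠ 0 → ∃ i n, ∃ g ∈ H n, v ^ i = a * g := by
    intro e he a ha ha0
    by_contra h1
    push Not at h1
    exact hcon ⟨e, he, a, ha, ha0, h1⟩
  obtain ⟨m, hm⟩ := h.gen_right
  obtain ⟨B, hB⟩ := h.lam_bound_central hE hw hwt
  -- the field `F` acts on the spaces `Lam j`
  have hF0 : BQG.gen k w ≤ h.Lam0 := gen_le hw fun c => by
    have h1 : algebraMap k E c ∈ H 0 := by
      rw [Algebra.algebraMap_eq_smul_one]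
      exact Submodule.smul_mem _ _ h.one
    exact h.le_Lam 0 h1
  have hst : ∀ j, ∀ f ∈ BQG.gen k w, ∀ x ∈ h.Lam j, f * x ∈ h.Lam j := by
    intro j f hf x hx
    have h1 := h.lam_mul (i := 0) (j := j) (hF0 hf) hx
    rwa [Nat.zero_add] at h1
  let L : ℕ → Submodule (BQG.gen k w) E := fun j => leftSub (BQG.gen k w) (h.Lam j) (hst j)
  have hLfin : ∀ j, Module.Finite (BQG.gen k w) (L j) := by
    intro j
    apply finite_of_bound B
    intro N z hz
    exact hB j N (fun i => ((z i : L j) : E)) (hz.map' (L j).subtype (Submodule.ker_subtype _))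
      (fun i => (z i).2)
  let W : Submodule (BQG.gen k w) (Fin d → E) :=
    { carrier := {y | ∀ j : Fin d, y j ∈ h.Lam j}
      add_mem' := fun ha hb j => (h.Lam j).add_mem (ha j) (hb j)
      zero_mem' := fun j => (h.Lam j).zero_mem
      smul_mem' := fun c y hy j => hst j c c.2 _ (hy j) }
  have hWfin : Module.Finite (BQG.gen k w) W := by
    let ι : W →ₗ[BQG.gen k w] ((j : Fin d) → L j) :=
      LinearMap.pi fun j => ((LinearMap.proj j).comp W.subtype).codRestrict (L j)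
        (fun y => y.2 j)
    refine Module.Finite.of_injective ι ?_
    intro y z hyz
    apply Subtype.ext
    funext j
    have h1 := congrFun hyz j
    exact congrArg Subtype.val h1
  -- the operators map `W` to `W`
  have hρW : ∀ i, ∀ x ∈ H i, ∀ y ∈ W, D2_rho (BQG.gen k w) hd v i x y ∈ W := by
    intro i x hx y hy
    have h0 : D2_rho (BQG.gen k w) hd v i x y = ∑ j : Fin d,
        (Pi.single ⟨(j + i) % d, Nat.mod_lt _ hd⟩
          (y j * (x * (v ^ ((j + i) / d))⁻¹)) : Fin d → E) := by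
      unfold D2_rho
      rw [LinearMap.sum_apply]
      rfl
    rw [h0]
    refine Submodule.sum_mem _ fun j _ => ?_
    intro j'
    rcases eq_or_ne j' ⟨((j : ℕ) + i) % d, Nat.mod_lt _ hd⟩ with rfl | hj'
    · rw [Pi.single_eq_same]
      have h1 := h.lam_mul (hy j) (h.le_Lam i hx)
      have h2 : (j : ℕ) + i = ((j : ℕ) + i) % d + (((j : ℕ) + i) / d) * d :=
        (Nat.mod_add_div' _ _).symm
      rw [h2] at h1
      have h3 := D2_lam_div h h1 (h.le_Lam _ (D2_pow h hv (((j : ℕ) + i) / d)))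
        (pow_ne_zero _ hv0)
      rw [mul_assoc] at h3
      exact h3
    · rw [Pi.single_eq_of_ne hj']
      exact Submodule.zero_mem _
  have hvecW : ∀ n, ∀ x ∈ H n, D2_vec hd v n x ∈ W := by
    intro n x hx j'
    rcases eq_or_ne j' ⟨n % d, Nat.mod_lt _ hd⟩ with rfl | hj'
    · unfold D2_vec
      rw [Pi.single_eq_same]
      have h1 := h.le_Lam n hx
      have h2 : n = n % d + (n / d) * d := (Nat.mod_add_div' _ _).symm
      have h3 : x ∈ LamSet H (n % d + (n / d) * d) := by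
        rw [← h2]
        exact h1
      exact D2_lam_div h h3 (h.le_Lam _ (D2_pow h hv (n / d))) (pow_ne_zero _ hv0)
    · unfold D2_vec
      rw [Pi.single_eq_of_ne hj']
      exact Submodule.zero_mem _
  -- finite families of generators of the `H i`
  choose S hS using fun i => h.fg i
  have hSH : ∀ i, ∀ x ∈ S i, x ∈ H i := fun i x hx => by
    rw [← hS i]
    exact Submodule.subset_span hx
  let ι := Σ i : Fin (m + 1), {x // x ∈ S i}
  let eqv := Fintype.equivFin ι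
  let op : ι → W →ₗ[BQG.gen k w] W := fun p =>
    (D2_rho (BQG.gen k w) hd v p.1 p.2.1).restrict (hρW p.1 p.2.1 (hSH _ _ p.2.2))
  have he : D2_vec hd v 0 (1 : E) ∈ W := hvecW 0 1 h.one
  have he0 : (⟨D2_vec hd v 0 (1 : E), he⟩ : W) ≠ 0 := by
    intro h1
    have h2 := congrFun (congrArg Subtype.val h1) (⟨0 % d, Nat.mod_lt _ hd⟩ : Fin d)
    have h3 : D2_vec hd v 0 (1 : E) ⟨0 % d, Nat.mod_lt _ hd⟩ = 1 * (v ^ (0 / d))⁻¹ :=
      Pi.single_eq_same _ _
    change D2_vec hd v 0 (1 : E) ⟨0 % d, Nat.mod_lt _ hd⟩ = 0 at h2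
    rw [h3, one_mul] at h2
    exact inv_ne_zero (pow_ne_zero _ hv0) h2
  obtain ⟨T, heT, hTk, hTρ, f, hf⟩ := orbit_lemma hwt (fun r => op (eqv.symm r)) he0
  have hTop : ∀ p : ι, ∀ x ∈ T, op p x ∈ T := by
    intro p x hx
    have h1 := hTρ (eqv p) x hx
    simpa using h1
  let N : ℕ → Submodule k E := fun n =>
    { carrier := {x | ∃ t ∈ T, (t : Fin d → E) = D2_vec hd v n x}
      add_mem' := by
        rintro x y ⟨t, ht, htx⟩ ⟨t', ht', hty⟩
        refine ⟨t + t', T.add_mem ht ht', ?_⟩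
        rw [Submodule.coe_add, htx, hty]
        unfold D2_vec
        rw [← Pi.single_add, add_mul]
      zero_mem' := by
        refine ⟨0, T.zero_mem, ?_⟩
        unfold D2_vec
        rw [zero_mul, Pi.single_zero]
        rfl
      smul_mem' := by
        rintro c x ⟨t, ht, htx⟩
        refine ⟨_, hTk c t ht, ?_⟩
        rw [Submodule.coe_smul, htx]
        unfold D2_vec
        rw [← Pi.single_smul]
        congr 1
        change algebraMap k E c * (x * (v ^ (n / d))⁻¹) = (c • x) * (v ^ (n / d))⁻¹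
        rw [Algebra.smul_def, mul_assoc] }
  have hstep : ∀ i ≤ m, ∀ n, ∀ x', x' ∈ N n → ∀ x ∈ H i, x' * x ∈ N (n + i) := by
    intro i hi n x' hx' x hx
    have h1 : H i ≤ (N (n + i)).comap (LinearMap.mulLeft k x') := by
      rw [← hS i, Submodule.span_le]
      intro y hy
      obtain ⟨t, ht, htx⟩ := hx'
      have h2 := hTop ⟨⟨i, Nat.lt_succ_of_le hi⟩, ⟨y, hy⟩⟩ t ht
      refine ⟨_, h2, ?_⟩
      change D2_rho (BQG.gen k w) hd v i y (t : Fin d → E) = D2_vec hd v (n + i) (x' * y)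
      rw [htx, D2_rho_vec _ hd hv0 hvc]
    exact h1 hx
  have h1N : (1 : E) ∈ N 0 := ⟨_, heT, rfl⟩
  have hN : ∀ n, H n ≤ N n := by
    intro n
    induction n using Nat.strong_induction_on with
    | _ n ih =>
      rcases le_or_gt n m with hnm | hnm
      · intro x hx
        have h2 := hstep n hnm 0 1 h1N x hx
        rwa [one_mul, Nat.zero_add] at h2
      · refine (hm n hnm).trans (iSup₂_le fun i hi => ?_)
        rw [Finset.mem_Icc] at hi
        refine Submodule.mul_le.2 fun x' hx' x hx => ?_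
        have h2 := hstep i hi.2 (n - i) x' (ih (n - i) (by omega) hx') x hx
        have h3 : n - i + i = n := by omega
        rwa [h3] at h2
  obtain ⟨i, y, hy, hfy⟩ := h.lam0_eq hd hv hv0 hvc hdiv (x := (f : E)) (hF0 f.2)
  obtain ⟨t, ht, hty⟩ := hN _ hy
  apply hf
  have h2 : f • (⟨D2_vec hd v 0 (1 : E), he⟩ : W) = t := by
    apply Subtype.ext
    rw [hty]
    change f • D2_vec hd v 0 (1 : E) = _
    unfold D2_vec
    rw [← Pi.single_smul]
    have h3 : i * d / d = i := Nat.mul_div_cancel _ (by omega)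
    have h4 : (⟨i * d % d, Nat.mod_lt _ hd⟩ : Fin d) = ⟨0 % d, Nat.mod_lt _ hd⟩ :=
      Fin.ext (by
        change i * d % d = 0 % d
        rw [Nat.mul_mod_left, Nat.zero_mod])
    rw [h3, h4]
    congr 1
    change (f : E) * (1 * (v ^ (0 / d))⁻¹) = _
    rw [Nat.zero_div, pow_zero, inv_one, mul_one, mul_one, hfy]
  rw [h2]
  exact ht

end Pool.Agent.BQG
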