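import Pool.Agent.H.MP_fbbc72_al.h23.T3

set_option autoImplicit false

namespace Pool.Agent.BQG

open Module MulOpposite

universe u v

variable {k : Type v} {E : Type u} [Field k] [DivisionRing E] [Algebra k E]

/-- the finite field generated by an algebraic element -/
theorem T5_fld [Finite k] {D : Type u} [DivisionRing D] [Algebra k D] {a : D}
    (ha : IsAlgebraic k a) :
    ∃ (K : Type u) (_ : Field K) (_ : Finite K) (ι : K →+* D),
      (∀ x : D, x ∈ Algebra.adjoin k {a} ↔ ∃ c, ι c = x) ∧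
      ∃ r, 1 ≤ r ∧ Nat.card K = Nat.card k ^ r := by
  have h1 : (Algebra.adjoin k {a}).toSubmodule.FG := ha.isIntegral.fg_adjoin_singleton
  have h2 : Module.Finite k (Algebra.adjoin k {a}) := Module.Finite.iff_fg.2 h1
  have h3 : Finite (Algebra.adjoin k {a}) := Module.finite_of_finite k
  have h4 := Finite.isDomain_to_isField (Algebra.adjoin k {a})
  refine ⟨Algebra.adjoin k {a}, h4.toField, h3, (Algebra.adjoin k {a}).val.toRingHom, fun x => ?_,
    finrank k (Algebra.adjoin k {a}), ?_, ?_⟩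
  · exact ⟨fun hx => ⟨⟨x, hx⟩, rfl⟩, fun ⟨c, hc⟩ => hc ▸ c.2⟩
  · exact Module.finrank_pos
  · exact Module.natCard_eq_pow_finrank

theorem T5_pow [Finite k] {D : Type u} [DivisionRing D] [Algebra k D] {a : D}
    (ha : IsAlgebraic k a) : ∃ r, 1 ≤ r ∧ ∀ s, a ^ (Nat.card k ^ (r * s)) = a := by
  obtain ⟨K, _, _, ι, hι, r, hr, hcard⟩ := T5_fld ha
  have : Fintype K := Fintype.ofFinite K
  obtain ⟨c, hc⟩ := (hι a).1 (Algebra.subset_adjoin rfl)
  refine ⟨r, hr, fun s => ?_⟩
  rw [← hc, ← map_pow, pow_mul, ← hcard, Nat.card_eq_fintype_card, FiniteField.pow_card_pow]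

open Polynomial in
theorem T5_kill {K D : Type*} [Field K] [DivisionRing D] [Algebra k D]
    (ev : K[X] →+* Module.End k D) (s : Finset K) (z : D) (hz : z ≠ 0)
    (h : ev (∏ c ∈ s, (X - C c)) z = 0) :
    ∃ c ∈ s, ∃ z' : D, z' ≠ 0 ∧ ev (X - C c) z' = 0 := by
  classical
  induction s using Finset.induction_on with
  | empty =>
    rw [Finset.prod_empty, map_one] at h
    exact absurd h hz
  | insert c s hc ih =>
    by_cases h1 : ev (∏ c ∈ s, (X - C c)) z = 0
    · obtain ⟨c', hc', z', h2⟩ := ih h1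
      exact ⟨c', Finset.mem_insert_of_mem hc', z', h2⟩
    · refine ⟨c, Finset.mem_insert_self _ _, _, h1, ?_⟩
      rwa [Finset.prod_insert hc, map_mul] at h

theorem T5_commutes {D : Type*} [DivisionRing D] [Algebra k D] {a x : D}
    (hx : x ∈ Algebra.adjoin k {a}) : x * a = a * x := by
  induction hx using Algebra.adjoin_induction with
  | mem x hx =>
    rw [Set.mem_singleton_iff] at hx
    rw [hx]
  | algebraMap r => exact Algebra.commutes r a
  | add x y _ _ hx hy => rw [add_mul, mul_add, hx, hy]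
  | mul x y _ _ hx hy => rw [mul_assoc, hy, ← mul_assoc, hx, mul_assoc]

open Polynomial in
/-- an eigenvector of the inner derivation -/
theorem T5_eig [Finite k] {D : Type u} [DivisionRing D] [Algebra k D] {a y : D}
    (ha : IsAlgebraic k a) (hy : a * y - y * a ≠ 0) :
    ∃ z : D, z ≠ 0 ∧ ∃ c ∈ Algebra.adjoin k {a}, c ≠ 0 ∧ a * z - z * a = c * z := by
  classical
  obtain ⟨K, _, _, ι, hι, r, hr, hcard⟩ := T5_fld ha
  have : Fintype K := Fintype.ofFinite K
  have : Fintype k := Fintype.ofFinite k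
  obtain ⟨p, hchar⟩ := CharP.exists k
  obtain ⟨f, hp, hf⟩ := FiniteField.card k p
  have : Fact p.Prime := ⟨hp⟩
  have : CharP (Module.End k D) p :=
    charP_of_injective_algebraMap (algebraMap k (Module.End k D)).injective p
  obtain ⟨T, hT⟩ : ∃ T : Module.End k D, T = LinearMap.mulLeft k a - LinearMap.mulRight k a :=
    ⟨_, rfl⟩
  have hTz : ∀ z, T z = a * z - z * a := fun z => by
    rw [hT, LinearMap.sub_apply, LinearMap.mulLeft_apply, LinearMap.mulRight_apply]
  have hιa : ∀ c, ι c * a = a * ι c := fun c => T5_commutes ((hι _).2 ⟨c, rfl⟩)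
  obtain ⟨g, hg⟩ : ∃ g : K →+* Module.End k D, ∀ c z, g c z = ι c * z :=
    ⟨(Algebra.lmul k D : D →ₐ[k] Module.End k D).toRingHom.comp ι, fun c z => rfl⟩
  have hcomm : ∀ c, Commute (g c) T := fun c => by
    refine LinearMap.ext fun z => ?_
    rw [Module.End.mul_apply, Module.End.mul_apply, hTz, hg, hg, hTz, mul_sub, ← mul_assoc, hιa,
      mul_assoc, mul_assoc]
  obtain ⟨ev, hev1, hev2⟩ : ∃ ev : K[X] →+* Module.End k D, ev X = T ∧ ∀ c, ev (C c) = g c :=
    ⟨eval₂RingHom' g T hcomm, by simp, fun c => by simp⟩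
  have hq : Fintype.card K = p ^ (f * r : ℕ) := by
    rw [← Nat.card_eq_fintype_card, hcard, Nat.card_eq_fintype_card, hf, ← pow_mul]
  have hTq : T ^ Fintype.card K = T := by
    obtain ⟨c, hc⟩ := (hι a).1 (Algebra.subset_adjoin rfl)
    have ha2 : a ^ Fintype.card K = a := by
      rw [← hc, ← map_pow, FiniteField.pow_card]
    rw [hT, hq, sub_pow_char_pow_of_commute _ _ (LinearMap.commute_mulLeft_right (R := k) a a),
      LinearMap.pow_mulLeft, LinearMap.pow_mulRight, ← hq, ha2]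
  have hprod : (∏ c : K, (X - C c)) = X ^ Fintype.card K - X := by
    have h1 := FiniteField.roots_X_pow_card_sub_X K
    have h2 : (X ^ Fintype.card K - X : K[X]).natDegree = Fintype.card K :=
      FiniteField.X_pow_card_sub_X_natDegree_eq K Fintype.one_lt_card
    have h3 : (X ^ Fintype.card K - X : K[X]).Monic := by
      refine monic_X_pow_sub ?_
      rw [degree_X]
      exact_mod_cast Fintype.one_lt_card (α := K)
    have h4 := prod_multiset_X_sub_C_of_monic_of_roots_card_eq h3 (by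
      rw [h1, h2]
      rfl)
    rw [h1] at h4
    exact h4
  have hkill : ev (∏ c ∈ Finset.univ.erase (0 : K), (X - C c)) (T y) = 0 := by
    have h1 : ev ((∏ c ∈ Finset.univ.erase (0 : K), (X - C c)) * (X - C 0)) y = 0 := by
      rw [Finset.prod_erase_mul _ _ (Finset.mem_univ _), hprod, map_sub, map_pow, hev1, hTq,
        sub_self, LinearMap.zero_apply]
    rwa [map_mul, map_zero, sub_zero, hev1, Module.End.mul_apply] at h1
  obtain ⟨c, hc, z, hz, hcz⟩ := T5_kill ev _ (T y) (by rwa [hTz]) hkill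
  refine ⟨z, hz, ι c, (hι _).2 ⟨c, rfl⟩, ?_, ?_⟩
  · rw [Ne, map_eq_zero]
    exact Finset.ne_of_mem_erase hc
  · rw [map_sub, hev1, hev2, LinearMap.sub_apply, hTz, hg] at hcz
    exact sub_eq_zero.1 hcz

theorem T5_jac [Finite k] {D : Type u} [DivisionRing D] [Algebra k D]
    (hD : ∀ x : D, IsAlgebraic k x) (a y : D) : a * y = y * a := by
  by_contra hne
  obtain ⟨z, hz, c, hc, hc0, he⟩ := T5_eig (hD a) (sub_ne_zero.2 hne)
  have hza : z * a = (a - c) * z := by
    rw [sub_mul, ← he]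
    abel
  obtain ⟨A, hA⟩ : ∃ A : Subalgebra k D, A = Algebra.adjoin k {a} := ⟨_, rfl⟩
  obtain ⟨Z, hZ⟩ : ∃ Z : Subalgebra k D, Z = Algebra.adjoin k {z} := ⟨_, rfl⟩
  have haA : a ∈ A := by
    rw [hA]
    exact Algebra.subset_adjoin rfl
  have hzZ : z ∈ Z := by
    rw [hZ]
    exact Algebra.subset_adjoin rfl
  have hQ : ∀ x ∈ A, ∃ x' ∈ A, z * x = x' * z := by
    intro x hx
    rw [hA] at hx
    induction hx using Algebra.adjoin_induction with
    | mem x hx =>
      rw [Set.mem_singleton_iff] at hx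
      rw [hx]
      exact ⟨a - c, A.sub_mem haA (hA ▸ hc), hza⟩
    | algebraMap r => exact ⟨_, A.algebraMap_mem r, (Algebra.commutes r z).symm⟩
    | add x y _ _ hx hy =>
      obtain ⟨x', hx', h1⟩ := hx
      obtain ⟨y', hy', h2⟩ := hy
      exact ⟨x' + y', A.add_mem hx' hy', by rw [mul_add, add_mul, h1, h2]⟩
    | mul x y _ _ hx hy =>
      obtain ⟨x', hx', h1⟩ := hx
      obtain ⟨y', hy', h2⟩ := hy
      exact ⟨x' * y', A.mul_mem hx' hy', by rw [← mul_assoc, h1, mul_assoc, h2, mul_assoc]⟩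
  obtain ⟨W, hW⟩ : ∃ W : Submodule k D, W = Subalgebra.toSubmodule A * Subalgebra.toSubmodule Z :=
    ⟨_, rfl⟩
  have hAZ : ∀ x ∈ A, ∀ w ∈ Z, x * w ∈ W := fun x hx w hw => by
    rw [hW]
    exact Submodule.mul_mem_mul hx hw
  have hWZ : ∀ x ∈ W, ∀ w ∈ Z, x * w ∈ W := by
    intro x hx w hw
    rw [hW] at hx
    refine Submodule.mul_induction_on hx (fun x hx v hv => ?_) fun x y hx hy => ?_
    · rw [mul_assoc]
      exact hAZ x hx _ (Z.mul_mem hv hw)
    · rw [add_mul]
      exact W.add_mem hx hy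
  have hAW : ∀ x ∈ A, ∀ w ∈ W, x * w ∈ W := by
    intro x hx w hw
    rw [hW] at hw
    refine Submodule.mul_induction_on hw (fun u hu v hv => ?_) fun u v hu hv => ?_
    · rw [← mul_assoc]
      exact hAZ _ (A.mul_mem hx hu) v hv
    · rw [mul_add]
      exact W.add_mem hu hv
  have hZA : ∀ w ∈ Z, ∀ x ∈ A, w * x ∈ W := by
    intro w hw
    rw [hZ] at hw
    induction hw using Algebra.adjoin_induction with
    | mem w hw =>
      rw [Set.mem_singleton_iff] at hw
      rw [hw]
      intro x hx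
      obtain ⟨x', hx', h1⟩ := hQ x hx
      rw [h1]
      exact hAZ x' hx' z hzZ
    | algebraMap r =>
      intro x hx
      have h1 := hAZ _ (A.mul_mem (A.algebraMap_mem r) hx) 1 Z.one_mem
      rwa [mul_one] at h1
    | add w v _ _ hw hv =>
      intro x hx
      rw [add_mul]
      exact W.add_mem (hw x hx) (hv x hx)
    | mul w v _ _ hw hv =>
      intro x hx
      rw [mul_assoc]
      have h1 := hv x hx
      rw [hW] at h1
      refine Submodule.mul_induction_on h1 (fun x' hx' w' hw' => ?_) fun x y hx hy => ?_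
      · rw [← mul_assoc]
        exact hWZ _ (hw x' hx') w' hw'
      · rw [mul_add]
        exact W.add_mem hx hy
  have hZW : ∀ w ∈ Z, ∀ x ∈ W, w * x ∈ W := by
    intro w hw x hx
    rw [hW] at hx
    refine Submodule.mul_induction_on hx (fun x hx v hv => ?_) fun x y hx hy => ?_
    · rw [← mul_assoc]
      exact hWZ _ (hZA w hw x hx) v hv
    · rw [mul_add]
      exact W.add_mem hx hy
  have hWW : ∀ x y, x ∈ W → y ∈ W → x * y ∈ W := by
    intro x y hx hy
    rw [hW] at hx
    refine Submodule.mul_induction_on hx (fun x hx v hv => ?_) fun x x' hx hx' => ?_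
    · rw [mul_assoc]
      exact hAW x hx _ (hZW v hv y hy)
    · rw [add_mul]
      exact W.add_mem hx hx'
  have h1W : (1 : D) ∈ W := by
    have h1 := hAZ 1 A.one_mem 1 Z.one_mem
    rwa [mul_one] at h1
  have hfg : W.FG := by
    rw [hW, hA, hZ]
    exact (hD a).isIntegral.fg_adjoin_singleton.mul (hD z).isIntegral.fg_adjoin_singleton
  have hfin : Module.Finite k W := Module.Finite.iff_fg.2 hfg
  have hfin2 : Finite W := Module.finite_of_finite k
  have hfin3 : Finite (W.toSubalgebra h1W hWW) := hfin2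
  have hF := Finite.isDomain_to_isField (W.toSubalgebra h1W hWW)
  have haW : a ∈ W := by
    have h1 := hAZ a haA 1 Z.one_mem
    rwa [mul_one] at h1
  have hzW : z ∈ W := by
    have h1 := hAZ 1 A.one_mem z hzZ
    rwa [one_mul] at h1
  have h1 := congrArg Subtype.val (hF.mul_comm ⟨a, haW⟩ ⟨z, hzW⟩)
  have h2 : a * z = z * a := h1
  rw [h2, sub_self] at he
  exact mul_ne_zero hc0 hz he.symm

/-- Jacobson's theorem: a division ring algebraic over a finite field is commutative.

Suppose `x y ≠ y x`, `x, y ∈ L`; put `a = x`. `A := Algebra.adjoin k {a}` is a finite field with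
`q` elements (`a` is algebraic, so `A` is finite-dimensional over the finite field `k`, and a
finite domain is a field), `q` a power of the characteristic. On `M = L` (or on `E`) consider
`T z = a z - z a = (mulLeft a - mulRight a) z`. `mulLeft a`, `mulRight a` commute and
`a^q = a`, so `T^q = mulLeft (a^q) - mulRight (a^q) = T` (`sub_pow_expChar_pow_of_commute` or
similar). Now `∏_{c ∈ A} (X - c) = X^q - X` (`FiniteField.X_pow_card_sub_X...`), and `T` commutes
with `mulLeft c`, `c ∈ A`; hence the composite of the `q` operators `T - mulLeft c`, `c ∈ A`,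
is `0`. Apply it to `y`: `T y ≠ 0`; take the factor `c = 0` first, i.e. consider
`z = T y ≠ 0`, killed by the product of the `T - mulLeft c`, `c ≠ 0`. So for some intermediate
`z' ≠ 0` (of the form `∏ (T - mulLeft c_i) z`) and some `c ≠ 0` in `A`: `T z' = c z'`,
`z' ∈ L`, i.e. `z' a z'⁻¹ = a - c ∈ A`. So `z' A = A z'` and the subring generated by
`A` and `z'` is `∑ A z'^i`, finite-dimensional over `k` as `z'` is algebraic: a finite division
ring. By Wedderburn (`littleWedderburn`) it is commutative, so `T z' = 0`, contradiction with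
`c z' ≠ 0`. (Alternatively use Mathlib's `JacobsonNoether.exists_separable_and_not_isCentral`.) -/
theorem comm_of_algebraic [Finite k] (L : Subfield E) (hk : ∀ c : k, algebraMap k E c ∈ L)
    (hL : ∀ x ∈ L, IsAlgebraic k x) : ∀ x ∈ L, ∀ y ∈ L, x * y = y * x := by
  letI : Algebra k L := RingHom.toAlgebra' ((algebraMap k E).codRestrict L hk)
    fun c x => Subtype.val_injective (Algebra.commutes c (x : E))
  let f : L →ₐ[k] E := { L.subtype with commutes' := fun _ => rfl }
  have hf : Function.Injective f := Subtype.val_injective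
  intro x hx y hy
  have h1 := T5_jac (k := k) (D := L) (fun x => (isAlgebraic_algHom_iff f hf).1 (hL x x.2))
    ⟨x, hx⟩ ⟨y, hy⟩
  exact congrArg Subtype.val h1

/-- The elements of a commutative algebraic `L` with `x^N = x`, where `N = (card k)^r`, `r ≥ 1`:
they are closed under addition (`add_pow_expChar_pow` in the commutative ring), multiplication and
scalars from `k`, there are at most `N` of them (roots of `X^N - X`), and every element of a finite
subset of `L` is among them for suitable `r`. -/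
theorem exists_finite_sub [Finite k] (L : Subfield E) (hk : ∀ c : k, algebraMap k E c ∈ L)
    (hL : ∀ x ∈ L, IsAlgebraic k x) (hc : ∀ x ∈ L, ∀ y ∈ L, x * y = y * x)
    (S : Set E) (hS : S.Finite) (hSL : S ⊆ L) :
    ∃ (N : ℕ) (K : Submodule k E), K.FG ∧ S ⊆ K ∧ (1 : E) ∈ K ∧ (∀ x ∈ K, ∀ y ∈ K, x * y ∈ K) ∧
      ∀ x : E, x ∈ K ↔ x ∈ L ∧ x ^ N = x := by
  classical
  have : Fintype k := Fintype.ofFinite k
  obtain ⟨p, hchar⟩ := CharP.exists k
  obtain ⟨f, hp, hf⟩ := FiniteField.card k p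
  have : Fact p.Prime := ⟨hp⟩
  have : CharP E p := charP_of_injective_algebraMap (algebraMap k E).injective p
  have key : ∀ x : E, ∃ r, 1 ≤ r ∧ (x ∈ L → ∀ s, x ^ (Nat.card k ^ (r * s)) = x) := fun x => by
    by_cases hx : x ∈ L
    · obtain ⟨r, hr, h1⟩ := T5_pow (hL x hx)
      exact ⟨r, hr, fun _ => h1⟩
    · exact ⟨1, le_rfl, fun h => absurd h hx⟩
  choose r hr1 hr using key
  obtain ⟨R, hR⟩ : ∃ R, R = ∏ x ∈ hS.toFinset, r x := ⟨_, rfl⟩
  have hR1 : R ≠ 0 := by
    rw [hR]
    exact Finset.prod_ne_zero_iff.2 fun x _ => Nat.one_le_iff_ne_zero.1 (hr1 x)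
  obtain ⟨N, hN⟩ : ∃ N, N = Nat.card k ^ R := ⟨_, rfl⟩
  have hNp : N = p ^ (f * R : ℕ) := by
    rw [hN, Nat.card_eq_fintype_card, hf, ← pow_mul]
  have hN1 : 1 < N := by
    rw [hNp]
    exact Nat.one_lt_pow (Nat.mul_ne_zero f.2.ne' hR1) hp.one_lt
  let K : Submodule k E :=
    { carrier := {x | x ∈ L ∧ x ^ N = x}
      add_mem' := by
        rintro x y ⟨hx, hx'⟩ ⟨hy, hy'⟩
        refine ⟨L.add_mem hx hy, ?_⟩
        rw [hNp, add_pow_char_pow_of_commute _ _ (hc x hx y hy), ← hNp, hx', hy']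
      zero_mem' := ⟨L.zero_mem, zero_pow (by omega)⟩
      smul_mem' := by
        rintro c x ⟨hx, hx'⟩
        refine ⟨?_, ?_⟩
        · rw [Algebra.smul_def]
          exact L.mul_mem (hk c) hx
        · rw [smul_pow, hx', hN, Nat.card_eq_fintype_card, FiniteField.pow_card_pow] }
  have hKmem : ∀ x, x ∈ K ↔ x ∈ L ∧ x ^ N = x := fun x => Iff.rfl
  have hKfin : (K : Set E).Finite := by
    let F : Field L := { (inferInstance : DivisionRing L) with
      mul_comm := fun x y => Subtype.val_injective (hc x x.2 y y.2) }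
    have h1 : (Polynomial.X ^ N - Polynomial.X : Polynomial L) ≠ 0 := by
      intro h0
      have h2 := congrArg (fun q => Polynomial.coeff q N) h0
      simp [Polynomial.coeff_X, (show 1 ≠ N by omega)] at h2
    have h2 : {x : L | x ^ N = x}.Finite := by
      refine (Polynomial.X ^ N - Polynomial.X : Polynomial L).roots.toFinset.finite_toSet.subset ?_
      intro x hx
      have hx' : x ^ N = x := hx
      simp only [Finset.mem_coe, Multiset.mem_toFinset, Polynomial.mem_roots h1]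
      simp [Polynomial.IsRoot, hx']
    refine (h2.image Subtype.val).subset ?_
    rintro x ⟨hx, hx'⟩
    exact ⟨⟨x, hx⟩, Subtype.val_injective hx', rfl⟩
  refine ⟨N, K, ?_, ?_, ⟨L.one_mem, one_pow N⟩, ?_, hKmem⟩
  · rw [Submodule.fg_def]
    exact ⟨(K : Set E), hKfin, Submodule.span_eq K⟩
  · intro x hx
    refine ⟨hSL hx, ?_⟩
    have h1 : r x ∣ R := by
      rw [hR]
      exact Finset.dvd_prod_of_mem r (hS.mem_toFinset.2 hx)
    obtain ⟨s, hs⟩ := h1
    rw [hN, hs]
    exact hr x (hSL hx) s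
  · rintro x ⟨hx, hx'⟩ y ⟨hy, hy'⟩
    refine ⟨L.mul_mem hx hy, ?_⟩
    have h1 : Commute x y := hc x hx y hy
    rw [h1.mul_pow, hx', hy']

/-- quotients of elements of degrees `i + j` and `j` (see `lam_div`; `e = x₁ u₁⁻¹`,
`f = x₂ u₂⁻¹`, `u₂ s = u₁ s'`, `e f⁻¹ = (x₁ s') (x₂ s)⁻¹`) -/
theorem GrDom.lam_div' {H : ℕ → Submodule k E} {C : ℕ} (h : GrDom H C) {i j : ℕ} {e f : E}
    (he : e ∈ LamSet H (i + j)) (hf : f ∈ LamSet H j) (hf0 : f ≠ 0) : e * f⁻¹ ∈ LamSet H i := by
  obtain ⟨i₁, x₁, hx₁, u₁, hu₁, hu₁0, rfl⟩ := he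
  obtain ⟨i₂, x₂, hx₂, u₂, hu₂, hu₂0, rfl⟩ := hf
  have hx₂0 : x₂ ≠ 0 := fun h0 => hf0 (by rw [h0, zero_mul])
  obtain ⟨c, c', s, hs, s', hs', hs0, hs'0, h1, h2⟩ := h.ore hu₂ hu₁ hu₂0 hu₁0
  refine ⟨i₂ + j + c, x₁ * s', ?_, x₂ * s, h.mul _ _ _ hx₂ _ hs, mul_ne_zero hx₂0 hs0, ?_⟩
  · have h3 := h.mul _ _ _ hx₁ _ hs'
    have h4 : i₁ + (i + j) + c' = i₂ + j + c + i := by omega
    rwa [h4] at h3
  · have h5 := T2_swap hu₁0 hs0 h1
    have h6 : x₁ * u₁⁻¹ * (x₂ * u₂⁻¹)⁻¹ = x₁ * (u₁⁻¹ * u₂) * x₂⁻¹ := by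
      rw [mul_inv_rev, inv_inv]
      simp only [mul_assoc]
    rw [h6, h5, mul_inv_rev]
    simp only [mul_assoc]

theorem T5_conj {v c : E} (hv : v ≠ 0) (N : ℕ) : (v * c * v⁻¹) ^ N = v * c ^ N * v⁻¹ := by
  induction N with
  | zero => rw [pow_zero, pow_zero, mul_one, mul_inv_cancel₀ hv]
  | succ N ih =>
    rw [pow_succ, ih, pow_succ]
    simp only [mul_assoc]
    rw [inv_mul_cancel_left₀ hv]

theorem T5_powLam {H : ℕ → Submodule k E} {C : ℕ} (h : GrDom H C) {d : ℕ} {v : E}
    (hv : v ∈ LamSet H d) (q : ℕ) : v ^ q ∈ LamSet H (d * q) := by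
  induction q with
  | zero =>
    rw [pow_zero, Nat.mul_zero]
    exact h.le_Lam 0 h.one
  | succ q ih =>
    rw [pow_succ, Nat.mul_succ]
    exact h.lam_mul ih hv

/-- A transcendental homogeneous fraction of degree `0`, if the dimensions are unbounded.

Suppose all elements of `K := Lam 0` are algebraic over `k`; `K` is commutative
(`comm_of_algebraic`). Let `d ≥ 1` be minimal with `Lam d ≠ 0` (there is some `H n ≠ 0`, `n ≥ 1`,
as the dimensions are unbounded) and `0 ≠ v ∈ Lam d`. If `0 ≠ x ∈ Lam j`, `j = q d + r`,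
`r < d`, then `x v^{-q} ∈ Lam r` (`lam_div'`), so `r = 0` and `x = c v^q` with `c ∈ K`. Conjugation
by `v` maps `K` to `K`: `v c v⁻¹ ∈ Lam 0`. Let `m` be as in `h.gen`. The spaces
`{c ∈ K : c v^q ∈ H (q d)}`, `q d ≤ m`, are finite-dimensional over the finite field `k`, so finite
sets; let `S` be their union and let `K₀, N` be as in `exists_finite_sub`. `v K₀ v⁻¹ ≤ K₀` (if
`c^N = c` then `(v c v⁻¹)^N = v c v⁻¹`). Now `H n ≤ K₀ v^{n/d}` (and `H n = 0` if `d ∤ n`) for all
`n`: for `n ≤ m` by definition, for `n > m` by induction with `gen`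
(`c v^i c' v^j = c (v^i c' v^{-i}) v^{i+j}`). So `finrank (H n) ≤ finrank K₀` for all `n`,
contradiction. -/
theorem GrDom.exists_transc [Finite k] {H : ℕ → Submodule k E} {C : ℕ} (h : GrDom H C)
    (hunb : ∀ B, ∃ n, B < finrank k ↥(H n)) : ∃ w ∈ h.Lam 0, Transcendental k w := by
  classical
  by_contra hno
  push Not at hno
  have halg : ∀ w ∈ h.Lam0, IsAlgebraic k w := fun w hw => by
    have h1 := hno w hw
    rwa [Transcendental, not_not] at h1
  have hk : ∀ c : k, algebraMap k E c ∈ h.Lam0 := fun c => by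
    rw [Algebra.algebraMap_eq_smul_one]
    exact (h.Lam 0).smul_mem c (h.le_Lam 0 h.one)
  have hcomm := comm_of_algebraic h.Lam0 hk halg
  -- the smallest degree
  have hex : ∃ d, 1 ≤ d ∧ ∃ v ∈ LamSet H d, v ≠ 0 := by
    obtain ⟨n, hn⟩ := hunb (finrank k ↥(H 0))
    have hn0 : n ≠ 0 := by
      rintro rfl
      exact lt_irrefl _ hn
    have h1 : H n ≠ ⊥ := by
      intro h0
      rw [h0, finrank_bot] at hn
      omega
    obtain ⟨x, hx, hx0⟩ := (Submodule.ne_bot_iff _).1 h1
    exact ⟨n, Nat.one_le_iff_ne_zero.2 hn0, x, h.le_Lam n hx, hx0⟩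
  obtain ⟨d, hd⟩ : ∃ d, d = Nat.find hex := ⟨_, rfl⟩
  obtain ⟨hd1, v, hv, hv0⟩ := hd ▸ Nat.find_spec hex
  have hmin : ∀ j, 1 ≤ j → j < d → ∀ x ∈ LamSet H j, x = 0 := by
    intro j hj hjd x hx
    by_contra hx0
    exact Nat.find_min hex (hd ▸ hjd) ⟨hj, x, hx, hx0⟩
  have hvq : ∀ q, v ^ q ≠ 0 := fun q => pow_ne_zero q hv0
  have hstr : ∀ j, ∀ x ∈ LamSet H j, x ≠ 0 → ∃ q, j = d * q ∧ x * (v ^ q)⁻¹ ∈ h.Lam0 := by
    intro j x hx hx0
    have hj : j % d + d * (j / d) = j := Nat.mod_add_div j d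
    have h1 : x * (v ^ (j / d))⁻¹ ∈ LamSet H (j % d) :=
      h.lam_div' (hj.symm ▸ hx) (T5_powLam h hv _) (hvq _)
    have h2 : x * (v ^ (j / d))⁻¹ ≠ 0 := mul_ne_zero hx0 (inv_ne_zero (hvq _))
    have h3 : j % d = 0 := by
      by_contra h3
      exact h2 (hmin _ (Nat.one_le_iff_ne_zero.2 h3) (Nat.mod_lt _ hd1) _ h1)
    rw [h3] at h1
    refine ⟨j / d, ?_, h1⟩
    omega
  obtain ⟨m, hm⟩ := h.gen
  obtain ⟨S, hSdef⟩ : ∃ S : Set E, S = {c | ∃ q ∈ Set.Iic m, c * v ^ q ∈ H (d * q)} := ⟨_, rfl⟩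
  have hHfin : ∀ n, (H n : Set E).Finite := fun n => by
    have h1 : Module.Finite k (H n) := Module.Finite.iff_fg.2 (h.fg n)
    have h2 : Finite (H n) := Module.finite_of_finite k
    exact Set.toFinite _
  have hSfin : S.Finite := by
    have h1 : S = ⋃ q ∈ Set.Iic m, (fun c => c * v ^ q) ⁻¹' (H (d * q) : Set E) := by
      rw [hSdef]
      ext c
      simp
    rw [h1]
    refine (Set.finite_Iic m).biUnion fun q _ => ?_
    exact (hHfin _).preimage ((mul_left_injective₀ (hvq q)).injOn)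
  have hSL : S ⊆ h.Lam0 := by
    rw [hSdef]
    rintro c ⟨q, -, hcq⟩
    have h1 := h.lam_div (h.le_Lam _ hcq) (T5_powLam h hv q) (hvq q)
    rwa [mul_assoc, mul_inv_cancel₀ (hvq q), mul_one] at h1
  obtain ⟨N, K, hKfg, hSK, hK1, hKmul, hKmem⟩ := exists_finite_sub h.Lam0 hk halg hcomm S hSfin hSL
  have hconj : ∀ c ∈ K, v * c * v⁻¹ ∈ K := by
    intro c hc
    rw [hKmem] at hc ⊢
    refine ⟨?_, ?_⟩
    · have h1 : v * c ∈ LamSet H (d + 0) := h.lam_mul hv hc.1
      exact h.lam_div h1 hv hv0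
    · rw [T5_conj hv0, hc.2]
  have hconj2 : ∀ q, ∀ c ∈ K, v ^ q * c * (v ^ q)⁻¹ ∈ K := by
    intro q
    induction q with
    | zero =>
      intro c hc
      rw [pow_zero, one_mul, inv_one, mul_one]
      exact hc
    | succ q ih =>
      intro c hc
      have h1 := hconj _ (ih c hc)
      have h2 : v ^ (q + 1) * c * (v ^ (q + 1))⁻¹ = v * (v ^ q * c * (v ^ q)⁻¹) * v⁻¹ := by
        rw [pow_succ', mul_inv_rev]
        simp only [mul_assoc]
      rw [h2]
      exact h1
  have hmain : ∀ n q, n = d * q → ∀ x ∈ H n, x * (v ^ q)⁻¹ ∈ K := by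
    intro n
    induction n using Nat.strong_induction_on with
    | _ n ih =>
      intro q hq x hx
      rcases le_or_gt n m with hnm | hnm
      · apply hSK
        rw [hSdef]
        refine ⟨q, ?_, ?_⟩
        · have h1 : q ≤ d * q := Nat.le_mul_of_pos_left q hd1
          exact (h1.trans hq.ge).trans hnm
        · rw [mul_assoc, inv_mul_cancel₀ (hvq q), mul_one, ← hq]
          exact hx
      · have hle : H n ≤ K.comap (LinearMap.mulRight k (v ^ q)⁻¹) := by
          refine (hm n hnm).trans (iSup₂_le fun i hi => ?_)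
          rw [Finset.mem_Ioo] at hi
          rw [Submodule.mul_le]
          intro a ha b hb
          rw [Submodule.mem_comap, LinearMap.mulRight_apply]
          by_cases ha0 : a = 0
          · rw [ha0, zero_mul, zero_mul]
            exact K.zero_mem
          by_cases hb0 : b = 0
          · rw [hb0, mul_zero, zero_mul]
            exact K.zero_mem
          obtain ⟨q1, hq1, -⟩ := hstr i a (h.le_Lam _ ha) ha0
          obtain ⟨q2, hq2, -⟩ := hstr (n - i) b (h.le_Lam _ hb) hb0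
          have h1 := ih i hi.2 q1 hq1 a ha
          have h2 := ih (n - i) (by omega) q2 hq2 b hb
          have h3 : q = q1 + q2 := by
            have h4 : d * q = d * (q1 + q2) := by
              rw [Nat.mul_add, ← hq1, ← hq2, ← hq]
              omega
            exact Nat.eq_of_mul_eq_mul_left hd1 h4
          have h5 : a * b * (v ^ q)⁻¹ =
              a * (v ^ q1)⁻¹ * (v ^ q1 * (b * (v ^ q2)⁻¹) * (v ^ q1)⁻¹) := by
            rw [h3, add_comm q1 q2, pow_add, mul_inv_rev]
            simp only [mul_assoc]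
            rw [inv_mul_cancel_left₀ (hvq q1)]
            rw [← mul_inv_rev, ← mul_inv_rev, ← pow_add, ← pow_add, add_comm q1 q2]
          rw [h5]
          exact hKmul _ h1 _ (hconj2 q1 _ h2)
        exact hle hx
  have hKf : Module.Finite k K := Module.Finite.iff_fg.2 hKfg
  obtain ⟨n, hn⟩ := hunb (finrank k K)
  have h1 : H n ≠ ⊥ := by
    intro h0
    rw [h0, finrank_bot] at hn
    omega
  obtain ⟨x, hx, hx0⟩ := (Submodule.ne_bot_iff _).1 h1
  obtain ⟨q, hq, -⟩ := hstr n x (h.le_Lam _ hx) hx0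
  have h2 : finrank k ↥(H n) ≤ finrank k ↥K := by
    refine LinearMap.finrank_le_finrank_of_injective
      (f := (LinearMap.mulRight k (v ^ q)⁻¹).restrict (p := H n) (q := K)
        (fun x hx => hmain n q hq x hx)) ?_
    intro a b hab
    have h3 : (a : E) * (v ^ q)⁻¹ = (b : E) * (v ^ q)⁻¹ := congrArg Subtype.val hab
    exact Subtype.ext (mul_right_cancel₀ (inv_ne_zero (hvq q)) h3)
  omega

end Pool.Agent.BQG
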