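import Pool.Agent.H.MP_fbbc72_al.h23.T4
import Pool.Agent.H.MP_fbbc72_al.h23.T5

set_option autoImplicit false

namespace Pool.Agent.BQG

open Module MulOpposite

universe u v

variable {k : Type v} {E : Type u} [Field k] [DivisionRing E] [Algebra k E]

/-- spreading a family over the multiples of `l` -/
theorem T6_spread {K : ℕ → Submodule k E} {l : ℕ} (hl : 1 ≤ l) (a : ℕ → E)
    (ha : ∀ j, a j ∈ K (j * l)) (N : ℕ) :
    ∃ x : ℕ → E, (∀ n, x n ∈ K n) ∧ ∑ n ∈ Finset.range (N * l), x n = ∑ j ∈ Finset.range N, a j ∧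
      ∀ j, x (j * l) = a j := by
  classical
  refine ⟨fun n => if l ∣ n then a (n / l) else 0, fun n => ?_, ?_, fun j => ?_⟩
  · by_cases h : l ∣ n
    · simp only [if_pos h]
      have h1 := ha (n / l)
      rwa [Nat.div_mul_cancel h] at h1
    · simp only [if_neg h]
      exact Submodule.zero_mem _
  · induction N with
    | zero => simp
    | succ N ih =>
      rw [Nat.succ_mul, Finset.sum_range_add, ih, Finset.sum_range_succ]
      congr 1
      rw [Finset.sum_eq_single 0]
      · rw [add_zero, if_pos (dvd_mul_left l N), Nat.mul_div_cancel N hl]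
      · intro i hi hi0
        rw [if_neg]
        intro h
        have h1 : l ∣ i := (Nat.dvd_add_right (dvd_mul_left l N)).1 h
        exact hi0 (Nat.eq_zero_of_dvd_of_lt h1 (Finset.mem_range.1 hi))
      · intro h
        exact absurd (Finset.mem_range.2 hl) h
  · simp only [if_pos (dvd_mul_left l j), Nat.mul_div_cancel j hl]

/-- independence along the multiples of `l` -/
theorem T6_indep {K : ℕ → Submodule k E}
    (hK : ∀ (M : ℕ) (x : ℕ → E), (∀ n, x n ∈ K n) → ∑ n ∈ Finset.range M, x n = 0 →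
      ∀ n < M, x n = 0) {l : ℕ} (hl : 1 ≤ l) (a : ℕ → E) (ha : ∀ j, a j ∈ K (j * l)) (N : ℕ)
    (h0 : ∑ j ∈ Finset.range N, a j = 0) : ∀ j < N, a j = 0 := by
  obtain ⟨x, hx, hs, hxa⟩ := T6_spread hl a ha N
  rw [h0] at hs
  intro j hj
  rw [← hxa j]
  exact hK _ x hx hs _ (Nat.mul_lt_mul_of_pos_right hj hl)

theorem T6_pow {H : ℕ → Submodule k E} {C : ℕ} (h : GrDom H C) {l : ℕ} {y : E} (hy : y ∈ H l)
    (i : ℕ) : y ^ i ∈ H (i * l) := by
  induction i with
  | zero =>
    rw [pow_zero, zero_mul]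
    exact h.one
  | succ i ih =>
    rw [pow_succ, Nat.succ_mul]
    exact h.mul _ _ _ ih _ hy

/-- nonzero homogeneous elements of positive degree are transcendental -/
theorem T6_transc {H : ℕ → Submodule k E} {C : ℕ} (h : GrDom H C) {l : ℕ} (hl : 1 ≤ l) {y : E}
    (hy : y ∈ H l) (hy0 : y ≠ 0) : Transcendental k y := by
  rintro ⟨p, hp, hp0⟩
  apply hp
  rw [Polynomial.aeval_eq_sum_range] at hp0
  have h1 := T6_indep h.indep hl (fun j => p.coeff j • y ^ j)
    (fun j => Submodule.smul_mem _ _ (T6_pow h hy j)) _ hp0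
  ext j
  rw [Polynomial.coeff_zero]
  by_cases hj : j < p.natDegree + 1
  · exact (smul_eq_zero.1 (h1 j hj)).resolve_right (pow_ne_zero j hy0)
  · exact Polynomial.coeff_eq_zero_of_natDegree_lt (by omega)

theorem T6_mulS {H : ℕ → Submodule k E} {C : ℕ} (h : GrDom H C) {a b : ℕ} {x y : E}
    (hx : x ∈ ⨆ i ∈ Finset.range (a + 1), H i) (hy : y ∈ ⨆ i ∈ Finset.range (b + 1), H i) :
    x * y ∈ ⨆ i ∈ Finset.range (a + b + 1), H i := by
  obtain ⟨f, hf⟩ := (Submodule.mem_iSup_finset_iff_exists_sum _ _).1 hx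
  obtain ⟨g, hg⟩ := (Submodule.mem_iSup_finset_iff_exists_sum _ _).1 hy
  rw [← hf, ← hg, Finset.sum_mul_sum]
  refine Submodule.sum_mem _ fun i hi => Submodule.sum_mem _ fun j hj => ?_
  have hi' := Finset.mem_range.1 hi
  have hj' := Finset.mem_range.1 hj
  exact Submodule.mem_iSup_of_mem (i + j)
    (Submodule.mem_iSup_of_mem (Finset.mem_range.2 (by omega)) (h.mul _ _ _ (f i).2 _ (g j).2))

theorem T6_powS {H : ℕ → Submodule k E} {C : ℕ} (h : GrDom H C) {m : ℕ} {V : Submodule k E}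
    (hV : V ≤ ⨆ i ∈ Finset.range (m + 1), H i) (n : ℕ) :
    V ^ n ≤ ⨆ i ∈ Finset.range (m * n + 1), H i := by
  induction n with
  | zero =>
    rw [pow_zero, Submodule.one_le, mul_zero]
    exact Submodule.mem_iSup_of_mem 0
      (Submodule.mem_iSup_of_mem (Finset.mem_range.2 (by omega)) h.one)
  | succ n ih =>
    rw [pow_succ, Submodule.mul_le]
    intro x hx y hy
    have h1 := T6_mulS h (ih hx) (hV hy)
    rwa [show m * n + m + 1 = m * (n + 1) + 1 by ring] at h1

theorem T6_finrank {H : ℕ → Submodule k E} {C : ℕ} (h : GrDom H C) {B : ℕ}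
    (hB : ∀ n, finrank k ↥(H n) ≤ B) (a : ℕ) :
    FiniteDimensional k ↥(⨆ i ∈ Finset.range a, H i) ∧
      finrank k ↥(⨆ i ∈ Finset.range a, H i) ≤ a * B := by
  classical
  induction a with
  | zero =>
    have h0 : (⨆ i ∈ Finset.range 0, H i) = ⊥ := by simp
    rw [h0]
    exact ⟨inferInstance, by simp⟩
  | succ a ih =>
    rw [Finset.range_add_one, Finset.iSup_insert]
    obtain ⟨ih1, ih2⟩ := ih
    have : FiniteDimensional k ↥(H a) := Module.Finite.iff_fg.mpr (h.fg a)
    refine ⟨inferInstance, ?_⟩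
    refine (Submodule.finrank_add_le_finrank_add_finrank _ _).trans ?_
    have := hB a
    rw [Nat.succ_mul]
    omega

theorem T6_exists {H : ℕ → Submodule k E} {V : Submodule k E} (hV : V.FG)
    (hle : V ≤ ⨆ i, H i) : ∃ m, V ≤ ⨆ i ∈ Finset.range (m + 1), H i := by
  classical
  obtain ⟨s, hs⟩ := CompleteLattice.IsCompactElement.exists_finset_of_le_iSup _
    ((Submodule.fg_iff_compact V).1 hV) H hle
  refine ⟨s.sup id, hs.trans (iSup₂_le fun i hi => ?_)⟩
  have h1 : i ≤ s.sup id := Finset.le_sup (f := id) hi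
  exact le_iSup₂_of_le i (Finset.mem_range.2 (by omega)) le_rfl

/-- If `E` is not finite over its centre the dimensions of the `H n` are unbounded. Suppose
`finrank (H n) ≤ B` for all `n`. By `exists_pos` there is `0 ≠ y ∈ H l`, `l ≥ 1`; `y` is
transcendental over `k` (the powers are in different degrees). By `Quad.lower` (for the `V` of
`GrDom.quad`, and `V ≤ ⨆ i ≤ m, H i` for some `m` since `V` is finitely generated, so
`V^n ≤ ⨆ i ≤ m n, H i`): `(n+1)^2 ≤ finrank (V^(e n)) ≤ B (m e n + 1)` for all `n`,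
contradiction. -/
theorem GrDom.unbounded {H : ℕ → Submodule k E} {C : ℕ} (h : GrDom H C) (hE : ¬ FinCent E) :
    ∀ B, ∃ n, B < finrank k ↥(H n) := by
  by_contra hcon
  push Not at hcon
  obtain ⟨B, hB⟩ := hcon
  obtain ⟨l, hl, y, hy, hy0⟩ := h.exists_pos hE
  obtain ⟨V, C', hQ, -, hVS⟩ := T1_quad h
  obtain ⟨m, hV⟩ := T6_exists hQ.fg (by
    have h1 := hVS 1
    rwa [pow_one] at h1)
  obtain ⟨e, he⟩ := hQ.lower hE (T6_transc h hl hy hy0)
  have h1 : ∀ n, (n + 1) ^ 2 ≤ (m * (e * n) + 1) * B := by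
    intro n
    obtain ⟨h2, h3⟩ := T6_finrank h hB (m * (e * n) + 1)
    exact (he n).trans ((Submodule.finrank_mono (T6_powS h hV (e * n))).trans h3)
  have h4 := h1 ((m * e + 1) * B)
  have h5 : (m * (e * ((m * e + 1) * B)) + 1) * B ≤ (m * e + 1) * B * ((m * e + 1) * B + 1) := by
    have h6 : m * (e * ((m * e + 1) * B)) + 1 ≤ (m * e + 1) * ((m * e + 1) * B + 1) := by
      nlinarith [Nat.zero_le ((m * e + 1) * B), Nat.zero_le (m * e)]
    calc (m * (e * ((m * e + 1) * B)) + 1) * B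
        ≤ ((m * e + 1) * ((m * e + 1) * B + 1)) * B := Nat.mul_le_mul_right _ h6
      _ = (m * e + 1) * B * ((m * e + 1) * B + 1) := by ring
  have h7 := h4.trans h5
  nlinarith

/-- THEOREM T. The division ring of fractions of a finitely generated graded domain of quadratic
growth over a finite field is finite-dimensional over its centre.

Suppose not. `w ∈ Lam 0` transcendental (`unbounded`, `exists_transc`), `0 ≠ y ∈ H l`, `l ≥ 1`
(`exists_pos`). Apply `Quad.bimodChain` (for the `V` of `GrDom.quad`) with `a = w` and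
`E n = ⨆ j ∈ Finset.range (n+1), h.Lam (j * l)`: `hstrict` since `y^(n+1) ∈ Lam ((n+1) l)` is not in
`E n` (`Lam_indep`); `hl`, `hr` as `gen k w ≤ h.Lam0` and `Lam 0 · Lam j`, `Lam j · Lam 0 ≤ Lam j`;
`hL` is `lamsum_bound`; for `hR` apply `lamsum_bound` to `h.opp` and `op w` (`Lam_opp`,
`transc_op`; `¬ FinCent Eᵐᵒᵖ` by `finCent_of_op`), where
`x ∈ ⨆ j, h.Lam (j l)` implies `op x ∈ ⨆ j, h.opp.Lam (j l)`. Take the maximum of the two `B`. -/
theorem GrDom.finCent [Finite k] {H : ℕ → Submodule k E} {C : ℕ} (h : GrDom H C) :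
    FinCent E := by
  classical
  by_contra hE
  obtain ⟨w, hw, hwt⟩ := h.exists_transc (h.unbounded hE)
  obtain ⟨l, hl, y, hy, hy0⟩ := h.exists_pos hE
  obtain ⟨V, C', hQ, -⟩ := h.quad
  obtain ⟨B1, hB1⟩ := h.lamsum_bound hE hw hwt l
  obtain ⟨B2, hB2⟩ := h.opp.lamsum_bound (fun h' => hE (finCent_of_op h'))
    ((h.Lam_opp 0 w).2 hw) (transc_op hwt) l
  have hgen : ∀ f ∈ BQG.gen k w, f ∈ h.Lam 0 := by
    intro f hf
    have h1 : BQG.gen k w ≤ h.Lam0 := by
      refine gen_le hw fun c => ?_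
      have h2 : c • (1 : E) ∈ h.Lam 0 := Submodule.smul_mem _ _ (h.le_Lam 0 h.one)
      rwa [← Algebra.algebraMap_eq_smul_one] at h2
    exact h1 hf
  refine hE (hQ.bimodChain hwt (fun n => ⨆ j ∈ Finset.range (n + 1), h.Lam (j * l)) ?_ ?_ ?_ ?_
    (max B1 B2) ?_ ?_)
  · intro a b hab
    refine iSup₂_mono' fun j hj => ⟨j, ?_, le_rfl⟩
    have := Finset.mem_range.1 hj
    exact Finset.mem_range.2 (by omega)
  · intro n hn
    have h1 : y ^ (n + 1) ∈ ⨆ j ∈ Finset.range (n + 1 + 1), h.Lam (j * l) :=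
      Submodule.mem_iSup_of_mem (n + 1)
        (Submodule.mem_iSup_of_mem (Finset.mem_range.2 (by omega)) (h.le_Lam _ (T6_pow h hy _)))
    have h2 : y ^ (n + 1) ∈ ⨆ j ∈ Finset.range (n + 1), h.Lam (j * l) := by
      have h3 : (⨆ j ∈ Finset.range (n + 1), h.Lam (j * l))
        = ⨆ j ∈ Finset.range (n + 1 + 1), h.Lam (j * l) := hn
      rw [h3]
      exact h1
    obtain ⟨f, hf⟩ := (Submodule.mem_iSup_finset_iff_exists_sum _ _).1 h2
    have h4 := T6_indep (K := h.Lam) h.Lam_indep hl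
      (fun j => if j ≤ n then (f j : E) else if j = n + 1 then -y ^ (n + 1) else 0) (by
        intro j
        split_ifs with h5 h6
        · exact (f j).2
        · rw [h6]
          exact Submodule.neg_mem _ (h.le_Lam _ (T6_pow h hy _))
        · exact Submodule.zero_mem _) (n + 1 + 1) (by
        rw [Finset.sum_range_succ, if_neg (by omega), if_pos rfl, ← sub_eq_add_neg, sub_eq_zero,
          ← hf]
        refine Finset.sum_congr rfl fun j hj => ?_
        have := Finset.mem_range.1 hj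
        rw [if_pos (by omega)]) (n + 1) (by omega)
    rw [if_neg (by omega), if_pos rfl, neg_eq_zero] at h4
    exact pow_ne_zero _ hy0 h4
  · intro n f hf x hx
    obtain ⟨g, hg⟩ := (Submodule.mem_iSup_finset_iff_exists_sum _ _).1 hx
    rw [← hg, Finset.mul_sum]
    refine Submodule.sum_mem _ fun j hj => ?_
    refine Submodule.mem_iSup_of_mem j (Submodule.mem_iSup_of_mem hj ?_)
    have h1 := h.lam_mul (hgen f hf) (g j).2
    rwa [zero_add] at h1
  · intro n f hf x hx
    obtain ⟨g, hg⟩ := (Submodule.mem_iSup_finset_iff_exists_sum _ _).1 hx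
    rw [← hg, Finset.sum_mul]
    refine Submodule.sum_mem _ fun j hj => ?_
    refine Submodule.mem_iSup_of_mem j (Submodule.mem_iSup_of_mem hj ?_)
    exact h.lam_mul (g j).2 (hgen f hf)
  · intro n N x hx hxm
    exact (hB1 n N x hx hxm).trans (Nat.mul_le_mul_right _ (le_max_left _ _))
  · intro n N x hx hxm
    refine (hB2 n N _ hx fun i => ?_).trans (Nat.mul_le_mul_right _ (le_max_right _ _))
    obtain ⟨g, hg⟩ := (Submodule.mem_iSup_finset_iff_exists_sum _ _).1 (hxm i)
    rw [← hg, Finset.op_sum]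
    refine Submodule.sum_mem _ fun j hj => ?_
    exact Submodule.mem_iSup_of_mem j (Submodule.mem_iSup_of_mem hj ((h.Lam_opp _ _).2 (g j).2))

end Pool.Agent.BQG
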