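import Pool.Agent.H.MP_fbbc72_al.h23.W2

set_option autoImplicit false

namespace Pool.Agent.BQG

open Module

variable {k D : Type*} [Field k] [DivisionRing D] [Algebra k D]

/-- A filtration of a subalgebra of `D` with quotient division ring `D`, of quadratic growth. -/
structure Filt (R : ℕ → Submodule k D) (C : ℕ) : Prop where
  fg : ∀ n, (R n).FG
  one : (1 : D) ∈ R 0
  mono : Monotone R
  mul : ∀ m n, ∀ x ∈ R m, ∀ y ∈ R n, x * y ∈ R (m + n)
  growth : ∀ n, finrank k ↥(R n) ≤ C * (n + 1) ^ 2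
  frac : ∀ d : D, ∃ n, ∃ u ∈ R n, ∃ v ∈ R n, v ≠ 0 ∧ d = u * v⁻¹

/-- the left `k(a)`-span of a subspace -/
def fspan (a : D) (W : Submodule k D) : Submodule (gen k a) D :=
  Submodule.span (gen k a) (W : Set D)

theorem W3_pow_mem {R : ℕ → Submodule k D} {C : ℕ} (h : Filt R C) {a : D} {e : ℕ}
    (hae : a ∈ R e) (i : ℕ) : a ^ i ∈ R (i * e) := by
  induction i with
  | zero =>
    rw [pow_zero, zero_mul]
    exact h.one
  | succ i ih =>
    rw [pow_succ, Nat.succ_mul]
    exact h.mul _ _ _ ih _ hae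

theorem W3_card {R : ℕ → Submodule k D} {C : ℕ} (h : Filt R C) (m : ℕ) {ι : Type*} [Fintype ι]
    {z : ι → D} (hz : LinearIndependent k z) (hzm : ∀ i, z i ∈ R m) :
    Fintype.card ι ≤ C * (m + 1) ^ 2 := by
  have : Module.Finite k ↥(R m) := Module.Finite.iff_fg.2 (h.fg m)
  have h1 : LinearIndependent k (fun i => (⟨z i, hzm i⟩ : ↥(R m))) :=
    LinearIndependent.of_comp (R m).subtype hz
  exact h1.fintype_card_le_finrank.trans (h.growth m)

theorem W3_indep {K : Subfield D} (s : Set D) {N : ℕ} {x : Fin N → D}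
    (hx : LinearIndependent K x) (hxm : ∀ i, x i ∈ Submodule.span K s) :
    ∃ y : Fin N → D, LinearIndependent K y ∧ ∀ i, y i ∈ s := by
  obtain ⟨b, hb, hbs, hbi⟩ := exists_linearIndependent K s
  have h1 : LinearIndependent K (fun i => (⟨x i, hxm i⟩ : ↥(Submodule.span K s))) :=
    LinearIndependent.of_comp (Submodule.span K s).subtype hx
  have h2 := h1.cardinal_lift_le_rank
  rw [← hbs, rank_span_set hbi] at h2
  obtain ⟨g⟩ := Cardinal.lift_mk_le'.1 h2
  exact ⟨fun i => (g i : D), hbi.comp g g.injective, fun i => hb (g i).2⟩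

/-- Linear growth over `k(a)` of the spans. If `x : Fin N → D` is `k(a)`-independent in
`fspan a (R n)` then there is a `k(a)`-independent family of the same size in `R n`
(`fspan a (R n)` is spanned by `R n`, so it has a basis consisting of elements of `R n`; it is
finite-dimensional as `R n` is), and for such a family the `a^i x_j`, `i ≤ l`, are `k`-independent
(`indep_mul_k` with `indep_pow`) and lie in `R (n + l e)`. So `(l+1) N ≤ C (n + l e + 1)^2`; take
`l = n`: `(n+1) N ≤ C ((n+1)(e+1))^2`. -/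
theorem Filt.fspan_rank {R : ℕ → Submodule k D} {C : ℕ} (h : Filt R C) {a : D}
    (ha : Transcendental k a) {e : ℕ} (hae : a ∈ R e) (n N : ℕ) (x : Fin N → D)
    (hx : LinearIndependent (gen k a) x) (hxm : ∀ i, x i ∈ fspan a (R n)) :
    N ≤ C * (e + 1) ^ 2 * (n + 1) := by
  obtain ⟨y, hy, hym⟩ := W3_indep (R n : Set D) hx hxm
  have h1 : LinearIndependent k (fun i : Fin (n + 1) => a ^ (i : ℕ)) :=
    (indep_pow ha).comp _ Fin.val_injective
  have h2 := indep_mul_k (k := k) (K := gen k a) (algebraMap_mem_gen a) _ h1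
    (fun i => pow_mem_gen a i) y hy
  have h3 := W3_card h (n * e + n) h2 (by
    intro p
    have h4 := h.mul _ _ _ (W3_pow_mem h hae (p.1 : ℕ)) _ (hym p.2)
    refine h.mono ?_ h4
    have h5 : (p.1 : ℕ) ≤ n := by have := p.1.2; omega
    have h6 : (p.1 : ℕ) * e ≤ n * e := Nat.mul_le_mul_right _ h5
    omega)
  rw [Fintype.card_prod, Fintype.card_fin, Fintype.card_fin] at h3
  have h4 : C * (n * e + n + 1) ^ 2 ≤ C * ((n + 1) * (e + 1)) ^ 2 := by
    refine Nat.mul_le_mul_left _ (Nat.pow_le_pow_left ?_ 2)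
    nlinarith
  have h5 : (n + 1) * N ≤ (n + 1) * (C * (e + 1) ^ 2 * (n + 1)) := by
    refine (h3.trans h4).trans (le_of_eq ?_)
    ring
  exact Nat.le_of_mul_le_mul_left h5 (Nat.succ_pos n)

/-- In characteristic `p`: if `[v, R_n] ≤ R_{n+d-1}` for all `n`, then
`[v^i, a] ∈ R_{i d + e - p^{v_p(i)}}`.

Proof. `i = q i'` with `q = p ^ padicValNat p i`. `ad v = mulLeft v - mulRight v`, the two commute,
so in characteristic `p` `(ad v)^q = mulLeft (v^q) - mulRight (v^q)` (`sub_pow_char_pow_of_commute`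
or `Commute.sub_pow_char_pow`..., in the ring `Module.End k D`, which has characteristic `p`), i.e.
`[v^q, a] = (ad v)^q a ∈ R_{e + q (d-1)}` by induction. Then
`[v^{q i'}, a] = ∑_{s<i'} v^{q s} [v^q, a] v^{q (i'-1-s)}` lies in
`R_{q s d + e + q (d-1) + q (i'-1-s) d} = R_{i d + e - q}` (note `q ≤ i d`, as `d ≥ 1`). -/
theorem Filt.comm_pow {R : ℕ → Submodule k D} {C : ℕ} (h : Filt R C) {p : ℕ} (hp : p.Prime)
    [CharP k p] {a v : D} {e d : ℕ} (hd : 1 ≤ d) (hae : a ∈ R e) (hv : v ∈ R d)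
    (hcent : ∀ n, ∀ x ∈ R n, v * x - x * v ∈ R (n + d - 1)) (i : ℕ) (hi : 1 ≤ i) :
    v ^ i * a - a * v ^ i ∈ R (i * d + e - p ^ (padicValNat p i)) := by
  have : Fact p.Prime := ⟨hp⟩
  have : CharP (Module.End k D) p :=
    charP_of_injective_algebraMap (algebraMap k (Module.End k D)).injective p
  obtain ⟨t, ht⟩ : ∃ t, t = padicValNat p i := ⟨_, rfl⟩
  obtain ⟨i', hi'⟩ : p ^ t ∣ i := by
    rw [ht]
    exact pow_padicValNat_dvd
  rw [← ht]
  have hi1 : 1 ≤ i' := by
    rcases Nat.eq_zero_or_pos i' with h0 | h0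
    · rw [h0, mul_zero] at hi'
      omega
    · exact h0
  -- iterated commutators
  have had : ∀ j : ℕ, ((LinearMap.mulLeft k v - LinearMap.mulRight k v) ^ j : Module.End k D) a ∈
      R (e + j * (d - 1)) := by
    intro j
    induction j with
    | zero =>
      rw [pow_zero, zero_mul]
      exact hae
    | succ j ih =>
      rw [pow_succ', Module.End.mul_apply, LinearMap.sub_apply, LinearMap.mulLeft_apply,
        LinearMap.mulRight_apply]
      have h1 := hcent _ _ ih
      refine h.mono (le_of_eq ?_) h1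
      rw [Nat.succ_mul]
      omega
  have hq : v ^ p ^ t * a - a * v ^ p ^ t ∈ R (e + p ^ t * (d - 1)) := by
    have h1 := had (p ^ t)
    rw [sub_pow_char_pow_of_commute _ _ (LinearMap.commute_mulLeft_right (R := k) v v), LinearMap.sub_apply,
      LinearMap.pow_mulLeft, LinearMap.pow_mulRight, LinearMap.mulLeft_apply,
      LinearMap.mulRight_apply] at h1
    exact h1
  have hq1 : 1 ≤ p ^ t := Nat.one_le_pow _ _ hp.pos
  rw [hi', pow_mul, telescope]
  refine Submodule.sum_mem _ fun s hs => ?_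
  rw [Finset.mem_range] at hs
  have hv1 : (v ^ p ^ t) ^ s ∈ R (s * (p ^ t * d)) := W3_pow_mem h (W3_pow_mem h hv _) s
  have hv2 : (v ^ p ^ t) ^ (i' - 1 - s) ∈ R ((i' - 1 - s) * (p ^ t * d)) :=
    W3_pow_mem h (W3_pow_mem h hv _) _
  have h1 := h.mul _ _ _ (h.mul _ _ _ hv1 _ hq) _ hv2
  refine h.mono (le_of_eq ?_) h1
  obtain ⟨r, hr⟩ : ∃ r, i' = s + 1 + r := ⟨i' - 1 - s, by omega⟩
  obtain ⟨d', hd'⟩ : ∃ d', d = d' + 1 := ⟨d - 1, by omega⟩
  have h2 : i' - 1 - s = r := by omega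
  rw [h2, hr, hd', Nat.add_sub_cancel]
  have h3 : p ^ t * (s + 1 + r) * (d' + 1) + e =
      s * (p ^ t * (d' + 1)) + (e + p ^ t * d') + r * (p ^ t * (d' + 1)) + p ^ t := by ring
  rw [h3, Nat.add_sub_cancel]

end Pool.Agent.BQG
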