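import Pool.Agent.H.MP_fbbc72_al.h23.G3
import Pool.Agent.H.MP_fbbc72_al.h23.T6
import Pool.Agent.H.MP_fbbc72_al.h23.D2
import Pool.Agent.H.MP_fbbc72_al.h23.W3

set_option autoImplicit false

namespace Pool.Agent.BQG

open Module

universe u v

variable {k : Type v} {D : Type u} [Field k] [DivisionRing D] [Algebra k D]

/-- the associated graded algebra is finitely generated -/
def FG (R : ℕ → Submodule k D) : Prop :=
  ∃ m, ∀ n, m < n → R n ≤ R (n - 1) ⊔ ⨆ i ∈ Finset.Ioo 0 n, R i * R (n - i)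

/-- `finrank` of the images: `∑_{i ≤ n} (finrank (R i) - finrank (N i)) ≤ finrank (R n)`, because
`R (i-1) ≤ N i ≤ R i` for `i ≥ 1`. -/
theorem sum_rank_le {R : ℕ → Submodule k D} {C : ℕ} (hR : Filt R C) {N : ℕ → Submodule k D}
    (hN : SymPair R N) (n : ℕ) :
    ∑ i ∈ Finset.range (n + 1), (finrank k ↥(R i) - finrank k ↥(N i)) ≤ C * (n + 1) ^ 2 := by
  have hfin : ∀ n, Module.Finite k ↥(R n) := fun n => Module.Finite.iff_fg.2 (hR.fg n)
  have hfinN : ∀ n, Module.Finite k ↥(N n) := fun n => by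
    have := hfin n
    exact Submodule.finiteDimensional_of_le (hN.le n)
  refine le_trans ?_ (hR.growth n)
  induction n with
  | zero =>
    rw [zero_add, Finset.sum_range_one]
    exact Nat.sub_le _ _
  | succ n ih =>
    rw [Finset.sum_range_succ]
    have h1 : finrank k ↥(R n) ≤ finrank k ↥(N (n + 1)) := by
      have := hfinN (n + 1)
      exact Submodule.finrank_mono (hN.low n)
    have h2 : finrank k ↥(N (n + 1)) ≤ finrank k ↥(R (n + 1)) := by
      have := hfin (n + 1)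
      exact Submodule.finrank_mono (hN.le (n + 1))
    omega

/-- The image of the symbol map: an element of `R (n-1) ⊔ ∑ R i * R (n-i)` is mapped to
`∑ H i * H (n-i)`. -/
theorem F1_gen {E : Type u} [DivisionRing E] [Algebra k E] {R N : ℕ → Submodule k D}
    {C : ℕ} (hR : Filt R C) (hN : SymPair R N) {φ : ℕ → D →ₗ[k] E}
    (hφ : Symb R N φ) {n : ℕ} (hn : 1 ≤ n)
    (h : R n ≤ R (n - 1) ⊔ ⨆ i ∈ Finset.Ioo 0 n, R i * R (n - i)) :
    (R n).map (φ n) ≤ ⨆ i ∈ Finset.Ioo 0 n, (R i).map (φ i) * (R (n - i)).map (φ (n - i)) := by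
  refine (Submodule.map_mono h).trans ?_
  rw [Submodule.map_sup, sup_le_iff]
  constructor
  · rintro _ ⟨a, ha, rfl⟩
    have h1 : a ∈ N n := by
      have := hN.low (n - 1) ha
      rwa [Nat.sub_add_cancel hn] at this
    rw [(hφ.ker n a (hR.mono (Nat.sub_le n 1) ha)).2 h1]
    exact Submodule.zero_mem _
  · rw [Submodule.map_iSup]
    refine iSup_le fun i => ?_
    rw [Submodule.map_iSup]
    refine iSup_le fun hi => ?_
    have hi' := Finset.mem_Ioo.1 hi
    rw [Submodule.map_le_iff_le_comap, Submodule.mul_le]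
    intro x hx y hy
    rw [Submodule.mem_comap]
    have h1 := hφ.mul i (n - i) x hx y hy
    rw [Nat.add_sub_cancel' hi'.2.le] at h1
    rw [h1]
    refine Submodule.mem_iSup_of_mem i (Submodule.mem_iSup_of_mem hi ?_)
    exact Submodule.mul_mem_mul ⟨x, hx, rfl⟩ ⟨y, hy, rfl⟩

/-- The images `H n = (R n).map (φ n)` form a graded domain: `growth` by `growth_linear` and
`sum_rank_le` (rank-nullity: `finrank (H n) = finrank (R n) - finrank (N n)`), `gen` because
`φ n` kills `R (n-1) ≤ N n`, the other fields from `Symb`. -/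
theorem Symb.grDom {E : Type u} [DivisionRing E] [Algebra k E] {R N : ℕ → Submodule k D}
    {C : ℕ} (hR : Filt R C) (hfg : FG R) (hN : SymPair R N) {φ : ℕ → D →ₗ[k] E}
    (hφ : Symb R N φ) : ∃ C', GrDom (fun n => (R n).map (φ n)) C' := by
  classical
  have hmul : ∀ m n, ∀ x ∈ (R m).map (φ m), ∀ y ∈ (R n).map (φ n),
      x * y ∈ (R (m + n)).map (φ (m + n)) := by
    rintro m n _ ⟨x, hx, rfl⟩ _ ⟨y, hy, rfl⟩
    exact ⟨x * y, hR.mul m n x hx y hy, hφ.mul m n x hx y hy⟩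
  obtain ⟨C', hC'⟩ := growth_linear (H := fun n => (R n).map (φ n))
    (fun n => (hR.fg n).map _) hmul C (by
      intro n
      refine le_trans (le_of_eq ?_) (sum_rank_le hR hN n)
      refine Finset.sum_congr rfl fun i _ => ?_
      exact G3_finrank_map (R i) (N i) (hR.fg i) (hN.le i) (φ i) (hφ.ker i))
  refine ⟨C', ?_, ?_, hmul, ?_, hC', ?_, hφ.frac⟩
  · exact fun n => (hR.fg n).map _
  · exact ⟨1, hR.one, hφ.one⟩
  · intro M x hx hsum n hn
    choose y hy hyx using hx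
    have h1 := hφ.indep M y hy (by
      rw [← hsum]
      exact Finset.sum_congr rfl fun i _ => hyx i) n hn
    rw [← hyx n]
    exact h1
  · obtain ⟨m, hm⟩ := hfg
    exact ⟨m, fun n hn => F1_gen hR hN hφ (by omega) (hm n hn)⟩

/-- rank-nullity -/
theorem Symb.rank {E : Type u} [DivisionRing E] [Algebra k E] {R N : ℕ → Submodule k D}
    {C : ℕ} (hR : Filt R C) (hN : SymPair R N) {φ : ℕ → D →ₗ[k] E}
    (hφ : Symb R N φ) (n : ℕ) :
    finrank k ↥((R n).map (φ n)) + finrank k ↥(N n) = finrank k ↥(R n) := by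
  have h1 := G3_finrank_map (R n) (N n) (hR.fg n) (hN.le n) (φ n) (hφ.ker n)
  have : Module.Finite k ↥(R n) := Module.Finite.iff_fg.2 (hR.fg n)
  have h2 : finrank k ↥(N n) ≤ finrank k ↥(R n) := Submodule.finrank_mono (hN.le n)
  omega

/-- If `c x - x c ∈ N (n + m)` then the symbols commute. -/
theorem F1_comm_iff {E : Type u} [DivisionRing E] [Algebra k E] {R N : ℕ → Submodule k D}
    {C : ℕ} (hR : Filt R C) {φ : ℕ → D →ₗ[k] E}
    (hφ : Symb R N φ) {n m : ℕ} {c x : D} (hc : c ∈ R n) (hx : x ∈ R m) :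
    c * x - x * c ∈ N (n + m) ↔ φ n c * φ m x = φ m x * φ n c := by
  have h1 := hφ.mul n m c hc x hx
  have h2 := hφ.mul m n x hx c hc
  have h3 := hR.mul n m c hc x hx
  have h4 := hR.mul m n x hx c hc
  rw [add_comm m n] at h2 h4
  rw [← hφ.ker (n + m) _ (Submodule.sub_mem _ h3 h4), map_sub, h1, h2, sub_eq_zero]

/-- Central multiples. From `exists_symb`, `Symb.grDom`, `GrDom.finCent`, `GrDom.central` for
`x = φ n c`: `y = φ b y'`, `y' ∈ R b`, and `φ (n+b) (c y') = φ n c * φ b y'` commutes with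
all `φ m x`. Note `φ (n+b+m) (c y' x - x c y') = 0`, so the element is in `N (n+b+m)` (`hφ.ker`). -/
theorem SymPair.exists_central [Finite k] {R : ℕ → Submodule k D} {C : ℕ} (hR : Filt R C)
    (hfg : FG R) {N : ℕ → Submodule k D} (hN : SymPair R N) {n : ℕ} {c : D} (hc : c ∈ R n)
    (hcN : c ∉ N n) :
    ∃ b, ∃ y ∈ R b, c * y ∉ N (n + b) ∧
      ∀ m, ∀ x ∈ R m, c * y * x - x * (c * y) ∈ N (n + b + m) := by
  obtain ⟨E, iE, iA, φ, hφ⟩ := exists_symb hN hR.fg C (sum_rank_le hR hN)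
  obtain ⟨C', gr⟩ := Symb.grDom hR hfg hN hφ
  have hE := gr.finCent
  have hc0 : φ n c ≠ 0 := fun h0 => hcN ((hφ.ker n c hc).1 h0)
  obtain ⟨b, y, ⟨y', hy', rfl⟩, hyc, hy0⟩ :=
    gr.central hE (a := n) (x := φ n c) ⟨c, hc, rfl⟩ hc0
  have h1 := hφ.mul n b c hc y' hy'
  rw [← h1] at hyc hy0
  have h2 : c * y' ∈ R (n + b) := hR.mul n b c hc y' hy'
  refine ⟨b, y', hy', ?_, ?_⟩
  · intro h3
    exact hy0 ((hφ.ker (n + b) _ h2).2 h3)
  · intro m x hx
    rw [F1_comm_iff hR hφ h2 hx]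
    exact (Subring.mem_center_iff.1 hyc (φ m x)).symm

/-- An element commuting with all homogeneous elements is central. -/
theorem F1_center {E : Type u} [DivisionRing E] [Algebra k E] {H : ℕ → Submodule k E} {C : ℕ}
    (h : GrDom H C) {z : E} (hz : ∀ m, ∀ x ∈ H m, z * x = x * z) : z ∈ Subring.center E := by
  have h1 : ∀ u ∈ ⨆ n, H n, z * u = u * z := by
    intro u hu
    refine Submodule.iSup_induction H (motive := fun u => z * u = u * z) hu hz ?_ ?_
    · rw [mul_zero, zero_mul]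
    · intro x y hx hy
      rw [mul_add, add_mul, hx, hy]
  rw [Subring.mem_center_iff]
  intro g
  obtain ⟨u, hu, w, hw, hw0, rfl⟩ := h.frac g
  have h2 : Commute z u := h1 u hu
  have h3 : Commute z w := h1 w hw
  exact (h2.mul_right h3.inv_right₀).symm

theorem F1_pow {E : Type u} [DivisionRing E] [Algebra k E] {R N : ℕ → Submodule k D}
    {C : ℕ} (hR : Filt R C) {φ : ℕ → D →ₗ[k] E} (hφ : Symb R N φ) {d : ℕ} {v : D}
    (hv : v ∈ R d) (i : ℕ) : v ^ i ∈ R (i * d) ∧ φ (i * d) (v ^ i) = φ d v ^ i := by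
  induction i with
  | zero =>
    rw [pow_zero, zero_mul, pow_zero]
    exact ⟨hR.one, hφ.one⟩
  | succ i ih =>
    rw [pow_succ, Nat.succ_mul, pow_succ]
    refine ⟨hR.mul _ _ _ ih.1 _ hv, ?_⟩
    rw [hφ.mul _ _ _ ih.1 _ hv, ih.2]

/-- Nondivisibility. From `exists_symb`, `Symb.grDom`, `GrDom.finCent`, `GrDom.exists_transc`
(by `Symb.rank` the dimensions are unbounded), `GrDom.nondiv` for `φ d v` (central, as it commutes
with all the homogeneous elements and `E` consists of fractions). If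
`v^i - a g ∈ N (d i)`, `e + n = d i`, then `(φ d v)^i = φ e a * φ n g`. -/
theorem SymPair.exists_nondiv [Finite k] {R : ℕ → Submodule k D} {C : ℕ} (hR : Filt R C)
    (hfg : FG R) {N : ℕ → Submodule k D} (hN : SymPair R N)
    (hunb : ∀ B, ∃ n, B + finrank k ↥(N n) < finrank k ↥(R n)) {d : ℕ} (hd : 1 ≤ d) {v : D}
    (hv : v ∈ R d) (hvN : v ∉ N d) (hvc : ∀ m, ∀ x ∈ R m, v * x - x * v ∈ N (d + m)) :
    ∃ e, 1 ≤ e ∧ ∃ a ∈ R e, a ∉ N e ∧
      ∀ i n, ∀ g ∈ R n, e + n = d * i → v ^ i - a * g ∉ N (d * i) := by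
  obtain ⟨E, iE, iA, φ, hφ⟩ := exists_symb hN hR.fg C (sum_rank_le hR hN)
  obtain ⟨C', gr⟩ := Symb.grDom hR hfg hN hφ
  have hE := gr.finCent
  obtain ⟨w, hw, hwt⟩ := gr.exists_transc (by
    intro B
    obtain ⟨n, hn⟩ := hunb B
    refine ⟨n, ?_⟩
    have h1 := Symb.rank hR hN hφ n
    show B < finrank k ↥((R n).map (φ n))
    omega)
  have hv0 : φ d v ≠ 0 := fun h0 => hvN ((hφ.ker d v hv).1 h0)
  have hvc' : φ d v ∈ Subring.center E := by
    refine F1_center gr ?_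
    rintro m _ ⟨x, hx, rfl⟩
    exact (F1_comm_iff hR hφ hv hx).1 (hvc m x hx)
  obtain ⟨e, he, _, ⟨a, ha, rfl⟩, ha0, hnd⟩ :=
    gr.nondiv hE hw hwt hd (v := φ d v) ⟨v, hv, rfl⟩ hv0 hvc'
  refine ⟨e, he, a, ha, fun h0 => ha0 ((hφ.ker e a ha).2 h0), ?_⟩
  intro i n g hg hen hmem
  obtain ⟨h1, h2⟩ := F1_pow hR hφ hv i
  rw [mul_comm i d] at h1 h2
  have h3 := hR.mul e n a ha g hg
  have h4 := hφ.mul e n a ha g hg
  rw [hen] at h3 h4
  have h5 := (hφ.ker (d * i) _ (Submodule.sub_mem _ h1 h3)).2 hmem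
  rw [map_sub, h2, h4, sub_eq_zero] at h5
  exact hnd i n (φ n g) ⟨g, hg, rfl⟩ h5

end Pool.Agent.BQG
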