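import Pool.Agent.H.MP_fbbc72_al.h23.F1

set_option autoImplicit false

namespace Pool.Agent.BQG

open Module

universe u v

variable {k : Type v} {D : Type u} [Field k] [DivisionRing D] [Algebra k D]

theorem F2_min {r : ℕ} {P : Finset (Fin r) → Prop} (h : ∃ I, P I) :
    ∃ I, P I ∧ ∀ J : Finset (Fin r), J.card < I.card → ¬ P J := by
  classical
  have h1 : ∃ n, ∃ I : Finset (Fin r), I.card = n ∧ P I := by
    obtain ⟨I, hI⟩ := h
    exact ⟨_, I, rfl, hI⟩
  obtain ⟨I, hIn, hI⟩ := Nat.find_spec h1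
  refine ⟨I, hI, fun J hJ hPJ => ?_⟩
  exact Nat.find_min h1 (m := J.card) (by rw [← hIn]; exact hJ) ⟨J, rfl, hPJ⟩

/-- An irredundant set of components (a minimal `Finset` with the intersection property). For
`i ∈ I` the set `I.erase i` does not have the property: there are `n` and `c ∈ R (n+1)`, not in
`R n`, with `c ∈ N j (n+1)` for `j ∈ I.erase i`; if `c ∈ N i (n+1)` then `c ∈ R n`. -/
theorem exists_irredundant {R : ℕ → Submodule k D} {r : ℕ} (N : Fin r → ℕ → Submodule k D)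
    (hint : ∀ n, ∀ x ∈ R (n + 1), (∀ i, x ∈ N i (n + 1)) → x ∈ R n) :
    ∃ I : Finset (Fin r), (∀ n, ∀ x ∈ R (n + 1), (∀ i ∈ I, x ∈ N i (n + 1)) → x ∈ R n) ∧
      ∀ i ∈ I, ∃ n, ∃ c ∈ R (n + 1), (∀ j ∈ I, j ≠ i → c ∈ N j (n + 1)) ∧ c ∉ N i (n + 1) := by
  classical
  obtain ⟨I, hI, hmin⟩ := F2_min (P := fun I : Finset (Fin r) => ∀ n, ∀ x ∈ R (n + 1),
    (∀ i ∈ I, x ∈ N i (n + 1)) → x ∈ R n)
    ⟨Finset.univ, fun n x hx h => hint n x hx fun i => h i (Finset.mem_univ i)⟩
  refine ⟨I, hI, fun i hi => ?_⟩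
  have h1 := hmin (I.erase i) (Finset.card_erase_lt_of_mem hi)
  push Not at h1
  obtain ⟨n, x, hx, hxj, hxn⟩ := h1
  refine ⟨n, x, hx, fun j hj hji => hxj j (Finset.mem_erase.2 ⟨hji, hj⟩), fun hxi => ?_⟩
  refine hxn (hI n x hx fun j hj => ?_)
  by_cases hji : j = i
  · rw [hji]
    exact hxi
  · exact hxj j (Finset.mem_erase.2 ⟨hji, hj⟩)

theorem F2_pow {R : ℕ → Submodule k D} {C : ℕ} (hR : Filt R C) (m n : ℕ) :
    R m ^ n ≤ R (m * n) := by
  induction n with
  | zero =>
    rw [pow_zero, Nat.mul_zero]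
    exact Submodule.one_le.2 hR.one
  | succ n ih =>
    rw [pow_succ, Nat.mul_succ, Submodule.mul_le]
    intro x hx y hy
    exact hR.mul _ _ _ (ih hx) _ hy

/-- `V = R m` for `m` large as a `Quad` (`m ≥ 1` with the property of `FG`): `R n ≤ V^n` for
`n ≥ 1` by strong induction, `V^n ≤ R (m n)`, so `finrank (V^n) ≤ C (m n + 1)^2 ≤
C (m+1)^2 n^2` for `n ≥ 1`. -/
theorem Filt.quad {R : ℕ → Submodule k D} {C : ℕ} (hR : Filt R C) (hfg : FG R) :
    ∃ (m C' : ℕ), Quad (R m) C' ∧ 1 ≤ m ∧ ∀ n, 1 ≤ n → R n ≤ R m ^ n := by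
  obtain ⟨m0, hm0⟩ := hfg
  have h1m : 1 ≤ m0 + 1 := Nat.succ_le_succ (Nat.zero_le _)
  have hone : ∀ n, (1 : D) ∈ R n := fun n => hR.mono (Nat.zero_le n) hR.one
  have h1V : (1 : Submodule k D) ≤ R (m0 + 1) := Submodule.one_le.2 (hone _)
  have hmono : ∀ {a b : ℕ}, a ≤ b → R (m0 + 1) ^ a ≤ R (m0 + 1) ^ b :=
    fun hab => pow_le_pow_right' h1V hab
  have hle : ∀ n, 1 ≤ n → R n ≤ R (m0 + 1) ^ n := by
    intro n
    induction n using Nat.strong_induction_on with
    | _ n ih =>
      intro hn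
      rcases le_or_gt n (m0 + 1) with hnm | hnm
      · have h2 : R n ≤ R (m0 + 1) := hR.mono hnm
        have h3 := hmono hn
        rw [pow_one] at h3
        exact h2.trans h3
      · refine (hm0 n (by omega)).trans (sup_le ?_ ?_)
        · exact (ih (n - 1) (by omega) (by omega)).trans (hmono (by omega))
        · refine iSup₂_le fun i hi => ?_
          rw [Finset.mem_Ioo] at hi
          have h4 : R (m0 + 1) ^ n = R (m0 + 1) ^ i * R (m0 + 1) ^ (n - i) := by
            rw [← pow_add]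
            congr 1
            omega
          rw [h4]
          exact mul_le_mul' (ih i hi.2 (by omega)) (ih (n - i) (by omega) (by omega))
  refine ⟨m0 + 1, C * (m0 + 1 + 1) ^ 2, ?_, h1m, hle⟩
  refine ⟨hR.fg _, hone _, ?_, ?_⟩
  · intro n hn
    have := Module.Finite.iff_fg.mpr (hR.fg ((m0 + 1) * n))
    refine (Submodule.finrank_mono (F2_pow hR (m0 + 1) n)).trans ((hR.growth _).trans ?_)
    have h5 : (m0 + 1) * n + 1 ≤ (m0 + 1 + 1) * n := by
      rw [Nat.add_mul (m0 + 1) 1 n, Nat.one_mul]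
      exact Nat.add_le_add_left hn _
    calc C * ((m0 + 1) * n + 1) ^ 2 ≤ C * ((m0 + 1 + 1) * n) ^ 2 :=
          Nat.mul_le_mul_left _ (Nat.pow_le_pow_left h5 2)
      _ = C * (m0 + 1 + 1) ^ 2 * n ^ 2 := by ring
  · intro d
    obtain ⟨n, u, hu, v, hv, hv0, hd⟩ := hR.frac d
    have h6 : R n ≤ R (m0 + 1) ^ (n + 1) := (hR.mono (Nat.le_succ n)).trans (hle (n + 1) (by omega))
    exact ⟨n + 1, u, h6 hu, v, h6 hv, hv0, hd⟩

/-- An element `v ∈ R d`, `d ≥ 1`, with nonzero symbol in a domain component is transcendental: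
if `∑_{s ≤ S} c_s v^s = 0`, `c_S ≠ 0`, then (`S ≥ 1`) `v^S ∈ R (d (S-1)) ≤ N (d S)`, but
`v^S ∉ N (d S)` by `prime` and `v ∉ N d` (induction). -/
theorem SymPair.transc {R : ℕ → Submodule k D} (hmono : Monotone R)
    {N : ℕ → Submodule k D} (hN : SymPair R N) {d : ℕ}
    (hd : 1 ≤ d) {v : D} (hv : v ∈ R d) (hvN : v ∉ N d) : Transcendental k v := by
  have hpow : ∀ s, v ^ s ∈ R (d * s) := by
    intro s
    induction s with
    | zero =>
      rw [pow_zero, Nat.mul_zero]
      exact hN.one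
    | succ s ih =>
      rw [pow_succ, Nat.mul_succ]
      exact hN.mul _ _ _ ih _ hv
  have hnot : ∀ s, v ^ s ∉ N (d * s) := by
    intro s
    induction s with
    | zero =>
      rw [pow_zero, Nat.mul_zero]
      exact hN.one_not
    | succ s ih =>
      rw [pow_succ, Nat.mul_succ]
      intro h
      rcases hN.prime _ _ _ (hpow s) _ hv h with h1 | h1
      · exact ih h1
      · exact hvN h1
  intro halg
  obtain ⟨p, hp0, hp⟩ := halg
  rw [Polynomial.aeval_eq_sum_range, Finset.sum_range_succ] at hp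
  have hc : p.coeff p.natDegree ≠ 0 := by
    rw [Polynomial.coeff_natDegree]
    exact Polynomial.leadingCoeff_ne_zero.2 hp0
  rcases Nat.eq_zero_or_pos p.natDegree with h0 | hS
  · rw [h0, Finset.sum_range_zero, zero_add, pow_zero] at hp
    rw [h0] at hc
    exact (smul_ne_zero hc one_ne_zero) hp
  · obtain ⟨S, hS'⟩ : ∃ S, p.natDegree = S + 1 := ⟨p.natDegree - 1, by omega⟩
    rw [hS'] at hp hc
    have h1 : p.coeff (S + 1) • v ^ (S + 1) ∈ R (d * S) := by
      rw [eq_neg_of_add_eq_zero_right hp]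
      refine Submodule.neg_mem _ (Submodule.sum_mem _ fun i hi => ?_)
      rw [Finset.mem_range] at hi
      exact Submodule.smul_mem _ _ (hmono (Nat.mul_le_mul_left d (by omega)) (hpow i))
    have h2 : v ^ (S + 1) ∈ R (d * S) := by
      have h3 := Submodule.smul_mem _ (p.coeff (S + 1))⁻¹ h1
      rwa [smul_smul, inv_mul_cancel₀ hc, one_smul] at h3
    have h4 : v ^ (S + 1) ∈ R (d * S + (d - 1)) := hmono (Nat.le_add_right _ _) h2
    have h5 := hN.low _ h4
    have h6 : d * S + (d - 1) + 1 = d * (S + 1) := by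
      rw [Nat.mul_succ]
      omega
    rw [h6] at h5
    exact hnot _ h5

theorem F2_inf {R : Submodule k D} (hfg : R.FG) {r : ℕ} {N : Fin r → Submodule k D}
    (hN : ∀ i, N i ≤ R) {B : ℕ} (J : Finset (Fin r))
    (hB : ∀ i ∈ J, finrank k ↥R ≤ B + finrank k ↥(N i)) :
    finrank k ↥R ≤ finrank k ↥(R ⊓ ⨅ i ∈ J, N i) + J.card * B := by
  classical
  induction J using Finset.induction_on with
  | empty =>
    have h0 : R ⊓ ⨅ i ∈ (∅ : Finset (Fin r)), N i = R := by
      refine inf_eq_left.2 (le_iInf₂ fun i hi => ?_)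
      exact absurd hi (Finset.notMem_empty i)
    rw [h0]
    exact Nat.le_add_right _ _
  | insert i J hi ih =>
    have h1 := ih fun j hj => hB j (Finset.mem_insert_of_mem hj)
    have h2 := hB i (Finset.mem_insert_self i J)
    have hf : FiniteDimensional k ↥R := Module.Finite.iff_fg.mpr hfg
    have hfN : FiniteDimensional k ↥(N i) := Submodule.finiteDimensional_of_le (hN i)
    have hfA : FiniteDimensional k ↥(R ⊓ ⨅ i ∈ J, N i) :=
      Submodule.finiteDimensional_of_le inf_le_left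
    have h3 := Submodule.finrank_sup_add_finrank_inf_eq (R ⊓ ⨅ i ∈ J, N i) (N i)
    have h4 : finrank k ↥((R ⊓ ⨅ i ∈ J, N i) ⊔ N i) ≤ finrank k ↥R :=
      Submodule.finrank_mono (sup_le inf_le_left (hN i))
    have h5 : R ⊓ ⨅ j ∈ insert i J, N j = (R ⊓ ⨅ i ∈ J, N i) ⊓ N i := by
      rw [Finset.iInf_insert]
      rw [inf_assoc, inf_comm (N i)]
    rw [h5, Finset.card_insert_of_notMem hi, Nat.succ_mul]
    omega

theorem F2_linear {R : ℕ → Submodule k D} {C : ℕ} (hR : Filt R C)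
    {r : ℕ} {N : Fin r → ℕ → Submodule k D} (hN : ∀ i, SymPair R (N i)) {I : Finset (Fin r)}
    (hI : ∀ n, ∀ x ∈ R (n + 1), (∀ i ∈ I, x ∈ N i (n + 1)) → x ∈ R n) (B : Fin r → ℕ)
    (hB : ∀ i ∈ I, ∀ n, finrank k ↥(R n) ≤ B i + finrank k ↥(N i n)) :
    ∃ A, ∀ n, finrank k ↥(R n) ≤ A * (n + 1) := by
  classical
  have hstep : ∀ n, finrank k ↥(R (n + 1)) ≤ finrank k ↥(R n) + I.card * I.sup B := by
    intro n
    have h1 := F2_inf (hR.fg (n + 1)) (N := fun i => N i (n + 1)) (fun i => (hN i).le (n + 1))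
      (B := I.sup B) I (fun i hi => (hB i hi (n + 1)).trans
        (Nat.add_le_add_right (Finset.le_sup (f := B) hi) _))
    have h2 : R (n + 1) ⊓ ⨅ i ∈ I, N i (n + 1) ≤ R n := by
      rintro x ⟨hx1, hx2⟩
      refine hI n x hx1 fun i hi => ?_
      have h3 := (Submodule.mem_iInf _).1 hx2 i
      exact (Submodule.mem_iInf _).1 h3 hi
    have := Module.Finite.iff_fg.mpr (hR.fg n)
    exact h1.trans (Nat.add_le_add_right (Submodule.finrank_mono h2) _)
  refine ⟨finrank k ↥(R 0) + I.card * I.sup B, fun n => ?_⟩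
  induction n with
  | zero =>
    rw [Nat.zero_add, Nat.mul_one]
    exact Nat.le_add_right _ _
  | succ n ih =>
    refine (hstep n).trans ?_
    rw [Nat.mul_succ]
    exact Nat.add_le_add ih (Nat.le_add_left _ _)

/-- Some component has unbounded dimensions, if `D` is not finite over its centre and contains a
transcendental element. Otherwise `finrank (R n) ≤ finrank (N i n) + B` for all `n` and all
`i ∈ I`. The map `R (n+1) → ∏_{i ∈ I} R (n+1) / N i (n+1)` has kernel in `R n`, so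
`finrank (R (n+1)) ≤ finrank (R n) + card I * B`, hence `finrank (R n) ≤ A (n+1)` for some `A`.
By `Filt.quad` and `Quad.lower`: `(n+1)^2 ≤ finrank ((R m)^(e n)) ≤ finrank (R (m e n)) ≤
A (m e n + 1)` for all `n`, contradiction. -/
theorem exists_unbounded {R : ℕ → Submodule k D} {C : ℕ} (hR : Filt R C) (hfg : FG R)
    (hD : ¬ FinCent D) {a : D} (ha : Transcendental k a)
    {r : ℕ} {N : Fin r → ℕ → Submodule k D} (hN : ∀ i, SymPair R (N i)) {I : Finset (Fin r)}
    (hI : ∀ n, ∀ x ∈ R (n + 1), (∀ i ∈ I, x ∈ N i (n + 1)) → x ∈ R n) :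
    ∃ i ∈ I, ∀ B, ∃ n, B + finrank k ↥(N i n) < finrank k ↥(R n) := by
  classical
  by_contra hcon
  push Not at hcon
  choose! B hB using hcon
  obtain ⟨A, hA⟩ := F2_linear hR hN hI B hB
  obtain ⟨m, C', hQ, hm, hle⟩ := hR.quad hfg
  obtain ⟨e, he⟩ := hQ.lower hD ha
  have h1 : ∀ n, (n + 1) ^ 2 ≤ A * (m * (e * n) + 1) := by
    intro n
    have := Module.Finite.iff_fg.mpr (hR.fg (m * (e * n)))
    exact (he n).trans ((Submodule.finrank_mono (F2_pow hR m (e * n))).trans (hA _))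
  have h4 := h1 (A * (m * e + 1))
  have h5 : A * (m * (e * (A * (m * e + 1))) + 1) ≤ A * (m * e + 1) * (A * (m * e + 1) + 1) := by
    have h6 : m * (e * (A * (m * e + 1))) + 1 ≤ (m * e + 1) * (A * (m * e + 1) + 1) := by
      nlinarith [Nat.zero_le (A * (m * e + 1)), Nat.zero_le (m * e)]
    calc A * (m * (e * (A * (m * e + 1))) + 1)
        ≤ A * ((m * e + 1) * (A * (m * e + 1) + 1)) := Nat.mul_le_mul_left _ h6
      _ = A * (m * e + 1) * (A * (m * e + 1) + 1) := by ring
  have h7 := h4.trans h5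
  nlinarith

/-- If no element of positive degree has a nonzero symbol (`I = ∅`), then `R n = R 0` for all `n`
and `D` is a quotient of fractions of `R 0`, which is a finite-dimensional domain; so `D = R 0`
is finite-dimensional over `k` and over its centre. -/
theorem finCent_of_trivial {R : ℕ → Submodule k D} {C : ℕ} (hR : Filt R C)
    (h0 : ∀ n, R (n + 1) ≤ R n) : FinCent D := by
  classical
  have hle : ∀ n, R n ≤ R 0 := by
    intro n
    induction n with
    | zero => exact le_rfl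
    | succ n ih => exact (h0 n).trans ih
  have hmul : ∀ x ∈ R 0, ∀ y ∈ R 0, x * y ∈ R 0 := fun x hx y hy => hR.mul 0 0 x hx y hy
  have hfin : FiniteDimensional k ↥(R 0) := Module.Finite.iff_fg.mpr (hR.fg 0)
  have hinv : ∀ v ∈ R 0, v ≠ 0 → v⁻¹ ∈ R 0 := by
    intro v hv hv0
    let f : ↥(R 0) →ₗ[k] ↥(R 0) := (LinearMap.mulRight k v).restrict (p := R 0) (q := R 0)
      (fun x hx => hmul x hx v hv)
    have hf : Function.Injective f := by
      intro a b hab
      have h1 : (a : D) * v = (b : D) * v := congrArg Subtype.val hab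
      exact Subtype.ext (mul_right_cancel₀ hv0 h1)
    obtain ⟨x, hx⟩ := (LinearMap.injective_iff_surjective.1 hf) ⟨1, hR.one⟩
    have h2 : (x : D) * v = 1 := congrArg Subtype.val hx
    rw [inv_eq_of_mul_eq_one_left h2]
    exact x.2
  have htop : R 0 = ⊤ := by
    rw [eq_top_iff]
    intro d _
    obtain ⟨n, u, hu, v, hv, hv0, rfl⟩ := hR.frac d
    exact hmul _ (hle n hu) _ (hinv v (hle n hv) hv0)
  obtain ⟨s, hs⟩ := hR.fg 0
  rw [htop] at hs
  unfold FinCent
  refine ⟨⟨s, ?_⟩⟩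
  rw [eq_top_iff]
  intro d _
  have hd : d ∈ Submodule.span k (s : Set D) := by
    rw [hs]
    trivial
  induction hd using Submodule.span_induction with
  | mem x hx => exact Submodule.subset_span hx
  | zero => exact Submodule.zero_mem _
  | add x y _ _ hx hy => exact Submodule.add_mem _ (hx trivial) (hy trivial)
  | smul c x _ hx =>
    have h1 : algebraMap k D c ∈ Subring.center D :=
      Subring.mem_center_iff.2 fun g => (Algebra.commutes c g).symm
    have h2 := Submodule.smul_mem (Submodule.span (Subring.center D) (s : Set D))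
      (⟨algebraMap k D c, h1⟩ : Subring.center D) (hx trivial)
    rw [Algebra.smul_def]
    exact h2

end Pool.Agent.BQG
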