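import Pool.Agent.H.MP_fbbc72_al.h23.W3
import Pool.Agent.H.MP_fbbc72_al.h41.Core12

set_option autoImplicit false

namespace Pool.Agent.BQG

open Module Polynomial

variable {k D : Type*} [Field k] [DivisionRing D] [Algebra k D]

/-- The space `k[a] R (N-1)`. -/
def kaSpan (a : D) (W : Submodule k D) : Submodule k D :=
  ⨆ s : ℕ, W.map (LinearMap.mulLeft k (a ^ s))

theorem P1_zero (a : D) {W : Submodule k D} {x : D} (hx : x ∈ W) : x ∈ kaSpan a W := by
  refine Submodule.mem_iSup_of_mem 0 ?_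
  exact ⟨x, hx, by simp⟩

theorem P1_pow (a : D) {W : Submodule k D} {x : D} (s : ℕ) (hx : x ∈ W) :
    a ^ s * x ∈ kaSpan a W :=
  Submodule.mem_iSup_of_mem s ⟨x, hx, by simp⟩

/-- induction in `kaSpan` -/
theorem P1_ind {a : D} {W : Submodule k D} {p : D → Prop} (h1 : ∀ s, ∀ x ∈ W, p (a ^ s * x))
    (h0 : p 0) (h2 : ∀ x y, p x → p y → p (x + y)) {x : D} (hx : x ∈ kaSpan a W) : p x := by
  refine Submodule.iSup_induction (fun s : ℕ => W.map (LinearMap.mulLeft k (a ^ s)))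
    (motive := p) hx ?_ h0 h2
  rintro s _ ⟨y, hy, rfl⟩
  exact h1 s y hy

theorem P1_mul {a : D} {W : Submodule k D} {x : D} (hx : x ∈ kaSpan a W) :
    a * x ∈ kaSpan a W := by
  refine P1_ind (p := fun x => a * x ∈ kaSpan a W) ?_ ?_ ?_ hx
  · intro s y hy
    rw [← mul_assoc, ← pow_succ']
    exact P1_pow a (s + 1) hy
  · rw [mul_zero]
    exact Submodule.zero_mem _
  · intro x y h1 h2
    rw [mul_add]
    exact Submodule.add_mem _ h1 h2

theorem P1_powmul {a : D} {W : Submodule k D} {x : D} (hx : x ∈ kaSpan a W) (s : ℕ) :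
    a ^ s * x ∈ kaSpan a W := by
  induction s with
  | zero => rwa [pow_zero, one_mul]
  | succ s ih =>
    rw [pow_succ', mul_assoc]
    exact P1_mul ih

theorem P1_poly {a : D} {W : Submodule k D} (f : k[X]) {x : D} (hx : x ∈ kaSpan a W) :
    aeval a f * x ∈ kaSpan a W := by
  induction f using Polynomial.induction_on' with
  | add p q hp hq =>
    rw [map_add, add_mul]
    exact Submodule.add_mem _ hp hq
  | monomial n c =>
    rw [aeval_monomial, mul_assoc, ← Algebra.smul_def]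
    exact Submodule.smul_mem _ _ (P1_powmul hx n)

/-- `k[a] W = W + a k[a] W` -/
theorem P1_split {a : D} {W : Submodule k D} {x : D} (hx : x ∈ kaSpan a W) :
    ∃ y₀ ∈ W, ∃ y₁ ∈ kaSpan a W, x = y₀ + a * y₁ := by
  refine P1_ind (p := fun x => ∃ y₀ ∈ W, ∃ y₁ ∈ kaSpan a W, x = y₀ + a * y₁) ?_ ?_ ?_ hx
  · intro s y hy
    cases s with
    | zero => exact ⟨y, hy, 0, Submodule.zero_mem _, by simp⟩
    | succ s =>
      refine ⟨0, Submodule.zero_mem _, a ^ s * y, P1_pow a s hy, ?_⟩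
      rw [zero_add, ← mul_assoc, ← pow_succ']
  · exact ⟨0, Submodule.zero_mem _, 0, Submodule.zero_mem _, by simp⟩
  · rintro x y ⟨x0, hx0, x1, hx1, rfl⟩ ⟨y0, hy0, y1, hy1, rfl⟩
    refine ⟨x0 + y0, Submodule.add_mem _ hx0 hy0, x1 + y1, Submodule.add_mem _ hx1 hy1, ?_⟩
    rw [mul_add]
    abel

/-- If `x` is in the left `k(a)`-span of `W` then `f(a) x ∈ k[a] W` for some polynomial `f ≠ 0`
(common denominators, `gen_frac_fin`; `Submodule.span_induction` also works). -/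
theorem fspan_den {a : D} (ha : Transcendental k a) {W : Submodule k D} {x : D}
    (hx : x ∈ fspan a W) : ∃ f : k[X], f ≠ 0 ∧ aeval a f * x ∈ kaSpan a W := by
  refine Submodule.span_induction (p := fun x _ => ∃ f : k[X], f ≠ 0 ∧
    aeval a f * x ∈ kaSpan a W) ?_ ?_ ?_ ?_ hx
  · intro x hx
    refine ⟨1, one_ne_zero, ?_⟩
    rw [map_one, one_mul]
    exact P1_zero a hx
  · refine ⟨1, one_ne_zero, ?_⟩
    rw [mul_zero]
    exact Submodule.zero_mem _
  · rintro x y _ _ ⟨f, hf, hfx⟩ ⟨g, hg, hgy⟩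
    refine ⟨f * g, mul_ne_zero hf hg, ?_⟩
    rw [mul_add]
    refine Submodule.add_mem _ ?_ ?_
    · rw [mul_comm f g, map_mul, mul_assoc]
      exact P1_poly g hfx
    · rw [map_mul, mul_assoc]
      exact P1_poly f hgy
  · rintro ⟨c, hc⟩ x _ ⟨f, hf, hfx⟩
    obtain ⟨p, q, hp, hpq⟩ := gen_frac ha hc
    refine ⟨f * p, mul_ne_zero hf hp, ?_⟩
    have h1 : aeval a (f * p) * ((⟨c, hc⟩ : gen k a) • x) = aeval a q * (aeval a f * x) := by
      rw [Subfield.smul_def, smul_eq_mul, map_mul, mul_assoc, ← mul_assoc (aeval a p), hpq,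
        ← mul_assoc, ← mul_assoc, ← map_mul, ← map_mul, mul_comm f q]
    rw [h1]
    exact P1_poly q hfx

theorem P1_apow {R : ℕ → Submodule k D} {C : ℕ} (h : Filt R C) {a : D} {e : ℕ}
    (hae : a ∈ R e) (s : ℕ) : a ^ s ∈ R (s * e) := by
  induction s with
  | zero =>
    rw [pow_zero, Nat.zero_mul]
    exact h.one
  | succ s ih =>
    rw [pow_succ, Nat.succ_mul]
    exact h.mul _ _ _ ih _ hae

theorem P1_ex {R : ℕ → Submodule k D} {C : ℕ} (h : Filt R C) {a : D} {e : ℕ}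
    (hae : a ∈ R e) {M : ℕ} {y : D} (hy : y ∈ kaSpan a (R M)) : ∃ m, y ∈ R m := by
  refine P1_ind (p := fun x => ∃ m, x ∈ R m) ?_ ?_ ?_ hy
  · intro s x hx
    exact ⟨s * e + M, h.mul _ _ _ (P1_apow h hae s) _ hx⟩
  · exact ⟨0, Submodule.zero_mem _⟩
  · rintro x y ⟨m, hm⟩ ⟨n, hn⟩
    exact ⟨max m n, Submodule.add_mem _ (h.mono (le_max_left m n) hm)
      (h.mono (le_max_right m n) hn)⟩

/-- one division by `a` -/
theorem P1_one {R : ℕ → Submodule k D} {C : ℕ} (h : Filt R C) {a : D} {e : ℕ}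
    (hreg : ∀ n x, (∃ m, x ∈ R m) → a * x ∈ R (n + e) → x ∈ R n)
    (hreg0 : ∀ x, (∃ m, x ∈ R m) → a * x ∈ R (e - 1) → x = 0)
    {n : ℕ} {x : D} (hx : ∃ m, x ∈ R m) (hax : a * x ∈ R n) :
    (e ≤ n ∧ x ∈ R (n - e)) ∨ x = 0 := by
  rcases le_or_gt e n with hen | hen
  · left
    refine ⟨hen, hreg _ _ hx ?_⟩
    rwa [Nat.sub_add_cancel hen]
  · right
    exact hreg0 x hx (h.mono (by omega) hax)

/-- `P = k[a] R M` intersected with `R n`, `n ≥ M`: if `y ∈ P ∩ R n` then `y = y₀ + a y₁` with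
`y₀ ∈ R M`, `y₁ ∈ P`, and either `e ≤ n` and `y₁ ∈ R (n-e)`, or `y₁ = 0`. Indeed
`P = R M + a P`, and `a y₁ = y - y₀ ∈ R n`; now use `hreg`, `hreg0`
(every element of `P` is in some `R m`). -/
theorem Filt.ka_inter {R : ℕ → Submodule k D} {C : ℕ} (h : Filt R C) {a : D} {e : ℕ}
    (he : 1 ≤ e) (hae : a ∈ R e)
    (hreg : ∀ n x, (∃ m, x ∈ R m) → a * x ∈ R (n + e) → x ∈ R n)
    (hreg0 : ∀ x, (∃ m, x ∈ R m) → a * x ∈ R (e - 1) → x = 0)
    {M n : ℕ} (hMn : M ≤ n) {y : D} (hy : y ∈ kaSpan a (R M)) (hyn : y ∈ R n) :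
    ∃ y₀ ∈ R M, ∃ y₁ ∈ kaSpan a (R M), y = y₀ + a * y₁ ∧
      ((e ≤ n ∧ y₁ ∈ R (n - e)) ∨ y₁ = 0) := by
  obtain ⟨y0, hy0, y1, hy1, rfl⟩ := P1_split hy
  refine ⟨y0, hy0, y1, hy1, rfl, P1_one h hreg hreg0 (P1_ex h hae hy1) ?_⟩
  have h1 := Submodule.sub_mem _ hyn (h.mono hMn hy0)
  rwa [add_sub_cancel_left] at h1

/-- iterated splitting -/
theorem P1_iter {R : ℕ → Submodule k D} {C : ℕ} (h : Filt R C) {a : D} {e : ℕ}
    (he : 1 ≤ e) (hae : a ∈ R e)
    (hreg : ∀ n x, (∃ m, x ∈ R m) → a * x ∈ R (n + e) → x ∈ R n)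
    (hreg0 : ∀ x, (∃ m, x ∈ R m) → a * x ∈ R (e - 1) → x = 0)
    {M n : ℕ} (hMn : M ≤ n) : ∀ (s : ℕ) (y : D), y ∈ kaSpan a (R M) →
      y ∈ R (n + (s + 1) * e) → ∃ z ∈ R (n + s * e), ∃ y' ∈ kaSpan a (R M), y' ∈ R n ∧
        y = z + a ^ (s + 1) * y' := by
  intro s
  induction s with
  | zero =>
    intro y hy hyn
    obtain ⟨y0, hy0, y1, hy1, hy2, hy3⟩ :=
      h.ka_inter he hae hreg hreg0 (M := M) (n := n + (0 + 1) * e) (by omega) hy hyn
    refine ⟨y0, h.mono (by omega) hy0, y1, hy1, ?_, ?_⟩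
    · rcases hy3 with ⟨_, hy3⟩ | rfl
      · have h1 : n + (0 + 1) * e - e = n := by rw [Nat.zero_add, Nat.one_mul]; omega
        rwa [h1] at hy3
      · exact Submodule.zero_mem _
    · rw [hy2, zero_add, pow_one]
  | succ s ih =>
    intro y hy hyn
    obtain ⟨y0, hy0, y1, hy1, hy2, hy3⟩ :=
      h.ka_inter he hae hreg hreg0 (M := M) (n := n + (s + 1 + 1) * e) (by omega) hy hyn
    have hy4 : y1 ∈ R (n + (s + 1) * e) := by
      rcases hy3 with ⟨_, hy3⟩ | rfl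
      · have h1 : n + (s + 1 + 1) * e - e = n + (s + 1) * e := by
          rw [Nat.succ_mul (s + 1) e]; omega
        rwa [h1] at hy3
      · exact Submodule.zero_mem _
    obtain ⟨z, hz, y', hy', hy'n, hzy⟩ := ih y1 hy1 hy4
    refine ⟨y0 + a * z, Submodule.add_mem _ (h.mono (by omega) hy0) ?_, y', hy', hy'n, ?_⟩
    · have h1 : n + (s + 1) * e = e + (n + s * e) := by
        rw [Nat.succ_mul]; omega
      rw [h1]
      exact h.mul _ _ _ hae _ hz
    · calc y = y0 + a * y1 := hy2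
        _ = y0 + a * (z + a ^ (s + 1) * y') := by rw [← hzy]
        _ = y0 + a * z + a ^ (s + 1 + 1) * y' := by
          rw [pow_succ' a (s + 1), mul_assoc a (a ^ (s + 1)) y', mul_add, add_assoc]

/-- polynomials of degree at most `s` -/
theorem P1_deg {R : ℕ → Submodule k D} {C : ℕ} (h : Filt R C) {a : D} {e : ℕ}
    (hae : a ∈ R e) {n s : ℕ} {g : k[X]} (hg : g.natDegree ≤ s) {x : D} (hx : x ∈ R n) :
    aeval a g * x ∈ R (n + s * e) := by
  rw [aeval_eq_sum_range' (Nat.lt_succ_of_le hg), Finset.sum_mul]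
  refine Submodule.sum_mem _ fun i hi => ?_
  rw [smul_mul_assoc]
  refine Submodule.smul_mem _ _ ?_
  have h1 := h.mul _ _ _ (P1_apow h hae i) _ hx
  refine h.mono ?_ h1
  have h2 : i * e ≤ s * e := Nat.mul_le_mul_right e (Nat.lt_succ_iff.1 (Finset.mem_range.1 hi))
  omega

/-- iterated division by `a` -/
theorem P1_div {R : ℕ → Submodule k D} {C : ℕ} (h : Filt R C) {a : D} {e : ℕ}
    (hae : a ∈ R e)
    (hreg : ∀ n x, (∃ m, x ∈ R m) → a * x ∈ R (n + e) → x ∈ R n)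
    (hreg0 : ∀ x, (∃ m, x ∈ R m) → a * x ∈ R (e - 1) → x = 0)
    {n : ℕ} {x : D} (hx : ∃ m, x ∈ R m) : ∀ s : ℕ, a ^ (s + 1) * x ∈ R (n + s * e) →
      (e ≤ n ∧ x ∈ R (n - e)) ∨ x = 0 := by
  intro s
  induction s with
  | zero =>
    intro h1
    rw [zero_add, pow_one, Nat.zero_mul, Nat.add_zero] at h1
    exact P1_one h hreg hreg0 hx h1
  | succ s ih =>
    intro h1
    apply ih
    rw [pow_succ', mul_assoc, Nat.succ_mul, ← Nat.add_assoc] at h1
    refine hreg _ _ ?_ h1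
    obtain ⟨m, hm⟩ := hx
    exact ⟨_, h.mul _ _ _ (P1_apow h hae (s + 1)) _ hm⟩

/-- `f(a) x ∈ P = k[a] R M`, `f ≠ 0`, implies `x ∈ P`. By induction on the `n` with `x ∈ R n`. If
`n ≤ M` then `x ∈ R M ⊆ P`. Let `n > M` and let `s = f.natDegree`. `f(a) x ∈ P ∩ R (n + s e)`.
Applying `ka_inter` `s` times (to `y`, `y₁`, ..., in `R (n + s e)`, `R (n + (s-1) e)`, ..., if
some `y_i = 0` continue with `0`): `f(a) x = ∑_{j<s} a^j r_j + a^s y` with `r_j ∈ R M`,
`y ∈ P ∩ R n`. With `f_s` the leading coefficient,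
`a^s (f_s x - y) = ∑_{j<s} a^j (r_j - f_j x) ∈ R (n + e (s-1))` if `s ≥ 1`, so by `hreg`
(`s - 1` times, and once more; if `n < e` the last step is `hreg0`, as
`R n ≤ R (e-1)`) `f_s x - y ∈ R (n - e)` (or `= 0`), in particular `x' := f_s x - y ∈ R (n-1)`. And
`f(a) x' = f_s f(a) x - f(a) y ∈ P`. By induction `x' ∈ P`, so `x ∈ P`. If `s = 0`, `x ∈ P` at
once. -/
theorem Filt.ka_div {R : ℕ → Submodule k D} {C : ℕ} (h : Filt R C) {a : D} {e : ℕ}
    (he : 1 ≤ e) (hae : a ∈ R e)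
    (hreg : ∀ n x, (∃ m, x ∈ R m) → a * x ∈ R (n + e) → x ∈ R n)
    (hreg0 : ∀ x, (∃ m, x ∈ R m) → a * x ∈ R (e - 1) → x = 0)
    {M : ℕ} {x : D} (hx : ∃ m, x ∈ R m) {f : k[X]} (hf : f ≠ 0)
    (hfx : aeval a f * x ∈ kaSpan a (R M)) : x ∈ kaSpan a (R M) := by
  obtain ⟨n0, hxn0⟩ := hx
  induction n0 using Nat.strong_induction_on generalizing x with
  | _ n ih =>
    rcases le_or_gt n M with hn | hn
    · exact P1_zero a (h.mono hn hxn0)
    · have hlc : f.leadingCoeff ≠ 0 := leadingCoeff_ne_zero.2 hf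
      rcases Nat.eq_zero_or_pos f.natDegree with h0 | h0
      · obtain ⟨c, rfl⟩ := natDegree_eq_zero.1 h0
        have hc : c ≠ 0 := fun h1 => hf (by rw [h1, C_0])
        rw [aeval_C, ← Algebra.smul_def] at hfx
        have h2 := Submodule.smul_mem _ c⁻¹ hfx
        rwa [inv_smul_smul₀ hc] at h2
      · obtain ⟨s, hs⟩ : ∃ s, f.natDegree = s + 1 := ⟨f.natDegree - 1, by omega⟩
        have h1 : aeval a f * x ∈ R (n + (s + 1) * e) := P1_deg h hae hs.le hxn0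
        obtain ⟨z, hz, y', hy', hy'n, hzy⟩ :=
          P1_iter h he hae hreg hreg0 hn.le s _ hfx h1
        have hsplit : aeval a f = aeval a f.eraseLead + f.leadingCoeff • a ^ (s + 1) := by
          conv_lhs => rw [← eraseLead_add_monomial_natDegree_leadingCoeff f]
          rw [map_add, aeval_monomial, hs, Algebra.smul_def]
        have hel : f.eraseLead.natDegree ≤ s := by
          have h2 := eraseLead_natDegree_le f
          omega
        have h2 : a ^ (s + 1) * (f.leadingCoeff • x - y') ∈ R (n + s * e) := by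
          have h3 : a ^ (s + 1) * (f.leadingCoeff • x - y') = z - aeval a f.eraseLead * x := by
            have h4 := hzy
            rw [hsplit, add_mul, smul_mul_assoc] at h4
            rw [mul_sub, mul_smul_comm, sub_eq_sub_iff_add_eq_add, ← h4]
            abel
          rw [h3]
          exact Submodule.sub_mem _ hz (P1_deg h hae hel hxn0)
        have hxR : f.leadingCoeff • x - y' ∈ R n :=
          Submodule.sub_mem _ (Submodule.smul_mem _ _ hxn0) hy'n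
        have h3 : f.leadingCoeff • x - y' ∈ kaSpan a (R M) := by
          rcases P1_div h hae hreg hreg0 ⟨n, hxR⟩ s h2 with ⟨hen, h4⟩ | h4
          · refine ih (n - e) (by omega) ?_ h4
            rw [mul_sub, mul_smul_comm]
            exact Submodule.sub_mem _ (Submodule.smul_mem _ _ hfx) (P1_poly f hy')
          · rw [h4]
            exact Submodule.zero_mem _
        have h4 := Submodule.smul_mem _ f.leadingCoeff⁻¹ (Submodule.add_mem _ h3 hy')
        rwa [sub_add_cancel, inv_smul_smul₀ hlc] at h4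

/-- LEMMA P. If `x ∈ R N`, `N ≥ 1`, is in the `k(a)`-span of `R (N-1)` then
`x = y₀ + a y₁` with `y₀ ∈ R (N-1)` and (`e ≤ N` and `y₁ ∈ R (N-e)`, or `y₁ = 0`).
(`fspan_den`, `ka_div`, `ka_inter`.) -/
theorem Filt.fspan_mem {R : ℕ → Submodule k D} {C : ℕ} (h : Filt R C) {a : D} {e : ℕ}
    (ha : Transcendental k a) (he : 1 ≤ e) (hae : a ∈ R e)
    (hreg : ∀ n x, (∃ m, x ∈ R m) → a * x ∈ R (n + e) → x ∈ R n)
    (hreg0 : ∀ x, (∃ m, x ∈ R m) → a * x ∈ R (e - 1) → x = 0)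
    {N : ℕ} (hN : 1 ≤ N) {x : D} (hx : x ∈ R N) (hxF : x ∈ fspan a (R (N - 1))) :
    ∃ y₀ ∈ R (N - 1), ∃ y₁, x = y₀ + a * y₁ ∧ ((e ≤ N ∧ y₁ ∈ R (N - e)) ∨ y₁ = 0) := by
  obtain ⟨f, hf, hfx⟩ := fspan_den ha hxF
  have h1 := h.ka_div he hae hreg hreg0 ⟨N, hx⟩ hf hfx
  obtain ⟨y0, hy0, y1, _, hy2, hy3⟩ :=
    h.ka_inter he hae hreg hreg0 (M := N - 1) (n := N) (Nat.sub_le _ _) h1 hx
  exact ⟨y0, hy0, y1, hy2, hy3⟩

end Pool.Agent.BQG
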