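import Pool.Agent.H.MP_fbbc72_al.h23.W3

set_option autoImplicit false

namespace Pool.Agent.BQG

open Module

variable {k D : Type*} [Field k] [DivisionRing D] [Algebra k D]

theorem W4_pow_mem {R : ℕ → Submodule k D} {C : ℕ} (h : Filt R C) {v : D} {d : ℕ} (hv : v ∈ R d)
    (i : ℕ) : v ^ i ∈ R (i * d) := by
  induction i with
  | zero => rw [pow_zero, Nat.zero_mul]; exact h.one
  | succ i ih =>
    rw [pow_succ, Nat.succ_mul]
    exact h.mul _ _ _ ih _ hv

theorem W4_span {R : ℕ → Submodule k D} {C : ℕ} (h : Filt R C) {a : D} {e : ℕ} (hae : a ∈ R e)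
    (n : ℕ) : ∀ x ∈ fspan a (R n), x * a ∈ fspan a (R (n + e)) := by
  intro x hx
  unfold fspan at hx
  induction hx using Submodule.span_induction with
  | mem y hy => exact Submodule.subset_span (h.mul _ _ _ hy _ hae)
  | zero => rw [zero_mul]; exact Submodule.zero_mem _
  | add y z _ _ hy hz => rw [add_mul]; exact Submodule.add_mem _ hy hz
  | smul f y _ hy =>
    rw [smul_mul_assoc]
    exact Submodule.smul_mem _ f hy

/-- THEOREM W (any field of characteristic `p`). If the symbol of `v ∈ R_d` is central,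
i.e. `[v, R_n] ≤ R_{n+d-1}` for all `n`, and `v^i ∉ k(a) R_{id-1}` for all `i ≥ 1`, then `D` is
finite-dimensional over its centre.

Proof. Suppose not. `U n := fspan a (R n)` satisfies the hypotheses of `Quad.bars` with
`B = C (e+1)^2` (`Filt.fspan_rank`; `U n * a ≤ U (n+e)`: `f x a = f (x a)`, `x a ∈ R (n+e)`). For
`J ≥ 0` take `L = p^J d`, `S = {i d : 1 ≤ i ≤ p^J}` (image of `i ↦ i d`, injective), for
`n = i d` put `x n = v^i = v^(n/d)`, `w n = p^{v_p(i)}` (`≤ i ≤ n`). By `Filt.comm_pow`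
`x n a - a x n ∈ U (n + e - w n)`, and `x n ∉ U (n-1)` by hypothesis. So
`∑_{i ≤ p^J} p^{v_p(i)} ≤ K (p^J d + 1)`, with `K` independent of `J`. By `sum_pow_val`
`J p^J ≤ 2 K (p^J d + 1) ≤ 2 K (d + 1) p^J` for all `J`: contradiction for
`J = 2 K (d+1) + 1`. -/
theorem Filt.central_symbol {V : Submodule k D} {C₀ : ℕ} (hV : Quad V C₀)
    {R : ℕ → Submodule k D} {C : ℕ} (h : Filt R C) {p : ℕ} (hp : p.Prime)
    [CharP k p] {a v : D} (ha : Transcendental k a) {e d : ℕ} (hd : 1 ≤ d) (hae : a ∈ R e)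
    (hv : v ∈ R d) (hcent : ∀ n, ∀ x ∈ R n, v * x - x * v ∈ R (n + d - 1))
    (hnd : ∀ i, 1 ≤ i → v ^ i ∉ fspan a (R (i * d - 1))) : FinCent D := by
  by_contra hD
  obtain ⟨K, hK⟩ := hV.bars hD ha (fun n => fspan a (R n))
    (fun m n hmn => Submodule.span_mono (h.mono hmn)) e (C * (e + 1) ^ 2)
    (fun n x hx => W4_span h hae n x hx)
    (fun n N x hx hxm => h.fspan_rank ha hae n N x hx hxm)
  have hd0 : 0 < d := hd
  -- the inequality for every `J`
  have key : ∀ J : ℕ, J * p ^ J ≤ 2 * (K * (p ^ J * d + 1)) := by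
    intro J
    have h1 := hK (p ^ J * d) ((Finset.Icc 1 (p ^ J)).image fun i => i * d)
      (fun n => v ^ (n / d)) (fun n => p ^ padicValNat p (n / d)) (by
        intro n hn
        obtain ⟨i, hi, rfl⟩ := Finset.mem_image.1 hn
        obtain ⟨hi1, hi2⟩ := Finset.mem_Icc.1 hi
        have hdiv : i * d / d = i := Nat.mul_div_cancel i hd0
        have hle : i ≤ i * d := Nat.le_mul_of_pos_right i hd0
        have hw : p ^ padicValNat p i ≤ i := by
          refine Nat.le_of_dvd hi1 ?_
          exact pow_padicValNat_dvd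
        refine ⟨hi1.trans hle, Nat.mul_le_mul_right d hi2, ?_, ?_, ?_, ?_⟩
        · simp only [hdiv]
          exact hw.trans hle
        · simp only [hdiv]
          exact Submodule.subset_span (W4_pow_mem h hv i)
        · simp only [hdiv]
          exact hnd i hi1
        · simp only [hdiv]
          exact Submodule.subset_span (h.comm_pow hp hd hae hv hcent i hi1))
    rw [Finset.sum_image] at h1
    · have h2 : ∑ i ∈ Finset.Icc 1 (p ^ J), p ^ padicValNat p (i * d / d) =
          ∑ i ∈ Finset.Icc 1 (p ^ J), p ^ padicValNat p i :=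
        Finset.sum_congr rfl fun i _ => by rw [Nat.mul_div_cancel i hd0]
      rw [h2] at h1
      exact (sum_pow_val p J hp).trans (Nat.mul_le_mul_left 2 h1)
    · intro i _ j _ hij
      exact Nat.eq_of_mul_eq_mul_right hd0 hij
  have h3 := key (2 * K * (d + 1) + 1)
  have hpos : 0 < p ^ (2 * K * (d + 1) + 1) := Nat.pow_pos hp.pos
  set P : ℕ := p ^ (2 * K * (d + 1) + 1) with hP
  have h4 : 2 * (K * (P * d + 1)) ≤ 2 * K * (d + 1) * P := by
    have h5 : P * d + 1 ≤ (d + 1) * P := by nlinarith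
    calc 2 * (K * (P * d + 1)) ≤ 2 * (K * ((d + 1) * P)) :=
          Nat.mul_le_mul_left 2 (Nat.mul_le_mul_left K h5)
      _ = 2 * K * (d + 1) * P := by ring
  have h6 : (2 * K * (d + 1) + 1) * P ≤ 2 * K * (d + 1) * P := h3.trans h4
  rw [Nat.add_mul, Nat.one_mul] at h6
  omega

end Pool.Agent.BQG
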