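import Pool.Agent.H.MP_fbbc72_al.h23.F2
import Pool.Agent.H.MP_fbbc72_al.h23.W4
import Pool.Agent.H.MP_fbbc72_al.h23.P1

set_option autoImplicit false

namespace Pool.Agent.BQG

open Module

universe u v

variable {k : Type v} {D : Type u} [Field k] [DivisionRing D] [Algebra k D]

/-- For every component `i ∈ I` an element `v i ∈ R (d i)`, `d i ≥ 1`, whose symbol is central and
nonzero in the component `i` and zero in the other ones: `c i` of `exists_irredundant` times the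
`y` of `SymPair.exists_central` (use `mulR` for the other components). -/
theorem exists_comp [Finite k] {R : ℕ → Submodule k D} {C : ℕ} (hR : Filt R C) (hfg : FG R)
    {r : ℕ} {N : Fin r → ℕ → Submodule k D} (hN : ∀ i, SymPair R (N i)) {I : Finset (Fin r)}
    (hirr : ∀ i ∈ I, ∃ n, ∃ c ∈ R (n + 1),
      (∀ j ∈ I, j ≠ i → c ∈ N j (n + 1)) ∧ c ∉ N i (n + 1)) :
    ∃ (d : Fin r → ℕ) (v : Fin r → D), ∀ i ∈ I, 1 ≤ d i ∧ v i ∈ R (d i) ∧ v i ∉ N i (d i) ∧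
      (∀ j ∈ I, j ≠ i → v i ∈ N j (d i)) ∧
      ∀ m, ∀ x ∈ R m, v i * x - x * v i ∈ N i (d i + m) := by
  have key : ∀ i : Fin r, ∃ (d : ℕ) (v : D), i ∈ I → 1 ≤ d ∧ v ∈ R d ∧ v ∉ N i d ∧
      (∀ j ∈ I, j ≠ i → v ∈ N j d) ∧ ∀ m, ∀ x ∈ R m, v * x - x * v ∈ N i (d + m) := by
    intro i
    by_cases hi : i ∈ I
    · obtain ⟨n, c, hc, hcj, hci⟩ := hirr i hi
      obtain ⟨b, y, hy, hcy, hcomm⟩ := (hN i).exists_central hR hfg hc hci
      refine ⟨n + 1 + b, c * y, fun _ => ⟨by omega, hR.mul _ _ _ hc _ hy, hcy, fun j hj hji =>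
        (hN j).mulR _ _ _ (hcj j hj hji) _ hy, hcomm⟩⟩
    · exact ⟨0, 0, fun h => absurd h hi⟩
  choose d v hdv using key
  exact ⟨d, v, hdv⟩

/-- powers: `x ∈ N n` implies `x^s ∈ N (n s)` for `s ≥ 1`; `x ∉ N n` implies `x^s ∉ N (n s)`;
commutation with `R` modulo `N` passes to powers
(`x^(s+1) y - y x^(s+1) = x (x^s y - y x^s) + (x y - y x) x^s`). -/
theorem SymPair.pow {R N : ℕ → Submodule k D} (hN : SymPair R N) {n : ℕ} {x : D}
    (hx : x ∈ R n) (s : ℕ) : x ^ s ∈ R (n * s) ∧ (1 ≤ s → x ∈ N n → x ^ s ∈ N (n * s)) ∧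
      (x ∉ N n → x ^ s ∉ N (n * s)) ∧
      ((∀ m, ∀ y ∈ R m, x * y - y * x ∈ N (n + m)) →
        ∀ m, ∀ y ∈ R m, x ^ s * y - y * x ^ s ∈ N (n * s + m)) := by
  induction s with
  | zero =>
    refine ⟨?_, fun h => absurd h (by omega), fun _ => ?_, fun _ m y _ => ?_⟩
    · rw [pow_zero, Nat.mul_zero]
      exact hN.one
    · rw [pow_zero, Nat.mul_zero]
      exact hN.one_not
    · rw [pow_zero, one_mul, mul_one, sub_self]
      exact Submodule.zero_mem _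
  | succ s ih =>
    obtain ⟨h1, h2, h3, h4⟩ := ih
    refine ⟨?_, fun _ hxN => ?_, fun hxN hs => ?_, fun hc m y hy => ?_⟩
    · rw [pow_succ, Nat.mul_succ]
      exact hN.mul _ _ _ h1 _ hx
    · rw [pow_succ, Nat.mul_succ]
      exact hN.mulL _ _ _ h1 _ hxN
    · rw [pow_succ, Nat.mul_succ] at hs
      rcases hN.prime _ _ _ h1 _ hx hs with h5 | h5
      · exact h3 hxN h5
      · exact hxN h5
    · have e1 : x ^ (s + 1) * y - y * x ^ (s + 1) =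
          x * (x ^ s * y - y * x ^ s) + (x * y - y * x) * x ^ s := by
        rw [pow_succ']
        noncomm_ring
      have e2 : n * (s + 1) + m = n + (n * s + m) := by ring
      have e3 : n * (s + 1) + m = n + m + n * s := by ring
      rw [e1]
      refine Submodule.add_mem _ ?_ ?_
      · rw [e2]
        exact hN.mulL _ _ _ hx _ (h4 hc m y hy)
      · rw [e3]
        exact hN.mulR _ _ _ (hc m y hy) _ h1

/-- The element `v`. Let `t = ∏_{i ∈ I} d i`, `T i = t / d i ≥ 1`, `v = ∑_{i ∈ I} v_i ^ (T i)`.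
For `j ∈ I`: `v - v_j^(T j) ∈ N j t`. So `v ∉ N j t`, `v x - x v ∈ N j (t + m)` for `x ∈ R m` and all
`j ∈ I`, so `v x - x v ∈ R (t + m - 1)`. -/
theorem exists_v {R : ℕ → Submodule k D} (hmono : Monotone R)
    {r : ℕ} {N : Fin r → ℕ → Submodule k D} (hN : ∀ i, SymPair R (N i)) {I : Finset (Fin r)}
    (hI : ∀ n, ∀ x ∈ R (n + 1), (∀ i ∈ I, x ∈ N i (n + 1)) → x ∈ R n)
    {d : Fin r → ℕ} {v : Fin r → D} (hv : ∀ i ∈ I, 1 ≤ d i ∧ v i ∈ R (d i) ∧ v i ∉ N i (d i) ∧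
      (∀ j ∈ I, j ≠ i → v i ∈ N j (d i)) ∧
      ∀ m, ∀ x ∈ R m, v i * x - x * v i ∈ N i (d i + m)) :
    ∃ t, 1 ≤ t ∧ ∃ T : Fin r → ℕ, (∀ i ∈ I, 1 ≤ T i ∧ d i * T i = t) ∧
      ∃ z ∈ R t, (∀ i ∈ I, z - v i ^ T i ∈ N i t) ∧
        ∀ m, ∀ x ∈ R m, z * x - x * z ∈ R (t + m - 1) := by
  obtain ⟨t, ht⟩ : ∃ t, t = ∏ i ∈ I, d i := ⟨_, rfl⟩
  have ht1 : 1 ≤ t := by
    rw [ht]
    exact Nat.one_le_iff_ne_zero.2 (Finset.prod_ne_zero_iff.2 fun i hi =>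
      Nat.one_le_iff_ne_zero.1 (hv i hi).1)
  have hdt : ∀ i ∈ I, d i * (t / d i) = t := fun i hi => by
    refine Nat.mul_div_cancel' ?_
    rw [ht]
    exact Finset.dvd_prod_of_mem d hi
  have hT1 : ∀ i ∈ I, 1 ≤ t / d i := fun i hi => by
    rcases Nat.eq_zero_or_pos (t / d i) with h | h
    · have h1 := hdt i hi
      rw [h, Nat.mul_zero] at h1
      omega
    · exact h
  obtain ⟨T, hT⟩ : ∃ T : Fin r → ℕ, T = fun i => t / d i := ⟨_, rfl⟩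
  have hT2 : ∀ i ∈ I, 1 ≤ T i ∧ d i * T i = t := fun i hi => by
    rw [hT]
    exact ⟨hT1 i hi, hdt i hi⟩
  have hR' : ∀ i ∈ I, ∀ j, v i ^ T i ∈ R t ∧ (v i ∈ N j (d i) → v i ^ T i ∈ N j t) := by
    intro i hi j
    obtain ⟨h1, h2, -, -⟩ := (hN j).pow (hv i hi).2.1 (T i)
    rw [(hT2 i hi).2] at h1 h2
    exact ⟨h1, h2 (hT2 i hi).1⟩
  have hzR : ∑ i ∈ I, v i ^ T i ∈ R t := Submodule.sum_mem _ fun i hi => (hR' i hi i).1
  have hzN : ∀ j ∈ I, ∑ i ∈ I, v i ^ T i - v j ^ T j ∈ N j t := by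
    intro j hj
    rw [← Finset.sum_erase_add _ _ hj, add_sub_cancel_right]
    refine Submodule.sum_mem _ fun i hi => ?_
    have hi' := Finset.mem_of_mem_erase hi
    exact (hR' i hi' j).2 ((hv i hi').2.2.2.1 j hj (Finset.ne_of_mem_erase hi).symm)
  refine ⟨t, ht1, T, hT2, ∑ i ∈ I, v i ^ T i, hzR, hzN, fun m x hx => ?_⟩
  have hz0 : I = ∅ → ∑ i ∈ I, v i ^ T i = 0 := fun h => by rw [h, Finset.sum_empty]
  generalize ∑ i ∈ I, v i ^ T i = z at hzR hzN hz0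
  have e0 : t + m - 1 + 1 = t + m := by omega
  refine hI (t + m - 1) _ ?_ fun j hj => ?_
  · rw [e0]
    rcases I.eq_empty_or_nonempty with h | ⟨j, -⟩
    · rw [hz0 h, zero_mul, mul_zero, sub_self]
      exact Submodule.zero_mem _
    · refine Submodule.sub_mem _ ((hN j).mul _ _ _ hzR _ hx) ?_
      rw [add_comm t m]
      exact (hN j).mul _ _ _ hx _ hzR
  · rw [e0]
    obtain ⟨-, -, -, h4⟩ := (hN j).pow (hv j hj).2.1 (T j)
    have h5 := h4 (hv j hj).2.2.2.2 m x hx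
    rw [(hT2 j hj).2] at h5
    have e1 : z * x - x * z = (z - v j ^ T j) * x - x * (z - v j ^ T j) +
        (v j ^ T j * x - x * v j ^ T j) := by noncomm_ring
    rw [e1]
    refine Submodule.add_mem _ (Submodule.sub_mem _ ((hN j).mulR _ _ _ (hzN j hj) _ hx) ?_) h5
    rw [add_comm t m]
    exact (hN j).mulL _ _ _ hx _ (hzN j hj)

/-- The element `a`. Let `a₀ ∈ R e₀` with `a₀ ∉ N i₀ e₀`, and `J₀ = {j ∈ I : a₀ ∈ N j e₀}`,
`a = a₀^t + ∑_{j ∈ J₀} v_j^(T j * e₀) ∈ R (t e₀)`. For `j ∈ J₀`: `a - v_j^(T j e₀) ∈ N j (t e₀)`, so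
`a ∉ N j`; for `j ∈ I`, `j ∉ J₀`: `a - a₀^t ∈ N j (t e₀)`, so `a ∉ N j`. In particular for
`j = i₀`. -/
theorem exists_a {R : ℕ → Submodule k D} (hmono : Monotone R)
    {r : ℕ} {N : Fin r → ℕ → Submodule k D} (hN : ∀ i, SymPair R (N i)) {I : Finset (Fin r)}
    {d : Fin r → ℕ} {v : Fin r → D} (hv : ∀ i ∈ I, 1 ≤ d i ∧ v i ∈ R (d i) ∧ v i ∉ N i (d i) ∧
      (∀ j ∈ I, j ≠ i → v i ∈ N j (d i)) ∧
      ∀ m, ∀ x ∈ R m, v i * x - x * v i ∈ N i (d i + m))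
    {t : ℕ} (ht : 1 ≤ t) {T : Fin r → ℕ} (hT : ∀ i ∈ I, 1 ≤ T i ∧ d i * T i = t)
    {i₀ : Fin r} (hi₀ : i₀ ∈ I) {e₀ : ℕ} (he₀ : 1 ≤ e₀) {a₀ : D} (ha₀ : a₀ ∈ R e₀)
    (ha₀N : a₀ ∉ N i₀ e₀) :
    ∃ a ∈ R (t * e₀), (∀ i ∈ I, a ∉ N i (t * e₀)) ∧ a - a₀ ^ t ∈ N i₀ (t * e₀) := by
  classical
  have hTe : ∀ i ∈ I, 1 ≤ T i * e₀ := fun i hi => Nat.mul_pos (hT i hi).1 he₀
  have hTd : ∀ i ∈ I, d i * (T i * e₀) = t * e₀ := fun i hi => by
    rw [← Nat.mul_assoc, (hT i hi).2]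
  have hP : ∀ i ∈ I, ∀ j, v i ^ (T i * e₀) ∈ R (t * e₀) ∧
      (v i ∈ N j (d i) → v i ^ (T i * e₀) ∈ N j (t * e₀)) ∧
      (v i ∉ N j (d i) → v i ^ (T i * e₀) ∉ N j (t * e₀)) := by
    intro i hi j
    obtain ⟨h1, h2, h3, -⟩ := (hN j).pow (hv i hi).2.1 (T i * e₀)
    rw [hTd i hi] at h1 h2 h3
    exact ⟨h1, h2 (hTe i hi), h3⟩
  have hA : ∀ j, a₀ ^ t ∈ R (t * e₀) ∧ (a₀ ∈ N j e₀ → a₀ ^ t ∈ N j (t * e₀)) ∧
      (a₀ ∉ N j e₀ → a₀ ^ t ∉ N j (t * e₀)) := by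
    intro j
    obtain ⟨h1, h2, h3, -⟩ := (hN j).pow ha₀ t
    rw [Nat.mul_comm e₀ t] at h1 h2 h3
    exact ⟨h1, h2 ht, h3⟩
  have hout : ∀ i ∈ I, a₀ ∉ N i e₀ →
      ∑ j ∈ I with a₀ ∈ N j e₀, v j ^ (T j * e₀) ∈ N i (t * e₀) := by
    intro i hi hai
    refine Submodule.sum_mem _ fun j hj => ?_
    rw [Finset.mem_filter] at hj
    refine (hP j hj.1 i).2.1 ((hv j hj.1).2.2.2.1 i hi ?_)
    rintro rfl
    exact hai hj.2
  refine ⟨a₀ ^ t + ∑ j ∈ I with a₀ ∈ N j e₀, v j ^ (T j * e₀), ?_, fun i hi => ?_, ?_⟩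
  · refine Submodule.add_mem _ (hA i₀).1 (Submodule.sum_mem _ fun j hj => ?_)
    exact (hP j (Finset.mem_filter.1 hj).1 j).1
  · by_cases hai : a₀ ∈ N i e₀
    · have hiJ : i ∈ I.filter fun j => a₀ ∈ N j e₀ := Finset.mem_filter.2 ⟨hi, hai⟩
      rw [← Finset.sum_erase_add _ _ hiJ, ← add_assoc]
      have h1 : a₀ ^ t + ∑ j ∈ (I.filter fun j => a₀ ∈ N j e₀).erase i, v j ^ (T j * e₀) ∈
          N i (t * e₀) := by
        refine Submodule.add_mem _ ((hA i).2.1 hai) (Submodule.sum_mem _ fun j hj => ?_)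
        have hj' := (Finset.mem_filter.1 (Finset.mem_of_mem_erase hj)).1
        exact (hP j hj' i).2.1 ((hv j hj').2.2.2.1 i hi (Finset.ne_of_mem_erase hj).symm)
      intro h2
      have h3 := Submodule.sub_mem _ h2 h1
      rw [add_sub_cancel_left] at h3
      exact (hP i hi i).2.2 (hv i hi).2.2.1 h3
    · intro h2
      have h3 := Submodule.sub_mem _ h2 (hout i hi hai)
      rw [add_sub_cancel_right] at h3
      exact (hA i).2.2 hai h3
  · rw [add_sub_cancel_left]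
    exact hout i₀ hi₀ ha₀N

/-- `hreg` and `hreg0` of Lemma P for an `a ∈ R e`, `e ≥ 1`, whose symbols are nonzero in all
components `i ∈ I`. If `x ∉ R n`, let `m > n` be minimal with `x ∈ R m`. By `hI` (at `m - 1`) there
is `i ∈ I` with `x ∉ N i m`. So `a x ∉ N i (e + m)` by `prime`, but
`a x ∈ R (n + e) ≤ R (m + e - 1) ≤ N i (m + e)`, contradiction. For `hreg0`: if `x ≠ 0`,
let `m` be minimal with `x ∈ R m`. If `m ≥ 1` argue as before (`R (e-1) ≤ R (m+e-1)`). If `m = 0`: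
`R 0` is a finite-dimensional domain, so `x⁻¹ ∈ R 0` (`x R 0 = R 0`, so `x y = 1`) and
`a x ∈ R (e-1)` implies `a = a x x⁻¹ ∈ R (e-1) ≤ N i e`, contradiction (`I ≠ ∅`). -/
theorem reg_of_comp {R : ℕ → Submodule k D} {C : ℕ} (hR : Filt R C)
    {r : ℕ} {N : Fin r → ℕ → Submodule k D} (hN : ∀ i, SymPair R (N i)) {I : Finset (Fin r)}
    (hI : ∀ n, ∀ x ∈ R (n + 1), (∀ i ∈ I, x ∈ N i (n + 1)) → x ∈ R n) (hIne : I.Nonempty)
    {e : ℕ} (he : 1 ≤ e) {a : D} (hae : a ∈ R e) (haN : ∀ i ∈ I, a ∉ N i e) :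
    (∀ n x, (∃ m, x ∈ R m) → a * x ∈ R (n + e) → x ∈ R n) ∧
      ∀ x, (∃ m, x ∈ R m) → a * x ∈ R (e - 1) → x = 0 := by
  have key : ∀ m' x, x ∈ R (m' + 1) → x ∉ R m' → a * x ∈ R (m' + e) → False := by
    intro m' x h1 h2 h3
    have h4 : ∃ i ∈ I, x ∉ N i (m' + 1) := by
      by_contra hno
      push Not at hno
      exact h2 (hI m' x h1 hno)
    obtain ⟨i, hi, hxi⟩ := h4
    have h5 := (hN i).low _ h3
    have e1 : m' + e + 1 = e + (m' + 1) := by ring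
    rw [e1] at h5
    rcases (hN i).prime _ _ _ hae _ h1 h5 with h6 | h6
    · exact haN i hi h6
    · exact hxi h6
  classical
  refine ⟨fun n x hx hax => ?_, fun x hx hax => ?_⟩
  · by_contra hxn
    have h1 : n < Nat.find hx := by
      by_contra h1
      exact hxn (hR.mono (not_lt.1 h1) (Nat.find_spec hx))
    obtain ⟨m', hm'⟩ : ∃ m', Nat.find hx = m' + 1 := ⟨Nat.find hx - 1, by omega⟩
    refine key m' x (hm' ▸ Nat.find_spec hx) (Nat.find_min hx (by omega)) ?_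
    exact hR.mono (by omega) hax
  · by_contra hx0
    rcases Nat.eq_zero_or_pos (Nat.find hx) with h0 | h0
    · have hx0R : x ∈ R 0 := h0 ▸ Nat.find_spec hx
      have : Module.Finite k ↥(R 0) := Module.Finite.iff_fg.2 (hR.fg 0)
      let f : ↥(R 0) →ₗ[k] ↥(R 0) := (LinearMap.mulLeft k x).restrict fun y hy =>
        hR.mul 0 0 _ hx0R _ hy
      have hinj : Function.Injective f := by
        intro y z hyz
        have h1 := congrArg (Subtype.val : ↥(R 0) → D) hyz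
        have h2 : x * (y : D) = x * (z : D) := h1
        exact Subtype.val_injective (mul_left_cancel₀ hx0 h2)
      obtain ⟨y, hy⟩ := LinearMap.injective_iff_surjective.1 hinj ⟨1, hR.one⟩
      have h3 : x * (y : D) = 1 := congrArg (Subtype.val : ↥(R 0) → D) hy
      obtain ⟨i, hi⟩ := hIne
      have h4 : a ∈ R (e - 1) := by
        have h5 := hR.mul _ _ _ hax _ y.2
        rwa [mul_assoc, h3, mul_one, Nat.add_zero] at h5
      have h6 := (hN i).low _ h4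
      rw [Nat.sub_add_cancel he] at h6
      exact haN i hi h6
    · obtain ⟨m', hm'⟩ : ∃ m', Nat.find hx = m' + 1 := ⟨Nat.find hx - 1, by omega⟩
      refine key m' x (hm' ▸ Nat.find_spec hx) (Nat.find_min hx (by omega)) ?_
      exact hR.mono (by omega) hax

end Pool.Agent.BQG
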