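import Pool.Agent.H.MP_fbbc72_al.h23.F3

set_option autoImplicit false

namespace Pool.Agent.BQG

open Module

universe u v

variable {k : Type v} {D : Type u} [Field k] [DivisionRing D] [Algebra k D]

theorem F4_pow_sub {R N : ℕ → Submodule k D} (hN : SymPair R N) {n : ℕ} {x y : D}
    (hx : x ∈ R n) (hy : y ∈ R n) (hxy : x - y ∈ N n) (i : ℕ) : x ^ i - y ^ i ∈ N (n * i) := by
  induction i with
  | zero =>
    rw [pow_zero, pow_zero, sub_self]
    exact Submodule.zero_mem _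
  | succ i ih =>
    have e1 : x ^ (i + 1) - y ^ (i + 1) = x ^ i * (x - y) + (x ^ i - y ^ i) * y := by
      rw [pow_succ, pow_succ, mul_sub, sub_mul]
      abel
    rw [e1, Nat.mul_succ]
    exact Submodule.add_mem _ (hN.mulL _ _ _ (hN.pow hx i).1 _ hxy) (hN.mulR _ _ _ ih _ hy)

/-- FINAL THEOREM. `k` finite; if `gr R` is finitely generated and a subdirect product of finitely
many (graded) domains, then `D` is finite over its centre.

Suppose not. `I` of `exists_irredundant`; `I ≠ ∅` by `finCent_of_trivial`. `d, v` of `exists_comp`;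
`v i` (`i ∈ I`) is transcendental (`SymPair.transc`). `i₀` of `exists_unbounded`. `a₀, e₀` of
`SymPair.exists_nondiv` for the component `i₀` and `v i₀`. `t, T, z` of `exists_v`, `a` of
`exists_a`, `e = t e₀ ≥ 1`. `a` is transcendental (`SymPair.transc`). Apply
`Filt.central_symbol` (Theorem W; `p` := the characteristic of `k`, `CharP.exists`, prime since
`k` is finite) with `v := z`, `d := t`. It remains to see that `z^i ∉ fspan a (R (i t - 1))` for
`i ≥ 1`. Otherwise by `Filt.fspan_mem` (Lemma P; hypotheses by `reg_of_comp`)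
`z^i = y₀ + a y₁`, `y₀ ∈ R (i t - 1) ≤ N i₀ (i t)`. If `y₁ = 0` then `z^i ∈ N i₀ (i t)`,
contradiction (`z ∉ N i₀ t`). Otherwise `y₁ ∈ R (i t - e)`, `e ≤ i t`, and
`z^i - a y₁ ∈ N i₀ (i t)`; as `z^i - v_{i₀}^(T i₀ * i) ∈ N i₀ (i t)`
and `a y₁ - a₀ (a₀^(t-1) y₁) ∈ N i₀ (i t)` we get
`v_{i₀}^(T i) - a₀ g ∈ N i₀ (d (T i))`, `g = a₀^(t-1) y₁ ∈ R (e₀ (t-1) + i t - e)`,
`e₀ + (e₀ (t-1) + i t - e) = i t = d i₀ * (T i₀ * i)`, contradicting the choice of `a₀`. -/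
theorem finCent_of_gr [Finite k] {R : ℕ → Submodule k D} {C : ℕ} (hR : Filt R C)
    (hfg : FG R) {r : ℕ} {N : Fin r → ℕ → Submodule k D} (hN : ∀ i, SymPair R (N i))
    (hint : ∀ n, ∀ x ∈ R (n + 1), (∀ i, x ∈ N i (n + 1)) → x ∈ R n) : FinCent D := by
  by_contra hD
  have hmono := hR.mono
  obtain ⟨I, hI, hirr⟩ := exists_irredundant N hint
  rcases I.eq_empty_or_nonempty with hIe | hIne
  · apply hD
    refine finCent_of_trivial hR fun n x hx => hI n x hx fun i hi => ?_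
    rw [hIe] at hi
    exact absurd hi (Finset.notMem_empty i)
  obtain ⟨d, v, hv⟩ := exists_comp hR hfg hN hirr
  obtain ⟨i1, hi1⟩ := hIne
  have htr : Transcendental k (v i1) :=
    SymPair.transc hmono (hN i1) (hv i1 hi1).1 (hv i1 hi1).2.1 (hv i1 hi1).2.2.1
  obtain ⟨i₀, hi₀, hunb⟩ := exists_unbounded hR hfg hD htr hN hI
  obtain ⟨hd0, hv0, hvN0, hvj0, hvc0⟩ := hv i₀ hi₀
  obtain ⟨e₀, he₀, a₀, ha₀, ha₀N, hnd⟩ :=
    SymPair.exists_nondiv hR hfg (hN i₀) hunb hd0 hv0 hvN0 hvc0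
  obtain ⟨t, ht, T, hT, z, hz, hzN, hzc⟩ := exists_v hmono hN hI hv
  obtain ⟨a, ha, haN, haa⟩ := exists_a hmono hN hv ht hT hi₀ he₀ ha₀ ha₀N
  have he : 1 ≤ t * e₀ := Nat.mul_pos ht he₀
  have hat : Transcendental k a := SymPair.transc hmono (hN i₀) he ha (haN i₀ hi₀)
  obtain ⟨hreg, hreg0⟩ := reg_of_comp hR hN hI ⟨i1, hi1⟩ he ha haN
  obtain ⟨p, hp⟩ := CharP.exists k
  have hpp : p.Prime := by
    rcases CharP.char_is_prime_or_zero k p with h | h
    · exact h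
    · subst h
      exact absurd (CharP.char_ne_zero_of_finite k 0) (by simp)
  obtain ⟨m, C', hQ, -, -⟩ := hR.quad hfg
  apply hD
  have hN0 := hN i₀
  have hvT : v i₀ ^ T i₀ ∉ N i₀ t := by
    have h1 := (hN0.pow hv0 (T i₀)).2.2.1 hvN0
    rwa [(hT i₀ hi₀).2] at h1
  have hvTR : v i₀ ^ T i₀ ∈ R t := by
    have h1 := (hN0.pow hv0 (T i₀)).1
    rwa [(hT i₀ hi₀).2] at h1
  have hzN0 : z ∉ N i₀ t := by
    intro h
    apply hvT
    have h1 := Submodule.sub_mem _ h (hzN i₀ hi₀)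
    rwa [sub_sub_cancel] at h1
  refine Filt.central_symbol hQ hR hpp hat ht ha hz (fun n x hx => ?_) (fun i hi hmem => ?_)
  · rw [Nat.add_comm n t]
    exact hzc n x hx
  have hit : 1 ≤ i * t := Nat.mul_pos hi ht
  have hzi : z ^ i ∈ R (i * t) := by
    have h1 := (hN0.pow hz i).1
    rwa [Nat.mul_comm] at h1
  obtain ⟨y₀, hy₀, y₁, hy, hcase⟩ := hR.fspan_mem hat he ha hreg hreg0 hit hzi hmem
  have hy₀N : y₀ ∈ N i₀ (i * t) := by
    have h1 := hN0.low (i * t - 1) hy₀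
    rwa [Nat.sub_add_cancel hit] at h1
  rcases hcase with ⟨hle, hy₁⟩ | hy₁
  · have hidx : t * e₀ + (i * t - t * e₀) = i * t := Nat.add_sub_cancel' hle
    have hidx2 : e₀ + (e₀ * (t - 1) + (i * t - t * e₀)) = d i₀ * (T i₀ * i) := by
      have h1 : e₀ + e₀ * (t - 1) = t * e₀ := by
        obtain ⟨t', rfl⟩ := Nat.exists_eq_add_of_le ht
        rw [Nat.add_sub_cancel_left]
        ring
      rw [← Nat.add_assoc, h1, hidx, ← Nat.mul_assoc, (hT i₀ hi₀).2, Nat.mul_comm]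
    have hg : a₀ ^ (t - 1) * y₁ ∈ R (e₀ * (t - 1) + (i * t - t * e₀)) :=
      hN0.mul _ _ _ (hN0.pow ha₀ (t - 1)).1 _ hy₁
    refine hnd (T i₀ * i) _ _ hg hidx2 ?_
    have hdt : d i₀ * (T i₀ * i) = i * t := by
      rw [← Nat.mul_assoc, (hT i₀ hi₀).2, Nat.mul_comm]
    rw [hdt]
    have k1 : z ^ i - (v i₀ ^ T i₀) ^ i ∈ N i₀ (i * t) := by
      have h1 := F4_pow_sub hN0 hz hvTR (hzN i₀ hi₀) i
      rwa [Nat.mul_comm] at h1
    have k2 : (a - a₀ ^ t) * y₁ ∈ N i₀ (i * t) := by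
      have h1 := hN0.mulR _ _ _ haa _ hy₁
      rwa [hidx] at h1
    have e1 : v i₀ ^ (T i₀ * i) - a₀ * (a₀ ^ (t - 1) * y₁) =
        y₀ - (z ^ i - (v i₀ ^ T i₀) ^ i) + (a - a₀ ^ t) * y₁ := by
      have h2 : a₀ * (a₀ ^ (t - 1) * y₁) = a₀ ^ t * y₁ := by
        rw [← mul_assoc, ← pow_succ', Nat.sub_add_cancel ht]
      rw [h2, pow_mul, hy, sub_mul]
      abel
    rw [e1]
    exact Submodule.add_mem _ (Submodule.sub_mem _ hy₀N k1) k2
  · rw [hy₁, mul_zero, add_zero] at hy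
    have h1 := (hN0.pow hz i).2.2.1 hzN0
    rw [Nat.mul_comm, hy] at h1
    exact h1 hy₀N

end Pool.Agent.BQG
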