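import Mathlib

set_option autoImplicit false

namespace Pool.Agent.BQG

open Module

universe u v

variable {k : Type v} {D : Type u} [Field k] [DivisionRing D] [Algebra k D]

/-- `R` is a filtration, and `N n / R (n-1)` is a graded completely prime ideal of the associated
graded ring `gr R = ⊕ R n / R (n-1)`. -/
structure SymPair (R N : ℕ → Submodule k D) : Prop where
  one : (1 : D) ∈ R 0
  mul : ∀ m n, ∀ x ∈ R m, ∀ y ∈ R n, x * y ∈ R (m + n)
  le : ∀ n, N n ≤ R n
  low : ∀ n, R n ≤ N (n + 1)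
  one_not : (1 : D) ∉ N 0
  mulL : ∀ m n, ∀ x ∈ R m, ∀ y ∈ N n, x * y ∈ N (m + n)
  mulR : ∀ m n, ∀ x ∈ N m, ∀ y ∈ R n, x * y ∈ N (m + n)
  prime : ∀ m n, ∀ x ∈ R m, ∀ y ∈ R n, x * y ∈ N (m + n) → x ∈ N m ∨ y ∈ N n

/-- The Rees algebra of the filtration, inside `D[X]`. -/
def G1_A {R N : ℕ → Submodule k D} (h : SymPair R N) : Subalgebra k (Polynomial D) where
  carrier := {f | ∀ n, f.coeff n ∈ R n}
  mul_mem' := by
    intro f g hf hg n
    rw [Polynomial.coeff_mul]
    refine Submodule.sum_mem _ fun p hp => ?_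
    have h1 := h.mul p.1 p.2 _ (hf p.1) _ (hg p.2)
    rwa [Finset.HasAntidiagonal.mem_antidiagonal.mp hp] at h1
  add_mem' := by
    intro f g hf hg n
    rw [Polynomial.coeff_add]
    exact Submodule.add_mem _ (hf n) (hg n)
  algebraMap_mem' := by
    intro c n
    rw [Polynomial.algebraMap_apply, Polynomial.coeff_C]
    split_ifs with h0
    · subst h0
      rw [Algebra.algebraMap_eq_smul_one]
      exact Submodule.smul_mem _ _ h.one
    · exact Submodule.zero_mem _

theorem G1_mem {R N : ℕ → Submodule k D} (h : SymPair R N) (f : Polynomial D) :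
    f ∈ G1_A h ↔ ∀ n, f.coeff n ∈ R n := Iff.rfl

/-- The ideal of the elements with coefficients in `N n`. -/
def G1_I {R N : ℕ → Submodule k D} (h : SymPair R N) : Ideal (G1_A h) where
  carrier := {f | ∀ n, (f : Polynomial D).coeff n ∈ N n}
  add_mem' := by
    intro f g hf hg n
    change ((f : Polynomial D) + (g : Polynomial D)).coeff n ∈ N n
    rw [Polynomial.coeff_add]
    exact Submodule.add_mem _ (hf n) (hg n)
  zero_mem' := by
    intro n
    change (0 : Polynomial D).coeff n ∈ N n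
    rw [Polynomial.coeff_zero]
    exact Submodule.zero_mem _
  smul_mem' := by
    intro c f hf n
    change ((c : Polynomial D) * (f : Polynomial D)).coeff n ∈ N n
    rw [Polynomial.coeff_mul]
    refine Submodule.sum_mem _ fun p hp => ?_
    have h1 := h.mulL p.1 p.2 _ (c.2 p.1) _ (hf p.2)
    rwa [Finset.HasAntidiagonal.mem_antidiagonal.mp hp] at h1

theorem G1_mem_I {R N : ℕ → Submodule k D} (h : SymPair R N) (f : G1_A h) :
    f ∈ G1_I h ↔ ∀ n, (f : Polynomial D).coeff n ∈ N n := Iff.rfl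

instance G1_two {R N : ℕ → Submodule k D} (h : SymPair R N) : (G1_I h).IsTwoSided where
  mul_mem_of_left := by
    intro f c hf n
    change ((f : Polynomial D) * (c : Polynomial D)).coeff n ∈ N n
    rw [Polynomial.coeff_mul]
    refine Submodule.sum_mem _ fun p hp => ?_
    have h1 := h.mulR p.1 p.2 _ (hf p.1) _ (c.2 p.2)
    rwa [Finset.HasAntidiagonal.mem_antidiagonal.mp hp] at h1

/-- The largest index with a coefficient outside of `N`. -/
theorem G1_top {R N : ℕ → Submodule k D} (h : SymPair R N) (f : G1_A h) (hf : f ∉ G1_I h) :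
    ∃ m, (f : Polynomial D).coeff m ∉ N m ∧ ∀ i, m < i → (f : Polynomial D).coeff i ∈ N i := by
  classical
  rw [G1_mem_I] at hf
  push Not at hf
  obtain ⟨n0, hn0⟩ := hf
  have hsub : ∀ n, (f : Polynomial D).coeff n ∉ N n → n ∈ (f : Polynomial D).support := by
    intro n hn
    rw [Polynomial.mem_support_iff]
    intro h0
    apply hn
    rw [h0]
    exact Submodule.zero_mem _
  have hne : ((f : Polynomial D).support.filter fun n => (f : Polynomial D).coeff n ∉ N n).Nonempty :=
    ⟨n0, Finset.mem_filter.mpr ⟨hsub n0 hn0, hn0⟩⟩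
  obtain ⟨m, hm, hmax⟩ := Finset.exists_max_image _ id hne
  refine ⟨m, (Finset.mem_filter.mp hm).2, fun i hi => ?_⟩
  by_contra hcon
  have h1 := hmax i (Finset.mem_filter.mpr ⟨hsub i hcon, hcon⟩)
  exact absurd h1 (not_le.mpr hi)

theorem G1_prime {R N : ℕ → Submodule k D} (h : SymPair R N) (f g : G1_A h)
    (hfg : f * g ∈ G1_I h) : f ∈ G1_I h ∨ g ∈ G1_I h := by
  by_contra hcon
  push Not at hcon
  obtain ⟨hf, hg⟩ := hcon
  obtain ⟨m, hm, hm2⟩ := G1_top h f hf
  obtain ⟨n, hn, hn2⟩ := G1_top h g hg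
  have h1 : ((f : Polynomial D) * (g : Polynomial D)).coeff (m + n) ∈ N (m + n) := hfg (m + n)
  rw [Polynomial.coeff_mul] at h1
  have hmem : (m, n) ∈ Finset.HasAntidiagonal.antidiagonal (m + n) := Finset.HasAntidiagonal.mem_antidiagonal.mpr rfl
  rw [← Finset.add_sum_erase _ _ hmem] at h1
  have h2 : ∑ p ∈ (Finset.HasAntidiagonal.antidiagonal (m + n)).erase (m, n),
      (f : Polynomial D).coeff p.1 * (g : Polynomial D).coeff p.2 ∈ N (m + n) := by
    refine Submodule.sum_mem _ fun p hp => ?_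
    obtain ⟨hp1, hp2⟩ := Finset.mem_erase.mp hp
    have hp3 := Finset.HasAntidiagonal.mem_antidiagonal.mp hp2
    rw [← hp3]
    rcases lt_trichotomy m p.1 with hlt | heq | hgt
    · exact h.mulR _ _ _ (hm2 _ hlt) _ (g.2 _)
    · exfalso
      apply hp1
      have h4 : p.2 = n := by omega
      exact Prod.ext heq.symm h4
    · exact h.mulL _ _ _ (f.2 _) _ (hn2 _ (by omega))
  have h3 := Submodule.sub_mem _ h1 h2
  rw [add_sub_cancel_right] at h3
  rcases h.prime m n _ (f.2 m) _ (g.2 n) h3 with h4 | h4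
  · exact hm h4
  · exact hn h4

/-- The element `X^n x` of the Rees algebra. -/
noncomputable def G1_mon {R N : ℕ → Submodule k D} (h : SymPair R N) (n : ℕ) :
    R n →ₗ[k] G1_A h where
  toFun x := ⟨Polynomial.monomial n (x : D), by
    intro i
    rw [Polynomial.coeff_monomial]
    split_ifs with h0
    · subst h0
      exact x.2
    · exact Submodule.zero_mem _⟩
  map_add' x y := Subtype.ext (map_add (Polynomial.monomial n) (x : D) (y : D))
  map_smul' c x := Subtype.ext (by
    change Polynomial.monomial n (c • (x : D)) = c • Polynomial.monomial n (x : D)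
    rw [Polynomial.smul_monomial])

theorem G1_mon_I {R N : ℕ → Submodule k D} (h : SymPair R N) (n : ℕ) (x : R n) :
    G1_mon h n x ∈ G1_I h ↔ (x : D) ∈ N n := by
  constructor
  · intro h1
    have h2 : (Polynomial.monomial n (x : D)).coeff n ∈ N n := h1 n
    rwa [Polynomial.coeff_monomial, if_pos rfl] at h2
  · intro h1 i
    change (Polynomial.monomial n (x : D)).coeff i ∈ N i
    rw [Polynomial.coeff_monomial]
    split_ifs with h0
    · subst h0
      exact h1
    · exact Submodule.zero_mem _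

/-- The graded domain `⊕ R n / N n`, with the symbol maps `ψ n` (extended arbitrarily from `R n`
to `D` as linear maps). -/
theorem exists_gr {R N : ℕ → Submodule k D} (h : SymPair R N) :
    ∃ (G : Type u) (_ : Ring G) (_ : Algebra k G) (ψ : ℕ → D →ₗ[k] G),
      NoZeroDivisors G ∧ Nontrivial G ∧
      (∀ n, ∀ x ∈ R n, ψ n x = 0 ↔ x ∈ N n) ∧ ψ 0 1 = 1 ∧
      (∀ m n, ∀ x ∈ R m, ∀ y ∈ R n, ψ (m + n) (x * y) = ψ m x * ψ n y) ∧
      (∀ (M : ℕ) (x : ℕ → D), (∀ n, x n ∈ R n) → ∑ n ∈ Finset.range M, ψ n (x n) = 0 →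
        ∀ n < M, ψ n (x n) = 0) ∧
      (∀ g : G, ∃ (M : ℕ) (x : ℕ → D), (∀ n, x n ∈ R n) ∧ g = ∑ n ∈ Finset.range M, ψ n (x n)) := by
  classical
  have hext : ∀ n, ∃ g : D →ₗ[k] (G1_A h ⧸ G1_I h), g.comp (R n).subtype =
      ((Ideal.Quotient.mkₐ k (G1_I h)).toLinearMap).comp (G1_mon h n) := fun n =>
    LinearMap.exists_extend _
  choose ψ hψ using hext
  have hψ' : ∀ n (x : D) (hx : x ∈ R n),
      ψ n x = Ideal.Quotient.mk (G1_I h) (G1_mon h n ⟨x, hx⟩) := fun n x hx =>
    LinearMap.congr_fun (hψ n) ⟨x, hx⟩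
  refine ⟨G1_A h ⧸ G1_I h, inferInstance, inferInstance, ψ, ?_, ?_, ?_, ?_, ?_, ?_, ?_⟩
  · refine ⟨?_⟩
    intro a b hab
    obtain ⟨f, rfl⟩ := Ideal.Quotient.mk_surjective a
    obtain ⟨g, rfl⟩ := Ideal.Quotient.mk_surjective b
    rw [← map_mul, Ideal.Quotient.eq_zero_iff_mem] at hab
    rw [Ideal.Quotient.eq_zero_iff_mem, Ideal.Quotient.eq_zero_iff_mem]
    exact G1_prime h f g hab
  · refine ⟨⟨1, 0, ?_⟩⟩
    intro h1
    rw [← map_one (Ideal.Quotient.mk (G1_I h)), Ideal.Quotient.eq_zero_iff_mem] at h1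
    apply h.one_not
    have h2 : ((1 : Polynomial D)).coeff 0 ∈ N 0 := h1 0
    rwa [Polynomial.coeff_one_zero] at h2
  · intro n x hx
    rw [hψ' n x hx, Ideal.Quotient.eq_zero_iff_mem, G1_mon_I]
  · rw [hψ' 0 1 h.one, ← map_one (Ideal.Quotient.mk (G1_I h))]
    congr 1
  · intro m n x hx y hy
    rw [hψ' m x hx, hψ' n y hy, hψ' (m + n) (x * y) (h.mul m n x hx y hy), ← map_mul]
    congr 1
    refine Subtype.ext ?_
    change Polynomial.monomial (m + n) (x * y) = Polynomial.monomial m x * Polynomial.monomial n y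
    rw [Polynomial.monomial_mul_monomial]
  · intro M x hx hsum n hn
    have h1 : ∑ n ∈ Finset.range M, ψ n (x n) =
        Ideal.Quotient.mk (G1_I h) (∑ n ∈ Finset.range M, G1_mon h n ⟨x n, hx n⟩) := by
      rw [map_sum]
      exact Finset.sum_congr rfl fun n _ => hψ' n _ (hx n)
    rw [h1, Ideal.Quotient.eq_zero_iff_mem] at hsum
    have h2 := hsum n
    have h3 : ((∑ n ∈ Finset.range M, G1_mon h n ⟨x n, hx n⟩ : G1_A h) : Polynomial D) =
        ∑ n ∈ Finset.range M, Polynomial.monomial n (x n) := by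
      rw [AddSubmonoidClass.coe_finsetSum]
      rfl
    rw [h3, Polynomial.finsetSum_coeff, Finset.sum_eq_single n] at h2
    · rw [Polynomial.coeff_monomial, if_pos rfl] at h2
      rw [hψ' n _ (hx n), Ideal.Quotient.eq_zero_iff_mem, G1_mon_I]
      exact h2
    · intro j _ hj
      rw [Polynomial.coeff_monomial, if_neg hj]
    · intro hc
      exact absurd (Finset.mem_range.mpr hn) hc
  · intro g
    obtain ⟨f, rfl⟩ := Ideal.Quotient.mk_surjective g
    refine ⟨(f : Polynomial D).natDegree + 1, fun n => (f : Polynomial D).coeff n, f.2, ?_⟩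
    have h1 : ∑ n ∈ Finset.range ((f : Polynomial D).natDegree + 1),
        ψ n ((f : Polynomial D).coeff n) = Ideal.Quotient.mk (G1_I h)
        (∑ n ∈ Finset.range ((f : Polynomial D).natDegree + 1),
          G1_mon h n ⟨(f : Polynomial D).coeff n, f.2 n⟩) := by
      rw [map_sum]
      exact Finset.sum_congr rfl fun n _ => hψ' n _ (f.2 n)
    rw [h1]
    congr 1
    refine Subtype.ext ?_
    rw [AddSubmonoidClass.coe_finsetSum]
    exact Polynomial.as_sum_range _

end Pool.Agent.BQG
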