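import Mathlib

set_option autoImplicit false

namespace Pool.Agent.BQG

open Module

universe u v

variable {k : Type v} {G : Type u} [Field k] [Ring G] [Algebra k G]

/-- exponential beats quadratic -/
theorem G2_exists_pow_gt (A : ℕ) : ∃ K : ℕ, A * (K + 1) ^ 2 < 2 ^ K := by
  have h1 := tendsto_pow_const_div_const_pow_of_one_lt 2 (r := (2 : ℝ)) (by norm_num)
  have h2 : ∀ᶠ n : ℕ in Filter.atTop, (n : ℝ) ^ 2 / 2 ^ n < 1 / (2 * (A + 1)) := by
    apply h1.eventually_lt_const
    positivity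
  obtain ⟨N, hN⟩ := (h2.and (Filter.eventually_ge_atTop 1)).exists
  obtain ⟨hN1, hN2⟩ := hN
  obtain ⟨K, rfl⟩ := Nat.exists_eq_add_of_le hN2
  refine ⟨K, ?_⟩
  have h3 : (2 : ℝ) ^ (1 + K) = 2 * 2 ^ K := by rw [pow_add, pow_one]
  have h4 : (0 : ℝ) < 2 ^ K := by positivity
  rw [h3, div_lt_div_iff₀ (by positivity) (by positivity)] at hN1
  have h5 : ((A : ℝ) + 1) * ((K : ℝ) + 1) ^ 2 < 2 ^ K := by
    push_cast at hN1
    nlinarith
  have h6 : (A : ℝ) * ((K : ℝ) + 1) ^ 2 < 2 ^ K := by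
    have : (0 : ℝ) ≤ ((K : ℝ) + 1) ^ 2 := by positivity
    nlinarith
  exact_mod_cast h6

/-- The counting argument for two linear maps. -/
theorem G2_core [Nontrivial G] (W : ℕ → Submodule k G)
    (hfg : ∀ n, (W n).FG) (hone : (1 : G) ∈ W 0) (C : ℕ)
    (hgr : ∀ n, finrank k ↥(W n) ≤ C * (n + 1) ^ 2) (m : ℕ) (f g : G →ₗ[k] G)
    (hf : ∀ n, ∀ z ∈ W n, f z ∈ W (n + m)) (hg : ∀ n, ∀ z ∈ W n, g z ∈ W (n + m))
    (hinj : ∀ q, g q = 0 → q = 0) : ∃ p q, p ≠ 0 ∧ f p = g q := by
  by_contra hcon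
  push Not at hcon
  have hfin : ∀ n, Module.Finite k ↥(W n) := fun n => Module.Finite.iff_fg.mpr (hfg n)
  have hstep : ∀ n, 2 * finrank k ↥(W n) ≤ finrank k ↥(W (n + m)) := by
    intro n
    have := hfin n
    have := hfin (n + m)
    let F : (↥(W n) × ↥(W n)) →ₗ[k] ↥(W (n + m)) :=
      { toFun := fun x => ⟨f x.1.1 - g x.2.1,
          Submodule.sub_mem _ (hf n _ x.1.2) (hg n _ x.2.2)⟩
        map_add' := by
          intro x y
          ext
          simp only [Prod.fst_add, Prod.snd_add, Submodule.coe_add, map_add]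
          abel
        map_smul' := by
          intro c x
          ext
          simp only [Prod.smul_fst, Prod.smul_snd, Submodule.coe_smul, RingHom.id_apply,
            map_smul, smul_sub] }
    have hF : Function.Injective F := by
      rw [← LinearMap.ker_eq_bot, LinearMap.ker_eq_bot']
      rintro ⟨⟨x, hx⟩, ⟨y, hy⟩⟩ hxy
      have h1 : f x - g y = 0 := congrArg Subtype.val hxy
      have h2 : f x = g y := sub_eq_zero.mp h1
      have hx0 : x = 0 := by
        by_contra hx0
        exact hcon x y hx0 h2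
      have hy0 : y = 0 := by
        apply hinj
        rw [← h2, hx0, map_zero]
      simp [hx0, hy0]
    have h1 := LinearMap.finrank_le_finrank_of_injective hF
    rw [Module.finrank_prod] at h1
    omega
  have hexp : ∀ j, 2 ^ j ≤ finrank k ↥(W (j * m)) := by
    intro j
    induction j with
    | zero =>
      have := hfin (0 * m)
      have h0 : (1 : G) ∈ W (0 * m) := by rw [zero_mul]; exact hone
      have h1 : (⟨1, h0⟩ : ↥(W (0 * m))) ≠ 0 := by
        intro h0
        exact one_ne_zero (congrArg Subtype.val h0)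
      have h2 : Nontrivial ↥(W (0 * m)) := ⟨⟨_, _, h1⟩⟩
      exact Module.finrank_pos
    | succ j ih =>
      have h1 := hstep (j * m)
      have e1 : j * m + m = (j + 1) * m := by ring
      rw [e1] at h1
      rw [pow_succ]
      omega
  obtain ⟨K, hK⟩ := G2_exists_pow_gt (C * (m + 1) ^ 2)
  have h1 := hexp K
  have h2 := hgr (K * m)
  have h3 : C * (K * m + 1) ^ 2 ≤ C * (m + 1) ^ 2 * (K + 1) ^ 2 := by
    have h4 : K * m + 1 ≤ (m + 1) * (K + 1) := by nlinarith
    have h5 := Nat.pow_le_pow_left h4 2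
    calc C * (K * m + 1) ^ 2 ≤ C * ((m + 1) * (K + 1)) ^ 2 := Nat.mul_le_mul_left C h5
      _ = C * (m + 1) ^ 2 * (K + 1) ^ 2 := by ring
  omega

/-- Ore conditions from polynomial growth.

Left: if `p x ≠ q y` for all `p ≠ 0` and all `q`, then (`x ≠ 0`, as otherwise `p = 1, q = 0`) the
map `W n × W n → W (n + m)`, `(p, q) ↦ p x - q y` is injective when `x, y ∈ W m`; so
`2 finrank (W n) ≤ finrank (W (n+m))` and `2^j ≤ finrank (W (j m)) ≤ C (j m + 1)^2`, impossible for
large `j`. (The proof is the one of `Quad.leftOre` in h41/Core5.lean.) Right: the same. -/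
theorem ore_of_growth [NoZeroDivisors G] [Nontrivial G] (W : ℕ → Submodule k G)
    (hfg : ∀ n, (W n).FG) (hmono : Monotone W) (hone : (1 : G) ∈ W 0)
    (hmul : ∀ m n, ∀ x ∈ W m, ∀ y ∈ W n, x * y ∈ W (m + n)) (hex : ∀ x, ∃ n, x ∈ W n) (C : ℕ)
    (hgr : ∀ n, finrank k ↥(W n) ≤ C * (n + 1) ^ 2) :
    (∀ x y : G, y ≠ 0 → ∃ p q, p ≠ 0 ∧ p * x = q * y) ∧
    (∀ x y : G, y ≠ 0 → ∃ p q, p ≠ 0 ∧ x * p = y * q) := by
  constructor
  · intro x y hy
    obtain ⟨a, ha⟩ := hex x
    obtain ⟨b, hb⟩ := hex y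
    have hx : x ∈ W (max a b) := hmono (le_max_left a b) ha
    have hy' : y ∈ W (max a b) := hmono (le_max_right a b) hb
    exact G2_core W hfg hone C hgr (max a b) (LinearMap.mulRight k x) (LinearMap.mulRight k y)
      (fun n z hz => hmul n _ z hz x hx) (fun n z hz => hmul n _ z hz y hy')
      (fun q hq => (mul_eq_zero.mp hq).resolve_right hy)
  · intro x y hy
    obtain ⟨a, ha⟩ := hex x
    obtain ⟨b, hb⟩ := hex y
    have hx : x ∈ W (max a b) := hmono (le_max_left a b) ha
    have hy' : y ∈ W (max a b) := hmono (le_max_right a b) hb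
    exact G2_core W hfg hone C hgr (max a b) (LinearMap.mulLeft k x) (LinearMap.mulLeft k y)
      (fun n z hz => by rw [add_comm]; exact hmul _ n x hx z hz)
      (fun n z hz => by rw [add_comm]; exact hmul _ n y hy' z hz)
      (fun q hq => (mul_eq_zero.mp hq).resolve_left hy)

open OreLocalization nonZeroDivisors in
/-- The division ring of fractions of an Ore domain.

`E := OreLocalization (nonZeroDivisors G) G` with the instance
`OreLocalization.nonempty_oreSet_iff_of_noZeroDivisors` (left Ore; choose an `OreSet` by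
`Nonempty.some`); Mathlib has the instances `DivisionRing` and `Algebra k`
(`Mathlib.RingTheory.OreLocalization.Ring`) and `OreLocalization.numeratorHom` with
`numeratorHom_inj`. Every element is `s⁻¹ r`; by the right Ore condition for `r, s` there are
`p ≠ 0, q` with `r p = s q`, so `s⁻¹ r = q p⁻¹`. -/
theorem exists_fractions [NoZeroDivisors G] [Nontrivial G]
    (hl : ∀ x y : G, y ≠ 0 → ∃ p q, p ≠ 0 ∧ p * x = q * y)
    (hr : ∀ x y : G, y ≠ 0 → ∃ p q, p ≠ 0 ∧ x * p = y * q) :
    ∃ (E : Type u) (_ : DivisionRing E) (_ : Algebra k E) (ι : G →ₐ[k] E),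
      Function.Injective ι ∧ ∀ e : E, ∃ x y : G, y ≠ 0 ∧ e = ι x * (ι y)⁻¹ := by
  have hne : Nonempty (OreSet (G⁰)) := by
    rw [nonempty_oreSet_iff_of_noZeroDivisors]
    intro r s
    obtain ⟨p, q, hp, hpq⟩ := hl r (s : G) (nonZeroDivisors.coe_ne_zero s)
    exact ⟨q, ⟨p, mem_nonZeroDivisors_of_ne_zero hp⟩, hpq⟩
  let inst : OreSet (G⁰) := hne.some
  let ι : G →ₐ[k] OreLocalization (G⁰) G :=
    { (numeratorRingHom : G →+* OreLocalization (G⁰) G) with
      commutes' := fun r => rfl }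
  have hι : ∀ x, ι x = x /ₒ (1 : G⁰) := fun x => rfl
  have hinj : Function.Injective ι := by
    intro x y hxy
    exact numeratorHom_inj (R := G) (S := G⁰) (fun s hs => (mem_nonZeroDivisors_iff.mp hs).1) hxy
  refine ⟨OreLocalization (G⁰) G, inferInstance, inferInstance, ι, hinj, fun e => ?_⟩
  induction e using OreLocalization.ind with
  | _ r s =>
    obtain ⟨p, q, hp, hpq⟩ := hr r (s : G) (nonZeroDivisors.coe_ne_zero s)
    refine ⟨q, p, hp, ?_⟩
    have hp' : ι p ≠ 0 := fun h => hp (hinj (by rw [h, map_zero]))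
    rw [eq_mul_inv_iff_mul_eq₀ hp', hι, hι, OreLocalization.mul_div_one, hpq]
    have h1 := OreLocalization.expand q (1 : G⁰) (s : G) (by simp)
    rw [h1]
    congr 1
    ext
    simp

end Pool.Agent.BQG
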