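import Pool.Agent.H.MP_fbbc72_al.h23.G1
import Pool.Agent.H.MP_fbbc72_al.h23.G2

set_option autoImplicit false

namespace Pool.Agent.BQG

open Module

universe u v

variable {k : Type v} {D : Type u} [Field k] [DivisionRing D] [Algebra k D]

/-- Symbol maps with values in a division ring `E`, the division ring of fractions of the graded
domain `⊕ R n / N n`. -/
structure Symb {E : Type u} [DivisionRing E] [Algebra k E] (R N : ℕ → Submodule k D)
    (φ : ℕ → D →ₗ[k] E) : Prop where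
  ker : ∀ n, ∀ x ∈ R n, φ n x = 0 ↔ x ∈ N n
  one : φ 0 1 = 1
  mul : ∀ m n, ∀ x ∈ R m, ∀ y ∈ R n, φ (m + n) (x * y) = φ m x * φ n y
  indep : ∀ (M : ℕ) (x : ℕ → D), (∀ n, x n ∈ R n) → ∑ n ∈ Finset.range M, φ n (x n) = 0 →
    ∀ n < M, φ n (x n) = 0
  frac : ∀ e : E, ∃ u ∈ ⨆ n, (R n).map (φ n), ∃ v ∈ ⨆ n, (R n).map (φ n), v ≠ 0 ∧ e = u * v⁻¹

/-- The dimension of a finite sum of subspaces is at most the sum of the dimensions. -/
theorem G3_finrank_biSup_le {V : Type*} [AddCommGroup V] [Module k V] (N : ℕ → Submodule k V)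
    (hN : ∀ i, (N i).FG) (s : Finset ℕ) :
    finrank k ↥(⨆ i ∈ s, N i) ≤ ∑ i ∈ s, finrank k ↥(N i) := by
  classical
  induction s using Finset.induction_on with
  | empty =>
    have h0 : (⨆ i ∈ (∅ : Finset ℕ), N i) = ⊥ := by simp
    rw [h0]
    simp
  | insert a s ha ih =>
    rw [Finset.iSup_insert, Finset.sum_insert ha]
    have : FiniteDimensional k ↥(N a) := Module.Finite.iff_fg.mpr (hN a)
    have : FiniteDimensional k ↥(⨆ i ∈ s, N i) :=
      Module.Finite.iff_fg.mpr (Submodule.fg_biSup s N fun i _ => hN i)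
    exact (Submodule.finrank_add_le_finrank_add_finrank _ _).trans (by omega)

/-- The dimension of the image of `R` under a linear map whose kernel in `R` is `N`. -/
theorem G3_finrank_map {G : Type*} [AddCommGroup G] [Module k G] (R N : Submodule k D)
    (hfg : R.FG) (hle : N ≤ R) (ψ : D →ₗ[k] G) (hker : ∀ x ∈ R, ψ x = 0 ↔ x ∈ N) :
    finrank k ↥(R.map ψ) = finrank k ↥R - finrank k ↥N := by
  have : FiniteDimensional k ↥R := Module.Finite.iff_fg.mpr hfg
  have h1 := LinearMap.finrank_range_add_finrank_ker (ψ ∘ₗ R.subtype)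
  have h2 : LinearMap.range (ψ ∘ₗ R.subtype) = R.map ψ := by
    rw [LinearMap.range_comp, Submodule.range_subtype]
  have h3 : LinearMap.ker (ψ ∘ₗ R.subtype) = N.submoduleOf R := by
    ext x
    rw [LinearMap.mem_ker, LinearMap.comp_apply]
    exact hker _ x.2
  have h4 : finrank k ↥(N.submoduleOf R) = finrank k ↥N :=
    (Submodule.submoduleOfEquivOfLe hle).finrank_eq
  rw [h2, h3, h4] at h1
  omega

/-- Existence of the symbol maps. From `exists_gr` take `G, ψ`. `W n := ⨆ i ≤ n, (R i).map (ψ i)`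
(e.g. `⨆ i ∈ Finset.range (n+1), ...`) satisfies the hypotheses of `ore_of_growth`: its dimension
is `≤ ∑_{i ≤ n} finrank ((R i).map (ψ i)) = ∑_{i≤n} (finrank (R i) - finrank (N i))`
(the kernel of `ψ i` restricted to `R i` is `N i`). Then `exists_fractions`,
`φ n := ι ∘ ψ n`. -/
theorem exists_symb {R N : ℕ → Submodule k D} (h : SymPair R N) (hfg : ∀ n, (R n).FG) (C : ℕ)
    (hgr : ∀ n, ∑ i ∈ Finset.range (n + 1), (finrank k ↥(R i) - finrank k ↥(N i)) ≤
      C * (n + 1) ^ 2) :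
    ∃ (E : Type u) (_ : DivisionRing E) (_ : Algebra k E) (φ : ℕ → D →ₗ[k] E), Symb R N φ := by
  classical
  obtain ⟨G, iR, iA, ψ, hnzd, hnt, hker, hone, hmul, hind, hex⟩ := exists_gr h
  have hWle : ∀ (n i : ℕ), i ≤ n →
      (R i).map (ψ i) ≤ ⨆ j ∈ Finset.range (n + 1), (R j).map (ψ j) := fun n i hi =>
    le_iSup₂_of_le (f := fun j (_ : j ∈ Finset.range (n + 1)) => (R j).map (ψ j)) i
      (Finset.mem_range.mpr (by omega)) le_rfl
  have hfgW : ∀ i, ((R i).map (ψ i)).FG := fun i => (hfg i).map _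
  have hWmul : ∀ m n, ∀ x ∈ ⨆ j ∈ Finset.range (m + 1), (R j).map (ψ j),
      ∀ y ∈ ⨆ j ∈ Finset.range (n + 1), (R j).map (ψ j),
      x * y ∈ ⨆ j ∈ Finset.range (m + n + 1), (R j).map (ψ j) := by
    intro m n x hx y hy
    have h1 : ∀ i ∈ Finset.range (m + 1), ∀ a ∈ (R i).map (ψ i),
        (⨆ j ∈ Finset.range (n + 1), (R j).map (ψ j)) ≤
          (⨆ j ∈ Finset.range (m + n + 1), (R j).map (ψ j)).comap (LinearMap.mulLeft k a) := by
      intro i hi a ha
      refine iSup₂_le fun j hj => ?_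
      intro b hb
      rw [Submodule.mem_comap, LinearMap.mulLeft_apply]
      obtain ⟨a', ha', rfl⟩ := ha
      obtain ⟨b', hb', rfl⟩ := hb
      have hi' := Finset.mem_range.mp hi
      have hj' := Finset.mem_range.mp hj
      refine hWle (m + n) (i + j) (by omega) ⟨a' * b', h.mul i j a' ha' b' hb', ?_⟩
      exact hmul i j a' ha' b' hb'
    have h2 : (⨆ j ∈ Finset.range (m + 1), (R j).map (ψ j)) ≤
        (⨆ j ∈ Finset.range (m + n + 1), (R j).map (ψ j)).comap (LinearMap.mulRight k y) := by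
      refine iSup₂_le fun i hi => ?_
      intro a ha
      rw [Submodule.mem_comap, LinearMap.mulRight_apply]
      exact h1 i hi a ha hy
    exact h2 hx
  have hgrW : ∀ n, finrank k ↥(⨆ j ∈ Finset.range (n + 1), (R j).map (ψ j)) ≤
      C * (n + 1) ^ 2 := by
    intro n
    refine (G3_finrank_biSup_le _ hfgW _).trans (le_trans (le_of_eq ?_) (hgr n))
    refine Finset.sum_congr rfl fun i _ => ?_
    exact G3_finrank_map (R i) (N i) (hfg i) (h.le i) (ψ i) (hker i)
  obtain ⟨hl, hr⟩ := ore_of_growth (fun n => ⨆ j ∈ Finset.range (n + 1), (R j).map (ψ j))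
    (fun n => Submodule.fg_biSup _ _ fun i _ => hfgW i)
    (fun m n hmn => iSup₂_le fun i hi => hWle n i
      ((Finset.mem_range_succ_iff.mp hi).trans hmn))
    (hWle 0 0 le_rfl ⟨1, h.one, hone⟩) hWmul
    (fun g => by
      obtain ⟨M, x, hx, hg⟩ := hex g
      refine ⟨M, ?_⟩
      rw [hg]
      exact Submodule.sum_mem _ fun i hi =>
        hWle M i (Finset.mem_range.mp hi).le ⟨x i, hx i, rfl⟩) C hgrW
  obtain ⟨E, iE, iAE, ι, hinj, hfr⟩ := exists_fractions (k := k) hl hr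
  have hmem : ∀ g : G, ι g ∈ ⨆ n, (R n).map (ι.toLinearMap ∘ₗ ψ n) := by
    intro g
    obtain ⟨M, x, hx, hg⟩ := hex g
    rw [hg, map_sum]
    refine Submodule.sum_mem _ fun i _ => ?_
    exact Submodule.mem_iSup_of_mem i ⟨x i, hx i, rfl⟩
  refine ⟨E, iE, iAE, fun n => ι.toLinearMap ∘ₗ ψ n, ?_, ?_, ?_, ?_, ?_⟩
  · intro n x hx
    rw [← hker n x hx]
    exact map_eq_zero_iff ι hinj
  · change ι (ψ 0 1) = 1
    rw [hone, map_one]
  · intro m n x hx y hy
    change ι (ψ (m + n) (x * y)) = ι (ψ m x) * ι (ψ n y)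
    rw [hmul m n x hx y hy, map_mul]
  · intro M x hx hsum n hn
    have h1 : ι (∑ n ∈ Finset.range M, ψ n (x n)) = 0 := by
      rw [map_sum]
      exact hsum
    have h2 := hind M x hx ((map_eq_zero_iff ι hinj).mp h1) n hn
    change ι (ψ n (x n)) = 0
    rw [h2, map_zero]
  · intro e
    obtain ⟨x, y, hy, he⟩ := hfr e
    exact ⟨ι x, hmem x, ι y, hmem y, (map_ne_zero_iff ι hinj).mpr hy, he⟩

end Pool.Agent.BQG
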