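import Pool.Agent.H.MP_fbbc72_al.h41.Core17

set_option autoImplicit false

namespace Pool.Agent.BQG

open Module MulOpposite

universe u v

variable {k : Type v} {E : Type u} [Field k] [DivisionRing E] [Algebra k E]

/-- `⊕ H n` is a finitely generated graded domain of quadratic growth with division ring of
fractions `E`. -/
structure GrDom (H : ℕ → Submodule k E) (C : ℕ) : Prop where
  fg : ∀ n, (H n).FG
  one : (1 : E) ∈ H 0
  mul : ∀ m n, ∀ x ∈ H m, ∀ y ∈ H n, x * y ∈ H (m + n)
  indep : ∀ (M : ℕ) (x : ℕ → E), (∀ n, x n ∈ H n) → ∑ n ∈ Finset.range M, x n = 0 →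
    ∀ n < M, x n = 0
  growth : ∀ n, finrank k ↥(H n) ≤ C * (n + 1)
  gen : ∃ m, ∀ n, m < n → H n ≤ ⨆ i ∈ Finset.Ioo 0 n, H i * H (n - i)
  frac : ∀ d : E, ∃ u ∈ ⨆ n, H n, ∃ v ∈ ⨆ n, H n, v ≠ 0 ∧ d = u * v⁻¹

/-- Linear growth of the pieces from quadratic growth of the sums. If `H l = ⊥` for all `l ≥ 1`
take `C' = finrank (H 0)`. Otherwise let `0 ≠ y ∈ H l`, `l ≥ 1`. Multiplication by `y^j` injects
`H n` into `H (n + j l)`, so for the `j` with `j l ≤ n` (there are `n / l + 1` of them, and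
`(n / l + 1) l ≥ n + 1`): `(n / l + 1) finrank (H n) ≤ ∑_{i ≤ 2n} finrank (H i) ≤ C (2n+1)^2`;
hence `finrank (H n) ≤ 4 l C (n+1)`. -/
theorem growth_linear {H : ℕ → Submodule k E} (hfg : ∀ n, (H n).FG)
    (hmul : ∀ m n, ∀ x ∈ H m, ∀ y ∈ H n, x * y ∈ H (m + n)) (C : ℕ)
    (hgr : ∀ n, ∑ i ∈ Finset.range (n + 1), finrank k ↥(H i) ≤ C * (n + 1) ^ 2) :
    ∃ C', ∀ n, finrank k ↥(H n) ≤ C' * (n + 1) := by
  classical
  have hfin : ∀ n, FiniteDimensional k ↥(H n) := fun n => Module.Finite.iff_fg.mpr (hfg n)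
  by_cases hall : ∀ l, 1 ≤ l → H l = ⊥
  · refine ⟨finrank k ↥(H 0), fun n => ?_⟩
    rcases Nat.eq_zero_or_pos n with rfl | hn
    · simp
    · rw [hall n hn, finrank_bot]
      exact Nat.zero_le _
  · push Not at hall
    obtain ⟨l, hl, hne⟩ := hall
    obtain ⟨y, hy, hy0⟩ := (Submodule.ne_bot_iff _).1 hne
    have hstep : ∀ n, finrank k ↥(H n) ≤ finrank k ↥(H (n + l)) := by
      intro n
      have := hfin (n + l)
      refine LinearMap.finrank_le_finrank_of_injective
        (f := (LinearMap.mulRight k y).restrict (p := H n) (q := H (n + l))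
          (fun x hx => hmul n l x hx y hy)) ?_
      intro a b hab
      have h1 : (a : E) * y = (b : E) * y := congrArg Subtype.val hab
      exact Subtype.ext (mul_right_cancel₀ hy0 h1)
    have hsteps : ∀ n j, finrank k ↥(H n) ≤ finrank k ↥(H (n + j * l)) := by
      intro n j
      induction j with
      | zero => rw [Nat.zero_mul, Nat.add_zero]
      | succ j ih =>
        refine ih.trans ((hstep _).trans (le_of_eq ?_))
        rw [Nat.succ_mul, Nat.add_assoc]
    refine ⟨4 * l * C, fun n => ?_⟩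
    have h1 : (n / l + 1) * finrank k ↥(H n) ≤ ∑ j ∈ Finset.range (n / l + 1),
        finrank k ↥(H (n + j * l)) := by
      rw [← Finset.card_range (n / l + 1), ← smul_eq_mul, Finset.card_range]
      calc (n / l + 1) • finrank k ↥(H n) = ∑ _j ∈ Finset.range (n / l + 1), finrank k ↥(H n) := by
            rw [Finset.sum_const, Finset.card_range]
        _ ≤ _ := Finset.sum_le_sum fun j _ => hsteps n j
    have h2 : ∑ j ∈ Finset.range (n / l + 1), finrank k ↥(H (n + j * l)) ≤
        ∑ i ∈ Finset.range (2 * n + 1), finrank k ↥(H i) := by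
      have hinj : Set.InjOn (fun j => n + j * l) (Finset.range (n / l + 1) : Set ℕ) := by
        intro a _ b _ hab
        have h3 : a * l = b * l := by
          have := hab
          simp only at this
          omega
        exact Nat.eq_of_mul_eq_mul_right (by omega) h3
      rw [← Finset.sum_image (g := fun j => n + j * l) (f := fun i => finrank k ↥(H i)) hinj]
      apply Finset.sum_le_sum_of_subset
      intro i hi
      obtain ⟨j, hj, rfl⟩ := Finset.mem_image.1 hi
      rw [Finset.mem_range] at hj ⊢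
      have h4 : j * l ≤ n / l * l := Nat.mul_le_mul_right l (by omega)
      have h5 : n / l * l ≤ n := Nat.div_mul_le_self n l
      omega
    have h3 := hgr (2 * n)
    have h4 : n + 1 ≤ (n / l + 1) * l := by
      have := Nat.lt_div_mul_add (a := n) (b := l) (by omega)
      rw [Nat.add_mul, Nat.one_mul]
      omega
    have h5 : (n + 1) * finrank k ↥(H n) ≤ (n + 1) * (4 * l * C * (n + 1)) := by
      calc (n + 1) * finrank k ↥(H n) ≤ ((n / l + 1) * l) * finrank k ↥(H n) :=
            Nat.mul_le_mul_right _ h4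
        _ = l * ((n / l + 1) * finrank k ↥(H n)) := by ring
        _ ≤ l * (C * (2 * n + 1) ^ 2) := Nat.mul_le_mul_left _ (h1.trans (h2.trans h3))
        _ ≤ l * (C * (2 * (n + 1)) ^ 2) := by gcongr; omega
        _ = (n + 1) * (4 * l * C * (n + 1)) := by ring
    exact Nat.le_of_mul_le_mul_left h5 (Nat.succ_pos n)

/-- homogeneous components exist -/
theorem GrDom.dec (H : ℕ → Submodule k E) {z : E} (hz : z ∈ ⨆ n, H n) :
    ∃ (M : ℕ) (x : ℕ → E), (∀ n, x n ∈ H n) ∧ (∀ n, M ≤ n → x n = 0) ∧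
      z = ∑ n ∈ Finset.range M, x n := by
  classical
  obtain ⟨f, hf, hz'⟩ := (Submodule.mem_iSup_iff_exists_finsupp H z).1 hz
  have hzero : ∀ n, f.support.sup id + 1 ≤ n → f n = 0 := by
    intro n hn
    by_contra h0
    have h1 : n ≤ f.support.sup id := Finset.le_sup (f := id) (Finsupp.mem_support_iff.2 h0)
    omega
  refine ⟨f.support.sup id + 1, f, hf, hzero, ?_⟩
  rw [← hz']
  apply Finsupp.sum_of_support_subset
  · intro n hn
    rw [Finset.mem_range]
    by_contra h0
    exact (Finsupp.mem_support_iff.1 hn) (hzero n (by omega))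
  · intro _ _
    rfl

/-- homogeneous components are unique. (Both sums may be extended to `max M M'`, the difference is
zero; apply `indep`.) -/
theorem GrDom.uniq {H : ℕ → Submodule k E} {C : ℕ} (h : GrDom H C) {M M' : ℕ} {x x' : ℕ → E}
    (hx : ∀ n, x n ∈ H n) (hx' : ∀ n, x' n ∈ H n) (hM : ∀ n, M ≤ n → x n = 0)
    (hM' : ∀ n, M' ≤ n → x' n = 0)
    (he : ∑ n ∈ Finset.range M, x n = ∑ n ∈ Finset.range M', x' n) : x = x' := by
  have h1 : ∑ n ∈ Finset.range M, x n = ∑ n ∈ Finset.range (max M M'), x n := by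
    apply Finset.sum_subset (Finset.range_mono (le_max_left _ _))
    intro n _ hn
    exact hM n (by simpa using hn)
  have h2 : ∑ n ∈ Finset.range M', x' n = ∑ n ∈ Finset.range (max M M'), x' n := by
    apply Finset.sum_subset (Finset.range_mono (le_max_right _ _))
    intro n _ hn
    exact hM' n (by simpa using hn)
  have h3 : ∑ n ∈ Finset.range (max M M'), (x n - x' n) = 0 := by
    rw [Finset.sum_sub_distrib, ← h1, ← h2, he, sub_self]
  have h4 := h.indep (max M M') (fun n => x n - x' n)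
    (fun n => (H n).sub_mem (hx n) (hx' n)) h3
  funext n
  rcases lt_or_ge n (max M M') with hn | hn
  · exact sub_eq_zero.1 (h4 n hn)
  · rw [hM n (le_trans (le_max_left _ _) hn), hM' n (le_trans (le_max_right _ _) hn)]

theorem T1_mul {H : ℕ → Submodule k E} {C : ℕ} (h : GrDom H C) (a b : ℕ) :
    (⨆ i ∈ Finset.range (a + 1), H i) * (⨆ j ∈ Finset.range (b + 1), H j) ≤
      ⨆ l ∈ Finset.range (a + b + 1), H l := by
  rw [Submodule.iSup_mul]
  refine iSup_le fun i => ?_
  rw [Submodule.iSup_mul]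
  refine iSup_le fun hi => ?_
  rw [Submodule.mul_iSup]
  refine iSup_le fun j => ?_
  rw [Submodule.mul_iSup]
  refine iSup_le fun hj => ?_
  rw [Finset.mem_range] at hi hj
  refine Submodule.mul_le.2 fun x hx y hy => ?_
  have h1 : H (i + j) ≤ ⨆ l ∈ Finset.range (a + b + 1), H l :=
    le_iSup₂_of_le (i + j) (Finset.mem_range.2 (by omega)) le_rfl
  exact h1 (h.mul i j x hx y hy)

theorem T1_finrank {H : ℕ → Submodule k E} {C : ℕ} (h : GrDom H C) (N : ℕ) :
    finrank k ↥(⨆ i ∈ Finset.range N, H i) ≤ C * N ^ 2 := by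
  induction N with
  | zero =>
    have h0 : (⨆ i ∈ Finset.range 0, H i) = ⊥ := by simp
    rw [h0, finrank_bot]
    exact Nat.zero_le _
  | succ N ih =>
    rw [Finset.range_add_one, Finset.iSup_insert]
    have := Module.Finite.iff_fg.mpr (h.fg N)
    have := Module.Finite.iff_fg.mpr (Submodule.fg_biSup (Finset.range N) H fun i _ => h.fg i)
    have h1 := Submodule.finrank_add_le_finrank_add_finrank (H N) (⨆ i ∈ Finset.range N, H i)
    have h2 := h.growth N
    calc _ ≤ C * (N + 1) + C * N ^ 2 := h1.trans (Nat.add_le_add h2 ih)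
      _ ≤ C * (N + 1) + C * N ^ 2 + C * N := Nat.le_add_right _ _
      _ = C * (N + 1) ^ 2 := by ring

theorem T1_quad {H : ℕ → Submodule k E} {C : ℕ} (h : GrDom H C) :
    ∃ (V : Submodule k E) (C' : ℕ), Quad V C' ∧ (∀ n, H n ≤ V ^ (n + 1)) ∧
      ∀ n, V ^ n ≤ ⨆ i, H i := by
  classical
  obtain ⟨m, hm⟩ := h.gen
  set V : Submodule k E := ⨆ i ∈ Finset.range (m + 1), H i with hV
  have h0V : H 0 ≤ V := le_iSup₂_of_le 0 (Finset.mem_range.2 (by omega)) le_rfl
  have hone : (1 : E) ∈ V := h0V h.one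
  have h1V : (1 : Submodule k E) ≤ V := Submodule.one_le.2 hone
  have hmono : ∀ {a b : ℕ}, a ≤ b → V ^ a ≤ V ^ b := fun hab => pow_le_pow_right' h1V hab
  have hpow : ∀ n, V ^ n ≤ ⨆ i ∈ Finset.range (m * n + 1), H i := by
    intro n
    induction n with
    | zero =>
      rw [pow_zero, Submodule.one_le]
      have : H 0 ≤ ⨆ i ∈ Finset.range (m * 0 + 1), H i :=
        le_iSup₂_of_le 0 (Finset.mem_range.2 (by omega)) le_rfl
      exact this h.one
    | succ n ih =>
      rw [pow_succ]
      exact (mul_le_mul' ih le_rfl).trans (T1_mul h (m * n) m)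
  have hle : ∀ n, 1 ≤ n → H n ≤ V ^ n := by
    intro n
    induction n using Nat.strong_induction_on with
    | _ n ih =>
      intro hn
      rcases le_or_gt n m with hnm | hnm
      · have h2 : H n ≤ V := le_iSup₂_of_le n (Finset.mem_range.2 (by omega)) le_rfl
        refine h2.trans ?_
        have h3 := hmono hn
        rwa [pow_one] at h3
      · refine (hm n hnm).trans ?_
        refine iSup₂_le fun i hi => ?_
        rw [Finset.mem_Ioo] at hi
        have h4 : V ^ n = V ^ i * V ^ (n - i) := by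
          rw [← pow_add]
          congr 1
          omega
        rw [h4]
        exact mul_le_mul' (ih i hi.2 (by omega)) (ih (n - i) (by omega) (by omega))
  have hle' : ∀ n, H n ≤ V ^ (n + 1) := by
    intro n
    rcases Nat.eq_zero_or_pos n with rfl | hn
    · rw [Nat.zero_add, pow_one]
      exact h0V
    · exact (hle n hn).trans (hmono (Nat.le_succ n))
  have hmem : ∀ z ∈ ⨆ n, H n, ∃ N, z ∈ V ^ N := by
    intro z hz
    obtain ⟨M, x, hx, _, hzx⟩ := GrDom.dec H hz
    refine ⟨M, ?_⟩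
    rw [hzx]
    apply Submodule.sum_mem
    intro n hn
    rw [Finset.mem_range] at hn
    exact hmono (by omega) (hle' n (hx n))
  refine ⟨V, C * (m + 1) ^ 2, ?_, hle', ?_⟩
  · refine ⟨?_, hone, ?_, ?_⟩
    · exact Submodule.fg_biSup _ _ fun i _ => h.fg i
    · intro n hn
      have hfg : (⨆ i ∈ Finset.range (m * n + 1), H i).FG :=
        Submodule.fg_biSup _ _ fun i _ => h.fg i
      have := Module.Finite.iff_fg.mpr hfg
      refine (Submodule.finrank_mono (hpow n)).trans ((T1_finrank h (m * n + 1)).trans ?_)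
      calc C * (m * n + 1) ^ 2 ≤ C * ((m + 1) * n) ^ 2 := by
            gcongr
            rw [Nat.add_mul, Nat.one_mul]
            omega
        _ = C * (m + 1) ^ 2 * n ^ 2 := by ring
    · intro d
      obtain ⟨u, hu, v, hv, hv0, hd⟩ := h.frac d
      obtain ⟨N1, hN1⟩ := hmem u hu
      obtain ⟨N2, hN2⟩ := hmem v hv
      exact ⟨max N1 N2, u, hmono (le_max_left _ _) hN1, v, hmono (le_max_right _ _) hN2, hv0, hd⟩
  · intro n
    refine (hpow n).trans (iSup₂_le fun i _ => le_iSup H i)

/-- The finitely generated domain `⊕ H n` as a `Quad`. Let `m ≥ 1` be as in `gen`,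
`V = ⨆ i ≤ m, H i`. `H n ≤ V^(n+1)`: for `n ≤ m` clear (`V ≤ V^(n+1)` since `1 ∈ V`); for `n ≥ 1`
one even has `H n ≤ V^n` by strong induction (`H i * H (n-i) ≤ V^i * V^(n-i)`), and `H 0 ≤ V`.
`V^n ≤ ⨆ i ≤ m n, H i`, so its dimension is at most `∑_{i ≤ mn} C (i+1) ≤ C (mn+1)^2 ≤
C (m+1)^2 n^2` for `n ≥ 1`. Fractions: every element of `⨆ n, H n` is in some `V^n`. -/
theorem GrDom.quad {H : ℕ → Submodule k E} {C : ℕ} (h : GrDom H C) :
    ∃ (V : Submodule k E) (C' : ℕ), Quad V C' ∧ ∀ n, H n ≤ V ^ (n + 1) := by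
  obtain ⟨V, C', h1, h2, _⟩ := T1_quad h
  exact ⟨V, C', h1, h2⟩

/-- The opposite graded domain. The fractions of the opposite ring are left fractions of `E`: use
`Quad.leftFrac` for the `V` of `GrDom.quad`, together with
`V ^ n ≤ ⨆ n, H n` (a subalgebra containing `V`; you may repeat that argument). For `gen`
note that `op (x y) = op y op x` and re-index `i ↦ n - i`. -/
theorem GrDom.opp {H : ℕ → Submodule k E} {C : ℕ} (h : GrDom H C) :
    GrDom (fun n => opS (H n)) C := by
  obtain ⟨V, C', hQ, _, hVH⟩ := T1_quad h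
  have hsup : opS (⨆ n, H n) = ⨆ n, opS (H n) := Submodule.map_iSup _ _
  refine ⟨fun n => (h.fg n).map _, mem_opS.2 h.one, ?_, ?_, ?_, ?_, ?_⟩
  · intro m n x hx y hy
    rw [mem_opS] at hx hy ⊢
    rw [unop_mul, Nat.add_comm]
    exact h.mul n m _ hy _ hx
  · intro M x hx h0 n hn
    have h1 : ∑ n ∈ Finset.range M, unop (x n) = 0 := by
      rw [← MulOpposite.unop_zero (α := E), ← h0]
      exact (map_sum (MulOpposite.opAddEquiv (α := E)).symm x (Finset.range M)).symm
    have h2 := h.indep M (fun n => unop (x n)) (fun n => mem_opS.1 (hx n)) h1 n hn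
    exact unop_injective h2
  · intro n
    have h1 : finrank k ↥(opS (H n)) = finrank k ↥(H n) :=
      (LinearEquiv.finrank_map_eq (opLinearEquiv k : E ≃ₗ[k] Eᵐᵒᵖ) (H n))
    rw [h1]
    exact h.growth n
  · obtain ⟨m, hm⟩ := h.gen
    refine ⟨m, fun n hn => ?_⟩
    have h1 : opS (H n) ≤ opS (⨆ i ∈ Finset.Ioo 0 n, H i * H (n - i)) :=
      Submodule.map_mono (hm n hn)
    refine h1.trans ?_
    have h2 : opS (⨆ i ∈ Finset.Ioo 0 n, H i * H (n - i)) =
        ⨆ i ∈ Finset.Ioo 0 n, opS (H i * H (n - i)) := by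
      unfold opS
      simp only [Submodule.map_iSup]
    rw [h2]
    refine iSup₂_le fun i hi => ?_
    have h3 : opS (H i * H (n - i)) = opS (H (n - i)) * opS (H i) := Submodule.map_op_mul _ _
    rw [h3]
    rw [Finset.mem_Ioo] at hi
    refine le_iSup₂_of_le (n - i) (Finset.mem_Ioo.2 ⟨by omega, by omega⟩) ?_
    have h4 : n - (n - i) = i := by omega
    rw [h4]
  · intro d
    obtain ⟨m, u, hu, v, hv, hv0, hva⟩ := hQ.leftFrac (unop d)
    refine ⟨op u, ?_, op v, ?_, ?_, ?_⟩
    · rw [← hsup]; exact mem_opS.mpr (hVH m hu)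
    · rw [← hsup]; exact mem_opS.mpr (hVH m hv)
    · intro h0; exact hv0 (op_injective h0)
    · have h1 : d * op v = op u := by
        rw [← hva]; rfl
      rw [← h1, mul_assoc, mul_inv_cancel₀ (fun h0 => hv0 (op_injective h0)), mul_one]

end Pool.Agent.BQG
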