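import Pool.Agent.H.MP_fbbc72_al.h23.T1

set_option autoImplicit false

namespace Pool.Agent.BQG

open Module MulOpposite

universe u v

variable {k : Type v} {E : Type u} [Field k] [DivisionRing E] [Algebra k E]

/-- The sequence of the products with `x`, moved by `a`. -/
noncomputable def T2_shift (x : E) (a : ℕ) (f : ℕ → E) : ℕ → E :=
  fun n => if n < a then 0 else x * f (n - a)

theorem T2_shift_add (x : E) (a : ℕ) (f : ℕ → E) (n : ℕ) : T2_shift x a f (a + n) = x * f n := by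
  unfold T2_shift
  rw [if_neg (by omega), Nat.add_sub_cancel_left]

theorem T2_shift_sum (x : E) (a : ℕ) (f : ℕ → E) (M : ℕ) :
    ∑ n ∈ Finset.range (a + M), T2_shift x a f n = x * ∑ n ∈ Finset.range M, f n := by
  rw [Finset.sum_range_add, Finset.mul_sum]
  have h1 : ∑ n ∈ Finset.range a, T2_shift x a f n = 0 := by
    refine Finset.sum_eq_zero fun n hn => ?_
    exact if_pos (Finset.mem_range.mp hn)
  rw [h1, zero_add]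
  exact Finset.sum_congr rfl fun n _ => T2_shift_add x a f n

theorem T2_shift_zero (x : E) (a : ℕ) (f : ℕ → E) {M : ℕ} (hf : ∀ n, M ≤ n → f n = 0) (n : ℕ)
    (hn : a + M ≤ n) : T2_shift x a f n = 0 := by
  unfold T2_shift
  rw [if_neg (by omega), hf _ (by omega), mul_zero]

theorem T2_shift_mem {H : ℕ → Submodule k E} {C : ℕ} (h : GrDom H C) {a : ℕ} {x : E}
    (hx : x ∈ H a) {f : ℕ → E} (hf : ∀ n, f n ∈ H n) (n : ℕ) : T2_shift x a f n ∈ H n := by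
  unfold T2_shift
  split_ifs with h1
  · exact Submodule.zero_mem _
  · have h2 := h.mul a (n - a) x hx _ (hf (n - a))
    have h3 : a + (n - a) = n := by omega
    rwa [h3] at h2

/-- Homogeneous right Ore condition. `u⁻¹ * x = p * q⁻¹` with `p, q ∈ ⨆ H n`, `q ≠ 0`, so
`x q = u p`. Take components `q = ∑ q_n`, `p = ∑ p_n` (`GrDom.dec`); `x q_n ∈ H (a+n)`,
`u p_n ∈ H (b+n)`. Choose `n` with `q_n ≠ 0`; comparing the components of degree `a + n`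
(`GrDom.uniq`) `0 ≠ x q_n = u p_{n'}` with `b + n' = a + n` (if `a + n < b` the component on
the right is `0`, contradiction). -/
theorem GrDom.ore {H : ℕ → Submodule k E} {C : ℕ} (h : GrDom H C) {a b : ℕ} {x u : E}
    (hx : x ∈ H a) (hu : u ∈ H b) (hx0 : x ≠ 0) (hu0 : u ≠ 0) :
    ∃ c c', ∃ s ∈ H c, ∃ s' ∈ H c', s ≠ 0 ∧ s' ≠ 0 ∧ x * s = u * s' ∧ a + c = b + c' := by
  obtain ⟨p, hp, q, hq, hq0, hpq⟩ := h.frac (u⁻¹ * x)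
  have hxq : x * q = u * p := by
    have h1 : x = u * (p * q⁻¹) := by rw [← hpq, mul_inv_cancel_left₀ hu0]
    rw [h1, mul_assoc, mul_assoc, inv_mul_cancel₀ hq0, mul_one]
  obtain ⟨M, qs, hqs, hqM, hqe⟩ := GrDom.dec H hq
  obtain ⟨M', ps, hps, hpM, hpe⟩ := GrDom.dec H hp
  obtain ⟨n0, hn0⟩ : ∃ n, qs n ≠ 0 := by
    by_contra hcon
    push Not at hcon
    apply hq0
    rw [hqe]
    exact Finset.sum_eq_zero fun n _ => hcon n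
  have h2 := h.uniq (M := a + M) (M' := b + M') (x := T2_shift x a qs) (x' := T2_shift u b ps)
    (T2_shift_mem h hx hqs) (T2_shift_mem h hu hps) (T2_shift_zero x a qs hqM)
    (T2_shift_zero u b ps hpM) (by rw [T2_shift_sum, T2_shift_sum, ← hqe, ← hpe, hxq])
  have h3 := congrFun h2 (a + n0)
  rw [T2_shift_add] at h3
  have h4 : x * qs n0 ≠ 0 := mul_ne_zero hx0 hn0
  by_cases hlt : a + n0 < b
  · exfalso
    apply h4
    rw [h3]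
    exact if_pos hlt
  · obtain ⟨c', hc'⟩ : ∃ c', a + n0 = b + c' := ⟨a + n0 - b, by omega⟩
    rw [hc', T2_shift_add] at h3
    refine ⟨n0, c', qs n0, hqs n0, ps c', hps c', hn0, ?_, h3, hc'⟩
    intro h5
    apply h4
    rw [h3, h5, mul_zero]

/-- The homogeneous fractions of degree `j`, as a set. -/
def LamSet (H : ℕ → Submodule k E) (j : ℕ) : Set E :=
  {e | ∃ i, ∃ x ∈ H (i + j), ∃ u ∈ H i, u ≠ 0 ∧ e = x * u⁻¹}

theorem T2_cancel (x u : E) {s : E} (hs : s ≠ 0) : x * s * (u * s)⁻¹ = x * u⁻¹ := by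
  rw [mul_inv_rev, mul_assoc, mul_inv_cancel_left₀ hs]

theorem T2_swap {x u s s' : E} (hu : u ≠ 0) (hs : s ≠ 0) (h : x * s = u * s') :
    u⁻¹ * x = s' * s⁻¹ := by
  have h1 : x = u * s' * s⁻¹ := by rw [← h, mul_assoc, mul_inv_cancel₀ hs, mul_one]
  rw [h1, mul_assoc, inv_mul_cancel_left₀ hu]

/-- closure under addition: if `u₁ s₁ = u₂ s₂ =: u` (Ore), then
`x₁ u₁⁻¹ + x₂ u₂⁻¹ = (x₁ s₁ + x₂ s₂) u⁻¹`. -/
theorem GrDom.lam_add {H : ℕ → Submodule k E} {C : ℕ} (h : GrDom H C) {j : ℕ} {e f : E}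
    (he : e ∈ LamSet H j) (hf : f ∈ LamSet H j) : e + f ∈ LamSet H j := by
  obtain ⟨i₁, x₁, hx₁, u₁, hu₁, hu₁0, rfl⟩ := he
  obtain ⟨i₂, x₂, hx₂, u₂, hu₂, hu₂0, rfl⟩ := hf
  obtain ⟨c, c', s, hs, s', hs', hs0, hs'0, h1, h2⟩ := h.ore hu₁ hu₂ hu₁0 hu₂0
  refine ⟨i₁ + c, x₁ * s + x₂ * s', Submodule.add_mem _ ?_ ?_, u₁ * s, h.mul _ _ _ hu₁ _ hs,
    mul_ne_zero hu₁0 hs0, ?_⟩
  · have h3 := h.mul _ _ _ hx₁ _ hs
    have h4 : i₁ + j + c = i₁ + c + j := by omega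
    rwa [h4] at h3
  · have h3 := h.mul _ _ _ hx₂ _ hs'
    have h4 : i₂ + j + c' = i₁ + c + j := by omega
    rwa [h4] at h3
  · rw [add_mul]
    nth_rewrite 2 [h1]
    rw [T2_cancel x₁ u₁ hs0, T2_cancel x₂ u₂ hs'0]

/-- products: `x₁ u₁⁻¹ x₂ u₂⁻¹`; if `x₂ ≠ 0`, `x₂ s = u₁ s'` (Ore), so
`u₁⁻¹ x₂ = s' s⁻¹` and the product is `(x₁ s') (u₂ s)⁻¹`; degrees:
`x₁ ∈ H (i₁ + j₁)`, `s' ∈ H (i₂ + j₂ + c - i₁)`, `u₂ s ∈ H (i₂ + c)`. -/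
theorem GrDom.lam_mul {H : ℕ → Submodule k E} {C : ℕ} (h : GrDom H C) {i j : ℕ} {e f : E}
    (he : e ∈ LamSet H i) (hf : f ∈ LamSet H j) : e * f ∈ LamSet H (i + j) := by
  obtain ⟨i₁, x₁, hx₁, u₁, hu₁, hu₁0, rfl⟩ := he
  obtain ⟨i₂, x₂, hx₂, u₂, hu₂, hu₂0, rfl⟩ := hf
  by_cases hx₂0 : x₂ = 0
  · refine ⟨i₂, 0, Submodule.zero_mem _, u₂, hu₂, hu₂0, ?_⟩
    rw [hx₂0, zero_mul, mul_zero]
  · obtain ⟨c, c', s, hs, s', hs', hs0, hs'0, h1, h2⟩ := h.ore hx₂ hu₁ hx₂0 hu₁0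
    refine ⟨i₂ + c, x₁ * s', ?_, u₂ * s, h.mul _ _ _ hu₂ _ hs, mul_ne_zero hu₂0 hs0, ?_⟩
    · have h3 := h.mul _ _ _ hx₁ _ hs'
      have h4 : i₁ + i + c' = i₂ + c + (i + j) := by omega
      rwa [h4] at h3
    · have h5 := T2_swap hu₁0 hs0 h1
      have h6 : x₁ * u₁⁻¹ * (x₂ * u₂⁻¹) = x₁ * (u₁⁻¹ * x₂) * u₂⁻¹ := by
        simp only [mul_assoc]
      rw [h6, h5, mul_inv_rev]
      simp only [mul_assoc]

/-- quotients of nonzero elements of the same degree have degree `0`: `e = x₁ u₁⁻¹`,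
`f = x₂ u₂⁻¹`, `e f⁻¹ = x₁ u₁⁻¹ u₂ x₂⁻¹`, and `u₂ s = u₁ s'`, so `u₁⁻¹ u₂ = s' s⁻¹` and
`e f⁻¹ = (x₁ s') (x₂ s)⁻¹`. -/
theorem GrDom.lam_div {H : ℕ → Submodule k E} {C : ℕ} (h : GrDom H C) {j : ℕ} {e f : E}
    (he : e ∈ LamSet H j) (hf : f ∈ LamSet H j) (hf0 : f ≠ 0) : e * f⁻¹ ∈ LamSet H 0 := by
  obtain ⟨i₁, x₁, hx₁, u₁, hu₁, hu₁0, rfl⟩ := he
  obtain ⟨i₂, x₂, hx₂, u₂, hu₂, hu₂0, rfl⟩ := hf
  have hx₂0 : x₂ ≠ 0 := fun h0 => hf0 (by rw [h0, zero_mul])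
  obtain ⟨c, c', s, hs, s', hs', hs0, hs'0, h1, h2⟩ := h.ore hu₂ hu₁ hu₂0 hu₁0
  refine ⟨i₂ + j + c, x₁ * s', ?_, x₂ * s, h.mul _ _ _ hx₂ _ hs, mul_ne_zero hx₂0 hs0, ?_⟩
  · have h3 := h.mul _ _ _ hx₁ _ hs'
    have h4 : i₁ + j + c' = i₂ + j + c + 0 := by omega
    rwa [h4] at h3
  · have h5 := T2_swap hu₁0 hs0 h1
    have h6 : x₁ * u₁⁻¹ * (x₂ * u₂⁻¹)⁻¹ = x₁ * (u₁⁻¹ * u₂) * x₂⁻¹ := by
      rw [mul_inv_rev, inv_inv]
      simp only [mul_assoc]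
    rw [h6, h5, mul_inv_rev]
    simp only [mul_assoc]

end Pool.Agent.BQG
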