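import Pool.Agent.H.MP_fbbc72_al.h23.T3

set_option autoImplicit false

namespace Pool.Agent.BQG

open Module MulOpposite

universe u v

variable {k : Type v} {E : Type u} [Field k] [DivisionRing E] [Algebra k E]

/-- There are nonzero elements of positive degree. Otherwise `⨆ n, H n = H 0` is a
finite-dimensional domain; the inverse of a nonzero `v ∈ H 0` is again in `H 0` (multiplication by
`v` is injective, hence surjective on `H 0`), so by `h.frac` `E = H 0` is finite-dimensional over
`k`, hence over its centre (e.g. `finCent_of_comm` for `L = gen k 1`, or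
`Module.Finite.of_restrictScalars_finite`). -/
theorem GrDom.exists_pos {H : ℕ → Submodule k E} {C : ℕ} (h : GrDom H C) (hE : ¬ FinCent E) :
    ∃ l, 1 ≤ l ∧ ∃ y ∈ H l, y ≠ 0 := by
  classical
  by_contra hcon
  push Not at hcon
  have hsup : ∀ z ∈ ⨆ n, H n, z ∈ H 0 := by
    intro z hz
    have h1 : (⨆ n, H n) ≤ H 0 := by
      apply iSup_le
      intro n
      rcases Nat.eq_zero_or_pos n with rfl | hn
      · exact le_rfl
      · intro y hy
        rw [hcon n hn y hy]
        exact Submodule.zero_mem _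
    exact h1 hz
  have hfd : FiniteDimensional k ↥(H 0) := Module.Finite.iff_fg.mpr (h.fg 0)
  have hinv : ∀ v ∈ H 0, v ≠ 0 → v⁻¹ ∈ H 0 := by
    intro v hv hv0
    let f : ↥(H 0) →ₗ[k] ↥(H 0) :=
      { toFun := fun s => ⟨v * s.1, by
          have := h.mul 0 0 v hv s.1 s.2
          simpa using this⟩
        map_add' := fun a b => by ext; simp [mul_add]
        map_smul' := fun c a => by
          ext
          simp }
    have hf : Function.Injective f := by
      intro a b hab
      have : v * (a : E) = v * b := congrArg Subtype.val hab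
      exact Subtype.ext (mul_left_cancel₀ hv0 this)
    obtain ⟨t, ht⟩ := (LinearMap.injective_iff_surjective.mp hf) ⟨1, h.one⟩
    have h1 : v * (t : E) = 1 := congrArg Subtype.val ht
    have h2 : v⁻¹ = (t : E) := by
      have h3 : v⁻¹ * (v * (t : E)) = v⁻¹ := by rw [h1, mul_one]
      rw [inv_mul_cancel_left₀ hv0] at h3
      exact h3.symm
    rw [h2]
    exact t.2
  have hall : ∀ d : E, d ∈ H 0 := by
    intro d
    obtain ⟨u, hu, v, hv, hv0, rfl⟩ := h.frac d
    have := h.mul 0 0 u (hsup u hu) v⁻¹ (hinv v (hsup v hv) hv0)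
    simpa using this
  apply hE
  apply finCent_of_comm (BQG.gen k (1 : E)) (gen_commutative (k := k) (1 : E))
  obtain ⟨s, hs⟩ := h.fg 0
  refine ⟨⟨s, ?_⟩⟩
  rw [eq_top_iff]
  intro d _
  have hd : d ∈ Submodule.span k (s : Set E) := by
    rw [hs]; exact hall d
  refine Submodule.span_induction (p := fun z _ => z ∈
    Submodule.span (BQG.gen k (1 : E)) (s : Set E)) ?_ ?_ ?_ ?_ hd
  · intro x hx
    exact Submodule.subset_span hx
  · exact Submodule.zero_mem _
  · intro x y _ _ hx hy
    exact Submodule.add_mem _ hx hy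
  · intro c x _ hx
    have h3 : c • x = (⟨algebraMap k E c, algebraMap_mem_gen 1 c⟩ : BQG.gen k (1 : E)) • x := by
      rw [Algebra.smul_def]; rfl
    rw [h3]
    exact Submodule.smul_mem _ _ hx

theorem T4_sum_mult (l : ℕ) (hl : 1 ≤ l) (z : ℕ → E) (M : ℕ) :
    ∑ n ∈ Finset.range (M * l), (if l ∣ n then z (n / l) else 0) = ∑ i ∈ Finset.range M, z i := by
  induction M with
  | zero => simp
  | succ M ih =>
    rw [Nat.succ_mul, Finset.sum_range_add, ih, Finset.sum_range_succ]
    congr 1
    rw [Finset.sum_eq_single 0]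
    · rw [Nat.add_zero, if_pos (Dvd.intro_left M rfl), Nat.mul_div_cancel _ (by omega)]
    · intro t ht ht0
      rw [Finset.mem_range] at ht
      rw [if_neg]
      intro hd
      have h1 : l ∣ t := (Nat.dvd_add_right (Dvd.intro_left M rfl)).mp hd
      exact absurd (Nat.le_of_dvd (by omega) h1) (by omega)
    · intro h0
      exact absurd (Finset.mem_range.mpr (by omega)) h0

theorem GrDom.T4_indep_mult {H : ℕ → Submodule k E} {C : ℕ} (h : GrDom H C) (l : ℕ) (hl : 1 ≤ l)
    (M : ℕ) (z : ℕ → E) (hz : ∀ i, z i ∈ h.Lam (i * l))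
    (h0 : ∑ i ∈ Finset.range M, z i = 0) : ∀ i < M, z i = 0 := by
  intro i hi
  have h1 := h.Lam_indep (M * l) (fun n => if l ∣ n then z (n / l) else 0) (by
    intro n
    by_cases hd : l ∣ n
    · simp only [hd, if_true]
      have := hz (n / l)
      rwa [Nat.div_mul_cancel hd] at this
    · simp only [hd, if_false]
      exact (h.Lam n).zero_mem) (by
    rw [T4_sum_mult l hl z M]; exact h0)
  have h2 := h1 (i * l) (Nat.mul_lt_mul_of_pos_right hi (by omega))
  simp only [Dvd.intro_left i rfl, if_true] at h2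
  rwa [Nat.mul_div_cancel _ (by omega)] at h2

theorem GrDom.T4_pow_mem {H : ℕ → Submodule k E} {C : ℕ} (h : GrDom H C) {l : ℕ} {y : E}
    (hy : y ∈ H l) (i : ℕ) : y ^ i ∈ H (i * l) := by
  induction i with
  | zero => rw [pow_zero, Nat.zero_mul]; exact h.one
  | succ i ih =>
    rw [pow_succ, Nat.succ_mul]
    exact h.mul _ _ _ ih _ hy

theorem GrDom.T4_not_finite {H : ℕ → Submodule k E} {C : ℕ} (h : GrDom H C)
    (hE : ¬ FinCent E) : ¬ Module.Finite h.Lam0 E := by
  intro hf
  obtain ⟨l, hl, y, hy, hy0⟩ := h.exists_pos hE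
  have hli : LinearIndependent h.Lam0
      (fun i : Fin (finrank h.Lam0 E + 1) => y ^ (i : ℕ)) := by
    rw [Fintype.linearIndependent_iff]
    intro g hg i
    have h1 := h.T4_indep_mult l hl (finrank h.Lam0 E + 1)
      (fun n => if hn : n < finrank h.Lam0 E + 1 then (g ⟨n, hn⟩ : E) * y ^ n else 0) (by
        intro n
        by_cases hn : n < finrank h.Lam0 E + 1
        · simp only [hn, dif_pos]
          have h2 := h.lam_mul (g ⟨n, hn⟩).2 (h.le_Lam (n * l) (h.T4_pow_mem hy n))
          rw [Nat.zero_add] at h2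
          exact h2
        · simp only [hn, dif_neg, not_false_eq_true]
          exact (h.Lam _).zero_mem) (by
        rw [Finset.sum_range]
        refine Eq.trans ?_ hg
        apply Finset.sum_congr rfl
        intro j _
        simp only [j.2, dif_pos]
        rfl)
    have h3 := h1 i i.2
    simp only [i.2, dif_pos] at h3
    rcases mul_eq_zero.mp h3 with h4 | h4
    · exact Subtype.ext h4
    · exact absurd h4 (pow_ne_zero _ hy0)
  have := hli.fintype_card_le_finrank
  rw [Fintype.card_fin] at this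
  omega

/-- Bound of the degree of the division ring `Lam 0` over `k(w)`: apply
`Quad.bounded_of_not_finite` (with `Quad.linear`, for the `V` of `GrDom.quad`) to `L = h.Lam0`.
`E` is not finite over `L`, as the powers `y^i` of an element `0 ≠ y ∈ H l`, `l ≥ 1`, are
left `L`-independent: `f y^i ∈ Lam (i l)` for `f ∈ Lam 0` (`lam_mul`, `le_Lam`), and use
`Lam_indep`. -/
theorem GrDom.lam0_bound {H : ℕ → Submodule k E} {C : ℕ} (h : GrDom H C) (hE : ¬ FinCent E)
    {w : E} (hw : w ∈ h.Lam 0) (hwt : Transcendental k w) :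
    ∃ B : ℕ, ∀ (N : ℕ) (x : Fin N → E), LinearIndependent (BQG.gen k w) x →
      (∀ i, x i ∈ h.Lam 0) → N ≤ B := by
  obtain ⟨V, C', hV, -⟩ := h.quad
  obtain ⟨B, hB⟩ := hV.linear hE hwt
  refine ⟨B, fun N x hx hxm => ?_⟩
  refine hV.bounded_of_not_finite hB h.Lam0 (gen_le hw ?_) (h.T4_not_finite hE) N x hx hxm
  intro c
  have h1 : c • (1 : E) ∈ h.Lam 0 := Submodule.smul_mem _ _ (h.le_Lam 0 h.one)
  rw [Algebra.smul_def, mul_one] at h1
  exact h1

/-- The same for `Lam j`: if `N ≥ 1` let `v = x 0 ≠ 0`; `x i * v⁻¹ ∈ Lam 0` (`lam_div`), and these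
are still independent (`rmul_indep`). -/
theorem GrDom.lam_bound {H : ℕ → Submodule k E} {C : ℕ} (h : GrDom H C) (hE : ¬ FinCent E)
    {w : E} (hw : w ∈ h.Lam 0) (hwt : Transcendental k w) :
    ∃ B : ℕ, ∀ (j N : ℕ) (x : Fin N → E), LinearIndependent (BQG.gen k w) x →
      (∀ i, x i ∈ h.Lam j) → N ≤ B := by
  obtain ⟨B, hB⟩ := h.lam0_bound hE hw hwt
  refine ⟨B, fun j N x hx hxm => ?_⟩
  rcases N with _ | N
  · exact Nat.zero_le _
  · have hv : x 0 ≠ 0 := hx.ne_zero 0
    exact hB (N + 1) (fun i => x i * (x 0)⁻¹) (rmul_indep _ (inv_ne_zero hv) hx)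
      (fun i => h.lam_div (hxm i) (hxm 0) hv)

/-- a finite sum of left `F`-spaces of dimension `≤ B` (pass to `Module.Finite`, `finrank` with
`finite_of_bound`) -/
theorem bound_of_sum {F : Subfield E} (n B : ℕ) (W : ℕ → Submodule F E)
    (hB : ∀ j ≤ n, ∀ (N : ℕ) (x : Fin N → E), LinearIndependent F x → (∀ i, x i ∈ W j) → N ≤ B)
    (N : ℕ) (x : Fin N → E) (hx : LinearIndependent F x)
    (hxm : ∀ i, x i ∈ ⨆ j ∈ Finset.range (n + 1), W j) : N ≤ B * (n + 1) := by
  classical
  have hWf : ∀ j ≤ n, Module.Finite F (W j) ∧ finrank F (W j) ≤ B := by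
    intro j hj
    have hfin : Module.Finite F (W j) := by
      apply finite_of_bound B
      intro M y hy
      have hy' : LinearIndependent F (fun i => (y i : E)) :=
        hy.map' (W j).subtype (Submodule.ker_subtype _)
      exact hB j hj M _ hy' (fun i => (y i).2)
    refine ⟨hfin, ?_⟩
    have hb := (Module.finBasis F (W j)).linearIndependent
    have hb' : LinearIndependent F (fun i => (Module.finBasis F (W j) i : E)) :=
      hb.map' (W j).subtype (Submodule.ker_subtype _)
    exact hB j hj _ _ hb' (fun i => (Module.finBasis F (W j) i).2)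
  have hsum : ∀ m ≤ n + 1, Module.Finite F ↥(⨆ j ∈ Finset.range m, W j) ∧
      finrank F ↥(⨆ j ∈ Finset.range m, W j) ≤ B * m := by
    intro m
    induction m with
    | zero =>
      intro _
      have h0 : (⨆ j ∈ Finset.range 0, W j) = ⊥ := by simp
      rw [h0]
      exact ⟨inferInstance, by simp⟩
    | succ m ih =>
      intro hm
      obtain ⟨h1, h2⟩ := ih (by omega)
      obtain ⟨h3, h4⟩ := hWf m (by omega)
      have h5 : (⨆ j ∈ Finset.range (m + 1), W j) = W m ⊔ ⨆ j ∈ Finset.range m, W j := by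
        rw [Finset.range_add_one, Finset.iSup_insert]
      rw [h5]
      refine ⟨inferInstance, ?_⟩
      have h6 := Submodule.finrank_add_le_finrank_add_finrank (W m)
        (⨆ j ∈ Finset.range m, W j)
      have h7 : B * (m + 1) = B + B * m := by ring
      rw [h7]
      exact h6.trans (Nat.add_le_add h4 h2)
  obtain ⟨h1, h2⟩ := hsum (n + 1) le_rfl
  have hli : LinearIndependent F (fun i => (⟨x i, hxm i⟩ :
      ↥(⨆ j ∈ Finset.range (n + 1), W j))) := by
    apply LinearIndependent.of_comp (⨆ j ∈ Finset.range (n + 1), W j).subtype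
    exact hx
  have h3 := hli.fintype_card_le_finrank
  rw [Fintype.card_fin] at h3
  exact h3.trans h2

/-- `Lam 0 · Lam j ≤ Lam j`, so `Lam j` is a left `k(w)`-space. The sum of
`Lam 0, Lam l, ..., Lam (n l)`: bound of the `k(w)`-independent families, from `lam_bound` and
`bound_of_sum` (with `W j = leftSub (gen k w) (h.Lam (j * l)) _`). -/
theorem GrDom.lamsum_bound {H : ℕ → Submodule k E} {C : ℕ} (h : GrDom H C) (hE : ¬ FinCent E)
    {w : E} (hw : w ∈ h.Lam 0) (hwt : Transcendental k w) (l : ℕ) :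
    ∃ B : ℕ, ∀ (n N : ℕ) (x : Fin N → E), LinearIndependent (BQG.gen k w) x →
      (∀ i, x i ∈ ⨆ j ∈ Finset.range (n + 1), h.Lam (j * l)) → N ≤ B * (n + 1) := by
  obtain ⟨B, hB⟩ := h.lam_bound hE hw hwt
  refine ⟨B, fun n N x hx hxm => ?_⟩
  have hgen : BQG.gen k w ≤ h.Lam0 := by
    apply gen_le hw
    intro c
    have h1 : c • (1 : E) ∈ h.Lam 0 := Submodule.smul_mem _ _ (h.le_Lam 0 h.one)
    rw [Algebra.smul_def, mul_one] at h1
    exact h1
  have hst : ∀ j, ∀ f ∈ BQG.gen k w, ∀ x ∈ h.Lam (j * l), f * x ∈ h.Lam (j * l) := by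
    intro j f hf x hx
    have h1 := h.lam_mul (hgen hf) hx
    rw [Nat.zero_add] at h1
    exact h1
  let W : ℕ → Submodule (BQG.gen k w) E := fun j => leftSub (BQG.gen k w) (h.Lam (j * l)) (hst j)
  let S : Submodule k E :=
    { carrier := {y | y ∈ ⨆ j ∈ Finset.range (n + 1), W j}
      add_mem' := fun ha hb => Submodule.add_mem (⨆ j ∈ Finset.range (n + 1), W j) ha hb
      zero_mem' := Submodule.zero_mem (⨆ j ∈ Finset.range (n + 1), W j)
      smul_mem' := by
        intro c y hy
        have h3 : c • y = (⟨algebraMap k E c, algebraMap_mem_gen w c⟩ : BQG.gen k w) • y := by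
          rw [Algebra.smul_def]; rfl
        change c • y ∈ ⨆ j ∈ Finset.range (n + 1), W j
        rw [h3]
        exact Submodule.smul_mem _ _ hy }
  have hS : (⨆ j ∈ Finset.range (n + 1), h.Lam (j * l)) ≤ S := by
    apply iSup₂_le
    intro j hj y hy
    have h4 : W j ≤ ⨆ j ∈ Finset.range (n + 1), W j :=
      le_iSup₂ (f := fun j (_ : j ∈ Finset.range (n + 1)) => W j) j hj
    exact h4 (show y ∈ W j from hy)
  exact bound_of_sum n B W (fun j _ M y hy hym => hB (j * l) M y hy hym) N x hx
    (fun i => hS (hxm i))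

end Pool.Agent.BQG
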