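import Pool.Agent.H.MP_fbbc72_al.h23.G3

set_option autoImplicit false

namespace Pool.Agent.BQG

open Module Polynomial

universe u v

variable {k : Type v} {D : Type u} [Field k] [DivisionRing D] [Algebra k D]

/-- A (discrete, possibly trivial) valuation of the division ring `D`, trivial on `k`; `ν` is only
considered on nonzero elements. -/
structure DVal (k : Type v) {D : Type u} [Field k] [DivisionRing D] [Algebra k D]
    (ν : D → ℤ) : Prop where
  mul : ∀ x y : D, x ≠ 0 → y ≠ 0 → ν (x * y) = ν x + ν y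
  add : ∀ x y : D, x ≠ 0 → y ≠ 0 → x + y ≠ 0 → min (ν x) (ν y) ≤ ν (x + y)
  triv : ∀ c : k, c ≠ 0 → ν (algebraMap k D c) = 0

/-- simple rules: `ν 1 = 0` (from `mul`), `ν (x⁻¹) = - ν x`, `ν (-x) = ν x`
(`2 ν (-1) = ν 1 = 0`). -/
theorem DVal.rules {ν : D → ℤ} (h : DVal k ν) : ν 1 = 0 ∧ (∀ x, x ≠ 0 → ν x⁻¹ = - ν x) ∧
    (∀ x, x ≠ 0 → ν (-x) = ν x) := by
  have h1 : ν 1 = 0 := by
    have := h.mul 1 1 one_ne_zero one_ne_zero
    rw [mul_one] at this
    omega
  have h2 : ν (-1) = 0 := by
    have := h.mul (-1) (-1) (neg_ne_zero.2 one_ne_zero) (neg_ne_zero.2 one_ne_zero)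
    rw [neg_mul_neg, one_mul, h1] at this
    omega
  refine ⟨h1, fun x hx => ?_, fun x hx => ?_⟩
  · have := h.mul x x⁻¹ hx (inv_ne_zero hx)
    rw [mul_inv_cancel₀ hx, h1] at this
    omega
  · have := h.mul (-1) x (neg_ne_zero.2 one_ne_zero) hx
    rw [neg_one_mul, h2, zero_add] at this
    exact this

/-- `U m = {x : x = 0 or ν x ≥ m}` -/
def DVal.U {ν : D → ℤ} (h : DVal k ν) (m : ℤ) : Submodule k D where
  carrier := {x | x = 0 ∨ m ≤ ν x}
  add_mem' := by
    rintro x y hx hy
    by_cases hx0 : x = 0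
    · subst hx0; simpa using hy
    by_cases hy0 : y = 0
    · subst hy0; simpa using hx
    by_cases hs : x + y = 0
    · exact Or.inl hs
    · right
      refine le_trans (le_min ?_ ?_) (h.add x y hx0 hy0 hs)
      · exact hx.resolve_left hx0
      · exact hy.resolve_left hy0
  zero_mem' := Or.inl rfl
  smul_mem' := by
    rintro c x hx
    by_cases hc : c = 0
    · left; simp [hc]
    by_cases hx0 : x = 0
    · left; simp [hx0]
    right
    have hc' : algebraMap k D c ≠ 0 := by
      simpa using hc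
    rw [Algebra.smul_def, h.mul _ _ hc' hx0, h.triv c hc, zero_add]
    exact hx.resolve_left hx0

theorem DVal.mem_U {ν : D → ℤ} (h : DVal k ν) {m : ℤ} {x : D} :
    x ∈ h.U m ↔ x = 0 ∨ m ≤ ν x := Iff.rfl

/-- The nonnegative part of the associated graded ring is given by a `SymPair` (all fields are
immediate; `prime`: if `x, y ≠ 0`, `ν x = -m` and `ν y = -n` then `ν (x y) = -(m+n)`). -/
theorem DVal.symPair {ν : D → ℤ} (h : DVal k ν) :
    SymPair (fun n : ℕ => h.U (-(n : ℤ))) (fun n : ℕ => h.U (1 - (n : ℤ))) := by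
  have hmul : ∀ (a b c : ℤ) (x y : D), c ≤ a + b → x ∈ h.U a → y ∈ h.U b → x * y ∈ h.U c := by
    intro a b c x y hc hx hy
    rcases hx with hx | hx
    · left; rw [hx, zero_mul]
    rcases hy with hy | hy
    · left; rw [hy, mul_zero]
    by_cases hx0 : x = 0
    · left; rw [hx0, zero_mul]
    by_cases hy0 : y = 0
    · left; rw [hy0, mul_zero]
    right
    rw [h.mul x y hx0 hy0]
    omega
  refine ⟨?_, ?_, ?_, ?_, ?_, ?_, ?_, ?_⟩
  · right
    rw [h.rules.1]
    simp
  · intro m n x hx y hy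
    exact hmul _ _ _ x y (by push_cast; omega) hx hy
  · intro n x hx
    rcases hx with hx | hx
    · exact Or.inl hx
    · right; omega
  · intro n x hx
    rcases hx with hx | hx
    · exact Or.inl hx
    · right; push_cast; omega
  · rintro (h1 | h1)
    · exact one_ne_zero h1
    · rw [h.rules.1] at h1
      simp at h1
  · intro m n x hx y hy
    exact hmul _ _ _ x y (by push_cast; omega) hx hy
  · intro m n x hx y hy
    exact hmul _ _ _ x y (by push_cast; omega) hx hy
  · intro m n x hx y hy hxy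
    by_cases hx0 : x = 0
    · exact Or.inl (Or.inl hx0)
    by_cases hy0 : y = 0
    · exact Or.inr (Or.inl hy0)
    rcases hxy with h1 | h1
    · exact absurd h1 (mul_ne_zero hx0 hy0)
    rw [h.mul x y hx0 hy0] at h1
    push_cast at h1
    by_cases h2 : 1 - (m : ℤ) ≤ ν x
    · exact Or.inl (Or.inr h2)
    · right; right; omega

end Pool.Agent.BQG
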