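import Pool.Agent.H.MP_fbbc72_al.h23.V1

set_option autoImplicit false

namespace Pool.Agent.BQG

open Module Polynomial

universe u v

variable {k : Type v} {D : Type u} [Field k] [DivisionRing D] [Algebra k D]

theorem V1b_left {G : Type u} [Ring G] [NoZeroDivisors G] [Nontrivial G] (F : ℕ → AddSubgroup G)
    (hmono : Monotone F) (hF0 : ∀ g ∈ F 0, g = 0) (hall : ∀ g, ∃ n, g ∈ F n)
    (hdiv : ∀ n, ∀ y ∈ F (n + 1), y ∉ F n → ∀ m, n ≤ m → ∀ x ∈ F (m + 1),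
      ∃ c, x - c * y ∈ F m) (x y : G) (hy : y ≠ 0) : ∃ p q, p ≠ 0 ∧ p * x = q * y := by
  have key : ∀ n, ∀ y ∈ F n, y ≠ 0 → ∀ x, ∃ p q, p ≠ 0 ∧ p * x = q * y := by
    intro n
    induction n with
    | zero =>
      intro y hy hy0
      exact absurd (hF0 y hy) hy0
    | succ n ih =>
      intro y hy hy0 x
      by_cases hyn : y ∈ F n
      · exact ih y hyn hy0 x
      have hrem : ∀ m, ∀ x ∈ F m, ∃ q, x - q * y ∈ F n := by
        intro m
        induction m with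
        | zero =>
          intro x hx
          refine ⟨0, ?_⟩
          rw [hF0 x hx, zero_mul, sub_zero]
          exact (F n).zero_mem
        | succ m ihm =>
          intro x hx
          rcases Nat.lt_or_ge m n with hmn | hmn
          · exact ⟨0, by rw [zero_mul, sub_zero]; exact hmono hmn hx⟩
          · obtain ⟨c, hc⟩ := hdiv n y hy hyn m hmn x hx
            obtain ⟨q, hq⟩ := ihm _ hc
            refine ⟨c + q, ?_⟩
            rw [add_mul, ← sub_sub]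
            exact hq
      obtain ⟨m, hm⟩ := hall x
      obtain ⟨q, hq⟩ := hrem m x hm
      obtain ⟨r, hr⟩ : ∃ r, r = x - q * y := ⟨_, rfl⟩
      rw [← hr] at hq
      have hx : x = q * y + r := by rw [hr]; abel
      by_cases hr0 : r = 0
      · exact ⟨1, q, one_ne_zero, by rw [one_mul, hx, hr0, add_zero]⟩
      · obtain ⟨p', q', hp', he⟩ := ih r hq hr0 y
        refine ⟨q', q' * q + p', ?_, ?_⟩
        · intro hq0
          rw [hq0, zero_mul] at he
          rcases mul_eq_zero.1 he with h1 | h1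
          · exact hp' h1
          · exact hy0 h1
        · rw [hx, mul_add, ← he, add_mul, mul_assoc]
  obtain ⟨n, hn⟩ := hall y
  exact key n y hn hy x

theorem V1b_right {G : Type u} [Ring G] [NoZeroDivisors G] [Nontrivial G]
    (F : ℕ → AddSubgroup G)
    (hmono : Monotone F) (hF0 : ∀ g ∈ F 0, g = 0) (hall : ∀ g, ∃ n, g ∈ F n)
    (hdiv : ∀ n, ∀ y ∈ F (n + 1), y ∉ F n → ∀ m, n ≤ m → ∀ x ∈ F (m + 1),
      ∃ c, x - y * c ∈ F m) (x y : G) (hy : y ≠ 0) : ∃ p q, p ≠ 0 ∧ x * p = y * q := by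
  have key : ∀ n, ∀ y ∈ F n, y ≠ 0 → ∀ x, ∃ p q, p ≠ 0 ∧ x * p = y * q := by
    intro n
    induction n with
    | zero =>
      intro y hy hy0
      exact absurd (hF0 y hy) hy0
    | succ n ih =>
      intro y hy hy0 x
      by_cases hyn : y ∈ F n
      · exact ih y hyn hy0 x
      have hrem : ∀ m, ∀ x ∈ F m, ∃ q, x - y * q ∈ F n := by
        intro m
        induction m with
        | zero =>
          intro x hx
          refine ⟨0, ?_⟩
          rw [hF0 x hx, mul_zero, sub_zero]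
          exact (F n).zero_mem
        | succ m ihm =>
          intro x hx
          rcases Nat.lt_or_ge m n with hmn | hmn
          · exact ⟨0, by rw [mul_zero, sub_zero]; exact hmono hmn hx⟩
          · obtain ⟨c, hc⟩ := hdiv n y hy hyn m hmn x hx
            obtain ⟨q, hq⟩ := ihm _ hc
            refine ⟨c + q, ?_⟩
            rw [mul_add, ← sub_sub]
            exact hq
      obtain ⟨m, hm⟩ := hall x
      obtain ⟨q, hq⟩ := hrem m x hm
      obtain ⟨r, hr⟩ : ∃ r, r = x - y * q := ⟨_, rfl⟩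
      rw [← hr] at hq
      have hx : x = y * q + r := by rw [hr]; abel
      by_cases hr0 : r = 0
      · exact ⟨1, q, one_ne_zero, by rw [mul_one, hx, hr0, add_zero]⟩
      · obtain ⟨p', q', hp', he⟩ := ih r hq hr0 y
        refine ⟨q', q * q' + p', ?_, ?_⟩
        · intro hq0
          rw [hq0, mul_zero] at he
          rcases mul_eq_zero.1 he with h1 | h1
          · exact hy0 h1
          · exact hp' h1
        · rw [hx, add_mul, ← he, mul_add, mul_assoc]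
  obtain ⟨n, hn⟩ := hall y
  exact key n y hn hy x

theorem V1b_mulU {ν : D → ℤ} (h : DVal k ν) {a b : ℤ} {x y : D} (hx : x ∈ h.U a)
    (hy : y ∈ h.U b) : x * y ∈ h.U (a + b) := by
  rw [h.mem_U] at hx hy ⊢
  by_cases hx0 : x = 0
  · left; simp [hx0]
  by_cases hy0 : y = 0
  · left; simp [hy0]
  right
  rw [h.mul x y hx0 hy0]
  exact add_le_add (hx.resolve_left hx0) (hy.resolve_left hy0)

/-- the elements of degree `< n` -/
def V1b_F {ν : D → ℤ} (h : DVal k ν) {G : Type u} [Ring G] [Algebra k G]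
    (ψ : ℕ → D →ₗ[k] G) (n : ℕ) : Submodule k G :=
  ⨆ i : Fin n, (h.U (-((i : ℕ) : ℤ))).map (ψ i)

theorem V1b_gen {ν : D → ℤ} (h : DVal k ν) {G : Type u} [Ring G] [Algebra k G]
    (ψ : ℕ → D →ₗ[k] G) {i n : ℕ} (hi : i < n) {x : D} (hx : x ∈ h.U (-(i : ℤ))) :
    ψ i x ∈ V1b_F h ψ n := by
  refine Submodule.mem_iSup_of_mem ⟨i, hi⟩ ?_
  exact Submodule.mem_map_of_mem hx

theorem V1b_ind {ν : D → ℤ} (h : DVal k ν) {G : Type u} [Ring G] [Algebra k G]
    (ψ : ℕ → D →ₗ[k] G) {n : ℕ} (C : G → Prop) (h0 : C 0) (hadd : ∀ x y, C x → C y → C (x + y))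
    (hg : ∀ i < n, ∀ x ∈ h.U (-(i : ℤ)), C (ψ i x)) {y : G} (hy : y ∈ V1b_F h ψ n) : C y := by
  unfold V1b_F at hy
  induction hy using Submodule.iSup_induction' with
  | mem i x hx =>
    obtain ⟨z, hz, rfl⟩ := Submodule.mem_map.1 hx
    exact hg i i.2 z hz
  | zero => exact h0
  | add x y _ _ hx hy => exact hadd x y hx hy

theorem V1b_lead {ν : D → ℤ} (h : DVal k ν) {G : Type u} [Ring G] [Algebra k G]
    (ψ : ℕ → D →ₗ[k] G) {n : ℕ} {y : G} (hy : y ∈ V1b_F h ψ (n + 1)) :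
    ∃ y₀ ∈ V1b_F h ψ n, ∃ b ∈ h.U (-(n : ℤ)), y = y₀ + ψ n b := by
  refine V1b_ind h ψ (fun y => ∃ y₀ ∈ V1b_F h ψ n, ∃ b ∈ h.U (-(n : ℤ)), y = y₀ + ψ n b)
    ?_ ?_ ?_ hy
  · exact ⟨0, Submodule.zero_mem _, 0, Submodule.zero_mem _, by simp⟩
  · rintro x y ⟨x₀, hx₀, a, ha, rfl⟩ ⟨y₀, hy₀, b, hb, rfl⟩
    refine ⟨x₀ + y₀, Submodule.add_mem _ hx₀ hy₀, a + b, Submodule.add_mem _ ha hb, ?_⟩
    rw [map_add]
    abel
  · intro i hi x hx
    rcases Nat.lt_succ_iff_lt_or_eq.1 hi with h1 | h1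
    · exact ⟨ψ i x, V1b_gen h ψ h1 hx, 0, Submodule.zero_mem _, by simp⟩
    · subst h1
      exact ⟨0, Submodule.zero_mem _, x, hx, by simp⟩

theorem V1b_mono {ν : D → ℤ} (h : DVal k ν) {G : Type u} [Ring G] [Algebra k G]
    (ψ : ℕ → D →ₗ[k] G) : Monotone (V1b_F h ψ) := by
  intro m n hmn y hy
  refine V1b_ind h ψ (fun y => y ∈ V1b_F h ψ n) (Submodule.zero_mem _)
    (fun x y hx hy => Submodule.add_mem _ hx hy) ?_ hy
  intro i hi x hx
  exact V1b_gen h ψ (hi.trans_le hmn) hx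

/-- Ore conditions for the graded domain `G` of `exists_gr` by the Euclidean algorithm: `deg g` for
`0 ≠ g = ∑_{n < M} ψ n (x n)` is the largest `n` with `ψ n (x n) ≠ 0` (well defined by
independence; or use: `g` has degree `< M`). DIVISION WITH REMAINDER: if `deg x = i ≥ j = deg y`
with leading terms `ψ i a`, `ψ j b`, `a, b` nonzero of valuations `-i`, `-j`, then
`c = a b⁻¹ ∈ U (-(i-j))` and `x - ψ (i-j) c * y` has smaller degree (or is zero). So for
`y ≠ 0`: `x = q y + r`, `r = 0` or `deg r < deg y`. Left Ore by induction on `deg y`: if `r = 0`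
take `p = 1`; otherwise by induction (for the pair `y, r`) there are `p' ≠ 0, q'` with
`p' y = q' r`; then `q' x = (q' q + p') y` and `q' ≠ 0`. The right Ore condition in the same
way, with `x - y * ψ (i-j) (b⁻¹ a)`. -/
theorem DVal.ore {ν : D → ℤ} (h : DVal k ν) {G : Type u} [Ring G] [Algebra k G]
    [NoZeroDivisors G] [Nontrivial G] (ψ : ℕ → D →ₗ[k] G)
    (hker : ∀ n : ℕ, ∀ x ∈ h.U (-(n : ℤ)), ψ n x = 0 ↔ x ∈ h.U (1 - (n : ℤ)))
    (hone : ψ 0 1 = 1)
    (hmul : ∀ m n : ℕ, ∀ x ∈ h.U (-(m : ℤ)), ∀ y ∈ h.U (-(n : ℤ)),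
      ψ (m + n) (x * y) = ψ m x * ψ n y)
    (hindep : ∀ (M : ℕ) (x : ℕ → D), (∀ n : ℕ, x n ∈ h.U (-(n : ℤ))) →
      ∑ n ∈ Finset.range M, ψ n (x n) = 0 → ∀ n < M, ψ n (x n) = 0)
    (hex : ∀ g : G, ∃ (M : ℕ) (x : ℕ → D), (∀ n : ℕ, x n ∈ h.U (-(n : ℤ))) ∧
      g = ∑ n ∈ Finset.range M, ψ n (x n)) :
    (∀ x y : G, y ≠ 0 → ∃ p q, p ≠ 0 ∧ p * x = q * y) ∧
    (∀ x y : G, y ≠ 0 → ∃ p q, p ≠ 0 ∧ x * p = y * q) := by
  have hmono : Monotone fun n => (V1b_F h ψ n).toAddSubgroup := by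
    intro m n hmn y hy
    exact V1b_mono h ψ hmn hy
  have hF0 : ∀ g ∈ (V1b_F h ψ 0).toAddSubgroup, g = 0 := by
    intro g hg
    exact V1b_ind h ψ (fun y => y = 0) rfl (fun x y hx hy => by rw [hx, hy, add_zero])
      (fun i hi => absurd hi (Nat.not_lt_zero i)) hg
  have hall : ∀ g : G, ∃ n, g ∈ (V1b_F h ψ n).toAddSubgroup := by
    intro g
    obtain ⟨M, x, hx, rfl⟩ := hex g
    refine ⟨M, Submodule.sum_mem _ ?_⟩
    intro i hi
    exact V1b_gen h ψ (Finset.mem_range.1 hi) (hx i)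
  -- leading term
  have hlead : ∀ n, ∀ y ∈ V1b_F h ψ (n + 1), y ∉ V1b_F h ψ n →
      ∃ y₀ ∈ V1b_F h ψ n, ∃ b, b ≠ 0 ∧ ν b = -(n : ℤ) ∧ y = y₀ + ψ n b := by
    intro n y hy hyn
    obtain ⟨y₀, hy₀, b, hb, rfl⟩ := V1b_lead h ψ hy
    have hne : ψ n b ≠ 0 := by
      intro h0
      rw [h0, add_zero] at hyn
      exact hyn hy₀
    have hb0 : b ≠ 0 := by
      rintro rfl
      exact hne (map_zero _)
    refine ⟨y₀, hy₀, b, hb0, ?_, rfl⟩
    have h1 : -(n : ℤ) ≤ ν b := ((h.mem_U).1 hb).resolve_left hb0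
    have h2 : ¬ (1 - (n : ℤ) ≤ ν b) := by
      intro h3
      exact hne ((hker n b hb).2 (Or.inr h3))
    omega
  have hνinv : ∀ b : D, b ≠ 0 → ν b⁻¹ = - ν b := h.rules.2.1
  have hcast : ∀ {n m : ℕ}, n ≤ m → (-((m - n : ℕ) : ℤ)) = -(m : ℤ) + n := by
    intro n m hnm
    omega
  constructor
  · refine V1b_left (fun n => (V1b_F h ψ n).toAddSubgroup) hmono hF0 hall ?_
    intro n y hy hyn m hnm x hx
    obtain ⟨y₀, hy₀, b, hb0, hνb, rfl⟩ := hlead n y hy hyn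
    obtain ⟨x₀, hx₀, a, ha, rfl⟩ := V1b_lead h ψ hx
    have hc : a * b⁻¹ ∈ h.U (-((m - n : ℕ) : ℤ)) := by
      rw [hcast hnm]
      refine V1b_mulU h ha ?_
      right
      rw [hνinv b hb0, hνb]
      simp
    have hbU : b ∈ h.U (-(n : ℤ)) := Or.inr hνb.ge
    refine ⟨ψ (m - n) (a * b⁻¹), ?_⟩
    have e1 : ψ (m - n) (a * b⁻¹) * ψ n b = ψ m a := by
      rw [← hmul _ _ _ hc _ hbU, Nat.sub_add_cancel hnm, mul_assoc, inv_mul_cancel₀ hb0, mul_one]
    have e2 : ψ (m - n) (a * b⁻¹) * y₀ ∈ V1b_F h ψ m := by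
      refine V1b_ind h ψ (fun z => ψ (m - n) (a * b⁻¹) * z ∈ V1b_F h ψ m) ?_ ?_ ?_ hy₀
      · change ψ (m - n) (a * b⁻¹) * 0 ∈ V1b_F h ψ m
        rw [mul_zero]
        exact Submodule.zero_mem _
      · intro z w hz hw
        change ψ (m - n) (a * b⁻¹) * (z + w) ∈ V1b_F h ψ m
        rw [mul_add]
        exact Submodule.add_mem _ hz hw
      · intro i hi z hz
        change ψ (m - n) (a * b⁻¹) * ψ i z ∈ V1b_F h ψ m
        rw [← hmul _ _ _ hc _ hz]
        refine V1b_gen h ψ (by omega) ?_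
        have := V1b_mulU h hc hz
        have e3 : -((m - n : ℕ) : ℤ) + -(i : ℤ) = -((m - n + i : ℕ) : ℤ) := by
          push_cast
          ring
        rwa [e3] at this
    have e3 : x₀ + ψ m a - ψ (m - n) (a * b⁻¹) * (y₀ + ψ n b) =
        x₀ - ψ (m - n) (a * b⁻¹) * y₀ := by
      rw [mul_add, e1]
      abel
    rw [e3]
    exact Submodule.sub_mem _ hx₀ e2
  · refine V1b_right (fun n => (V1b_F h ψ n).toAddSubgroup) hmono hF0 hall ?_
    intro n y hy hyn m hnm x hx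
    obtain ⟨y₀, hy₀, b, hb0, hνb, rfl⟩ := hlead n y hy hyn
    obtain ⟨x₀, hx₀, a, ha, rfl⟩ := V1b_lead h ψ hx
    have hc : b⁻¹ * a ∈ h.U (-((m - n : ℕ) : ℤ)) := by
      rw [hcast hnm, add_comm]
      refine V1b_mulU h ?_ ha
      right
      rw [hνinv b hb0, hνb]
      simp
    have hbU : b ∈ h.U (-(n : ℤ)) := Or.inr hνb.ge
    refine ⟨ψ (m - n) (b⁻¹ * a), ?_⟩
    have e1 : ψ n b * ψ (m - n) (b⁻¹ * a) = ψ m a := by
      rw [← hmul _ _ _ hbU _ hc, Nat.add_sub_cancel' hnm, ← mul_assoc, mul_inv_cancel₀ hb0,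
        one_mul]
    have e2 : y₀ * ψ (m - n) (b⁻¹ * a) ∈ V1b_F h ψ m := by
      refine V1b_ind h ψ (fun z => z * ψ (m - n) (b⁻¹ * a) ∈ V1b_F h ψ m) ?_ ?_ ?_ hy₀
      · change 0 * ψ (m - n) (b⁻¹ * a) ∈ V1b_F h ψ m
        rw [zero_mul]
        exact Submodule.zero_mem _
      · intro z w hz hw
        change (z + w) * ψ (m - n) (b⁻¹ * a) ∈ V1b_F h ψ m
        rw [add_mul]
        exact Submodule.add_mem _ hz hw
      · intro i hi z hz
        change ψ i z * ψ (m - n) (b⁻¹ * a) ∈ V1b_F h ψ m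
        rw [← hmul _ _ _ hz _ hc]
        refine V1b_gen h ψ (by omega) ?_
        have := V1b_mulU h hz hc
        have e3 : -(i : ℤ) + -((m - n : ℕ) : ℤ) = -((i + (m - n) : ℕ) : ℤ) := by
          push_cast
          ring
        rwa [e3] at this
    have e3 : x₀ + ψ m a - (y₀ + ψ n b) * ψ (m - n) (b⁻¹ * a) =
        x₀ - y₀ * ψ (m - n) (b⁻¹ * a) := by
      rw [add_mul, e1]
      abel
    rw [e3]
    exact Submodule.sub_mem _ hx₀ e2

end Pool.Agent.BQG
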