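import Pool.Agent.H.MP_fbbc72_al.h23.V1b

set_option autoImplicit false

namespace Pool.Agent.BQG

open Module Polynomial

universe u v

variable {k : Type v} {D : Type u} [Field k] [DivisionRing D] [Algebra k D]

/-- The symbol maps for the nonnegative part: `exists_gr`, `DVal.ore`, `exists_fractions`,
`φ n := ι ∘ ψ n`. -/
theorem DVal.exists_symb {ν : D → ℤ} (h : DVal k ν) :
    ∃ (E : Type u) (_ : DivisionRing E) (_ : Algebra k E) (φ : ℕ → D →ₗ[k] E),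
      Symb (fun n : ℕ => h.U (-(n : ℤ))) (fun n : ℕ => h.U (1 - (n : ℤ))) φ := by
  obtain ⟨G, iR, iA, ψ, hnzd, hnt, hker, hone, hmul, hind, hex⟩ := exists_gr h.symPair
  obtain ⟨hl, hr⟩ := h.ore ψ hker hone hmul hind hex
  obtain ⟨E, iE, iAE, ι, hinj, hfrac⟩ := exists_fractions (k := k) hl hr
  have hsup : ∀ g : G, ι g ∈ ⨆ n : ℕ, (h.U (-(n : ℤ))).map (ι.toLinearMap ∘ₗ ψ n) := by
    intro g
    obtain ⟨M, x, hx, rfl⟩ := hex g
    rw [map_sum]
    refine Submodule.sum_mem _ fun n _ => ?_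
    exact Submodule.mem_iSup_of_mem n ⟨x n, hx n, rfl⟩
  refine ⟨E, iE, iAE, fun n => ι.toLinearMap ∘ₗ ψ n, ?_, ?_, ?_, ?_, ?_⟩
  · intro n x hx
    rw [← hker n x hx]
    show ι (ψ n x) = 0 ↔ _
    rw [map_eq_zero_iff ι hinj]
  · show ι (ψ 0 1) = 1
    rw [hone, map_one]
  · intro m n x hx y hy
    show ι (ψ (m + n) (x * y)) = ι (ψ m x) * ι (ψ n y)
    rw [hmul m n x hx y hy, map_mul]
  · intro M x hx hsum n hn
    have h1 : ι (∑ n ∈ Finset.range M, ψ n (x n)) = 0 := by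
      rw [map_sum]
      exact hsum
    rw [map_eq_zero_iff ι hinj] at h1
    show ι (ψ n (x n)) = 0
    rw [hind M x hx h1 n hn, map_zero]
  · intro e
    obtain ⟨x, y, hy, he⟩ := hfrac e
    refine ⟨ι x, hsup x, ι y, hsup y, ?_, he⟩
    rw [Ne, map_eq_zero_iff ι hinj]
    exact hy

/-- Symbol maps indexed by all integers, with values in the division ring of fractions of the
associated graded ring of `ν`. -/
structure ZSymb {E : Type u} [DivisionRing E] [Algebra k E] (U : ℤ → Submodule k D)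
    (φ : ℤ → D →ₗ[k] E) : Prop where
  ker : ∀ j, ∀ x ∈ U j, φ j x = 0 ↔ x ∈ U (j + 1)
  one : φ 0 1 = 1
  mul : ∀ i j, ∀ x ∈ U i, ∀ y ∈ U j, φ (i + j) (x * y) = φ i x * φ j y
  indep : ∀ (s : Finset ℤ) (x : ℤ → D), (∀ j, x j ∈ U j) → ∑ j ∈ s, φ j (x j) = 0 →
    ∀ j ∈ s, φ j (x j) = 0
  frac : ∀ e : E, ∃ u ∈ ⨆ j, (U j).map (φ j), ∃ v ∈ ⨆ j, (U j).map (φ j), v ≠ 0 ∧ e = u * v⁻¹

/-- If `ν` is not trivial choose `z ≠ 0` with `ν z = -g`, `g ≥ 1` (replace `z` by `z⁻¹` if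
necessary). From the `φ'` of `DVal.exists_symb` put, for `j : ℤ`, `m = j.toNat` (so
`m g - j ≥ 0`) and `φ j x := φ' (m g - j) (x z^m) * (φ' g z)^(-m)` (a linear map in `x`). If
`x ∈ U j` then `x z^m ∈ U (j - m g)`. The same formula holds for every larger `m`
(`φ' (n + g) (x z) = φ' n x * φ' g z` for `x ∈ U (-n)`). `mul`: the element
`t = φ' g z` does not commute with the others, but
`φ' _ (x z^m) * t^(-m) * φ' _ (y z^l) * t^(-l)`: write `x z^m * (z^(-m) y z^l)...`; easiest is to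
take `y' = y z^l`, with `l` so large that `z^{-m} y' ∈ U (-n')` for some `n' ≥ 0`: then
`φ' n'' y' = φ' (m g) (z^m) * φ' n' (z^{-m} y')`, so `t^(-m) * φ' n'' y' = φ' n' (z^{-m} y')` and
the product is `φ' _ (x z^m * z^{-m} y') t^(-l) = φ' _ (x y z^l) t^(-l)`. `indep`: multiply on the
right by `t^m` for a large `m`. `ker`: `φ'` and shift. `frac`: from `Symb.frac`
(`(U j).map (φ j)` for `j = -n ≤ 0` is `(U (-n)).map (φ' n)`). -/
theorem DVal.exists_zsymb {ν : D → ℤ} (h : DVal k ν) (hnt : ∃ x : D, x ≠ 0 ∧ ν x ≠ 0) :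
    ∃ (E : Type u) (_ : DivisionRing E) (_ : Algebra k E) (φ : ℤ → D →ₗ[k] E),
      ZSymb h.U φ := by
  obtain ⟨z, hz0, g, hg1, hνz⟩ : ∃ z : D, z ≠ 0 ∧ ∃ g : ℕ, 1 ≤ g ∧ ν z = -(g : ℤ) := by
    obtain ⟨x, hx, hνx⟩ := hnt
    rcases lt_or_gt_of_ne hνx with h1 | h1
    · exact ⟨x, hx, (-ν x).toNat, by omega, by omega⟩
    · refine ⟨x⁻¹, inv_ne_zero hx, (ν x).toNat, by omega, ?_⟩
      rw [h.rules.2.1 x hx]
      omega
  obtain ⟨E, iE, iAE, φ', S⟩ := h.exists_symb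
  have hzU : z ∈ h.U (-(g : ℤ)) := Or.inr hνz.ge
  obtain ⟨t, ht⟩ : ∃ t, t = φ' g z := ⟨_, rfl⟩
  have ht0 : t ≠ 0 := by
    intro h0
    rw [ht] at h0
    rcases (S.ker g z hzU).1 h0 with h1 | h1
    · exact hz0 h1
    · rw [hνz] at h1
      omega
  -- powers of `z`
  have hzpow : ∀ l : ℕ, z ^ l ∈ h.U (-((l * g : ℕ) : ℤ)) ∧ φ' (l * g) (z ^ l) = t ^ l := by
    intro l
    induction l with
    | zero =>
      refine ⟨?_, ?_⟩
      · right
        rw [pow_zero, h.rules.1]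
        simp
      · rw [zero_mul, pow_zero, pow_zero]
        exact S.one
    | succ l ih =>
      refine ⟨?_, ?_⟩
      · have h1 := V1b_mulU h ih.1 hzU
        rw [← pow_succ] at h1
        have e1 : -((l * g : ℕ) : ℤ) + -(g : ℤ) = -(((l + 1) * g : ℕ) : ℤ) := by
          push_cast
          ring
        rwa [e1] at h1
      · rw [pow_succ, pow_succ, add_mul, one_mul, S.mul _ _ _ ih.1 _ hzU, ih.2, ht]
  have hνpow : ∀ l : ℕ, ν (z ^ l) = -((l : ℤ) * g) := by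
    intro l
    induction l with
    | zero =>
      rw [pow_zero, h.rules.1]
      simp
    | succ l ih =>
      rw [pow_succ, h.mul _ _ (pow_ne_zero _ hz0) hz0, ih, hνz]
      push_cast
      ring
  have hmem : ∀ (j : ℤ) (m n : ℕ) (x : D), (n : ℤ) = m * g - j → x ∈ h.U j →
      x * z ^ m ∈ h.U (-(n : ℤ)) := by
    intro j m n x hn hx
    have h1 := V1b_mulU h hx (hzpow m).1
    have e1 : j + -((m * g : ℕ) : ℤ) = -(n : ℤ) := by
      rw [hn]
      push_cast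
      ring
    rwa [e1] at h1
  -- the value does not depend on `m`
  have hstab : ∀ (j : ℤ) (m n l n' : ℕ) (x : D), (n : ℤ) = m * g - j →
      (n' : ℤ) = ((m + l : ℕ) : ℤ) * g - j → x ∈ h.U j →
      φ' n' (x * z ^ (m + l)) * (t⁻¹) ^ (m + l) = φ' n (x * z ^ m) * (t⁻¹) ^ m := by
    intro j m n l n' x hn hn' hx
    have e1 : n' = n + l * g := by
      have : (n' : ℤ) = n + l * g := by
        rw [hn, hn']
        push_cast
        ring
      exact_mod_cast this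
    rw [e1, pow_add, ← mul_assoc, S.mul _ _ _ (hmem j m n x hn hx) _ (hzpow l).1, (hzpow l).2,
      add_comm m l, pow_add, inv_pow, inv_pow]
    rw [mul_assoc, ← mul_assoc (t ^ l), mul_inv_cancel₀ (pow_ne_zero _ ht0), one_mul]
  obtain ⟨mm, hmm⟩ : ∃ mm : ℤ → ℕ, mm = fun j => j.toNat := ⟨_, rfl⟩
  obtain ⟨nn, hnn⟩ : ∃ nn : ℤ → ℕ, nn = fun j => ((mm j : ℤ) * g - j).toNat := ⟨_, rfl⟩
  have hle : ∀ j : ℤ, j ≤ (mm j : ℤ) * g := by
    intro j
    have h1 : j ≤ (mm j : ℤ) := by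
      rw [hmm]
      exact Int.self_le_toNat j
    have h2 : (mm j : ℤ) * 1 ≤ (mm j : ℤ) * g := by
      apply mul_le_mul_of_nonneg_left
      · exact_mod_cast hg1
      · positivity
    linarith
  have hn : ∀ j : ℤ, (nn j : ℤ) = (mm j : ℤ) * g - j := by
    intro j
    rw [hnn]
    exact Int.toNat_of_nonneg (sub_nonneg.2 (hle j))
  obtain ⟨φ, hφ⟩ : ∃ φ : ℤ → D →ₗ[k] E, ∀ j x,
      φ j x = φ' (nn j) (x * z ^ (mm j)) * (t⁻¹) ^ (mm j) :=
    ⟨fun j => (LinearMap.mulRight k ((t⁻¹) ^ (mm j))) ∘ₗ (φ' (nn j)) ∘ₗ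
      (LinearMap.mulRight k (z ^ (mm j))), fun j x => rfl⟩
  have hval : ∀ (j : ℤ) (m n : ℕ) (x : D), (n : ℤ) = m * g - j → x ∈ h.U j →
      φ j x = φ' n (x * z ^ m) * (t⁻¹) ^ m := by
    intro j m n x hn' hx
    rw [hφ]
    have h1 : j ≤ ((mm j + m : ℕ) : ℤ) * g := by
      have h2 := hle j
      push_cast
      nlinarith [Int.natCast_nonneg (m * g)]
    obtain ⟨N, hN⟩ : ∃ N : ℕ, (N : ℤ) = ((mm j + m : ℕ) : ℤ) * g - j :=
      ⟨(((mm j + m : ℕ) : ℤ) * g - j).toNat, Int.toNat_of_nonneg (sub_nonneg.2 h1)⟩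
    rw [← hstab j (mm j) (nn j) m N x (hn j) hN hx,
      ← hstab j m n (mm j) N x hn' (by rw [add_comm m (mm j)]; exact hN) hx,
      add_comm m (mm j)]
  refine ⟨E, iE, iAE, φ, ?_, ?_, ?_, ?_, ?_⟩
  · -- ker
    intro j x hx
    rw [hφ, mul_eq_zero, or_iff_left (pow_ne_zero _ (inv_ne_zero ht0)),
      S.ker _ _ (hmem j (mm j) (nn j) x (hn j) hx)]
    show (x * z ^ mm j = 0 ∨ 1 - (nn j : ℤ) ≤ ν (x * z ^ mm j)) ↔ (x = 0 ∨ j + 1 ≤ ν x)
    by_cases hx0 : x = 0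
    · simp [hx0]
    · rw [h.mul _ _ hx0 (pow_ne_zero _ hz0), hνpow, hn j]
      have h1 : x * z ^ mm j ≠ 0 := mul_ne_zero hx0 (pow_ne_zero _ hz0)
      rw [or_iff_right h1, or_iff_right hx0]
      constructor <;> intro h2 <;> linarith
  · -- one
    have h1 : (1 : D) ∈ h.U 0 := Or.inr h.rules.1.ge
    rw [hval 0 0 0 1 (by simp) h1, pow_zero, pow_zero, mul_one, mul_one]
    exact S.one
  · -- mul
    intro i j x hx y hy
    obtain ⟨m, hm⟩ : ∃ m, m = mm i := ⟨_, rfl⟩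
    have hi : i ≤ (m : ℤ) * g := by rw [hm]; exact hle i
    obtain ⟨l, hl⟩ : ∃ l, l = mm j + m := ⟨_, rfl⟩
    have hj : j + (m : ℤ) * g ≤ (l : ℤ) * g := by
      have h2 := hle j
      rw [hl]
      push_cast
      linarith
    obtain ⟨a, ha⟩ : ∃ a : ℕ, (a : ℤ) = m * g - i := ⟨_, Int.toNat_of_nonneg (sub_nonneg.2 hi)⟩
    obtain ⟨b, hb⟩ : ∃ b : ℕ, (b : ℤ) = l * g - (j + m * g) :=
      ⟨_, Int.toNat_of_nonneg (sub_nonneg.2 hj)⟩
    have hzm : (z ^ m)⁻¹ ∈ h.U ((m : ℤ) * g) := by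
      right
      rw [h.rules.2.1 _ (pow_ne_zero _ hz0), hνpow]
      simp
    have hw : (z ^ m)⁻¹ * y * z ^ l ∈ h.U (-(b : ℤ)) := by
      have h1 := V1b_mulU h (V1b_mulU h hzm hy) (hzpow l).1
      have e1 : (m : ℤ) * g + j + -((l * g : ℕ) : ℤ) = -(b : ℤ) := by
        rw [hb]
        push_cast
        ring
      rwa [e1] at h1
    have e2 : φ j y = t ^ m * φ' b ((z ^ m)⁻¹ * y * z ^ l) * (t⁻¹) ^ l := by
      rw [hval j l (m * g + b) y (by push_cast; rw [hb]; ring) hy]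
      congr 1
      rw [← (hzpow m).2, ← S.mul _ _ _ (hzpow m).1 _ hw]
      congr 1
      rw [mul_assoc, ← mul_assoc, mul_inv_cancel₀ (pow_ne_zero _ hz0), one_mul]
    rw [hval i m a x ha hx, e2,
      hval (i + j) l (a + b) (x * y) (by push_cast; rw [ha, hb]; ring) (V1b_mulU h hx hy)]
    rw [mul_assoc (φ' a (x * z ^ m)), ← mul_assoc ((t⁻¹) ^ m), ← mul_assoc ((t⁻¹) ^ m),
      inv_pow t m, inv_mul_cancel₀ (pow_ne_zero m ht0), one_mul, ← mul_assoc,
      ← S.mul _ _ _ (hmem i m a x ha hx) _ hw]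
    congr 2
    rw [mul_assoc x (z ^ m), mul_assoc ((z ^ m)⁻¹), ← mul_assoc (z ^ m),
      mul_inv_cancel₀ (pow_ne_zero _ hz0), one_mul, mul_assoc]
  · -- indep
    intro s x hx hsum j hj
    obtain ⟨m, hm⟩ : ∃ m : ℕ, ∀ i ∈ s, i ≤ (m : ℤ) * g := by
      refine ⟨∑ i ∈ s, mm i, fun i hi => (hle i).trans ?_⟩
      have h1 : mm i ≤ ∑ i ∈ s, mm i := Finset.single_le_sum (fun _ _ => Nat.zero_le _) hi
      have h2 : (mm i : ℤ) ≤ ((∑ i ∈ s, mm i : ℕ) : ℤ) := by exact_mod_cast h1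
      exact mul_le_mul_of_nonneg_right h2 (by positivity)
    obtain ⟨p, hp⟩ : ∃ p : ℤ → ℕ, p = fun i => ((m : ℤ) * g - i).toNat := ⟨_, rfl⟩
    have hp1 : ∀ i ∈ s, (p i : ℤ) = m * g - i := by
      intro i hi
      rw [hp]
      exact Int.toNat_of_nonneg (sub_nonneg.2 (hm i hi))
    have hφi : ∀ i ∈ s, φ i (x i) = φ' (p i) (x i * z ^ m) * (t⁻¹) ^ m := fun i hi =>
      hval i m (p i) (x i) (hp1 i hi) (hx i)
    have hsum2 : ∑ i ∈ s, φ' (p i) (x i * z ^ m) = 0 := by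
      rw [Finset.sum_congr rfl hφi, ← Finset.sum_mul, mul_eq_zero] at hsum
      exact hsum.resolve_right (pow_ne_zero _ (inv_ne_zero ht0))
    obtain ⟨y, hy⟩ : ∃ y : ℕ → D, y = fun n : ℕ => if ((m : ℤ) * g - n) ∈ s then
        x ((m : ℤ) * g - n) * z ^ m else 0 := ⟨_, rfl⟩
    have hyU : ∀ n : ℕ, y n ∈ h.U (-(n : ℤ)) := by
      intro n
      rw [hy]
      show (if ((m : ℤ) * g - n) ∈ s then x ((m : ℤ) * g - n) * z ^ m else 0) ∈ _
      split_ifs with h1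
      · exact hmem ((m : ℤ) * g - n) m n _ (by ring) (hx _)
      · exact Submodule.zero_mem _
    have hyp : ∀ i ∈ s, y (p i) = x i * z ^ m := by
      intro i hi
      rw [hy]
      show (if ((m : ℤ) * g - (p i : ℤ)) ∈ s then x ((m : ℤ) * g - (p i : ℤ)) * z ^ m else 0) = _
      have e1 : (m : ℤ) * g - (p i : ℤ) = i := by rw [hp1 i hi]; ring
      rw [e1, if_pos hi]
    obtain ⟨M, hM⟩ : ∃ M : ℕ, ∀ i ∈ s, p i < M := by
      refine ⟨(∑ i ∈ s, p i) + 1, fun i hi => ?_⟩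
      have h1 : p i ≤ ∑ i ∈ s, p i := Finset.single_le_sum (fun _ _ => Nat.zero_le _) hi
      omega
    have hsum3 : ∑ n ∈ Finset.range M, φ' n (y n) = 0 := by
      rw [← hsum2]
      have h1 : ∑ i ∈ s, φ' (p i) (x i * z ^ m) = ∑ n ∈ s.image p, φ' n (y n) := by
        rw [Finset.sum_image]
        · exact Finset.sum_congr rfl fun i hi => by rw [hyp i hi]
        · intro a ha b hb hab
          have h2 := hp1 a ha
          have h3 := hp1 b hb
          have h4 : (p a : ℤ) = p b := by exact_mod_cast hab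
          linarith
      rw [h1]
      symm
      apply Finset.sum_subset
      · intro n hn'
        obtain ⟨i, hi, rfl⟩ := Finset.mem_image.1 hn'
        exact Finset.mem_range.2 (hM i hi)
      · intro n _ hn'
        have h2 : ((m : ℤ) * g - n) ∉ s := by
          intro h3
          apply hn'
          refine Finset.mem_image.2 ⟨_, h3, ?_⟩
          have h4 := hp1 _ h3
          have h5 : (p ((m : ℤ) * g - n) : ℤ) = n := by rw [h4]; ring
          exact_mod_cast h5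
        have h3 : y n = 0 := by
          rw [hy]
          exact if_neg h2
        rw [h3, map_zero]
    have h1 := S.indep M y hyU hsum3 (p j) (hM j hj)
    rw [hyp j hj] at h1
    rw [hφi j hj, h1, zero_mul]
  · -- frac
    have hsup : (⨆ n : ℕ, (h.U (-(n : ℤ))).map (φ' n)) ≤ ⨆ j : ℤ, (h.U j).map (φ j) := by
      refine iSup_le fun n => ?_
      refine le_trans ?_ (le_iSup (fun j : ℤ => (h.U j).map (φ j)) (-(n : ℤ)))
      rintro _ ⟨x, hx, rfl⟩
      refine ⟨x, hx, ?_⟩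
      rw [hval (-(n : ℤ)) 0 n x (by simp) hx, pow_zero, pow_zero, mul_one, mul_one]
    intro e
    obtain ⟨u, hu, v, hv, hv0, he⟩ := S.frac e
    exact ⟨u, hsup hu, v, hsup hv, hv0, he⟩

end Pool.Agent.BQG
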