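import Pool.Agent.H.MP_fbbc72_al.h23.V1
import Pool.Agent.H.MP_fbbc72_al.h23.W3

set_option autoImplicit false

namespace Pool.Agent.BQG

open Module Polynomial

universe u v

variable {k : Type v} {D : Type u} [Field k] [DivisionRing D] [Algebra k D]

theorem V2_mono {ν : D → ℤ} (h : DVal k ν) {m n : ℤ} (hmn : m ≤ n) {x : D} (hx : x ∈ h.U n) :
    x ∈ h.U m := by
  rcases h.mem_U.1 hx with h0 | h0
  · exact h.mem_U.2 (Or.inl h0)
  · exact h.mem_U.2 (Or.inr (hmn.trans h0))

theorem V2_mul {ν : D → ℤ} (h : DVal k ν) {m n : ℤ} {x y : D} (hx : x ∈ h.U m)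
    (hy : y ∈ h.U n) : x * y ∈ h.U (m + n) := by
  rcases h.mem_U.1 hx with hx0 | hx0
  · rw [hx0, zero_mul]
    exact Submodule.zero_mem _
  rcases h.mem_U.1 hy with hy0 | hy0
  · rw [hy0, mul_zero]
    exact Submodule.zero_mem _
  by_cases hx1 : x = 0
  · rw [hx1, zero_mul]
    exact Submodule.zero_mem _
  by_cases hy1 : y = 0
  · rw [hy1, mul_zero]
    exact Submodule.zero_mem _
  refine h.mem_U.2 (Or.inr ?_)
  rw [h.mul x y hx1 hy1]
  exact add_le_add hx0 hy0

theorem V2_pow {ν : D → ℤ} (h : DVal k ν) {m : ℤ} {x : D} (hx : x ∈ h.U m) (i : ℕ) :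
    x ^ i ∈ h.U (i * m) := by
  induction i with
  | zero =>
    rw [pow_zero, Nat.cast_zero, zero_mul]
    refine h.mem_U.2 (Or.inr ?_)
    rw [h.rules.1]
  | succ i ih =>
    rw [pow_succ]
    have h1 := V2_mul h ih hx
    have h2 : ((i + 1 : ℕ) : ℤ) * m = i * m + m := by push_cast; ring
    rw [h2]
    exact h1

/-- The drop of the powers in characteristic `p`: if `ν [v, x] > ν v + ν x` for all `x` then
`[v^i, a] ∈ U (i ν v + ν a + p^{v_p(i)})`.

`i = q i'` with `q = p ^ padicValNat p i`. `ad v = mulLeft v - mulRight v`, the two commute, so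
`(ad v)^q = mulLeft (v^q) - mulRight (v^q)` in characteristic `p` (see the proof of
`Filt.comm_pow` in W3), and `(ad v)^s a ∈ U (s (ν v + 1) + ν a)` by induction on `s`. Then
`[v^{q i'}, a] = ∑_{s<i'} v^{q s} [v^q, a] v^{q (i'-1-s)}`. -/
theorem DVal.comm_pow {ν : D → ℤ} (h : DVal k ν) {p : ℕ} (hp : p.Prime) [CharP k p]
    {a v : D} (ha : a ≠ 0) (hv : v ≠ 0)
    (hc : ∀ x : D, x ≠ 0 → v * x - x * v ∈ h.U (ν v + ν x + 1)) (i : ℕ) (hi : 1 ≤ i) :
    v ^ i * a - a * v ^ i ∈ h.U (i * ν v + ν a + (p ^ (padicValNat p i) : ℕ)) := by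
  have : Fact p.Prime := ⟨hp⟩
  have : CharP (Module.End k D) p :=
    charP_of_injective_algebraMap (algebraMap k (Module.End k D)).injective p
  obtain ⟨t, ht⟩ : ∃ t, t = padicValNat p i := ⟨_, rfl⟩
  obtain ⟨i', hi'⟩ : p ^ t ∣ i := by
    rw [ht]
    exact pow_padicValNat_dvd
  rw [← ht]
  have hi1 : 1 ≤ i' := by
    rcases Nat.eq_zero_or_pos i' with h0 | h0
    · rw [h0, mul_zero] at hi'
      omega
    · exact h0
  -- iterated commutators
  have had : ∀ j : ℕ, ((LinearMap.mulLeft k v - LinearMap.mulRight k v) ^ j : Module.End k D) a ∈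
      h.U (ν a + j * (ν v + 1)) := by
    intro j
    induction j with
    | zero =>
      rw [pow_zero, Nat.cast_zero, zero_mul, add_zero]
      exact h.mem_U.2 (Or.inr le_rfl)
    | succ j ih =>
      rw [pow_succ', Module.End.mul_apply, LinearMap.sub_apply, LinearMap.mulLeft_apply,
        LinearMap.mulRight_apply]
      generalize ((LinearMap.mulLeft k v - LinearMap.mulRight k v) ^ j : Module.End k D) a = y
        at ih
      by_cases hy : y = 0
      · rw [hy, mul_zero, zero_mul, sub_zero]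
        exact Submodule.zero_mem _
      · refine V2_mono h ?_ (hc y hy)
        have h1 := (h.mem_U.1 ih).resolve_left hy
        push_cast
        linarith
  have hq : v ^ p ^ t * a - a * v ^ p ^ t ∈ h.U (ν a + (p ^ t : ℕ) * (ν v + 1)) := by
    have h1 := had (p ^ t)
    rw [sub_pow_char_pow_of_commute _ _ (LinearMap.commute_mulLeft_right (R := k) v v),
      LinearMap.sub_apply, LinearMap.pow_mulLeft, LinearMap.pow_mulRight,
      LinearMap.mulLeft_apply, LinearMap.mulRight_apply] at h1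
    exact h1
  rw [hi', pow_mul, telescope]
  refine Submodule.sum_mem _ fun s hs => ?_
  rw [Finset.mem_range] at hs
  have hvU : v ∈ h.U (ν v) := h.mem_U.2 (Or.inr le_rfl)
  have hv1 := V2_pow h (V2_pow h hvU (p ^ t)) s
  have hv2 := V2_pow h (V2_pow h hvU (p ^ t)) (i' - 1 - s)
  have h1 := V2_mul h (V2_mul h hv1 hq) hv2
  refine V2_mono h (le_of_eq ?_) h1
  obtain ⟨r, hr⟩ : ∃ r, i' = s + 1 + r := ⟨i' - 1 - s, by omega⟩
  have h2 : i' - 1 - s = r := by omega
  rw [h2, hr]
  push_cast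
  ring

end Pool.Agent.BQG
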