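import Pool.Agent.H.MP_fbbc72_al.h23.W1

set_option autoImplicit false

namespace Pool.Agent.BQG

open Module

section W2abs

variable {F M : Type*} [DivisionRing F] [AddCommGroup M] [Module F M]

/-- Independence by leading indices. -/
theorem W2_lead (U : ℕ → Submodule F M) (hU : Monotone U) (Q : Submodule F M) (P : Finset ℕ)
    (y : ℕ → M) (hy : ∀ n ∈ P, 1 ≤ n ∧ y n ∈ U n ∧ y n ∉ U (n - 1) ⊔ Q) (l : ℕ)
    (hl : ∀ n ∈ P, l < n) (f : ℕ → F) (hf : ∑ n ∈ P, f n • y n ∈ U l ⊔ Q) :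
    ∀ n ∈ P, f n = 0 := by
  classical
  by_contra hcon
  push Not at hcon
  obtain ⟨n0, hn0, hf0⟩ := hcon
  have hne : (P.filter fun n => f n ≠ 0).Nonempty := ⟨n0, Finset.mem_filter.mpr ⟨hn0, hf0⟩⟩
  obtain ⟨m, hm, hmax⟩ := (P.filter fun n => f n ≠ 0).exists_max_image id hne
  obtain ⟨hmP, hfm⟩ := Finset.mem_filter.mp hm
  obtain ⟨hm1, -, hmU⟩ := hy m hmP
  apply hmU
  have h1 : f m • y m ∈ U (m - 1) ⊔ Q := by
    have h2 : f m • y m = ∑ n ∈ P, f n • y n - ∑ n ∈ P.erase m, f n • y n := by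
      rw [← Finset.add_sum_erase P _ hmP]
      abel
    rw [h2]
    refine Submodule.sub_mem _ (sup_le_sup_right (hU ?_) Q hf) (Submodule.sum_mem _ fun n hn => ?_)
    · have := hl m hmP
      omega
    · obtain ⟨hnm, hnP⟩ := Finset.mem_erase.mp hn
      by_cases hfn : f n = 0
      · rw [hfn, zero_smul]
        exact Submodule.zero_mem _
      · have h3 : n ≤ m := hmax n (Finset.mem_filter.mpr ⟨hnP, hfn⟩)
        exact Submodule.smul_mem _ _ (Submodule.mem_sup_left (hU (by omega) (hy n hnP).2.1))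
  have h4 := Submodule.smul_mem _ (f m)⁻¹ h1
  rwa [smul_smul, inv_mul_cancel₀ hfm, one_smul] at h4

theorem W2_li (P : Finset ℕ) (y : ℕ → M)
    (h : ∀ f : ℕ → F, ∑ n ∈ P, f n • y n = 0 → ∀ n ∈ P, f n = 0) :
    LinearIndependent F (fun n : P => y n) := by
  classical
  rw [Fintype.linearIndependent_iff]
  intro g hg i
  have h1 := h (fun n => if hn : n ∈ P then g ⟨n, hn⟩ else 0) (by
    rw [← Finset.sum_coe_sort, ← hg]
    refine Finset.sum_congr rfl fun j _ => ?_
    rw [dif_pos j.2]) i i.2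
  rw [dif_pos i.2] at h1
  exact h1

theorem W2_card {γ : ℕ} {T : M →ₗ[F] M}
    (hγ : ∀ (N : ℕ) (x : Fin N → M), LinearIndependent F x → (∀ i, T (x i) = 0) → N ≤ γ)
    (P : Finset ℕ) (y : ℕ → M) (hli : LinearIndependent F (fun n : P => y n))
    (hT : ∀ n ∈ P, T (y n) = 0) : P.card ≤ γ := by
  have h1 := hli.comp P.equivFin.symm P.equivFin.symm.injective
  exact hγ P.card _ h1 fun i => hT _ (P.equivFin.symm i).2

theorem W2_finrank_le {γ : ℕ} (W : Submodule F M)
    (hγ : ∀ (N : ℕ) (x : Fin N → M), LinearIndependent F x → (∀ i, x i ∈ W) → N ≤ γ) :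
    Module.Finite F W ∧ finrank F W ≤ γ := by
  have h0 : Module.Finite F W := finite_of_bound γ fun N x hx =>
    hγ N (fun i => (x i : M)) (hx.map' W.subtype W.ker_subtype) fun i => (x i).2
  refine ⟨h0, ?_⟩
  have h1 := (Module.finBasis F W).linearIndependent
  exact hγ _ _ (h1.map' W.subtype W.ker_subtype) fun i => (Module.finBasis F W i).2

theorem W2_step (T : M →ₗ[F] M) (γ e : ℕ)
    (hγ : ∀ (N : ℕ) (x : Fin N → M), LinearIndependent F x → (∀ i, T (x i) = 0) → N ≤ γ)
    (U : ℕ → Submodule F M) (hU : Monotone U) (hT : ∀ n, ∀ x ∈ U n, T x ∈ U (n + e))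
    (hfin : ∀ n, Module.Finite F (U n)) (l : ℕ) (P : Finset ℕ) (x : ℕ → M)
    (hx : ∀ n ∈ P, 1 ≤ n ∧ x n ∈ U n ∧ x n ∉ U (n - 1) ⊔ LinearMap.ker T)
    (hl : ∀ n ∈ P, l < n) (hTx : ∀ n ∈ P, T (x n) ∈ U (l + e)) :
    P.card + finrank F (U l) ≤ finrank F (U (l + e)) + γ := by
  classical
  have := hfin l
  have := hfin (l + e)
  have hkey : ∀ f : ℕ → F, ∑ n ∈ P, f n • T (x n) ∈ (U l).map T → ∀ n ∈ P, f n = 0 := by
    rintro f ⟨y, hy, hyf⟩
    refine W2_lead U hU (LinearMap.ker T) P x hx l hl f ?_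
    have h1 : ∑ n ∈ P, f n • x n - y ∈ LinearMap.ker T := by
      rw [LinearMap.mem_ker, map_sub, map_sum, hyf, sub_eq_zero]
      exact Finset.sum_congr rfl fun n _ => map_smul _ _ _
    have h2 : ∑ n ∈ P, f n • x n = y + (∑ n ∈ P, f n • x n - y) := by abel
    rw [h2]
    exact Submodule.add_mem_sup hy h1
  have hli : LinearIndependent F (fun n : P => T (x n)) :=
    W2_li P (fun n => T (x n)) fun f hf => hkey f (by rw [hf]; exact Submodule.zero_mem _)
  have hspan : finrank F (Submodule.span F (Set.range fun n : P => T (x n))) = P.card := by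
    rw [finrank_span_eq_card hli, Fintype.card_coe]
  have hdis : (U l).map T ⊓ Submodule.span F (Set.range fun n : P => T (x n)) = ⊥ := by
    rw [eq_bot_iff]
    rintro z ⟨hz1, hz2⟩
    obtain ⟨c, hc⟩ := (Submodule.mem_span_range_iff_exists_fun F).mp hz2
    have h1 : ∑ n ∈ P, (if hn : n ∈ P then c ⟨n, hn⟩ else 0) • T (x n) = z := by
      rw [← Finset.sum_coe_sort, ← hc]
      refine Finset.sum_congr rfl fun j _ => ?_
      rw [dif_pos j.2]
    have h2 := hkey (fun n => if hn : n ∈ P then c ⟨n, hn⟩ else 0) (by rw [h1]; exact hz1)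
    rw [Submodule.mem_bot, ← h1]
    exact Finset.sum_eq_zero fun n hn => by rw [h2 n hn, zero_smul]
  have hle : (U l).map T ⊔ Submodule.span F (Set.range fun n : P => T (x n)) ≤ U (l + e) := by
    refine sup_le ?_ (Submodule.span_le.mpr ?_)
    · rintro _ ⟨y, hy, rfl⟩
      exact hT l y hy
    · rintro _ ⟨n, rfl⟩
      exact hTx n n.2
  have : Module.Finite F ↥((U l).map T) := Submodule.finiteDimensional_of_le (le_sup_left.trans hle)
  have : Module.Finite F ↥(Submodule.span F (Set.range fun n : P => T (x n))) :=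
    Submodule.finiteDimensional_of_le (le_sup_right.trans hle)
  have h3 := Submodule.finrank_sup_add_finrank_inf_eq ((U l).map T)
    (Submodule.span F (Set.range fun n : P => T (x n)))
  rw [hdis, finrank_bot, add_zero, hspan] at h3
  have h4 := Submodule.finrank_mono hle
  have h5 := LinearMap.finrank_range_add_finrank_ker (T.domRestrict (U l))
  rw [LinearMap.range_domRestrict] at h5
  have h6 : finrank F (LinearMap.ker (T.domRestrict (U l))) ≤ γ := by
    have h7 := (Module.finBasis F (LinearMap.ker (T.domRestrict (U l)))).linearIndependent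
    have h8 := (h7.map' (LinearMap.ker (T.domRestrict (U l))).subtype
      (Submodule.ker_subtype _)).map' (U l).subtype (U l).ker_subtype
    exact hγ _ _ h8 fun i => (Module.finBasis F (LinearMap.ker (T.domRestrict (U l))) i).2
  omega

theorem W2_abs (T : M →ₗ[F] M) (γ e B : ℕ)
    (hγ : ∀ (N : ℕ) (x : Fin N → M), LinearIndependent F x → (∀ i, T (x i) = 0) → N ≤ γ)
    (U : ℕ → Submodule F M) (hU : Monotone U) (hT : ∀ n, ∀ x ∈ U n, T x ∈ U (n + e))
    (hB : ∀ n N (x : Fin N → M), LinearIndependent F x → (∀ i, x i ∈ U n) → N ≤ B * (n + 1))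
    (L : ℕ) (S : Finset ℕ) (x : ℕ → M) (w : ℕ → ℕ)
    (h : ∀ n ∈ S, 1 ≤ n ∧ n ≤ L ∧ w n ≤ n ∧ x n ∈ U n ∧ x n ∉ U (n - 1) ∧
      T (x n) ∈ U (n + e - w n)) :
    ∑ n ∈ S, w n ≤ (2 * γ + e * B * (e + 1)) * (L + 1) := by
  classical
  have hfin : ∀ n, Module.Finite F (U n) := fun n => (W2_finrank_le (U n) (hB n)).1
  have hu : ∀ n, finrank F (U n) ≤ B * (n + 1) := fun n => (W2_finrank_le (U n) (hB n)).2
  set Bd := S.filter fun n => x n ∈ U (n - 1) ⊔ LinearMap.ker T with hBd
  set Gd := S.filter fun n => ¬ x n ∈ U (n - 1) ⊔ LinearMap.ker T with hGd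
  have hsplit : ∑ n ∈ S, w n = ∑ n ∈ Bd, w n + ∑ n ∈ Gd, w n :=
    (Finset.sum_filter_add_sum_filter_not S _ _).symm
  -- bad indices
  have hbad : Bd.card ≤ γ := by
    have h1 : ∀ n : ℕ, ∃ κ : M, n ∈ Bd → T κ = 0 ∧ x n - κ ∈ U (n - 1) := by
      intro n
      by_cases hn : n ∈ Bd
      · obtain ⟨y, hy, κ, hκ, hyκ⟩ := Submodule.mem_sup.mp (Finset.mem_filter.mp hn).2
        refine ⟨κ, fun _ => ⟨hκ, ?_⟩⟩
        rw [← hyκ, add_sub_cancel_right]
        exact hy
      · exact ⟨0, fun hc => absurd hc hn⟩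
    choose κ hκ using h1
    refine W2_card hγ Bd κ (W2_li Bd κ fun f hf => ?_) fun n hn => (hκ n hn).1
    refine W2_lead U hU ⊥ Bd κ (fun n hn => ?_) 0 (fun n hn => ?_) f ?_
    · obtain ⟨h1, -, -, h2, h3, -⟩ := h n (Finset.mem_filter.mp hn).1
      have h4 := (hκ n hn).2
      refine ⟨h1, ?_, ?_⟩
      · have h5 : κ n = x n - (x n - κ n) := by abel
        rw [h5]
        exact Submodule.sub_mem _ h2 (hU (by omega) h4)
      · rw [sup_bot_eq]
        intro h6
        apply h3
        have h5 : x n = (x n - κ n) + κ n := by abel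
        rw [h5]
        exact Submodule.add_mem _ h4 h6
    · exact (h n (Finset.mem_filter.mp hn).1).1
    · rw [hf]
      exact Submodule.zero_mem _
  have hb2 : ∑ n ∈ Bd, w n ≤ γ * L := by
    calc ∑ n ∈ Bd, w n ≤ ∑ _n ∈ Bd, L := Finset.sum_le_sum fun n hn => by
          obtain ⟨-, h1, h2, -⟩ := h n (Finset.mem_filter.mp hn).1
          omega
      _ = Bd.card * L := by rw [Finset.sum_const, smul_eq_mul]
      _ ≤ γ * L := Nat.mul_le_mul_right _ hbad
  -- good indices
  have hgood : ∑ n ∈ Gd, w n =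
      ∑ l ∈ Finset.range L, (Gd.filter fun n => n - w n ≤ l ∧ l < n).card := by
    simp only [Finset.card_filter]
    rw [Finset.sum_comm]
    refine Finset.sum_congr rfl fun n hn => ?_
    obtain ⟨-, h1, h2, -⟩ := h n (Finset.mem_filter.mp hn).1
    rw [← Finset.card_filter]
    have h3 : ((Finset.range L).filter fun l => n - w n ≤ l ∧ l < n) = Finset.Ico (n - w n) n := by
      ext l
      rw [Finset.mem_filter, Finset.mem_range, Finset.mem_Ico]
      constructor
      · rintro ⟨-, h4⟩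
        exact h4
      · rintro ⟨h4, h5⟩
        exact ⟨by omega, h4, h5⟩
    rw [h3, Nat.card_Ico]
    omega
  have hstep : ∀ l ∈ Finset.range L, (Gd.filter fun n => n - w n ≤ l ∧ l < n).card +
      finrank F (U l) ≤ finrank F (U (l + e)) + γ := by
    intro l _
    refine W2_step T γ e hγ U hU hT hfin l _ x (fun n hn => ?_) (fun n hn => ?_) fun n hn => ?_
    · obtain ⟨hn1, hn2⟩ := Finset.mem_filter.mp hn
      obtain ⟨hn3, hn4⟩ := Finset.mem_filter.mp hn1
      obtain ⟨h1, -, -, h2, -⟩ := h n hn3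
      exact ⟨h1, h2, hn4⟩
    · exact (Finset.mem_filter.mp hn).2.2
    · obtain ⟨hn1, hn2, hn3⟩ := Finset.mem_filter.mp hn
      obtain ⟨-, -, hw, -, -, h3⟩ := h n (Finset.mem_filter.mp hn1).1
      exact hU (by omega) h3
  have hsum := Finset.sum_le_sum hstep
  rw [Finset.sum_add_distrib, Finset.sum_add_distrib, Finset.sum_const, Finset.card_range,
    smul_eq_mul, ← hgood] at hsum
  have hshift : ∑ l ∈ Finset.range L, finrank F (U (l + e)) ≤
      ∑ l ∈ Finset.range L, finrank F (U l) + e * (B * (L + e + 1)) := by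
    have h1 : ∑ l ∈ Finset.range (e + L), finrank F (U l) =
        ∑ l ∈ Finset.range e, finrank F (U l) + ∑ l ∈ Finset.range L, finrank F (U (e + l)) :=
      Finset.sum_range_add _ _ _
    have h2 : ∑ l ∈ Finset.range (L + e), finrank F (U l) =
        ∑ l ∈ Finset.range L, finrank F (U l) + ∑ l ∈ Finset.range e, finrank F (U (L + l)) :=
      Finset.sum_range_add _ _ _
    have h3 : ∑ l ∈ Finset.range e, finrank F (U (L + l)) ≤ e * (B * (L + e + 1)) := by
      calc ∑ l ∈ Finset.range e, finrank F (U (L + l)) ≤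
            ∑ _l ∈ Finset.range e, B * (L + e + 1) := Finset.sum_le_sum fun l hl => by
            refine (hu (L + l)).trans (Nat.mul_le_mul_left _ ?_)
            have := Finset.mem_range.mp hl
            omega
        _ = e * (B * (L + e + 1)) := by rw [Finset.sum_const, Finset.card_range, smul_eq_mul]
    have h4 : ∑ l ∈ Finset.range L, finrank F (U (l + e)) =
        ∑ l ∈ Finset.range L, finrank F (U (e + l)) :=
      Finset.sum_congr rfl fun l _ => by rw [add_comm]
    rw [add_comm L e] at h2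
    omega
  have hfinal : ∑ n ∈ Gd, w n ≤ e * (B * (L + e + 1)) + L * γ := by omega
  rw [hsplit]
  have h5 : e * (B * (L + e + 1)) ≤ e * B * (e + 1) * (L + 1) := by
    have h6 : L + e + 1 ≤ (e + 1) * (L + 1) := by nlinarith [Nat.zero_le (e * L)]
    calc e * (B * (L + e + 1)) ≤ e * (B * ((e + 1) * (L + 1))) :=
          Nat.mul_le_mul_left _ (Nat.mul_le_mul_left _ h6)
      _ = e * B * (e + 1) * (L + 1) := by ring
  nlinarith [Nat.zero_le γ]

end W2abs

variable {k D : Type*} [Field k] [DivisionRing D] [Algebra k D]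

/-- The operator `T x = x a - a x`, linear over the left action of `k(a)`. -/
def Tmap (k : Type*) {D : Type*} [Field k] [DivisionRing D] [Algebra k D] (a : D) :
    D →ₗ[gen k a] D where
  toFun x := x * a - a * x
  map_add' x y := by noncomm_ring
  map_smul' f x := by
    have h := gen_comm (k := k) f.2 (self_mem_gen (k := k) a)
    simp only [Subfield.smul_def, smul_eq_mul, RingHom.id_apply]
    rw [mul_sub, ← mul_assoc a, ← h, mul_assoc, mul_assoc]

/-- THE AVERAGE DROP IS BOUNDED. `U n` is an increasing sequence of left `k(a)`-spaces of linear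
growth with `U n * a ≤ U (n+e)`. For `n` in a finite set `S` of numbers in `[1, L]` let `x n` be an
element of `U n`, not in `U (n-1)`, with `T (x n) = x n * a - a * x n ∈ U (n + e - w n)`,
`w n ≤ n`. Then `∑ w n ≤ K (L+1)` with `K` independent of `L, S, x, w`. -/
theorem Quad.bars {V : Submodule k D} {C : ℕ} (h : Quad V C) (hD : ¬ FinCent D) {a : D}
    (ha : Transcendental k a) (U : ℕ → Submodule (gen k a) D) (hU : Monotone U) (e B : ℕ)
    (hUa : ∀ n, ∀ x ∈ U n, x * a ∈ U (n + e))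
    (hB : ∀ n N (x : Fin N → D), LinearIndependent (gen k a) x → (∀ i, x i ∈ U n) →
      N ≤ B * (n + 1)) :
    ∃ K : ℕ, ∀ (L : ℕ) (S : Finset ℕ) (x : ℕ → D) (w : ℕ → ℕ),
      (∀ n ∈ S, 1 ≤ n ∧ n ≤ L ∧ w n ≤ n ∧ x n ∈ U n ∧ x n ∉ U (n - 1) ∧
        x n * a - a * x n ∈ U (n + e - w n)) →
      ∑ n ∈ S, w n ≤ K * (L + 1) := by
  obtain ⟨γ, hγ⟩ := h.centBound hD ha
  refine ⟨2 * γ + e * B * (e + 1), fun L S x w hx => ?_⟩
  refine W2_abs (Tmap k a) γ e B ?_ U hU ?_ hB L S x w hx
  · intro N y hy hT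
    refine hγ 1 le_rfl N y hy fun i => ?_
    rw [pow_one, mem_cent]
    exact sub_eq_zero.mp (hT i)
  · intro n y hy
    refine Submodule.sub_mem _ (hUa n y hy) (hU (Nat.le_add_right n e) ?_)
    exact Submodule.smul_mem (U n) (⟨a, self_mem_gen (k := k) a⟩ : gen k a) hy

end Pool.Agent.BQG
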