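import Pool.Agent.H.MP_fbbc72_al.h23.V1
import Pool.Agent.H.MP_fbbc72_al.h23.W2

set_option autoImplicit false

namespace Pool.Agent.BQG

open Module Polynomial

universe u v

section V2babs

variable {F E : Type*} [DivisionRing F] [AddCommGroup E] [Module F E]

/-- Independence by leading indices. -/
theorem V2b_lead (U : ℤ → Submodule F E) (hU : Antitone U) (Q : Submodule F E) (P : Finset ℕ)
    (y : ℕ → E) (n : ℕ → ℤ) (hinj : ∀ i ∈ P, ∀ j ∈ P, n i = n j → i = j)
    (hy : ∀ i ∈ P, y i ∈ U (n i) ∧ y i ∉ U (n i + 1) ⊔ Q) (m : ℤ)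
    (hm : ∀ i ∈ P, n i < m) (f : ℕ → F) (hf : ∑ i ∈ P, f i • y i ∈ U m ⊔ Q) :
    ∀ i ∈ P, f i = 0 := by
  classical
  by_contra hcon
  push Not at hcon
  obtain ⟨n0, hn0, hf0⟩ := hcon
  have hne : (P.filter fun i => f i ≠ 0).Nonempty := ⟨n0, Finset.mem_filter.mpr ⟨hn0, hf0⟩⟩
  obtain ⟨i0, hi0, hmin⟩ := (P.filter fun i => f i ≠ 0).exists_min_image n hne
  obtain ⟨hiP, hfi⟩ := Finset.mem_filter.mp hi0
  obtain ⟨-, hiU⟩ := hy i0 hiP
  apply hiU
  have h1 : f i0 • y i0 ∈ U (n i0 + 1) ⊔ Q := by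
    have h2 : f i0 • y i0 = ∑ i ∈ P, f i • y i - ∑ i ∈ P.erase i0, f i • y i := by
      rw [← Finset.add_sum_erase P _ hiP]
      abel
    rw [h2]
    refine Submodule.sub_mem _ (sup_le_sup_right (hU ?_) Q hf) (Submodule.sum_mem _ fun i hi => ?_)
    · have := hm i0 hiP
      omega
    · obtain ⟨hii, hiP'⟩ := Finset.mem_erase.mp hi
      by_cases hfn : f i = 0
      · rw [hfn, zero_smul]
        exact Submodule.zero_mem _
      · have h3 : n i0 ≤ n i := hmin i (Finset.mem_filter.mpr ⟨hiP', hfn⟩)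
        have h4 : n i0 ≠ n i := fun h => hii (hinj i0 hiP i hiP' h).symm
        exact Submodule.smul_mem _ _ (Submodule.mem_sup_left (hU (by omega) (hy i hiP').1))
  have h4 := Submodule.smul_mem _ (f i0)⁻¹ h1
  rwa [smul_smul, inv_mul_cancel₀ hfi, one_smul] at h4

theorem V2b_step (T : E →ₗ[F] E) (γ : ℕ) (s : ℤ)
    (hγ : ∀ (N : ℕ) (x : Fin N → E), LinearIndependent F x → (∀ i, T (x i) = 0) → N ≤ γ)
    (M M' : Submodule F E) (hMM : M ≤ M') [Module.Finite F M] [Module.Finite F M']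
    (hTM : ∀ x ∈ M, T x ∈ M') (U : ℤ → Submodule F E) (hU : Antitone U)
    (hT : ∀ m, ∀ x ∈ U m, T x ∈ U (m + s)) (m : ℤ) (P : Finset ℕ) (x : ℕ → E) (n : ℕ → ℤ)
    (hinj : ∀ i ∈ P, ∀ j ∈ P, n i = n j → i = j)
    (hx : ∀ i ∈ P, x i ∈ M ⊓ U (n i) ∧ x i ∉ (M ⊓ U (n i + 1)) ⊔ LinearMap.ker T)
    (hm : ∀ i ∈ P, n i < m) (hTx : ∀ i ∈ P, T (x i) ∈ U (m + s)) :
    P.card + finrank F ↥(M ⊓ U m) + finrank F M ≤
      finrank F M' + finrank F ↥(M ⊓ U (m + s)) + γ := by
  classical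
  have hU' : Antitone fun j => M ⊓ U j := fun i j hij => inf_le_inf_left M (hU hij)
  have hkey : ∀ f : ℕ → F, ∑ i ∈ P, f i • T (x i) ∈ (M ⊓ U m).map T → ∀ i ∈ P, f i = 0 := by
    rintro f ⟨y, hy, hyf⟩
    refine V2b_lead (fun j => M ⊓ U j) hU' (LinearMap.ker T) P x n hinj hx m hm f ?_
    have h1 : ∑ i ∈ P, f i • x i - y ∈ LinearMap.ker T := by
      rw [LinearMap.mem_ker, map_sub, map_sum, hyf, sub_eq_zero]
      exact Finset.sum_congr rfl fun n _ => map_smul _ _ _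
    have h2 : ∑ i ∈ P, f i • x i = y + (∑ i ∈ P, f i • x i - y) := by abel
    rw [h2]
    exact Submodule.add_mem_sup hy h1
  have hli : LinearIndependent F (fun i : P => T (x i)) :=
    W2_li P (fun i => T (x i)) fun f hf => hkey f (by rw [hf]; exact Submodule.zero_mem _)
  have hspan : finrank F (Submodule.span F (Set.range fun i : P => T (x i))) = P.card := by
    rw [finrank_span_eq_card hli, Fintype.card_coe]
  have hdis : (M ⊓ U m).map T ⊓ Submodule.span F (Set.range fun i : P => T (x i)) = ⊥ := by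
    rw [eq_bot_iff]
    rintro z ⟨hz1, hz2⟩
    obtain ⟨c, hc⟩ := (Submodule.mem_span_range_iff_exists_fun F).mp hz2
    have h1 : ∑ i ∈ P, (if hn : i ∈ P then c ⟨i, hn⟩ else 0) • T (x i) = z := by
      rw [← Finset.sum_coe_sort, ← hc]
      refine Finset.sum_congr rfl fun j _ => ?_
      rw [dif_pos j.2]
    have h2 := hkey (fun i => if hn : i ∈ P then c ⟨i, hn⟩ else 0) (by rw [h1]; exact hz1)
    rw [Submodule.mem_bot, ← h1]
    exact Finset.sum_eq_zero fun i hi => by rw [h2 i hi, zero_smul]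
  have hle : (M ⊓ U m).map T ⊔ Submodule.span F (Set.range fun i : P => T (x i)) ≤
      M' ⊓ U (m + s) := by
    refine sup_le ?_ (Submodule.span_le.mpr ?_)
    · rintro _ ⟨y, hy, rfl⟩
      exact ⟨hTM y hy.1, hT m y hy.2⟩
    · rintro _ ⟨i, rfl⟩
      exact ⟨hTM _ (hx i i.2).1.1, hTx i i.2⟩
  have : Module.Finite F ↥(M' ⊓ U (m + s)) := Submodule.finiteDimensional_of_le inf_le_left
  have : Module.Finite F ↥(M ⊓ U m) := Submodule.finiteDimensional_of_le inf_le_left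
  have : Module.Finite F ↥((M ⊓ U m).map T) :=
    Submodule.finiteDimensional_of_le (le_sup_left.trans hle)
  have : Module.Finite F ↥(Submodule.span F (Set.range fun i : P => T (x i))) :=
    Submodule.finiteDimensional_of_le (le_sup_right.trans hle)
  have h3 := Submodule.finrank_sup_add_finrank_inf_eq ((M ⊓ U m).map T)
    (Submodule.span F (Set.range fun i : P => T (x i)))
  rw [hdis, finrank_bot, add_zero, hspan] at h3
  have h4 := Submodule.finrank_mono hle
  have h5 := LinearMap.finrank_range_add_finrank_ker (T.domRestrict (M ⊓ U m))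
  rw [LinearMap.range_domRestrict] at h5
  have h6 : finrank F (LinearMap.ker (T.domRestrict (M ⊓ U m))) ≤ γ := by
    have h7 := (Module.finBasis F (LinearMap.ker (T.domRestrict (M ⊓ U m)))).linearIndependent
    have h8 := (h7.map' (LinearMap.ker (T.domRestrict (M ⊓ U m))).subtype
      (Submodule.ker_subtype _)).map' (M ⊓ U m).subtype (M ⊓ U m).ker_subtype
    exact hγ _ _ h8 fun i => (Module.finBasis F (LinearMap.ker (T.domRestrict (M ⊓ U m))) i).2
  have h9 := Submodule.finrank_sup_add_finrank_inf_eq (M' ⊓ U (m + s)) M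
  have h10 : M' ⊓ U (m + s) ⊓ M = M ⊓ U (m + s) := by
    ext z
    simp only [Submodule.mem_inf]
    constructor
    · rintro ⟨⟨-, h1⟩, h2⟩
      exact ⟨h2, h1⟩
    · rintro ⟨h1, h2⟩
      exact ⟨⟨hMM h1, h2⟩, h1⟩
  rw [h10] at h9
  have h11 : finrank F ↥(M' ⊓ U (m + s) ⊔ M) ≤ finrank F M' :=
    Submodule.finrank_mono (sup_le inf_le_left hMM)
  omega

theorem V2b_shift (d : ℤ → ℕ) (hd : Antitone d) (R : ℕ) (hR : ∀ m, d m ≤ R) (L : ℕ) (s : ℤ) :
    ∑ j ∈ Finset.range (2 * L), d ((j : ℤ) + 1 - L + s) ≤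
      ∑ j ∈ Finset.range (2 * L), d ((j : ℤ) + 1 - L) + s.natAbs * R := by
  rcases le_or_gt 0 s with hs | hs
  · have h1 : ∑ j ∈ Finset.range (2 * L), d ((j : ℤ) + 1 - L + s) ≤
        ∑ j ∈ Finset.range (2 * L), d ((j : ℤ) + 1 - L) := by
      refine Finset.sum_le_sum fun j _ => hd ?_
      omega
    exact h1.trans (Nat.le_add_right _ _)
  · obtain ⟨t, rfl⟩ : ∃ t : ℕ, s = -(t : ℤ) := ⟨s.natAbs, by omega⟩
    have hna : (-(t : ℤ)).natAbs = t := by omega
    rw [hna]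
    clear hs hna
    induction t with
    | zero => simp
    | succ t ih =>
      have h1 : ∀ (g : ℕ → ℕ) (n : ℕ), g n ≤ R → g 0 ≤ R →
          ∑ j ∈ Finset.range n, g j ≤ ∑ j ∈ Finset.range n, g (j + 1) + R := by
        intro g n hn h0
        have e1 := Finset.sum_range_succ g n
        have e2 := Finset.sum_range_succ' g n
        omega
      have h2 := h1 (fun j => d ((j : ℤ) + 1 - L + -((t + 1 : ℕ) : ℤ))) (2 * L) (hR _) (hR _)
      have h3 : ∑ j ∈ Finset.range (2 * L), d (((j + 1 : ℕ) : ℤ) + 1 - L + -((t + 1 : ℕ) : ℤ)) =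
          ∑ j ∈ Finset.range (2 * L), d ((j : ℤ) + 1 - L + -(t : ℤ)) := by
        refine Finset.sum_congr rfl fun j _ => ?_
        congr 1
        push_cast
        ring
      have h4 : (t + 1) * R = t * R + R := by ring
      rw [h3] at h2
      omega

theorem V2b_abs (T : E →ₗ[F] E) (γ : ℕ) (s : ℤ)
    (hγ : ∀ (N : ℕ) (x : Fin N → E), LinearIndependent F x → (∀ i, T (x i) = 0) → N ≤ γ)
    (M M' : Submodule F E) (hMM : M ≤ M') [Module.Finite F M] [Module.Finite F M']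
    (hTM : ∀ x ∈ M, T x ∈ M') (U : ℤ → Submodule F E) (hU : Antitone U)
    (hT : ∀ m, ∀ x ∈ U m, T x ∈ U (m + s))
    (S : Finset ℕ) (x : ℕ → E) (n : ℕ → ℤ) (w : ℕ → ℕ) (L : ℕ)
    (hx : ∀ i ∈ S, x i ∈ M ∧ x i ∈ U (n i) ∧ x i ∉ U (n i + 1) ∧ T (x i) ∈ U (n i + w i + s) ∧
      -(L : ℤ) ≤ n i ∧ n i + w i ≤ L ∧ w i ≤ L)
    (hinj : ∀ i ∈ S, ∀ j ∈ S, n i = n j → i = j) :
    ∑ i ∈ S, w i ≤ 2 * L * (finrank F M' - finrank F M + γ) + s.natAbs * finrank F M + γ * L := by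
  classical
  have hU' : Antitone fun j => M ⊓ U j := fun i j hij => inf_le_inf_left M (hU hij)
  set Bd := S.filter fun i => x i ∈ (M ⊓ U (n i + 1)) ⊔ LinearMap.ker T with hBd
  set Gd := S.filter fun i => ¬ x i ∈ (M ⊓ U (n i + 1)) ⊔ LinearMap.ker T with hGd
  have hsplit : ∑ i ∈ S, w i = ∑ i ∈ Bd, w i + ∑ i ∈ Gd, w i :=
    (Finset.sum_filter_add_sum_filter_not S _ _).symm
  have hMMr : finrank F M ≤ finrank F M' := Submodule.finrank_mono hMM
  -- bad indices
  have hbad : Bd.card ≤ γ := by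
    have h1 : ∀ i : ℕ, ∃ κ : E, i ∈ Bd → T κ = 0 ∧ x i - κ ∈ M ⊓ U (n i + 1) := by
      intro i
      by_cases hi : i ∈ Bd
      · obtain ⟨y, hy, κ, hκ, hyκ⟩ := Submodule.mem_sup.mp (Finset.mem_filter.mp hi).2
        refine ⟨κ, fun _ => ⟨hκ, ?_⟩⟩
        rw [← hyκ, add_sub_cancel_right]
        exact hy
      · exact ⟨0, fun hc => absurd hc hi⟩
    choose κ hκ using h1
    refine W2_card hγ Bd κ (W2_li Bd κ fun f hf => ?_) fun i hi => (hκ i hi).1
    refine V2b_lead U hU ⊥ Bd κ n (fun i hi j hj => hinj i (Finset.mem_filter.mp hi).1 j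
      (Finset.mem_filter.mp hj).1) (fun i hi => ?_) (L + 1) (fun i hi => ?_) f ?_
    · obtain ⟨-, h2, h3, -⟩ := hx i (Finset.mem_filter.mp hi).1
      have h4 := (hκ i hi).2
      refine ⟨?_, ?_⟩
      · have h5 : κ i = x i - (x i - κ i) := by abel
        rw [h5]
        exact Submodule.sub_mem _ h2 (hU (by omega) h4.2)
      · rw [sup_bot_eq]
        intro h6
        apply h3
        have h5 : x i = (x i - κ i) + κ i := by abel
        rw [h5]
        exact Submodule.add_mem _ h4.2 h6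
    · obtain ⟨-, -, -, -, -, h6, -⟩ := hx i (Finset.mem_filter.mp hi).1
      omega
    · rw [hf]
      exact Submodule.zero_mem _
  have hb2 : ∑ i ∈ Bd, w i ≤ γ * L := by
    calc ∑ i ∈ Bd, w i ≤ ∑ _i ∈ Bd, L := Finset.sum_le_sum fun i hi =>
          (hx i (Finset.mem_filter.mp hi).1).2.2.2.2.2.2
      _ = Bd.card * L := by rw [Finset.sum_const, smul_eq_mul]
      _ ≤ γ * L := Nat.mul_le_mul_right _ hbad
  -- good indices
  have hgood : ∑ i ∈ Gd, w i = ∑ j ∈ Finset.range (2 * L),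
      (Gd.filter fun i => n i < (j : ℤ) + 1 - L ∧ (j : ℤ) + 1 - L ≤ n i + w i).card := by
    simp only [Finset.card_filter]
    rw [Finset.sum_comm]
    refine Finset.sum_congr rfl fun i hi => ?_
    obtain ⟨-, -, -, -, h5, h6, -⟩ := hx i (Finset.mem_filter.mp hi).1
    rw [← Finset.card_filter]
    have h3 : ((Finset.range (2 * L)).filter fun j : ℕ =>
        n i < (j : ℤ) + 1 - L ∧ (j : ℤ) + 1 - L ≤ n i + w i) =
        Finset.Ico (n i + L).toNat ((n i + L).toNat + w i) := by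
      ext j
      rw [Finset.mem_filter, Finset.mem_range, Finset.mem_Ico]
      constructor
      · rintro ⟨-, h7, h8⟩
        omega
      · rintro ⟨h7, h8⟩
        omega
    rw [h3, Nat.card_Ico]
    omega
  have hstep : ∀ j ∈ Finset.range (2 * L),
      (Gd.filter fun i => n i < (j : ℤ) + 1 - L ∧ (j : ℤ) + 1 - L ≤ n i + w i).card +
        finrank F ↥(M ⊓ U ((j : ℤ) + 1 - L)) ≤
      (finrank F M' - finrank F M + γ) + finrank F ↥(M ⊓ U ((j : ℤ) + 1 - L + s)) := by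
    intro j _
    have h := V2b_step T γ s hγ M M' hMM hTM U hU hT ((j : ℤ) + 1 - L)
      (Gd.filter fun i => n i < (j : ℤ) + 1 - L ∧ (j : ℤ) + 1 - L ≤ n i + w i) x n
      (fun i hi i' hi' => hinj i (Finset.mem_filter.mp (Finset.mem_filter.mp hi).1).1 i'
        (Finset.mem_filter.mp (Finset.mem_filter.mp hi').1).1)
      (fun i hi => by
        obtain ⟨hi1, hi2⟩ := Finset.mem_filter.mp hi
        obtain ⟨hi3, hi4⟩ := Finset.mem_filter.mp hi1
        obtain ⟨h1, h2, -⟩ := hx i hi3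
        exact ⟨⟨h1, h2⟩, hi4⟩)
      (fun i hi => (Finset.mem_filter.mp hi).2.1)
      (fun i hi => by
        obtain ⟨hi1, hi2, hi3⟩ := Finset.mem_filter.mp hi
        obtain ⟨-, -, -, h4, -⟩ := hx i (Finset.mem_filter.mp hi1).1
        exact hU (by omega) h4)
    omega
  have hsum := Finset.sum_le_sum hstep
  rw [Finset.sum_add_distrib, Finset.sum_add_distrib, Finset.sum_const, Finset.card_range,
    smul_eq_mul, ← hgood] at hsum
  have hfinm : ∀ m, Module.Finite F ↥(M ⊓ U m) := fun m =>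
    Submodule.finiteDimensional_of_le inf_le_left
  have hshift := V2b_shift (fun m => finrank F ↥(M ⊓ U m))
    (fun i j hij => by
      have := hfinm i
      exact Submodule.finrank_mono (hU' hij)) (finrank F M)
    (fun m => Submodule.finrank_mono inf_le_left) L s
  rw [hsplit]
  omega

end V2babs

variable {k : Type v} {D : Type u} [Field k] [DivisionRing D] [Algebra k D]

/-- `U m` is a left `k(a)`-space if `ν = 0` on `k(a)`. -/
def DVal.UF {ν : D → ℤ} (h : DVal k ν) {a : D} (ha : ∀ f ∈ gen k a, f ≠ 0 → ν f = 0) (m : ℤ) :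
    Submodule (gen k a) D where
  carrier := {x | x = 0 ∨ m ≤ ν x}
  add_mem' := fun hx hy => (h.U m).add_mem hx hy
  zero_mem' := Or.inl rfl
  smul_mem' := by
    rintro f x hx
    by_cases hf : (f : D) = 0
    · left; rw [Subfield.smul_def, smul_eq_mul, hf, zero_mul]
    by_cases hx0 : x = 0
    · left; simp [hx0]
    right
    rw [Subfield.smul_def, smul_eq_mul, h.mul _ _ hf hx0, ha _ f.2 hf, zero_add]
    exact hx.resolve_left hx0

theorem DVal.mem_UF {ν : D → ℤ} (h : DVal k ν) {a : D} (ha : ∀ f ∈ gen k a, f ≠ 0 → ν f = 0)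
    {m : ℤ} {x : D} : x ∈ h.UF ha m ↔ x = 0 ∨ m ≤ ν x := Iff.rfl

/-- COUNTING LEMMA (linear algebra over the division ring `F = k(a)`). `M ≤ M'` are
finite-dimensional left `F`-spaces, `T : D → D` is `F`-linear with `T M ≤ M'` and
`T (U m) ≤ U (m + s)` for all `m`; every `F`-independent family in the kernel of `T` has at most `γ`
elements. `x i ∈ M`, `i ∈ S`, are nonzero elements with different valuations `n i`, `w i ≥ 0` and
`T (x i) ∈ U (n i + w i + s)`, and `-L ≤ n i`, `n i + w i ≤ L`, `w i ≤ L` for `i ∈ S`. Then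
`∑_{i ∈ S} w i ≤ 2 L (finrank M' - finrank M + γ) + |s| finrank M + γ L`.

Proof. Call `i ∈ S` bad if `x i = y + κ` with `T κ = 0` and `y ∈ M`, `y = 0` or `ν y > n i`. The
`κ` of different bad `i` have the different valuations `n i`, so they are `F`-independent
(`ν = 0` on `F`), and there are at most `γ` bad `i`. Fix `m ∈ (-L, L]` and let `A` be the set of
good `i ∈ S` with `n i < m ≤ n i + w i`. The `T (x i)`, `i ∈ A`, lie in `M' ∩ U (m + s)` and are
`F`-independent modulo `T (M ∩ U m)`: if `∑ f_i T (x i) = T y`, `y ∈ M ∩ U m`, then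
`∑ f_i x i - y ∈ ker T`; take `i₀` with `f_{i₀} ≠ 0` and `n i₀` minimal: dividing by `f_{i₀}`
shows that `i₀` is bad. So
`card A ≤ finrank (M' ∩ U (m+s)) - finrank (T (M ∩ U m))
  ≤ finrank (M' ∩ U (m+s)) - finrank (M ∩ U m) + γ`, and
`finrank (M' ∩ U (m+s)) - finrank (M ∩ U (m+s)) ≤ finrank M' - finrank M`. Sum over the `2 L`
values of `m`; `∑_m (finrank (M ∩ U (m+s)) - finrank (M ∩ U m)) ≤ |s| finrank M` (telescoping;
`m ↦ finrank (M ∩ U m)` is decreasing with values in `[0, finrank M]`). The left side is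
`∑_{i good} w i`, since for each `i` there are exactly `w i` numbers `m` with
`n i < m ≤ n i + w i`, all in `(-L, L]`. -/
theorem DVal.count {ν : D → ℤ} (h : DVal k ν) {a : D} (ha : ∀ f ∈ gen k a, f ≠ 0 → ν f = 0)
    (M M' : Submodule (gen k a) D) (hMM : M ≤ M') [Module.Finite (gen k a) M]
    [Module.Finite (gen k a) M'] (T : D →ₗ[gen k a] D) (hTM : ∀ x ∈ M, T x ∈ M') (s : ℤ)
    (hTU : ∀ m, ∀ x ∈ h.U m, T x ∈ h.U (m + s)) (γ : ℕ)
    (hγ : ∀ (N : ℕ) (x : Fin N → D), LinearIndependent (gen k a) x → (∀ i, T (x i) = 0) → N ≤ γ)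
    (S : Finset ℕ) (x : ℕ → D) (w : ℕ → ℕ) (L : ℕ)
    (hx : ∀ i ∈ S, x i ∈ M ∧ x i ≠ 0 ∧ T (x i) ∈ h.U (ν (x i) + w i + s) ∧
      -(L : ℤ) ≤ ν (x i) ∧ ν (x i) + w i ≤ L ∧ w i ≤ L)
    (hinj : ∀ i ∈ S, ∀ j ∈ S, ν (x i) = ν (x j) → i = j) :
    ∑ i ∈ S, w i ≤ 2 * L * (finrank (gen k a) M' - finrank (gen k a) M + γ) +
      s.natAbs * finrank (gen k a) M + γ * L := by
  refine V2b_abs T γ s hγ M M' hMM hTM (fun m => h.UF ha m) ?_ hTU S x (fun i => ν (x i)) w L ?_
    hinj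
  · intro i j hij y hy
    rcases hy with hy | hy
    · exact Or.inl hy
    · exact Or.inr (hij.trans hy)
  · intro i hi
    obtain ⟨h1, h2, h3, h4, h5, h6⟩ := hx i hi
    refine ⟨h1, Or.inr le_rfl, ?_, h3, h4, h5, h6⟩
    rintro (hc | hc)
    · exact h2 hc
    · omega

end Pool.Agent.BQG
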