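import Pool.Agent.H.MP_fbbc72_al.h23.V2
import Pool.Agent.H.MP_fbbc72_al.h23.V2b
import Pool.Agent.H.MP_fbbc72_al.h41.Core14

set_option autoImplicit false

namespace Pool.Agent.BQG

open Module Polynomial

universe u v

variable {k : Type v} {D : Type u} [Field k] [DivisionRing D] [Algebra k D]

/-- The operator `T x = x r - a x u`, linear over the left action of `k(a)`. -/
def V2c_T (k : Type v) {D : Type u} [Field k] [DivisionRing D] [Algebra k D] (a r u : D) :
    D →ₗ[gen k a] D where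
  toFun x := x * r - a * x * u
  map_add' x y := by noncomm_ring
  map_smul' f x := by
    have h := gen_comm (k := k) f.2 (self_mem_gen (k := k) a)
    simp only [Subfield.smul_def, smul_eq_mul, RingHom.id_apply]
    rw [mul_sub, ← mul_assoc a, ← h]
    simp only [mul_assoc]

theorem V2c_T_apply (a r u x : D) : V2c_T k a r u x = x * r - a * x * u := rfl

/-- ranks of the spans -/
theorem V2c_rank {V : Submodule k D} {C : ℕ} (hV : Quad V C) {a : D} {B : ℕ}
    (hB : ∀ n N, 1 ≤ n → ∀ y : Fin N → D, LinearIndependent (gen k a) y →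
      (∀ j, y j ∈ V ^ n) → N ≤ B * n) {n : ℕ} (hn : 1 ≤ n) :
    finrank (gen k a) ↥(fspan a (V ^ n)) ≤ B * n := by
  obtain ⟨h1, h2⟩ := hV.span_rank hB hn
  have : Module.Finite (gen k a) ↥(fspan a (V ^ n)) := h1
  refine h2 _ (fun j => (Module.finBasis (gen k a) ↥(fspan a (V ^ n)) j : D)) ?_ ?_
  · exact (Module.finBasis (gen k a) ↥(fspan a (V ^ n))).linearIndependent.map'
      (fspan a (V ^ n)).subtype (Submodule.ker_subtype _)
  · intro j
    exact (Module.finBasis (gen k a) ↥(fspan a (V ^ n)) j).2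

theorem V2c_mono {V : Submodule k D} {C : ℕ} (hV : Quad V C) {a : D} {m n : ℕ} (hmn : m ≤ n) :
    fspan a (V ^ m) ≤ fspan a (V ^ n) :=
  Submodule.span_mono (hV.pow_mono hmn)

theorem V2c_map {V : Submodule k D} {a r u : D} {e : ℕ} (hr : r ∈ V ^ e)
    (hu : u ∈ V ^ e) (n : ℕ) (x : D) (hx : x ∈ fspan a (V ^ n)) :
    V2c_T k a r u x ∈ fspan a (V ^ (n + e)) := by
  refine Submodule.span_induction (p := fun z _ => V2c_T k a r u z ∈ fspan a (V ^ (n + e)))
    ?_ ?_ ?_ ?_ hx
  · intro y hy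
    have hy' : y ∈ V ^ n := hy
    rw [V2c_T_apply, mul_assoc]
    refine Submodule.sub_mem _ (Submodule.subset_span (Quad.mul_mem hy' hr)) ?_
    exact Submodule.smul_mem (fspan a (V ^ (n + e))) (⟨a, self_mem_gen (k := k) a⟩ : gen k a)
      (Submodule.subset_span (Quad.mul_mem hy' hu))
  · rw [map_zero]
    exact Submodule.zero_mem _
  · intro y z _ _ hy hz
    rw [map_add]
    exact Submodule.add_mem _ hy hz
  · intro f y _ hy
    rw [map_smul]
    exact Submodule.smul_mem _ _ hy

theorem V2c_pigeon (f : ℕ → ℕ) (_hf : Monotone f) (N K : ℕ) (hN : 1 ≤ N) (h : f N ≤ K * N) :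
    ∃ t < N, f (t + 1) - f t ≤ K := by
  by_contra hcon
  push Not at hcon
  have h1 : ∀ t, t ≤ N → (K + 1) * t ≤ f t := by
    intro t
    induction t with
    | zero => intro _; simp
    | succ t ih =>
      intro ht
      have h2 := ih (by omega)
      have h3 := hcon t (by omega)
      have h4 : (K + 1) * (t + 1) = (K + 1) * t + (K + 1) := by ring
      omega
  have h5 := h1 N le_rfl
  have h6 : (K + 1) * N = K * N + N := by ring
  omega

theorem V2c_nupow {ν : D → ℤ} (h : DVal k ν) {v : D} (hv0 : v ≠ 0) (i : ℕ) :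
    ν (v ^ i) = i * ν v := by
  induction i with
  | zero => rw [pow_zero, h.rules.1]; simp
  | succ i ih =>
    rw [pow_succ, h.mul _ _ (pow_ne_zero i hv0) hv0, ih]
    push_cast
    ring

/-- Theorem V (any field of characteristic `p`): `D` of quadratic growth, `ν` a valuation,
`ν = 0` on `k(a)`, `a` transcendental, and `v ∈ V^d` with `ν v ≠ 0` whose symbol is central. Then
`D` is finite-dimensional over its centre.

Suppose not. `a = r u⁻¹` with `r, u ∈ V^e` (`h.frac`). `F = k(a)`, `M n := fspan a (V^n)` or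
`Submodule.span (gen k a) (V^n)`; `finrank M n ≤ B (n+1)` by `Quad.linear` (an `F`-independent
family in the span of `V^n` can be exchanged for one in `V^n`, see `Filt.fspan_rank` in W3 or
`Quad.span_rank`). `T x := x r - a x u = (x a - a x) u`, left `F`-linear, `T (M n) ≤ M (n+e)`,
`T (U m) ≤ U (m + s)` with `s = ν u`; the kernel of `T` is the centralizer of `a`:
`γ` from `Quad.centBound` (exponent `1`). Let `N = p^J`. Among the `N` numbers
`n = d N + t e`, `t < N`, there is one with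
`finrank M (n+e) - finrank M n ≤ B (d + e + 1)`, as the sum over `t` telescopes to at most
`finrank M (d N + N e) ≤ B (d N + N e + 1)`. Apply `DVal.count` with this `n`,
`S = Finset.Icc 1 N`, `x i = v^i ∈ M n`, `w i = p^{v_p(i)} ≤ i`
(`DVal.comm_pow`, `ν a = 0`), `L = (|ν v| + 1) N`. The result is
`∑_{i ≤ p^J} p^{v_p(i)} ≤ K p^J` with `K` independent of `J`, contradicting `sum_pow_val` for
large `J`. -/
theorem Quad.valCentral {V : Submodule k D} {C : ℕ} (hV : Quad V C) {p : ℕ} (hp : p.Prime)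
    [CharP k p] {ν : D → ℤ} (h : DVal k ν) {a : D} (hat : Transcendental k a)
    (ha : ∀ f ∈ gen k a, f ≠ 0 → ν f = 0) {d : ℕ} {v : D} (hv : v ∈ V ^ d) (hv0 : v ≠ 0)
    (hνv : ν v ≠ 0) (hc : ∀ x : D, x ≠ 0 → v * x - x * v ∈ h.U (ν v + ν x + 1)) :
    FinCent D := by
  by_contra hD
  have ha0 : a ≠ 0 := by
    intro h0
    exact hat (by rw [h0]; exact isAlgebraic_zero)
  have hνa : ν a = 0 := ha a (self_mem_gen a) ha0
  obtain ⟨e, r, hr, u, hu, hu0, hau⟩ := hV.frac a
  have hr' : r = a * u := by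
    rw [hau, mul_assoc, inv_mul_cancel₀ hu0, mul_one]
  obtain ⟨B, hB⟩ := hV.linear hD hat
  obtain ⟨γ, hγ⟩ := hV.centBound hD hat
  have hT : ∀ x, V2c_T k a r u x = (x * a - a * x) * u := by
    intro x
    rw [V2c_T_apply, hr', sub_mul, mul_assoc x a u]
  have hTU : ∀ m, ∀ x ∈ h.U m, V2c_T k a r u x ∈ h.U (m + ν u) := by
    intro m x hx
    rw [hT]
    refine V2_mul h (Submodule.sub_mem _ ?_ ?_) (h.mem_U.2 (Or.inr le_rfl))
    · have h1 := V2_mul h hx (h.mem_U.2 (Or.inr le_rfl) : a ∈ h.U (ν a))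
      rwa [hνa, add_zero] at h1
    · have h1 := V2_mul h (h.mem_U.2 (Or.inr le_rfl) : a ∈ h.U (ν a)) hx
      rwa [hνa, zero_add] at h1
  have hker : ∀ (N : ℕ) (x : Fin N → D), LinearIndependent (gen k a) x →
      (∀ i, V2c_T k a r u (x i) = 0) → N ≤ γ := by
    intro N x hx hx0
    refine hγ 1 le_rfl N x hx fun i => ?_
    rw [pow_one, mem_cent]
    have h1 := hx0 i
    rw [hT] at h1
    exact sub_eq_zero.mp ((mul_eq_zero.mp h1).resolve_right hu0)
  obtain ⟨c, hc'⟩ : ∃ c : ℕ, c = d + 1 + e := ⟨_, rfl⟩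
  obtain ⟨g, hg⟩ : ∃ g : ℕ, g = (ν v).natAbs + 1 := ⟨_, rfl⟩
  obtain ⟨K, hK⟩ : ∃ K : ℕ, K = 2 * g * (B * c + γ) + (ν u).natAbs * (B * c) + γ * g := ⟨_, rfl⟩
  obtain ⟨J, hJ⟩ : ∃ J : ℕ, J = 2 * K + 1 := ⟨_, rfl⟩
  have hN1 : 1 ≤ p ^ J := Nat.one_le_pow _ _ hp.pos
  have hsum := sum_pow_val p J hp
  obtain ⟨N, hN⟩ : ∃ N : ℕ, N = p ^ J := ⟨_, rfl⟩
  rw [← hN] at hN1 hsum
  have hfin : ∀ n, Module.Finite (gen k a) ↥(fspan a (V ^ (n + 1))) := fun n =>
    (hV.span_rank hB (Nat.succ_le_succ (Nat.zero_le n))).1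
  -- choice of the index
  obtain ⟨t, htN, ht⟩ := V2c_pigeon (fun t => finrank (gen k a) ↥(fspan a (V ^ (d * N + t * e + 1))))
    (by
      intro i j hij
      have := hfin (d * N + j * e)
      refine Submodule.finrank_mono (V2c_mono hV ?_)
      have := Nat.mul_le_mul_right e hij
      omega) N (B * c) hN1 (by
      refine (V2c_rank hV hB (by omega)).trans ?_
      rw [mul_assoc]
      refine Nat.mul_le_mul_left B ?_
      rw [hc']
      nlinarith)
  have hnt : d * N + t * e + 1 ≤ c * N := by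
    rw [hc']
    have := Nat.mul_le_mul_right e htN.le
    nlinarith
  have hte : d * N + (t + 1) * e + 1 = d * N + t * e + 1 + e := by ring
  have := hfin (d * N + t * e)
  have := hfin (d * N + (t + 1) * e)
  have hcount := h.count ha (fspan a (V ^ (d * N + t * e + 1)))
    (fspan a (V ^ (d * N + (t + 1) * e + 1))) (V2c_mono hV (by omega)) (V2c_T k a r u)
    (by
      intro x hx
      rw [hte]
      exact V2c_map hr hu _ x hx) (ν u) hTU γ hker (Finset.Icc 1 N) (fun i => v ^ i)
    (fun i => p ^ padicValNat p i) (g * N) (by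
      intro i hi
      rw [Finset.mem_Icc] at hi
      have hw : p ^ padicValNat p i ≤ i := Nat.le_of_dvd (by omega) pow_padicValNat_dvd
      have hiN : (i : ℤ) ≤ N := by exact_mod_cast hi.2
      have hi0 : (0 : ℤ) ≤ i := Int.natCast_nonneg i
      have habs : |(i : ℤ) * ν v| ≤ N * |ν v| := by
        rw [abs_mul, abs_of_nonneg hi0]
        exact mul_le_mul_of_nonneg_right hiN (abs_nonneg _)
      have hgN : ((g * N : ℕ) : ℤ) = N * |ν v| + N := by
        rw [hg]
        push_cast
        ring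
      obtain ⟨hab1, hab2⟩ := abs_le.mp habs
      have hwZ : ((p ^ padicValNat p i : ℕ) : ℤ) ≤ N := by
        exact_mod_cast hw.trans hi.2
      refine ⟨?_, pow_ne_zero i hv0, ?_, ?_, ?_, ?_⟩
      · refine Submodule.subset_span ?_
        refine hV.pow_mono ?_ (Quad.pow_mem hv i)
        have := Nat.mul_le_mul_left d hi.2
        omega
      · rw [hT, V2c_nupow h hv0]
        have h1 := h.comm_pow hp ha0 hv0 hc i hi.1
        rw [hνa, add_zero] at h1
        exact V2_mul h h1 (h.mem_U.2 (Or.inr le_rfl))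
      · rw [V2c_nupow h hv0, hgN]
        have : (0 : ℤ) ≤ N := Int.natCast_nonneg N
        linarith
      · rw [V2c_nupow h hv0, hgN]
        linarith
      · refine (hw.trans hi.2).trans ?_
        rw [hg]
        nlinarith [Nat.zero_le ((ν v).natAbs * N)])
    (by
      intro i _ j _ hij
      rw [V2c_nupow h hv0, V2c_nupow h hv0] at hij
      exact_mod_cast mul_right_cancel₀ hνv hij)
  have hM := V2c_rank hV hB (n := d * N + t * e + 1) (by omega)
  have h1 : 2 * (g * N) * (finrank (gen k a) ↥(fspan a (V ^ (d * N + (t + 1) * e + 1))) -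
      finrank (gen k a) ↥(fspan a (V ^ (d * N + t * e + 1))) + γ) ≤
      2 * (g * N) * (B * c + γ) := Nat.mul_le_mul_left _ (Nat.add_le_add_right ht γ)
  have h2 : (ν u).natAbs * finrank (gen k a) ↥(fspan a (V ^ (d * N + t * e + 1))) ≤
      (ν u).natAbs * (B * (c * N)) :=
    Nat.mul_le_mul_left _ (hM.trans (Nat.mul_le_mul_left B hnt))
  have h3 : ∑ i ∈ Finset.Icc 1 N, p ^ padicValNat p i ≤ K * N := by
    refine hcount.trans ?_
    have h4 : K * N = 2 * (g * N) * (B * c + γ) + (ν u).natAbs * (B * (c * N)) +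
        γ * (g * N) := by rw [hK]; ring
    rw [h4]
    omega
  have h5 : J * N ≤ 2 * (K * N) := hsum.trans (Nat.mul_le_mul_left 2 h3)
  rw [hJ] at h5
  have h6 : (2 * K + 1) * N = 2 * (K * N) + N := by ring
  omega

end Pool.Agent.BQG
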