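import Pool.Agent.H.MP_fbbc72_al.h23.V1c
import Pool.Agent.H.MP_fbbc72_al.h41.Core17

set_option autoImplicit false

namespace Pool.Agent.BQG

open Module Polynomial MulOpposite

universe u v

variable {k : Type v} {D : Type u} [Field k] [DivisionRing D] [Algebra k D]
  {E : Type u} [DivisionRing E] [Algebra k E]

/-- homogeneous component of degree `j` of the graded ring inside `E` -/
def grj (U : ℤ → Submodule k D) (φ : ℤ → D →ₗ[k] E) (j : ℤ) : Submodule k E := (U j).map (φ j)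

/-- multiplication by scalars: `φ j (c x) = c φ j x` -/
theorem V3_alg {ν : D → ℤ} (h : DVal k ν) {φ : ℤ → D →ₗ[k] E} (hφ : ZSymb h.U φ) (c : k) :
    φ 0 (algebraMap k D c) = algebraMap k E c := by
  rw [Algebra.algebraMap_eq_smul_one, map_smul, hφ.one, Algebra.algebraMap_eq_smul_one]

/-- inverses of symbols: if `x ≠ 0`, `ν x = j`, then `φ j x ≠ 0` and
`φ (-j) x⁻¹ = (φ j x)⁻¹` (`mul`, `one`) -/
theorem ZSymb.inv {ν : D → ℤ} (h : DVal k ν) {φ : ℤ → D →ₗ[k] E} (hφ : ZSymb h.U φ) {x : D}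
    (hx : x ≠ 0) : φ (ν x) x ≠ 0 ∧ φ (-(ν x)) x⁻¹ = (φ (ν x) x)⁻¹ := by
  have hxU : x ∈ h.U (ν x) := Or.inr le_rfl
  have hxi : x⁻¹ ∈ h.U (-(ν x)) := Or.inr (h.rules.2.1 x hx).ge
  have h1 := hφ.mul (ν x) (-(ν x)) x hxU x⁻¹ hxi
  rw [add_neg_cancel, mul_inv_cancel₀ hx, hφ.one] at h1
  exact ⟨left_ne_zero_of_mul (h1 ▸ one_ne_zero), eq_inv_of_mul_eq_one_right h1.symm⟩

theorem V3_memU {ν : D → ℤ} (h : DVal k ν) {a : D} (ha : ∀ f ∈ gen k a, f ≠ 0 → ν f = 0) {f : D}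
    (hf : f ∈ gen k a) : f ∈ h.U 0 := by
  by_cases h0 : f = 0
  · exact Or.inl h0
  · exact Or.inr (ha f hf h0).ge

theorem V3_mul {ν : D → ℤ} (h : DVal k ν) {φ : ℤ → D →ₗ[k] E} (hφ : ZSymb h.U φ) {a : D}
    (ha : ∀ f ∈ gen k a, f ≠ 0 → ν f = 0) {f g : D} (hf : f ∈ gen k a) (hg : g ∈ gen k a) :
    φ 0 (f * g) = φ 0 f * φ 0 g := by
  have h1 := hφ.mul 0 0 f (V3_memU h ha hf) g (V3_memU h ha hg)
  rwa [add_zero] at h1

theorem V3_inv {ν : D → ℤ} (h : DVal k ν) {φ : ℤ → D →ₗ[k] E} (hφ : ZSymb h.U φ) {a : D}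
    (ha : ∀ f ∈ gen k a, f ≠ 0 → ν f = 0) {f : D} (hf : f ∈ gen k a) :
    φ 0 f⁻¹ = (φ 0 f)⁻¹ := by
  by_cases h0 : f = 0
  · rw [h0, inv_zero, map_zero, inv_zero]
  · have h1 := (hφ.inv h h0).2
    rwa [ha f hf h0, neg_zero] at h1

theorem V3_ne {ν : D → ℤ} (h : DVal k ν) {φ : ℤ → D →ₗ[k] E} (hφ : ZSymb h.U φ) {a : D}
    (ha : ∀ f ∈ gen k a, f ≠ 0 → ν f = 0) {f : D} (hf : f ∈ gen k a) (h0 : f ≠ 0) :
    φ 0 f ≠ 0 := by
  have h1 := (hφ.inv h h0).1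
  rwa [ha f hf h0] at h1

/-- `φ 0` maps `k(a)` onto `k(φ 0 a)`: on `F = gen k a ⊆ U 0` it is a ring homomorphism to `E`
(`mul`, linearity, `inv`), `φ 0 (algebraMap c) = algebraMap c`; its image is a subfield, namely
`gen k (φ 0 a)`. -/
theorem ZSymb.gen_eq {ν : D → ℤ} (h : DVal k ν) {φ : ℤ → D →ₗ[k] E} (hφ : ZSymb h.U φ) {a : D}
    (ha : ∀ f ∈ gen k a, f ≠ 0 → ν f = 0) (y : E) :
    y ∈ gen k (φ 0 a) ↔ ∃ f ∈ gen k a, y = φ 0 f := by
  constructor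
  · intro hy
    refine Subfield.closure_induction (p := fun y _ => ∃ f ∈ gen k a, y = φ 0 f)
      ?_ ?_ ?_ ?_ ?_ ?_ hy
    · rintro x (rfl | ⟨c, rfl⟩)
      · exact ⟨a, self_mem_gen a, rfl⟩
      · exact ⟨algebraMap k D c, algebraMap_mem_gen a c, (V3_alg h hφ c).symm⟩
    · exact ⟨1, one_mem _, hφ.one.symm⟩
    · rintro x y _ _ ⟨f, hf, rfl⟩ ⟨g, hg, rfl⟩
      exact ⟨f + g, add_mem hf hg, (map_add _ _ _).symm⟩
    · rintro x _ ⟨f, hf, rfl⟩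
      exact ⟨-f, neg_mem hf, (map_neg _ _).symm⟩
    · rintro x _ ⟨f, hf, rfl⟩
      exact ⟨f⁻¹, inv_mem hf, (V3_inv h hφ ha hf).symm⟩
    · rintro x y _ _ ⟨f, hf, rfl⟩ ⟨g, hg, rfl⟩
      exact ⟨f * g, mul_mem hf hg, (V3_mul h hφ ha hf hg).symm⟩
  · rintro ⟨f, hf, rfl⟩
    refine Subfield.closure_induction (p := fun f _ => φ 0 f ∈ gen k (φ 0 a))
      ?_ ?_ ?_ ?_ ?_ ?_ hf
    · rintro x (rfl | ⟨c, rfl⟩)
      · exact self_mem_gen _
      · rw [V3_alg h hφ c]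
        exact algebraMap_mem_gen _ c
    · rw [hφ.one]
      exact one_mem _
    · intro x y _ _ h1 h2
      rw [map_add]
      exact add_mem h1 h2
    · intro x _ h1
      rw [map_neg]
      exact neg_mem h1
    · intro x hx h1
      rw [V3_inv h hφ ha hx]
      exact inv_mem h1
    · intro x y hx hy h1 h2
      rw [V3_mul h hφ ha hx hy]
      exact mul_mem h1 h2

theorem V3_aeval {ν : D → ℤ} (h : DVal k ν) {φ : ℤ → D →ₗ[k] E} (hφ : ZSymb h.U φ) {a : D}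
    (ha : ∀ f ∈ gen k a, f ≠ 0 → ν f = 0) (P : k[X]) :
    φ 0 (aeval a P) = aeval (φ 0 a) P := by
  have hpow : ∀ n : ℕ, φ 0 (a ^ n) = (φ 0 a) ^ n := by
    intro n
    induction n with
    | zero => rw [pow_zero, pow_zero, hφ.one]
    | succ n ih =>
      rw [pow_succ, pow_succ, V3_mul h hφ ha (pow_mem (self_mem_gen a) n) (self_mem_gen a), ih]
  induction P using Polynomial.induction_on' with
  | add p q hp hq => rw [map_add, map_add, map_add, hp, hq]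
  | monomial n c =>
    rw [aeval_monomial, aeval_monomial, ← Algebra.smul_def, ← Algebra.smul_def, map_smul, hpow]

/-- `φ 0 a` is transcendental if `a` is: `aeval (φ 0 a) P = φ 0 (aeval a P)`, and `φ 0` is
injective on `gen k a`. -/
theorem ZSymb.transc {ν : D → ℤ} (h : DVal k ν) {φ : ℤ → D →ₗ[k] E} (hφ : ZSymb h.U φ) {a : D}
    (hat : Transcendental k a) (ha : ∀ f ∈ gen k a, f ≠ 0 → ν f = 0) :
    Transcendental k (φ 0 a) := by
  rintro ⟨P, hP, hP0⟩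
  rw [← V3_aeval h hφ ha] at hP0
  apply V3_ne h hφ ha (aeval_mem_gen a P) _ hP0
  intro h0
  exact hat ⟨P, hP, h0⟩

end Pool.Agent.BQG
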