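import Pool.Agent.H.MP_fbbc72_al.h23.V3

set_option autoImplicit false

namespace Pool.Agent.BQG

open Module Polynomial MulOpposite

universe u v

variable {k : Type v} {D : Type u} [Field k] [DivisionRing D] [Algebra k D]
  {E : Type u} [DivisionRing E] [Algebra k E]

theorem V3b_pow {ν : D → ℤ} (h : DVal k ν) {v : D} (hv : v ≠ 0) (l : ℕ) :
    ν (v ^ l) = l * ν v := by
  induction l with
  | zero => rw [pow_zero, h.rules.1]; simp
  | succ l ih =>
    rw [pow_succ, h.mul _ _ (pow_ne_zero _ hv) hv, ih]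
    push_cast
    ring

/-- nonzero elements with different valuations have a nonzero sum -/
theorem V3b_sum {ν : D → ℤ} (h : DVal k ν) {ι : Type*} (S : Finset ι) (hS : S.Nonempty)
    (z : ι → D) (hz : ∀ i ∈ S, z i ≠ 0) (hinj : ∀ i ∈ S, ∀ j ∈ S, ν (z i) = ν (z j) → i = j) :
    ∑ i ∈ S, z i ≠ 0 := by
  classical
  intro h0
  obtain ⟨i, hi, hmin⟩ := S.exists_min_image (fun i => ν (z i)) hS
  rw [← Finset.add_sum_erase _ _ hi] at h0
  have h1 : ∑ j ∈ S.erase i, z j ∈ h.U (ν (z i) + 1) := by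
    refine Submodule.sum_mem _ fun j hj => ?_
    have hj' := Finset.mem_of_mem_erase hj
    right
    have h2 : ν (z i) ≤ ν (z j) := hmin j hj'
    have h3 : ν (z i) ≠ ν (z j) := fun h3 => (Finset.ne_of_mem_erase hj) (hinj i hi j hj' h3).symm
    omega
  have h4 : z i ∈ h.U (ν (z i) + 1) := by
    have h5 : z i = -∑ j ∈ S.erase i, z j := eq_neg_of_add_eq_zero_left h0
    have h6 := Submodule.neg_mem _ h1
    rwa [← h5] at h6
  rcases h4 with h4 | h4
  · exact hz i hi h4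
  · omega

/-- lifts of independent symbols -/
theorem V3b_lift {ν : D → ℤ} (h : DVal k ν) {φ : ℤ → D →ₗ[k] E} (hφ : ZSymb h.U φ) {a : D}
    (ha : ∀ f ∈ gen k a, f ≠ 0 → ν f = 0) {j : ℤ} {N : ℕ} {x : Fin N → D}
    (hx : LinearIndependent (gen k (φ 0 a)) fun i => φ j (x i)) (hxU : ∀ i, x i ∈ h.U j)
    {f : Fin N → gen k a} (hf : ∃ i, f i ≠ 0) :
    ∑ i, (f i : D) * x i ≠ 0 ∧ ν (∑ i, (f i : D) * x i) = j := by
  have hfU : ∀ i, (f i : D) ∈ h.U 0 := fun i => by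
    by_cases h0 : (f i : D) = 0
    · exact Or.inl h0
    · exact Or.inr (ha _ (f i).2 h0).ge
  have hmem : ∀ i, (f i : D) * x i ∈ h.U j := fun i => by
    by_cases h0 : (f i : D) = 0
    · left
      rw [h0, zero_mul]
    rcases hxU i with h1 | h1
    · left
      rw [h1, mul_zero]
    by_cases h2 : x i = 0
    · left
      rw [h2, mul_zero]
    right
    rw [h.mul _ _ h0 h2, ha _ (f i).2 h0, zero_add]
    exact h1
  have hsU : ∑ i, (f i : D) * x i ∈ h.U j := Submodule.sum_mem _ fun i _ => hmem i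
  have hφs : φ j (∑ i, (f i : D) * x i) = ∑ i, φ 0 (f i : D) * φ j (x i) := by
    rw [map_sum]
    refine Finset.sum_congr rfl fun i _ => ?_
    have h1 := hφ.mul 0 j _ (hfU i) _ (hxU i)
    rwa [zero_add] at h1
  have hne : φ j (∑ i, (f i : D) * x i) ≠ 0 := by
    intro h0
    rw [hφs] at h0
    have hg : ∀ i, φ 0 (f i : D) ∈ gen k (φ 0 a) := fun i =>
      (ZSymb.gen_eq h hφ ha _).2 ⟨f i, (f i).2, rfl⟩
    obtain ⟨i, hi⟩ := hf
    have h1 := Fintype.linearIndependent_iff.1 hx (fun i => ⟨φ 0 (f i : D), hg i⟩)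
      (by simpa [Subfield.smul_def] using h0) i
    have h2 : φ 0 (f i : D) = 0 := congrArg Subtype.val h1
    have h3 := (hφ.ker 0 _ (hfU i)).1 h2
    have h4 : (f i : D) ≠ 0 := fun h4 => hi (Subtype.val_injective h4)
    rcases h3 with h3 | h3
    · exact h4 h3
    · rw [ha _ (f i).2 h4] at h3
      omega
  rw [Ne, hφ.ker j _ hsU] at hne
  have h1 : ∑ i, (f i : D) * x i ≠ 0 := fun h1 => hne (Or.inl h1)
  refine ⟨h1, ?_⟩
  have h2 := hsU.resolve_left h1
  have h3 : ¬ j + 1 ≤ ν (∑ i, (f i : D) * x i) := fun h3 => hne (Or.inr h3)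
  omega

/-- the products with powers of `v` are independent -/
theorem V3b_indep {ν : D → ℤ} (h : DVal k ν) {φ : ℤ → D →ₗ[k] E} (hφ : ZSymb h.U φ) {a : D}
    (ha : ∀ f ∈ gen k a, f ≠ 0 → ν f = 0) {j : ℤ} {N : ℕ} {x : Fin N → D}
    (hx : LinearIndependent (gen k (φ 0 a)) fun i => φ j (x i)) (hxU : ∀ i, x i ∈ h.U j)
    {u v : D} (hu : u ≠ 0) (hv : v ≠ 0) (hνv : ν v ≠ 0) (n : ℕ) :
    LinearIndependent (gen k a) fun p : Fin N × Fin (n + 1) => x p.1 * u * v ^ (p.2 : ℕ) := by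
  classical
  rw [Fintype.linearIndependent_iff]
  intro g hg p0
  by_contra hp0
  obtain ⟨S, hS⟩ : ∃ S : Finset (Fin (n + 1)), S = Finset.univ.filter fun l =>
    ∃ i, g (i, l) ≠ 0 := ⟨_, rfl⟩
  have hSmem : ∀ l, l ∈ S ↔ ∃ i, g (i, l) ≠ 0 := fun l => by rw [hS]; simp
  have hl : ∀ l ∈ S, ∑ i, (g (i, l) : D) * x i ≠ 0 ∧ ν (∑ i, (g (i, l) : D) * x i) = j :=
    fun l hlS => V3b_lift h hφ ha hx hxU (f := fun i => g (i, l)) ((hSmem l).1 hlS)
  have hz : ∀ l ∈ S, (∑ i, (g (i, l) : D) * x i) * (u * v ^ (l : ℕ)) ≠ 0 := fun l hlS =>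
    mul_ne_zero (hl l hlS).1 (mul_ne_zero hu (pow_ne_zero _ hv))
  have hνz : ∀ l ∈ S, ν ((∑ i, (g (i, l) : D) * x i) * (u * v ^ (l : ℕ))) =
      j + (ν u + (l : ℕ) * ν v) := fun l hlS => by
    rw [h.mul _ _ (hl l hlS).1 (mul_ne_zero hu (pow_ne_zero _ hv)), (hl l hlS).2,
      h.mul _ _ hu (pow_ne_zero _ hv), V3b_pow h hv]
  refine V3b_sum h S ⟨p0.2, (hSmem _).2 ⟨p0.1, hp0⟩⟩
    (fun l => (∑ i, (g (i, l) : D) * x i) * (u * v ^ (l : ℕ))) hz ?_ ?_
  · intro l hlS l' hl'S hll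
    rw [hνz l hlS, hνz l' hl'S] at hll
    have h1 : ((l : ℕ) : ℤ) * ν v = ((l' : ℕ) : ℤ) * ν v := by omega
    have h2 := mul_right_cancel₀ hνv h1
    exact Fin.ext (by exact_mod_cast h2)
  · have h1 : ∑ l, (∑ i, (g (i, l) : D) * x i) * (u * v ^ (l : ℕ)) = 0 := by
      rw [Fintype.sum_prod_type_right] at hg
      rw [← hg]
      refine Finset.sum_congr rfl fun l _ => ?_
      rw [Finset.sum_mul]
      refine Finset.sum_congr rfl fun i _ => ?_
      rw [Subfield.smul_def, smul_eq_mul]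
      simp only [mul_assoc]
    rw [← h1]
    refine Finset.sum_subset (Finset.subset_univ _) fun l _ hlS => ?_
    rw [hSmem] at hlS
    push Not at hlS
    simp [hlS]

/-- `k(φ 0 a)`-independent families in `grj j` have bounded size.

Let `e_i = φ j (x_i)`, `x_i ∈ U j`, `i < N`, be independent over `gen k (φ 0 a)` (so `x_i ≠ 0`,
`ν (x_i) = j`). CLAIM: for `f_i ∈ F = k(a)`, not all zero, `ν (∑ f_i x_i) = j`: indeed
`φ j (∑ f_i x_i) = ∑ φ 0 f_i * e_i ≠ 0`. Let `x_i u ∈ V^c`, `u ≠ 0` (`Quad.commonDen`), let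
`v ∈ V^d` with `v ≠ 0`, `ν v ≠ 0` (`D` consists of fractions and `ν` is not trivial).
The `x_i u v^l`, `i < N`, `l ≤ n`, are `F`-independent (the sums for different `l` have different
valuations) and lie in `V^(c + d n)`. So `N (n+1) ≤ B (c + d n)` with the `B` of `Quad.linear`
(take `c ≥ 1`); for large `n` this gives `N ≤ B d`. The bound `B d` does not depend on `j`. -/
theorem ZSymb.bound {V : Submodule k D} {C : ℕ} (hV : Quad V C) (hD : ¬ FinCent D)
    {ν : D → ℤ} (h : DVal k ν) (hnt : ∃ x : D, x ≠ 0 ∧ ν x ≠ 0) {φ : ℤ → D →ₗ[k] E}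
    (hφ : ZSymb h.U φ) {a : D}
    (hat : Transcendental k a) (ha : ∀ f ∈ gen k a, f ≠ 0 → ν f = 0) :
    ∃ δ : ℕ, ∀ (j : ℤ) (N : ℕ) (x : Fin N → E), LinearIndependent (gen k (φ 0 a)) x →
      (∀ i, x i ∈ grj h.U φ j) → N ≤ δ := by
  obtain ⟨B, hB⟩ := hV.linear hD hat
  -- an element of nonzero valuation in some power of `V`
  obtain ⟨d, v, hv, hv0, hνv⟩ : ∃ d, ∃ v ∈ V ^ d, v ≠ 0 ∧ ν v ≠ 0 := by
    obtain ⟨x, hx0, hνx⟩ := hnt
    obtain ⟨n, p, hp, q, hq, hq0, hpq⟩ := hV.frac x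
    have hp0 : p ≠ 0 := by
      rintro rfl
      rw [zero_mul] at hpq
      exact hx0 hpq
    by_cases h1 : ν p = 0
    · refine ⟨n, q, hq, hq0, fun h2 => hνx ?_⟩
      rw [hpq, h.mul _ _ hp0 (inv_ne_zero hq0), h.rules.2.1 q hq0, h1, h2]
      rfl
    · exact ⟨n, p, hp, hp0, h1⟩
  refine ⟨B * d, fun j N x hx hxj => ?_⟩
  choose x' hx' using hxj
  have hxeq : x = fun i => φ j (x' i) := funext fun i => (hx' i).2.symm
  rw [hxeq] at hx
  obtain ⟨m, u, hu0, hu, hxu⟩ := hV.commonDen N x'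
  have key : ∀ n : ℕ, N * (n + 1) ≤ B * (m + 1 + d * n) := by
    intro n
    have h1 := V3b_indep h hφ ha hx (fun i => (hx' i).1) hu0 hv0 hνv n
    have h2 := h1.comp (finProdFinEquiv.symm : Fin (N * (n + 1)) → Fin N × Fin (n + 1))
      finProdFinEquiv.symm.injective
    refine hB _ _ (by omega) _ h2 fun t => ?_
    have h3 : v ^ ((finProdFinEquiv.symm t).2 : ℕ) ∈ V ^ (d * n) := by
      refine hV.pow_mono (Nat.mul_le_mul_left d (Nat.lt_succ_iff.1 (finProdFinEquiv.symm t).2.2))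
        (Quad.pow_mem hv _)
    exact hV.pow_mono (by omega) (Quad.mul_mem (hxu (finProdFinEquiv.symm t).1) h3)
  by_contra hN
  have h1 : B * d + 1 ≤ N := by omega
  have h2 := key (B * (m + 1))
  have h3 : (B * d + 1) * (B * (m + 1) + 1) ≤ B * (m + 1 + d * (B * (m + 1))) :=
    (Nat.mul_le_mul_right _ h1).trans h2
  have h4 : B * (m + 1 + d * (B * (m + 1))) = B * (m + 1) + B * d * (B * (m + 1)) := by ring
  have h5 : (B * d + 1) * (B * (m + 1) + 1) =
      B * (m + 1) + B * d * (B * (m + 1)) + B * d + 1 := by ring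
  omega

end Pool.Agent.BQG
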