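import Pool.Agent.H.MP_fbbc72_al.h23.V3

set_option autoImplicit false

namespace Pool.Agent.BQG

open Module Polynomial MulOpposite

universe u v

variable {k : Type v} {D : Type u} [Field k] [DivisionRing D] [Algebra k D]
  {E : Type u} [DivisionRing E] [Algebra k E]

/-- opposite valuation and opposite symbol maps -/
theorem DVal.opp {ν : D → ℤ} (h : DVal k ν) : DVal k (fun x : Dᵐᵒᵖ => ν (unop x)) := by
  refine ⟨fun x y hx hy => ?_, fun x y hx hy hxy => ?_, fun c hc => ?_⟩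
  · show ν (unop (x * y)) = ν (unop x) + ν (unop y)
    rw [unop_mul, h.mul _ _ (fun h0 => hy (unop_injective (by rw [h0, unop_zero])))
      (fun h0 => hx (unop_injective (by rw [h0, unop_zero]))), add_comm]
  · show min (ν (unop x)) (ν (unop y)) ≤ ν (unop (x + y))
    rw [unop_add]
    refine h.add _ _ (fun h0 => hx (unop_injective (by rw [h0, unop_zero])))
      (fun h0 => hy (unop_injective (by rw [h0, unop_zero])))
      (fun h0 => hxy (unop_injective (by rw [unop_add, h0, unop_zero])))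
  · show ν (unop (algebraMap k Dᵐᵒᵖ c)) = 0
    rw [MulOpposite.algebraMap_apply, unop_op]
    exact h.triv c hc

/-- membership in the opposite filtration -/
theorem V3c_mem {ν : D → ℤ} (h : DVal k ν) (j : ℤ) (x : Dᵐᵒᵖ) :
    x ∈ h.opp.U j ↔ unop x ∈ h.U j := by
  rw [DVal.mem_U, DVal.mem_U]
  refine or_congr ⟨fun h0 => by rw [h0, unop_zero],
    fun h0 => unop_injective (by rw [h0, unop_zero])⟩ Iff.rfl

/-- the opposite symbol maps -/
noncomputable def V3c_map (φ : ℤ → D →ₗ[k] E) (j : ℤ) : Dᵐᵒᵖ →ₗ[k] Eᵐᵒᵖ :=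
  (opLinearEquiv k : E ≃ₗ[k] Eᵐᵒᵖ).toLinearMap ∘ₗ (φ j) ∘ₗ
    (opLinearEquiv k : D ≃ₗ[k] Dᵐᵒᵖ).symm.toLinearMap

theorem V3c_map_apply (φ : ℤ → D →ₗ[k] E) (j : ℤ) (x : Dᵐᵒᵖ) :
    V3c_map φ j x = op (φ j (unop x)) := rfl

theorem V3c_sup {ν : D → ℤ} (h : DVal k ν) (φ : ℤ → D →ₗ[k] E) {e : E}
    (he : e ∈ ⨆ j, grj h.U φ j) : op e ∈ ⨆ j, (h.opp.U j).map (V3c_map φ j) := by
  refine Submodule.iSup_induction (fun j => grj h.U φ j)
    (motive := fun e => op e ∈ ⨆ j, (h.opp.U j).map (V3c_map φ j)) he ?_ ?_ ?_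
  · rintro j x ⟨y, hy, rfl⟩
    refine Submodule.mem_iSup_of_mem j ⟨op y, ?_, rfl⟩
    exact (V3c_mem h j (op y)).2 hy
  · rw [op_zero]
    exact Submodule.zero_mem _
  · intro x y hx hy
    rw [op_add]
    exact Submodule.add_mem _ hx hy

/-- `x ↦ op (φ j (unop x))` -/
theorem ZSymb.opp {ν : D → ℤ} (h : DVal k ν) {φ : ℤ → D →ₗ[k] E} (hφ : ZSymb h.U φ)
    (hfr : ∀ e : E, ∃ u ∈ ⨆ j, grj h.U φ j, ∃ v ∈ ⨆ j, grj h.U φ j, v ≠ 0 ∧ v * e = u) :
    ∃ φ' : ℤ → Dᵐᵒᵖ →ₗ[k] Eᵐᵒᵖ, ZSymb h.opp.U φ' ∧ ∀ j x, φ' j (op x) = op (φ j x) := by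
  refine ⟨V3c_map φ, ⟨?_, ?_, ?_, ?_, ?_⟩, fun j x => rfl⟩
  · intro j x hx
    rw [V3c_map_apply, op_eq_zero_iff, V3c_mem]
    exact hφ.ker j _ ((V3c_mem h j x).1 hx)
  · rw [V3c_map_apply, unop_one, hφ.one, op_one]
  · intro i j x hx y hy
    rw [V3c_map_apply, V3c_map_apply, V3c_map_apply, unop_mul, ← op_mul, add_comm,
      hφ.mul j i _ ((V3c_mem h j y).1 hy) _ ((V3c_mem h i x).1 hx)]
  · intro s x hx hs j hj
    have h1 : ∑ j ∈ s, φ j (unop (x j)) = 0 := by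
      apply op_injective
      rw [Finset.op_sum, op_zero, ← hs]
      rfl
    have h2 := hφ.indep s (fun j => unop (x j)) (fun j => (V3c_mem h j (x j)).1 (hx j)) h1 j hj
    rw [V3c_map_apply]
    show op (φ j (unop (x j))) = 0
    rw [h2, op_zero]
  · intro e
    obtain ⟨u, hu, v, hv, hv0, huv⟩ := hfr (unop e)
    refine ⟨op u, V3c_sup h φ hu, op v, V3c_sup h φ hv, fun h0 => hv0 (op_injective h0), ?_⟩
    rw [← huv, op_mul, op_unop, ← op_inv, mul_assoc, ← op_mul, inv_mul_cancel₀ hv0, op_one,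
      mul_one]

end Pool.Agent.BQG
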