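import Pool.Agent.H.MP_fbbc72_al.h23.V3

set_option autoImplicit false

namespace Pool.Agent.BQG

open Module Polynomial MulOpposite

universe u v

variable {k : Type v} {D : Type u} [Field k] [DivisionRing D] [Algebra k D]
  {E : Type u} [DivisionRing E] [Algebra k E]

/-- the graded space of a subspace `A` -/
def grs (U : ℤ → Submodule k D) (φ : ℤ → D →ₗ[k] E) (A : Submodule k D) : Submodule k E :=
  ⨆ j, (A ⊓ U j).map (φ j)

theorem V4_le {ν : D → ℤ} (h : DVal k ν) {i j : ℤ} (hij : i ≤ j) : h.U j ≤ h.U i := by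
  intro x hx
  rw [h.mem_U] at hx ⊢
  rcases hx with hx | hx
  · exact Or.inl hx
  · exact Or.inr (hij.trans hx)

theorem V4_mul {ν : D → ℤ} (h : DVal k ν) {i j : ℤ} {x y : D} (hx : x ∈ h.U i) (hy : y ∈ h.U j) :
    x * y ∈ h.U (i + j) := by
  rw [h.mem_U] at hx hy ⊢
  by_cases hx0 : x = 0
  · exact Or.inl (by rw [hx0, zero_mul])
  by_cases hy0 : y = 0
  · exact Or.inl (by rw [hy0, mul_zero])
  right
  rw [h.mul x y hx0 hy0]
  exact add_le_add (hx.resolve_left hx0) (hy.resolve_left hy0)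

theorem V4_step {ν : D → ℤ} (h : DVal k ν) {φ : ℤ → D →ₗ[k] E} (hφ : ZSymb h.U φ)
    (A : Submodule k D) [FiniteDimensional k A] (j : ℤ) :
    finrank k ↥((A ⊓ h.U j).map (φ j)) + finrank k ↥(A ⊓ h.U (j + 1)) =
      finrank k ↥(A ⊓ h.U j) := by
  have : FiniteDimensional k ↥(A ⊓ h.U j) := Submodule.finiteDimensional_of_le inf_le_left
  have h1 := LinearMap.finrank_range_add_finrank_ker ((φ j).domRestrict (A ⊓ h.U j))
  rw [LinearMap.range_domRestrict] at h1
  have h2 : (LinearMap.ker ((φ j).domRestrict (A ⊓ h.U j))).map (A ⊓ h.U j).subtype =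
      A ⊓ h.U (j + 1) := by
    ext x
    constructor
    · rintro ⟨⟨y, hy⟩, hy2, rfl⟩
      exact ⟨hy.1, (hφ.ker j y hy.2).1 (LinearMap.mem_ker.1 hy2)⟩
    · rintro ⟨hx1, hx2⟩
      have hx3 : x ∈ h.U j := V4_le h (by omega) hx2
      exact ⟨⟨x, hx1, hx3⟩, LinearMap.mem_ker.2 ((hφ.ker j x hx3).2 hx2), rfl⟩
  have h3 : finrank k ↥(LinearMap.ker ((φ j).domRestrict (A ⊓ h.U j))) =
      finrank k ↥(A ⊓ h.U (j + 1)) := by
    rw [← h2]
    exact (LinearEquiv.finrank_eq (Submodule.equivMapOfInjective _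
      (Submodule.injective_subtype _) _))
  rw [← h3]
  exact h1

theorem V4_tele {ν : D → ℤ} (h : DVal k ν) {φ : ℤ → D →ₗ[k] E} (hφ : ZSymb h.U φ)
    (A : Submodule k D) [FiniteDimensional k A] (a : ℤ) (n : ℕ) :
    ∑ i ∈ Finset.range n, finrank k ↥((A ⊓ h.U (a + i)).map (φ (a + i))) +
      finrank k ↥(A ⊓ h.U (a + n)) = finrank k ↥(A ⊓ h.U a) := by
  induction n with
  | zero => rw [Finset.sum_range_zero, zero_add, Nat.cast_zero, add_zero]
  | succ n ih =>
    have h1 := V4_step h hφ A (a + n)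
    have h2 : a + ((n + 1 : ℕ) : ℤ) = a + n + 1 := by push_cast; ring
    rw [Finset.sum_range_succ, h2, add_assoc, h1, ih]

theorem V4_sum {ν : D → ℤ} (h : DVal k ν) {φ : ℤ → D →ₗ[k] E} (hφ : ZSymb h.U φ)
    (A : Submodule k D) [FiniteDimensional k A] (s : Finset ℤ) :
    ∑ j ∈ s, finrank k ↥((A ⊓ h.U j).map (φ j)) ≤ finrank k ↥A := by
  classical
  rcases s.eq_empty_or_nonempty with rfl | hs
  · simp
  · set a := s.min' hs with ha
    set b := s.max' hs with hb
    have hsub : s ⊆ (Finset.range ((b - a).toNat + 1)).image (fun i : ℕ => a + (i : ℤ)) := by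
      intro j hj
      have h1 : a ≤ j := s.min'_le j hj
      have h2 : j ≤ b := s.le_max' j hj
      rw [Finset.mem_image]
      refine ⟨(j - a).toNat, Finset.mem_range.2 (by omega), by omega⟩
    calc ∑ j ∈ s, finrank k ↥((A ⊓ h.U j).map (φ j))
        ≤ ∑ j ∈ (Finset.range ((b - a).toNat + 1)).image (fun i : ℕ => a + (i : ℤ)),
            finrank k ↥((A ⊓ h.U j).map (φ j)) := Finset.sum_le_sum_of_subset hsub
      _ = ∑ i ∈ Finset.range ((b - a).toNat + 1),
            finrank k ↥((A ⊓ h.U (a + i)).map (φ (a + i))) := by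
          rw [Finset.sum_image]
          intro x _ y _ hxy
          simpa using hxy
      _ ≤ finrank k ↥(A ⊓ h.U a) := by
          rw [← V4_tele h hφ A a ((b - a).toNat + 1)]
          exact Nat.le_add_right _ _
      _ ≤ finrank k ↥A := Submodule.finrank_mono inf_le_left

theorem V4_sup {ι : Type*} (f : ι → Submodule k E) (hf : ∀ i, (f i).FG) (s : Finset ι) :
    (s.sup f).FG ∧ finrank k ↥(s.sup f) ≤ ∑ i ∈ s, finrank k ↥(f i) := by
  classical
  induction s using Finset.induction_on with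
  | empty =>
    rw [Finset.sup_empty, Finset.sum_empty]
    exact ⟨Submodule.fg_bot, le_of_eq (finrank_bot k E)⟩
  | insert a s ha ih =>
    rw [Finset.sup_insert, Finset.sum_insert ha]
    refine ⟨(hf a).sup ih.1, ?_⟩
    have h1 : FiniteDimensional k ↥(f a) := Module.Finite.iff_fg.2 (hf a)
    have h2 : FiniteDimensional k ↥(s.sup f) := Module.Finite.iff_fg.2 ih.1
    exact (Submodule.finrank_add_le_finrank_add_finrank _ _).trans
      (Nat.add_le_add_left ih.2 _)

/-- `grs A` is finite-dimensional of dimension at most `finrank A`.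

`A ⊓ U j` is a decreasing family of subspaces of the finite-dimensional space `A`, equal to `⊥` for
large `j` (a finite-dimensional space: the valuations of nonzero elements of `A` take finitely many
values, since elements of different valuations are independent) and to `A` for small `j`.
`finrank ((A ⊓ U j).map (φ j)) = finrank (A ⊓ U j) - finrank (A ⊓ U (j+1))` by `ker`; only
finitely many of these are nonzero and they sum up to `finrank A`. -/
theorem ZSymb.grs_rank {ν : D → ℤ} (h : DVal k ν) {φ : ℤ → D →ₗ[k] E} (hφ : ZSymb h.U φ)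
    {A : Submodule k D} (hA : A.FG) :
    (grs h.U φ A).FG ∧ finrank k ↥(grs h.U φ A) ≤ finrank k ↥A := by
  classical
  have hfin : FiniteDimensional k ↥A := Module.Finite.iff_fg.2 hA
  have hfg : ∀ j, ((A ⊓ h.U j).map (φ j)).FG := by
    intro j
    have : FiniteDimensional k ↥(A ⊓ h.U j) := Submodule.finiteDimensional_of_le inf_le_left
    exact (Module.Finite.iff_fg.1 this).map _
  have hJ : {j | (A ⊓ h.U j).map (φ j) ≠ ⊥}.Finite := by
    by_contra hinf
    obtain ⟨s, hs, hcard⟩ := Set.Infinite.exists_subset_card_eq hinf (finrank k ↥A + 1)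
    have h1 := V4_sum h hφ A s
    have h2 : ∑ j ∈ s, 1 ≤ ∑ j ∈ s, finrank k ↥((A ⊓ h.U j).map (φ j)) := by
      refine Finset.sum_le_sum fun j hj => ?_
      have : FiniteDimensional k ↥((A ⊓ h.U j).map (φ j)) := Module.Finite.iff_fg.2 (hfg j)
      exact Submodule.one_le_finrank_iff.2 (hs hj)
    rw [Finset.sum_const, smul_eq_mul, mul_one, hcard] at h2
    omega
  have hgrs : grs h.U φ A = hJ.toFinset.sup (fun j => (A ⊓ h.U j).map (φ j)) := by
    refine le_antisymm (iSup_le fun j => ?_) (Finset.sup_le fun j _ => ?_)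
    · by_cases hj : (A ⊓ h.U j).map (φ j) = ⊥
      · rw [hj]
        exact bot_le
      · exact Finset.le_sup (f := fun j => (A ⊓ h.U j).map (φ j)) (hJ.mem_toFinset.2 hj)
    · exact le_iSup (fun j => (A ⊓ h.U j).map (φ j)) j
  rw [hgrs]
  obtain ⟨h1, h2⟩ := V4_sup (fun j => (A ⊓ h.U j).map (φ j)) hfg hJ.toFinset
  exact ⟨h1, h2.trans (V4_sum h hφ A _)⟩

/-- `grs A * grs B ≤ grs (A * B)` -/
theorem ZSymb.grs_mul {ν : D → ℤ} (h : DVal k ν) {φ : ℤ → D →ₗ[k] E} (hφ : ZSymb h.U φ)
    (A B : Submodule k D) : grs h.U φ A * grs h.U φ B ≤ grs h.U φ (A * B) := by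
  unfold grs
  rw [Submodule.iSup_mul]
  refine iSup_le fun i => ?_
  rw [Submodule.mul_iSup]
  refine iSup_le fun j => ?_
  rw [Submodule.mul_le]
  rintro _ ⟨x, ⟨hx1, hx2⟩, rfl⟩ _ ⟨y, ⟨hy1, hy2⟩, rfl⟩
  rw [← hφ.mul i j x hx2 y hy2]
  refine Submodule.mem_iSup_of_mem (i + j) ?_
  exact ⟨x * y, ⟨Submodule.mul_mem_mul hx1 hy1, V4_mul h hx2 hy2⟩, rfl⟩

end Pool.Agent.BQG
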