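import Pool.Agent.H.MP_fbbc72_al.h23.G2
import Pool.Agent.H.MP_fbbc72_al.h41.Core17

set_option autoImplicit false

namespace Pool.Agent.BQG

open Module Polynomial MulOpposite

universe u v

variable {k : Type v} {D : Type u} [Field k] [DivisionRing D] [Algebra k D]
  {E : Type u} [DivisionRing E] [Algebra k E]

omit [DivisionRing D] [Algebra k D] in
theorem V4b_mono {W : Submodule k E} (h1 : (1 : E) ∈ W) : Monotone fun n : ℕ => W ^ n := by
  refine monotone_nat_of_le_succ fun n => ?_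
  intro x hx
  have h2 : x * 1 ∈ W ^ n * W := Submodule.mul_mem_mul hx h1
  rwa [mul_one, ← pow_succ] at h2

omit [DivisionRing D] [Algebra k D] in
theorem V4b_mul {W : Submodule k E} {m n : ℕ} {x y : E} (hx : x ∈ W ^ m) (hy : y ∈ W ^ n) :
    x * y ∈ W ^ (m + n) := by
  rw [pow_add]
  exact Submodule.mul_mem_mul hx hy

/-- the union of the powers as a subalgebra -/
def V4b_alg (W : Submodule k E) (h1 : (1 : E) ∈ W) : Subalgebra k E where
  carrier := {x | ∃ n, x ∈ W ^ n}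
  mul_mem' := by
    rintro x y ⟨m, hm⟩ ⟨n, hn⟩
    exact ⟨m + n, V4b_mul hm hn⟩
  add_mem' := by
    rintro x y ⟨m, hm⟩ ⟨n, hn⟩
    exact ⟨m + n, Submodule.add_mem _ (V4b_mono h1 (Nat.le_add_right m n) hm)
      (V4b_mono h1 (Nat.le_add_left n m) hn)⟩
  algebraMap_mem' := by
    intro c
    refine ⟨1, ?_⟩
    rw [pow_one, Algebra.algebraMap_eq_smul_one]
    exact Submodule.smul_mem _ _ h1

theorem V4b_mem_alg (W : Submodule k E) (h1 : (1 : E) ∈ W) {x : E} :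
    x ∈ V4b_alg W h1 ↔ ∃ n, x ∈ W ^ n := Iff.rfl

/-- the right Ore condition for the union of the powers -/
theorem V4b_ore (W : Submodule k E) (hW : W.FG) (h1 : (1 : E) ∈ W) (C : ℕ)
    (hgr : ∀ n : ℕ, 1 ≤ n → finrank k ↥(W ^ n) ≤ C * n ^ 2) :
    ∀ x ∈ V4b_alg W h1, ∀ y ∈ V4b_alg W h1, y ≠ 0 →
      ∃ p ∈ V4b_alg W h1, ∃ q ∈ V4b_alg W h1, p ≠ 0 ∧ x * p = y * q := by
  set A := V4b_alg W h1 with hA
  have hfgW : ∀ n, (W ^ n).FG := fun n => hW.pow n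
  have hfinW : ∀ n, Module.Finite k ↥(W ^ n) := fun n => Module.Finite.iff_fg.mpr (hfgW n)
  have hinj : Function.Injective A.val.toLinearMap := Subtype.val_injective
  set W' : ℕ → Submodule k A := fun n => (W ^ n).comap A.val.toLinearMap with hW'
  have hmap : ∀ n, (W' n).map A.val.toLinearMap = W ^ n := by
    intro n
    rw [hW', Submodule.map_comap_eq, inf_eq_right]
    intro x hx
    exact ⟨⟨x, ⟨n, hx⟩⟩, rfl⟩
  have hfg : ∀ n, (W' n).FG := by
    intro n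
    refine Submodule.fg_of_fg_map_injective A.val.toLinearMap hinj ?_
    rw [hmap]
    exact hfgW n
  have hrank : ∀ n, finrank k ↥(W' n) = finrank k ↥(W ^ n) := by
    intro n
    rw [← hmap n]
    exact LinearEquiv.finrank_eq (Submodule.equivMapOfInjective A.val.toLinearMap hinj (W' n))
  have hgr' : ∀ n, finrank k ↥(W' n) ≤ C * (n + 1) ^ 2 := by
    intro n
    rw [hrank]
    have := hfinW (n + 1)
    exact (Submodule.finrank_mono (V4b_mono h1 (Nat.le_succ n))).trans (hgr (n + 1) (by omega))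
  have hone : (1 : A) ∈ W' 0 := by
    change (1 : E) ∈ W ^ 0
    rw [pow_zero]
    exact Submodule.one_le.mp le_rfl
  have hore := (ore_of_growth W' hfg (fun m n hmn x hx => V4b_mono h1 hmn hx) hone
    (fun m n x hx y hy => V4b_mul hx hy) (fun x => x.2) C hgr').2
  intro x hx y hy hy0
  obtain ⟨p, q, hp, hpq⟩ := hore ⟨x, hx⟩ ⟨y, hy⟩ (fun h => hy0 (congrArg Subtype.val h))
  exact ⟨p, p.2, q, q.2, fun h => hp (Subtype.ext h), congrArg Subtype.val hpq⟩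

/-- If `dim W^n ≤ C n^2`, `1 ∈ W`, then the fractions `u w⁻¹`, `u, w ∈ ⋃ W^n`, form a division
subring. (The Ore conditions follow from `ore_of_growth` of G2, applied to the subring
`⋃ W^n`, e.g. `Algebra.adjoin k W`, or directly to the filtration `n ↦ W^n` of that ring; or
imitate `Quad.leftOre` of h41/Core5. Right Ore: for `x, y`, `y ≠ 0` there are `p ≠ 0, q` with
`x p = y q`, so `y⁻¹ x = q p⁻¹`.) -/
theorem exists_fracField (W : Submodule k E) (hW : W.FG) (h1 : (1 : E) ∈ W) (C : ℕ)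
    (hgr : ∀ n : ℕ, 1 ≤ n → finrank k ↥(W ^ n) ≤ C * n ^ 2) :
    ∃ K : Subfield E, (∀ x : E, x ∈ K ↔ ∃ n : ℕ, ∃ u ∈ W ^ n, ∃ w ∈ W ^ n, w ≠ 0 ∧ x = u * w⁻¹) ∧
      (W : Set E) ⊆ K ∧ ∀ c : k, algebraMap k E c ∈ K := by
  have hore := V4b_ore W hW h1 C hgr
  set A := V4b_alg W h1 with hA
  let K : Subfield E :=
    { carrier := {x | ∃ u ∈ A, ∃ w ∈ A, w ≠ 0 ∧ x = u * w⁻¹}
      mul_mem' := by
        rintro x y ⟨u1, hu1, w1, hw1, hw10, rfl⟩ ⟨u2, hu2, w2, hw2, hw20, rfl⟩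
        obtain ⟨p, hp, q, hq, hp0, hpq⟩ := hore u2 hu2 w1 hw1 hw10
        refine ⟨u1 * q, A.mul_mem hu1 hq, w2 * p, A.mul_mem hw2 hp, mul_ne_zero hw20 hp0, ?_⟩
        have h2 : w1⁻¹ * u2 = q * p⁻¹ := by
          rw [eq_mul_inv_iff_mul_eq₀ hp0, mul_assoc, hpq, ← mul_assoc, inv_mul_cancel₀ hw10,
            one_mul]
        calc u1 * w1⁻¹ * (u2 * w2⁻¹) = u1 * (w1⁻¹ * u2) * w2⁻¹ := by simp only [mul_assoc]
          _ = u1 * q * (w2 * p)⁻¹ := by rw [h2, mul_inv_rev]; simp only [mul_assoc]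
      one_mem' := ⟨1, A.one_mem, 1, A.one_mem, one_ne_zero, by rw [inv_one, mul_one]⟩
      add_mem' := by
        rintro x y ⟨u1, hu1, w1, hw1, hw10, rfl⟩ ⟨u2, hu2, w2, hw2, hw20, rfl⟩
        obtain ⟨p, hp, q, hq, hp0, hpq⟩ := hore w1 hw1 w2 hw2 hw20
        have hwp : w1 * p ≠ 0 := mul_ne_zero hw10 hp0
        have hq0 : q ≠ 0 := by
          rintro rfl
          rw [mul_zero] at hpq
          exact hwp hpq
        refine ⟨u1 * p + u2 * q, A.add_mem (A.mul_mem hu1 hp) (A.mul_mem hu2 hq), w1 * p,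
          A.mul_mem hw1 hp, hwp, ?_⟩
        have h2 : u1 * p * (w1 * p)⁻¹ = u1 * w1⁻¹ := by
          rw [mul_inv_rev, mul_assoc, ← mul_assoc p, mul_inv_cancel₀ hp0, one_mul]
        have h3 : u2 * q * (w1 * p)⁻¹ = u2 * w2⁻¹ := by
          rw [hpq, mul_inv_rev, mul_assoc, ← mul_assoc q, mul_inv_cancel₀ hq0, one_mul]
        rw [add_mul, h2, h3]
      zero_mem' := ⟨0, A.zero_mem, 1, A.one_mem, one_ne_zero, by rw [zero_mul]⟩
      neg_mem' := by
        rintro x ⟨u, hu, w, hw, hw0, rfl⟩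
        exact ⟨-u, A.neg_mem hu, w, hw, hw0, by rw [neg_mul]⟩
      inv_mem' := by
        rintro x ⟨u, hu, w, hw, hw0, rfl⟩
        by_cases hu0 : u = 0
        · refine ⟨0, A.zero_mem, 1, A.one_mem, one_ne_zero, ?_⟩
          rw [hu0, zero_mul, inv_zero, zero_mul]
        · exact ⟨w, hw, u, hu, hu0, by rw [mul_inv_rev, inv_inv]⟩ }
  have hK : ∀ x : E, x ∈ K ↔ ∃ u ∈ A, ∃ w ∈ A, w ≠ 0 ∧ x = u * w⁻¹ := fun x => Iff.rfl
  refine ⟨K, ?_, ?_, ?_⟩
  · intro x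
    rw [hK]
    constructor
    · rintro ⟨u, ⟨m, hu⟩, w, ⟨n, hw⟩, hw0, hx⟩
      exact ⟨m + n, u, V4b_mono h1 (Nat.le_add_right m n) hu, w,
        V4b_mono h1 (Nat.le_add_left n m) hw, hw0, hx⟩
    · rintro ⟨n, u, hu, w, hw, hw0, hx⟩
      exact ⟨u, ⟨n, hu⟩, w, ⟨n, hw⟩, hw0, hx⟩
  · intro x hx
    have h2 : x ∈ A := ⟨1, by rw [pow_one]; exact hx⟩
    exact ⟨x, h2, 1, A.one_mem, one_ne_zero, by rw [inv_one, mul_one]⟩
  · intro c
    exact ⟨algebraMap k E c, A.algebraMap_mem c, 1, A.one_mem, one_ne_zero,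
      by rw [inv_one, mul_one]⟩

end Pool.Agent.BQG
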