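import Pool.Agent.H.MP_fbbc72_al.h23.V4
import Pool.Agent.H.MP_fbbc72_al.h23.V4b
import Pool.Agent.H.MP_fbbc72_al.h23.V3b

set_option autoImplicit false

namespace Pool.Agent.BQG

open Module Polynomial MulOpposite

universe u v

variable {k : Type v} {D : Type u} [Field k] [DivisionRing D] [Algebra k D]
  {E : Type u} [DivisionRing E] [Algebra k E]

theorem V4c_pow_le {ν : D → ℤ} (h : DVal k ν) {φ : ℤ → D →ₗ[k] E} (hφ : ZSymb h.U φ)
    (A : Submodule k D) (n : ℕ) : (grs h.U φ A) ^ (n + 1) ≤ grs h.U φ (A ^ (n + 1)) := by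
  induction n with
  | zero => simp
  | succ n ih =>
    rw [pow_succ (grs h.U φ A), pow_succ A (n + 1)]
    exact (mul_le_mul' ih le_rfl).trans (ZSymb.grs_mul h hφ _ _)

theorem V4c_mem_grs {U : ℤ → Submodule k D} {φ : ℤ → D →ₗ[k] E} {A : Submodule k D} {j : ℤ}
    {x : D} (hx : x ∈ A) (hxU : x ∈ U j) : φ j x ∈ grs U φ A :=
  Submodule.mem_iSup_of_mem j (Submodule.mem_map_of_mem ⟨hx, hxU⟩)

theorem V4c_self {ν : D → ℤ} (h : DVal k ν) (x : D) : x ∈ h.U (ν x) := Or.inr le_rfl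

theorem V4c_val {ν : D → ℤ} (h : DVal k ν) {φ : ℤ → D →ₗ[k] E} (hφ : ZSymb h.U φ) {j : ℤ} {x : D}
    (hx : x ∈ h.U j) (h0 : φ j x ≠ 0) : x ≠ 0 ∧ ν x = j := by
  have h1 : x ∉ h.U (j + 1) := fun h2 => h0 ((hφ.ker j x hx).2 h2)
  rw [h.mem_U] at h1 hx
  push Not at h1
  refine ⟨h1.1, ?_⟩
  have h3 := hx.resolve_left h1.1
  omega

/-- symbols of fractions lie in the field of fractions -/
theorem V4c_good {ν : D → ℤ} (h : DVal k ν) {φ : ℤ → D →ₗ[k] E} (hφ : ZSymb h.U φ)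
    {A : Submodule k D} {K : Subfield E} (hK : ((grs h.U φ A : Submodule k E) : Set E) ⊆ K)
    {x u : D} (hu0 : u ≠ 0) (hu : u ∈ A) (hxu : x * u ∈ A) : φ (ν x) x ∈ K := by
  by_cases hx : x = 0
  · rw [hx, map_zero]; exact K.zero_mem
  have h1 : φ (ν u) u ≠ 0 := (hφ.inv h hu0).1
  have h2 : φ (ν x + ν u) (x * u) = φ (ν x) x * φ (ν u) u :=
    hφ.mul _ _ x (V4c_self h x) u (V4c_self h u)
  have h3 : φ (ν x + ν u) (x * u) ∈ K := by
    apply hK
    refine V4c_mem_grs hxu ?_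
    rw [← h.mul x u hx hu0]
    exact V4c_self h _
  have h4 : φ (ν u) u ∈ K := hK (V4c_mem_grs hu (V4c_self h u))
  have h5 : φ (ν x) x = φ (ν x + ν u) (x * u) * (φ (ν u) u)⁻¹ := by
    rw [h2, mul_assoc, mul_inv_cancel₀ h1, mul_one]
  rw [h5]
  exact K.mul_mem h3 (K.inv_mem h4)

/-- a smallest positive value -/
theorem V4c_min {ν : D → ℤ} (h : DVal k ν) (hnt : ∃ x : D, x ≠ 0 ∧ ν x ≠ 0) :
    ∃ z : D, z ≠ 0 ∧ 0 < ν z ∧ ∀ x : D, x ≠ 0 → ∃ q : ℤ, ν x = q * ν z := by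
  classical
  have hex : ∃ n : ℕ, 0 < n ∧ ∃ x : D, x ≠ 0 ∧ ν x = n := by
    obtain ⟨x, hx, hne⟩ := hnt
    rcases lt_or_gt_of_ne hne with h1 | h1
    · refine ⟨(-(ν x)).toNat, by omega, x⁻¹, inv_ne_zero hx, ?_⟩
      rw [h.rules.2.1 x hx]; omega
    · exact ⟨(ν x).toNat, by omega, x, hx, by omega⟩
  obtain ⟨hpos, z, hz, hzν⟩ := Nat.find_spec hex
  have hmin : ∀ x : D, x ≠ 0 → 0 < ν x → ν z ≤ ν x := by
    intro x hx hx0
    have := Nat.find_min' hex ⟨by omega, x, hx, (Int.toNat_of_nonneg hx0.le).symm⟩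
    rw [hzν]
    omega
  have hzpow : ∀ n : ℕ, ν (z ^ n) = n * ν z := by
    intro n
    induction n with
    | zero => simp [h.rules.1]
    | succ n ih =>
      rw [pow_succ, h.mul _ _ (pow_ne_zero n hz) hz, ih]; push_cast; ring
  have hzz : ∀ q : ℤ, ν (z ^ q) = q * ν z := by
    intro q
    obtain ⟨n, rfl | rfl⟩ := q.eq_nat_or_neg
    · rw [zpow_natCast, hzpow]
    · rw [zpow_neg, zpow_natCast, h.rules.2.1 _ (pow_ne_zero n hz), hzpow]; ring
  have hz0 : 0 < ν z := by rw [hzν]; exact_mod_cast hpos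
  refine ⟨z, hz, hz0, fun x hx => ⟨ν x / ν z, ?_⟩⟩
  have h1 : ν (x * z ^ (-(ν x / ν z))) = ν x % ν z := by
    rw [h.mul _ _ hx (zpow_ne_zero _ hz), hzz]
    have := Int.mul_ediv_add_emod (ν x) (ν z)
    linarith [mul_comm (ν z) (ν x / ν z)]
  have h2 := Int.emod_nonneg (ν x) hz0.ne'
  have h3 := Int.emod_lt_of_pos (ν x) hz0
  have h4 : ν x % ν z = 0 := by
    by_contra hne
    have h5 := hmin (x * z ^ (-(ν x / ν z))) (mul_ne_zero hx (zpow_ne_zero _ hz)) (by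
      rw [h1]; omega)
    rw [h1] at h5
    omega
  have := Int.mul_ediv_add_emod (ν x) (ν z)
  linarith [mul_comm (ν z) (ν x / ν z)]

theorem V4c_zpow {ν : D → ℤ} (h : DVal k ν) {φ : ℤ → D →ₗ[k] E} (hφ : ZSymb h.U φ)
    {K : Subfield E} {z : D} (hz : z ≠ 0) (hK : φ (ν z) z ∈ K) (q : ℤ) :
    φ (q * ν z) (z ^ q) ∈ K ∧ ν (z ^ q) = q * ν z := by
  have hnat : ∀ n : ℕ, φ (n * ν z) (z ^ n) ∈ K ∧ ν (z ^ n) = n * ν z := by
    intro n
    induction n with
    | zero =>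
      simp only [Nat.cast_zero, zero_mul, pow_zero]
      rw [hφ.one]
      exact ⟨K.one_mem, h.rules.1⟩
    | succ n ih =>
      have h1 : ν (z ^ (n + 1)) = (n + 1 : ℕ) * ν z := by
        rw [pow_succ, h.mul _ _ (pow_ne_zero n hz) hz, ih.2]; push_cast; ring
      refine ⟨?_, h1⟩
      have h2 := hφ.mul (n * ν z) (ν z) (z ^ n) (by rw [← ih.2]; exact V4c_self h _) z
        (V4c_self h z)
      have h3 : ((n + 1 : ℕ) : ℤ) * ν z = n * ν z + ν z := by push_cast; ring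
      rw [h3, pow_succ, h2]
      exact K.mul_mem ih.1 hK
  obtain ⟨n, rfl | rfl⟩ := q.eq_nat_or_neg
  · rw [zpow_natCast]; exact hnat n
  · rw [zpow_neg, zpow_natCast]
    have h1 := (hφ.inv h (pow_ne_zero n hz)).2
    have h2 : ν ((z ^ n)⁻¹) = -(n : ℤ) * ν z := by
      rw [h.rules.2.1 _ (pow_ne_zero n hz), (hnat n).2]; ring
    refine ⟨?_, h2⟩
    rw [(hnat n).2] at h1
    rw [show -(n : ℤ) * ν z = -(n * ν z) by ring, h1]
    exact K.inv_mem (hnat n).1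

/-- a maximal independent family in a bounded submodule spans -/
theorem V4c_maxFamily {F M : Type*} [DivisionRing F] [AddCommGroup M] [Module F M] (S : Set M)
    {δ : ℕ} (hb : ∀ (N : ℕ) (x : Fin N → M), LinearIndependent F x → (∀ i, x i ∈ S) → N ≤ δ) :
    ∃ (N : ℕ) (x : Fin N → M), (∀ i, x i ∈ S) ∧ ∀ y ∈ S, y ∈ Submodule.span F (Set.range x) := by
  classical
  let P : ℕ → Prop := fun N => ∃ x : Fin N → M, LinearIndependent F x ∧ ∀ i, x i ∈ S
  have hP0 : P 0 := ⟨fun i => i.elim0, linearIndependent_empty_type, fun i => i.elim0⟩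
  have hle : ∀ N, P N → N ≤ δ := by
    rintro N ⟨x, hx, hxS⟩; exact hb N x hx hxS
  have hspec := Nat.findGreatest_spec (P := P) (Nat.zero_le δ) hP0
  obtain ⟨x, hx, hxS⟩ := hspec
  refine ⟨_, x, hxS, fun y hy => ?_⟩
  by_contra hcon
  have h1 : P (Nat.findGreatest P δ + 1) := by
    refine ⟨Fin.snoc x y, ?_, ?_⟩
    · exact linearIndependent_finSnoc.2 ⟨hx, hcon⟩
    · intro i
      refine Fin.lastCases ?_ (fun j => ?_) i
      · simpa using hy
      · simpa using hxS j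
  have h2 := Nat.le_findGreatest (hle _ h1) h1
  omega

/-- THE ASSOCIATED GRADED RING HAS QUADRATIC GROWTH. `E` satisfies `Quad` for `W = grs (V^c)`, `c`
large.

`W^n ≤ grs (V^(c n))` (`grs_mul`), so `finrank (W^n) ≤ C (c n)^2`. `1 ∈ W`. Let `K` be the field of
fractions of `exists_fracField`. For every `x ≠ 0` in `D`, `x = r u⁻¹` with `r, u ∈ V^c`, one has
`φ (ν x) x = φ (ν r) r * (φ (ν u) u)⁻¹ ∈ K`. Choose `c` such that this holds for `x = a`, for
`x = z`, where `ν z = g > 0` is the smallest positive value of `ν`, and for `x = x_i`, where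
`φ 0 x_i` is a maximal `gen k (φ 0 a)`-independent family in `grj 0` (finite by
`ZSymb.bound`). Then `gen k (φ 0 a) ⊆ K`, so `grj 0 ⊆ K`; `ν` takes values in `g ℤ`, so
`grj j = grj 0 * (φ g z)^(j/g)` (or `⊥` if `g` does not divide `j`) is contained in `K` for all `j`,
and by `hφ.frac` `K = E`. -/
theorem ZSymb.quad {V : Submodule k D} {C : ℕ} (hV : Quad V C) (hD : ¬ FinCent D)
    {ν : D → ℤ} (h : DVal k ν) (hnt : ∃ x : D, x ≠ 0 ∧ ν x ≠ 0) {φ : ℤ → D →ₗ[k] E}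
    (hφ : ZSymb h.U φ) {a : D}
    (hat : Transcendental k a) (ha : ∀ f ∈ gen k a, f ≠ 0 → ν f = 0) :
    ∃ c C' : ℕ, Quad (grs h.U φ (V ^ c)) C' := by
  classical
  obtain ⟨δ, hδ⟩ := ZSymb.bound hV hD h hnt hφ hat ha
  obtain ⟨N, e, heS, hspan⟩ := V4c_maxFamily (F := gen k (φ 0 a)) (M := E)
    ((grj h.U φ 0 : Submodule k E) : Set E) (δ := δ) (fun N x hx hxS => hδ 0 N x hx hxS)
  obtain ⟨z, hz, hz0, hzq⟩ := V4c_min h hnt
  have hex : ∀ i, ∃ x ∈ h.U 0, φ 0 x = e i := fun i => Submodule.mem_map.1 (heS i)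
  choose xs hxU hxe using hex
  obtain ⟨m, v, hv0, hv, hden⟩ := hV.commonDen (N + 2)
    (Fin.cons a (Fin.cons z xs) : Fin (N + 2) → D)
  set c : ℕ := max m 1 with hc
  have hc1 : 1 ≤ c := le_max_right _ _
  have hmc : V ^ m ≤ V ^ c := hV.pow_mono (le_max_left _ _)
  have hva : a * v ∈ V ^ c := by
    have := hden 0
    exact hmc (by simpa using this)
  have hvz : z * v ∈ V ^ c := by
    have := hden 1
    exact hmc (by simpa using this)
  have hvx : ∀ i, xs i * v ∈ V ^ c := by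
    intro i
    have := hden i.succ.succ
    exact hmc (by simpa using this)
  have hvc : v ∈ V ^ c := hmc hv
  have hWfg : (grs h.U φ (V ^ c)).FG := (ZSymb.grs_rank h hφ (hV.fg.pow c)).1
  have h1W : (1 : E) ∈ grs h.U φ (V ^ c) := by
    rw [← hφ.one]
    refine V4c_mem_grs (hV.one_mem_pow c) (Or.inr ?_)
    rw [h.rules.1]
  have hgr : ∀ n : ℕ, 1 ≤ n →
      finrank k ↥((grs h.U φ (V ^ c)) ^ n) ≤ (C * c ^ 2) * n ^ 2 := by
    intro n hn
    obtain ⟨n', rfl⟩ : ∃ n', n = n' + 1 := ⟨n - 1, by omega⟩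
    have h1 := V4c_pow_le h hφ (V ^ c) n'
    have h2 := ZSymb.grs_rank h hφ ((hV.fg.pow c).pow (n' + 1))
    have h3 : Module.Finite k ↥(grs h.U φ ((V ^ c) ^ (n' + 1))) :=
      Module.Finite.iff_fg.mpr h2.1
    have h4 := Submodule.finrank_mono h1
    refine (h4.trans h2.2).trans ?_
    rw [← pow_mul]
    have h5 := hV.growth (c * (n' + 1)) (by
      have := Nat.mul_le_mul hc1 hn
      omega)
    calc finrank k ↥(V ^ (c * (n' + 1))) ≤ C * (c * (n' + 1)) ^ 2 := h5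
      _ = C * c ^ 2 * (n' + 1) ^ 2 := by ring
  obtain ⟨K, hK, hWK, hkK⟩ := exists_fracField _ hWfg h1W _ hgr
  -- the symbols of `a`, `z` and of the `xs i`
  have haU : a ∈ h.U 0 := by
    by_cases ha0 : a = 0
    · exact Or.inl ha0
    · right
      rw [ha a (Subfield.subset_closure (Set.mem_insert _ _)) ha0]
  have haK : φ 0 a ∈ K := by
    by_cases ha0 : φ 0 a = 0
    · rw [ha0]; exact K.zero_mem
    obtain ⟨-, h2⟩ := V4c_val h hφ haU ha0
    have := V4c_good h hφ hWK hv0 hvc hva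
    rwa [h2] at this
  have hzK : φ (ν z) z ∈ K := V4c_good h hφ hWK hv0 hvc hvz
  have heK : ∀ i, e i ∈ K := by
    intro i
    by_cases h0 : e i = 0
    · rw [h0]; exact K.zero_mem
    rw [← hxe i] at h0 ⊢
    obtain ⟨-, h2⟩ := V4c_val h hφ (hxU i) h0
    have := V4c_good h hφ hWK hv0 hvc (hvx i)
    rwa [h2] at this
  have hgen : gen k (φ 0 a) ≤ K := by
    refine Subfield.closure_le.2 ?_
    rintro y (rfl | ⟨c, rfl⟩)
    · exact haK
    · exact hkK c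
  have hgr0 : ∀ y ∈ grj h.U φ 0, y ∈ K := by
    intro y hy
    have h1 := hspan y hy
    refine Submodule.span_induction (p := fun y _ => y ∈ K) ?_ K.zero_mem
      (fun x y _ _ hx hy => K.add_mem hx hy) ?_ h1
    · rintro _ ⟨i, rfl⟩; exact heK i
    · intro f x _ hx
      exact K.mul_mem (hgen f.2) hx
  have hall : ∀ x : D, x ≠ 0 → φ (ν x) x ∈ K := by
    intro x hx
    obtain ⟨q, hq⟩ := hzq x hx
    have hzq1 := V4c_zpow h hφ hz hzK q
    have hzq0 : z ^ q ≠ 0 := zpow_ne_zero q hz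
    have hy : ν (x * (z ^ q)⁻¹) = 0 := by
      rw [h.mul _ _ hx (inv_ne_zero hzq0), h.rules.2.1 _ hzq0, hzq1.2, hq]; ring
    have hy2 : x * (z ^ q)⁻¹ ∈ h.U 0 := Or.inr hy.ge
    have h2 := hφ.mul 0 (q * ν z) (x * (z ^ q)⁻¹) hy2 (z ^ q) (by
      rw [← hzq1.2]; exact V4c_self h _)
    rw [inv_mul_cancel_right₀ hzq0, zero_add, ← hq] at h2
    rw [h2]
    refine K.mul_mem (hgr0 _ (Submodule.mem_map_of_mem hy2)) ?_
    rw [hq]; exact hzq1.1
  let KS : Submodule k E :=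
    { carrier := K
      add_mem' := fun ha hb => K.add_mem ha hb
      zero_mem' := K.zero_mem
      smul_mem' := fun c x hx => by
        rw [Algebra.smul_def]; exact K.mul_mem (hkK c) hx }
  have hsup : (⨆ j, (h.U j).map (φ j)) ≤ KS := by
    refine iSup_le fun j => ?_
    rw [Submodule.map_le_iff_le_comap]
    intro x hx
    change φ j x ∈ K
    by_cases h0 : φ j x = 0
    · rw [h0]; exact K.zero_mem
    obtain ⟨hx0, hxj⟩ := V4c_val h hφ hx h0
    rw [← hxj]; exact hall x hx0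
  refine ⟨c, C * c ^ 2, hWfg, h1W, hgr, fun d => ?_⟩
  obtain ⟨u, hu, w, hw, -, hd⟩ := hφ.frac d
  have hdK : d ∈ K := by
    rw [hd]; exact K.mul_mem (hsup hu) (K.inv_mem (hsup hw))
  exact (hK d).1 hdK

end Pool.Agent.BQG
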