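import Pool.Agent.H.MP_fbbc72_al.h23.V4c
import Pool.Agent.H.MP_fbbc72_al.h23.V3c
import Pool.Agent.H.MP_fbbc72_al.h23.T4

set_option autoImplicit false

namespace Pool.Agent.BQG

open Module Polynomial MulOpposite

universe u v

variable {k : Type v} {D : Type u} [Field k] [DivisionRing D] [Algebra k D]
  {E : Type u} [DivisionRing E] [Algebra k E]

theorem V4d_mulU {ν : D → ℤ} (h : DVal k ν) {i j : ℤ} {x y : D} (hx : x ∈ h.U i)
    (hy : y ∈ h.U j) : x * y ∈ h.U (i + j) := by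
  rcases hx with hx | hx
  · left
    rw [hx, zero_mul]
  rcases hy with hy | hy
  · left
    rw [hy, mul_zero]
  by_cases hx0 : x = 0
  · left
    rw [hx0, zero_mul]
  by_cases hy0 : y = 0
  · left
    rw [hy0, mul_zero]
  right
  rw [h.mul x y hx0 hy0]
  omega

theorem V4d_oneU {ν : D → ℤ} (h : DVal k ν) : (1 : D) ∈ h.U 0 := by
  right
  rw [h.rules.1]

theorem V4d_genU {ν : D → ℤ} (h : DVal k ν) {a : D} (ha : ∀ f ∈ gen k a, f ≠ 0 → ν f = 0)
    {f : D} (hf : f ∈ gen k a) : f ∈ h.U 0 := by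
  by_cases h0 : f = 0
  · exact Or.inl h0
  · exact Or.inr (ha f hf h0).ge

theorem V4d_left {ν : D → ℤ} (h : DVal k ν) {φ : ℤ → D →ₗ[k] E} (hφ : ZSymb h.U φ) {a : D}
    (ha : ∀ f ∈ gen k a, f ≠ 0 → ν f = 0) (j : ℤ) :
    ∀ f ∈ gen k (φ 0 a), ∀ x ∈ grj h.U φ j, f * x ∈ grj h.U φ j := by
  intro f hf x hx
  obtain ⟨f', hf', rfl⟩ := (ZSymb.gen_eq h hφ ha f).1 hf
  obtain ⟨y, hy, rfl⟩ := hx
  have hU := V4d_genU h ha hf'
  have h1 := V4d_mulU h hU hy
  have h2 := hφ.mul 0 j f' hU y hy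
  rw [zero_add] at h1 h2
  exact ⟨f' * y, h1, h2⟩

theorem V4d_right {ν : D → ℤ} (h : DVal k ν) {φ : ℤ → D →ₗ[k] E} (hφ : ZSymb h.U φ) {a : D}
    (ha : ∀ f ∈ gen k a, f ≠ 0 → ν f = 0) (j : ℤ) :
    ∀ f ∈ gen k (φ 0 a), ∀ x ∈ grj h.U φ j, x * f ∈ grj h.U φ j := by
  intro f hf x hx
  obtain ⟨f', hf', rfl⟩ := (ZSymb.gen_eq h hφ ha f).1 hf
  obtain ⟨y, hy, rfl⟩ := hx
  have hU := V4d_genU h ha hf'
  have h1 := V4d_mulU h hy hU
  have h2 := hφ.mul j 0 y hy f' hU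
  rw [add_zero] at h1 h2
  exact ⟨y * f', h1, h2⟩

theorem V4d_bound {F : Subfield E} (hF : ∀ c : k, algebraMap k E c ∈ F)
    (W : ℕ → Submodule k E) (hst : ∀ j, ∀ f ∈ F, ∀ x ∈ W j, f * x ∈ W j) {δ : ℕ}
    (hδ : ∀ (j N : ℕ) (x : Fin N → E), LinearIndependent F x → (∀ i, x i ∈ W j) → N ≤ δ)
    (n N : ℕ) (x : Fin N → E) (hx : LinearIndependent F x)
    (hxm : ∀ i, x i ∈ ⨆ j ∈ Finset.range (n + 1), W j) : N ≤ δ * (n + 1) := by
  let W' : ℕ → Submodule F E := fun j => leftSub F (W j) (hst j)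
  let S : Submodule k E :=
    { carrier := {y | y ∈ ⨆ j ∈ Finset.range (n + 1), W' j}
      add_mem' := fun ha hb => Submodule.add_mem (⨆ j ∈ Finset.range (n + 1), W' j) ha hb
      zero_mem' := Submodule.zero_mem (⨆ j ∈ Finset.range (n + 1), W' j)
      smul_mem' := by
        intro c y hy
        have h3 : c • y = (⟨algebraMap k E c, hF c⟩ : F) • y := by
          rw [Algebra.smul_def]; rfl
        change c • y ∈ ⨆ j ∈ Finset.range (n + 1), W' j
        rw [h3]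
        exact Submodule.smul_mem _ _ hy }
  have hS : (⨆ j ∈ Finset.range (n + 1), W j) ≤ S := by
    apply iSup₂_le
    intro j hj y hy
    have h4 : W' j ≤ ⨆ j ∈ Finset.range (n + 1), W' j :=
      le_iSup₂ (f := fun j (_ : j ∈ Finset.range (n + 1)) => W' j) j hj
    exact h4 (show y ∈ W' j from hy)
  exact bound_of_sum n δ W' (fun j _ M y hy hym => hδ j M y hy hym) N x hx
    (fun i => hS (hxm i))

theorem V4d_indep {ν : D → ℤ} (h : DVal k ν) {φ : ℤ → D →ₗ[k] E} (hφ : ZSymb h.U φ) {g : ℤ}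
    (hg : g ≠ 0) (z : ℕ → D) (hz : ∀ j : ℕ, z j ∈ h.U (j * g)) (M : ℕ)
    (hsum : ∑ j ∈ Finset.range M, φ ((j : ℤ) * g) (z j) = 0) :
    ∀ j < M, φ ((j : ℤ) * g) (z j) = 0 := by
  classical
  let x : ℤ → D := fun i => if (i / g) * g = i ∧ 0 ≤ i / g then z (i / g).toNat else 0
  have hxj : ∀ j : ℕ, x ((j : ℤ) * g) = z j := by
    intro j
    have h1 : (j : ℤ) * g / g = j := Int.mul_ediv_cancel _ hg
    show (if ((j : ℤ) * g / g) * g = (j : ℤ) * g ∧ 0 ≤ (j : ℤ) * g / g then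
      z ((j : ℤ) * g / g).toNat else 0) = z j
    rw [h1, if_pos ⟨rfl, Int.natCast_nonneg j⟩, Int.toNat_natCast]
  have hxU : ∀ i, x i ∈ h.U i := by
    intro i
    show (if (i / g) * g = i ∧ 0 ≤ i / g then z (i / g).toNat else 0) ∈ h.U i
    split_ifs with h1
    · have h2 := hz (i / g).toNat
      rwa [Int.toNat_of_nonneg h1.2, h1.1] at h2
    · exact Submodule.zero_mem _
  have hinj : Function.Injective (fun j : ℕ => (j : ℤ) * g) := by
    intro a b hab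
    have h1 : (a : ℤ) * g = (b : ℤ) * g := hab
    exact Int.natCast_inj.1 (mul_right_cancel₀ hg h1)
  have h3 := hφ.indep ((Finset.range M).image fun j : ℕ => (j : ℤ) * g) x hxU (by
    rw [Finset.sum_image fun a _ b _ hab => hinj hab]
    rw [← hsum]
    exact Finset.sum_congr rfl fun j _ => by rw [hxj])
  intro j hj
  have h4 := h3 ((j : ℤ) * g) (Finset.mem_image.2 ⟨j, Finset.mem_range.2 hj, rfl⟩)
  rwa [hxj] at h4

theorem V4d_alg {ν : D → ℤ} (h : DVal k ν) {φ : ℤ → D →ₗ[k] E} (hφ : ZSymb h.U φ)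
    (A : Submodule k D) (m : ℕ) : grs h.U φ A ^ m ≤ ⨆ j, grj h.U φ j := by
  have hone : (1 : E) ∈ ⨆ j, grj h.U φ j :=
    Submodule.mem_iSup_of_mem 0 ⟨1, V4d_oneU h, hφ.one⟩
  have hmul : (⨆ j, grj h.U φ j) * (⨆ j, grj h.U φ j) ≤ ⨆ j, grj h.U φ j := by
    rw [Submodule.iSup_mul]
    refine iSup_le fun i => ?_
    rw [Submodule.mul_iSup]
    refine iSup_le fun j => ?_
    rw [Submodule.mul_le]
    rintro _ ⟨x, hx, rfl⟩ _ ⟨y, hy, rfl⟩
    exact Submodule.mem_iSup_of_mem (i + j) ⟨x * y, V4d_mulU h hx hy, hφ.mul i j x hx y hy⟩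
  have hle : grs h.U φ A ≤ ⨆ j, grj h.U φ j :=
    iSup_mono fun j => Submodule.map_mono inf_le_right
  induction m with
  | zero =>
    rw [pow_zero]
    exact Submodule.one_le.2 hone
  | succ m ih =>
    rw [pow_succ]
    exact (mul_le_mul' ih hle).trans hmul

theorem V4d_powU {ν : D → ℤ} (h : DVal k ν) {x : D} (hx : x ≠ 0) (n : ℕ) :
    ν (x ^ n) = n * ν x := by
  induction n with
  | zero =>
    rw [pow_zero, h.rules.1]
    simp
  | succ n ih =>
    rw [pow_succ, h.mul _ _ (pow_ne_zero _ hx) hx, ih]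
    push_cast
    ring

/-- `E` is finite over its centre (`k` finite): if not, apply `Quad.bimodChain` to the `Quad` of
`ZSymb.quad`, `φ 0 a`, and `E n = ⨆ j ∈ Finset.range (n+1), grj (j * g)`, `g = ν x₀ ≠ 0`. The chain is
strict by `hφ.indep` (`grj ((n+1) g)` contains `φ _ (x₀^(n+1)) ≠ 0`), stable under left and right
multiplication by `gen k (φ 0 a) ⊆ grj 0`; `hL` by `ZSymb.bound` and `bound_of_sum` (T4), `hR` by
`ZSymb.bound` for the opposite rings (`ZSymb.opp`; left fractions from `Quad.leftFrac`;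
`Quad.opp` for `V`, `finCent_of_op`; `unop_mem_gen`, `op_mem_gen` for the hypothesis on
`gen k (op a)`). -/
theorem ZSymb.finCent [Finite k] {V : Submodule k D} {C : ℕ} (hV : Quad V C)
    (hD : ¬ FinCent D) {ν : D → ℤ} (h : DVal k ν) (hnt : ∃ x : D, x ≠ 0 ∧ ν x ≠ 0)
    {φ : ℤ → D →ₗ[k] E} (hφ : ZSymb h.U φ) {a : D}
    (hat : Transcendental k a) (ha : ∀ f ∈ gen k a, f ≠ 0 → ν f = 0) : FinCent E := by
  classical
  by_contra hE
  obtain ⟨x₀, hx₀, hν⟩ := hnt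
  obtain ⟨c, C', hQ⟩ := ZSymb.quad hV hD h ⟨x₀, hx₀, hν⟩ hφ hat ha
  obtain ⟨g, hg⟩ : ∃ g : ℤ, g = ν x₀ := ⟨_, rfl⟩
  have hg0 : g ≠ 0 := by
    rw [hg]
    exact hν
  obtain ⟨δ₁, hδ₁⟩ := ZSymb.bound hV hD h ⟨x₀, hx₀, hν⟩ hφ hat ha
  obtain ⟨φ', hφ', hφφ'⟩ := ZSymb.opp h hφ (fun e => by
    obtain ⟨m, u, hu, v, hv, hv0, huv⟩ := hQ.leftFrac e
    exact ⟨u, V4d_alg h hφ _ m hu, v, V4d_alg h hφ _ m hv, hv0, huv⟩)
  have ha' : ∀ f ∈ gen k (op a), f ≠ 0 → ν (unop f) = 0 := fun f hf hf0 =>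
    ha _ (unop_mem_gen hf) fun h0 => hf0 (unop_injective h0)
  obtain ⟨δ₂, hδ₂⟩ := ZSymb.bound hV.opp (fun hh => hD (finCent_of_op hh)) h.opp
    ⟨op x₀, fun h0 => hx₀ (op_injective h0), hν⟩ hφ' (transc_op hat) ha'
  have hφa : φ' 0 (op a) = op (φ 0 a) := hφφ' 0 a
  have hstL := V4d_left h hφ ha
  have hstR := V4d_right h hφ ha
  have hstL' := V4d_left h.opp hφ' ha'
  have hmemop : ∀ (n : ℕ) (x : E), x ∈ ⨆ j ∈ Finset.range (n + 1), grj h.U φ ((j : ℤ) * g) →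
      op x ∈ ⨆ j ∈ Finset.range (n + 1), grj h.opp.U φ' ((j : ℤ) * g) := by
    intro n x hx
    obtain ⟨f, hf⟩ := (Submodule.mem_iSup_finset_iff_exists_sum _ _).1 hx
    rw [← hf, Finset.op_sum]
    refine Submodule.sum_mem _ fun j hj => ?_
    refine Submodule.mem_iSup_of_mem j (Submodule.mem_iSup_of_mem hj ?_)
    obtain ⟨y, hy, hyf⟩ := (f j).2
    rw [← hyf, ← hφφ']
    refine ⟨op y, ?_, rfl⟩
    rcases hy with hy | hy
    · left
      rw [hy, op_zero]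
    · exact Or.inr hy
  refine hE (hQ.bimodChain (ZSymb.transc h hφ hat ha)
    (fun n => ⨆ j ∈ Finset.range (n + 1), grj h.U φ ((j : ℤ) * g)) ?_ ?_ ?_ ?_
    (max δ₁ δ₂) ?_ ?_)
  · intro n m hnm
    refine iSup₂_mono' fun j hj => ⟨j, ?_, le_rfl⟩
    have := Finset.mem_range.1 hj
    exact Finset.mem_range.2 (by omega)
  · intro n hn
    have hν' : ν (x₀ ^ (n + 1)) = ((n + 1 : ℕ) : ℤ) * g := by
      rw [V4d_powU h hx₀, hg]
    have hpU : x₀ ^ (n + 1) ∈ h.U (((n + 1 : ℕ) : ℤ) * g) := Or.inr hν'.ge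
    have h1 : φ (((n + 1 : ℕ) : ℤ) * g) (x₀ ^ (n + 1)) ∈
        ⨆ j ∈ Finset.range (n + 1 + 1), grj h.U φ ((j : ℤ) * g) :=
      Submodule.mem_iSup_of_mem (n + 1)
        (Submodule.mem_iSup_of_mem (Finset.mem_range.2 (by omega)) ⟨_, hpU, rfl⟩)
    have h2 : φ (((n + 1 : ℕ) : ℤ) * g) (x₀ ^ (n + 1)) ∈
        ⨆ j ∈ Finset.range (n + 1), grj h.U φ ((j : ℤ) * g) := by
      have h3 : (⨆ j ∈ Finset.range (n + 1), grj h.U φ ((j : ℤ) * g)) =
        ⨆ j ∈ Finset.range (n + 1 + 1), grj h.U φ ((j : ℤ) * g) := hn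
      rw [h3]
      exact h1
    obtain ⟨f, hf⟩ := (Submodule.mem_iSup_finset_iff_exists_sum _ _).1 h2
    choose y hyU hyf using fun j : ℕ => (f j).2
    have h4 := V4d_indep h hφ hg0
      (fun j => if j ≤ n then y j else if j = n + 1 then -(x₀ ^ (n + 1)) else 0) (by
        intro j
        split_ifs with h5 h6
        · exact hyU j
        · rw [h6]
          exact Submodule.neg_mem _ hpU
        · exact Submodule.zero_mem _) (n + 1 + 1) (by
        rw [Finset.sum_range_succ, if_neg (by omega), if_pos rfl, map_neg, ← sub_eq_add_neg,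
          sub_eq_zero, ← hf]
        refine Finset.sum_congr rfl fun j hj => ?_
        have := Finset.mem_range.1 hj
        rw [if_pos (by omega)]
        exact hyf j) (n + 1) (by omega)
    rw [if_neg (by omega), if_pos rfl, map_neg, neg_eq_zero] at h4
    rcases (hφ.ker _ _ hpU).1 h4 with h5 | h5
    · exact pow_ne_zero _ hx₀ h5
    · rw [hν'] at h5
      omega
  · intro n f hf x hx
    obtain ⟨y, hy⟩ := (Submodule.mem_iSup_finset_iff_exists_sum _ _).1 hx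
    rw [← hy, Finset.mul_sum]
    refine Submodule.sum_mem _ fun j hj => ?_
    exact Submodule.mem_iSup_of_mem j (Submodule.mem_iSup_of_mem hj (hstL _ f hf _ (y j).2))
  · intro n f hf x hx
    obtain ⟨y, hy⟩ := (Submodule.mem_iSup_finset_iff_exists_sum _ _).1 hx
    rw [← hy, Finset.sum_mul]
    refine Submodule.sum_mem _ fun j hj => ?_
    exact Submodule.mem_iSup_of_mem j (Submodule.mem_iSup_of_mem hj (hstR _ f hf _ (y j).2))
  · intro n N x hx hxm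
    refine (V4d_bound (algebraMap_mem_gen _) (fun j : ℕ => grj h.U φ ((j : ℤ) * g))
      (fun j => hstL _) (fun j N x hx hxm => hδ₁ _ N x hx hxm) n N x hx hxm).trans ?_
    exact Nat.mul_le_mul_right _ (le_max_left _ _)
  · intro n N x hx hxm
    rw [← hφa] at hx
    refine (V4d_bound (algebraMap_mem_gen _) (fun j : ℕ => grj h.opp.U φ' ((j : ℤ) * g))
      (fun j => hstL' _) (fun j N x hx hxm => hδ₂ _ N x hx hxm) n N _ hx
      (fun i => hmemop n _ (hxm i))).trans ?_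
    exact Nat.mul_le_mul_right _ (le_max_right _ _)

end Pool.Agent.BQG
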