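import Pool.Agent.H.MP_fbbc72_al.h23.V4
import Pool.Agent.H.MP_fbbc72_al.h23.C1

set_option autoImplicit false

namespace Pool.Agent.BQG

open Module Polynomial MulOpposite

universe u v

variable {k : Type v} {D : Type u} [Field k] [DivisionRing D] [Algebra k D]
  {E : Type u} [DivisionRing E] [Algebra k E]

theorem V5_Umul {ν : D → ℤ} (h : DVal k ν) {a b : ℤ} {x y : D} (hx : x ∈ h.U a)
    (hy : y ∈ h.U b) : x * y ∈ h.U (a + b) := by
  rcases hx with hx | hx
  · left; rw [hx, zero_mul]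
  rcases hy with hy | hy
  · left; rw [hy, mul_zero]
  by_cases hx0 : x = 0
  · left; rw [hx0, zero_mul]
  by_cases hy0 : y = 0
  · left; rw [hy0, mul_zero]
  right
  rw [h.mul x y hx0 hy0]
  omega

theorem V5_mono (U : ℤ → Submodule k D) (φ : ℤ → D →ₗ[k] E) {A B : Submodule k D}
    (hAB : A ≤ B) : grs U φ A ≤ grs U φ B :=
  iSup_mono fun _ => Submodule.map_mono (inf_le_inf_right _ hAB)

/-- an extremal element of a finite set of integers -/
theorem V5_ext {s : Finset ℤ} (hs : s.Nonempty) {ρ : ℤ} (hρ : ρ ≠ 0) : ∃ j ∈ s, j - ρ ∉ s := by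
  rcases lt_or_gt_of_ne hρ with h1 | h1
  · refine ⟨s.max' hs, s.max'_mem hs, fun h2 => ?_⟩
    have h3 := s.le_max' _ h2
    omega
  · refine ⟨s.min' hs, s.min'_mem hs, fun h2 => ?_⟩
    have h3 := s.min'_le _ h2
    omega

/-- decomposition into homogeneous components -/
theorem V5_dec {U : ℤ → Submodule k D} {φ : ℤ → D →ₗ[k] E} {A : Submodule k D} {e : E}
    (he : e ∈ grs U φ A) : ∃ (s : Finset ℤ) (x : ℤ → D), (∀ j, x j ∈ A ∧ x j ∈ U j) ∧
      (∀ j, j ∉ s → x j = 0) ∧ e = ∑ j ∈ s, φ j (x j) := by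
  classical
  refine Submodule.iSup_induction (fun j => (A ⊓ U j).map (φ j)) (motive := fun e =>
    ∃ (s : Finset ℤ) (x : ℤ → D), (∀ j, x j ∈ A ∧ x j ∈ U j) ∧
      (∀ j, j ∉ s → x j = 0) ∧ e = ∑ j ∈ s, φ j (x j)) he ?_ ?_ ?_
  · rintro i _ ⟨y, hy, rfl⟩
    refine ⟨{i}, fun j => if j = i then y else 0, ?_, ?_, ?_⟩
    · intro j
      by_cases hj : j = i
      · subst hj
        simp only [if_true]
        exact ⟨hy.1, hy.2⟩
      · simp only [if_neg hj]
        exact ⟨Submodule.zero_mem _, Submodule.zero_mem _⟩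
    · intro j hj
      rw [Finset.mem_singleton] at hj
      simp only [if_neg hj]
    · rw [Finset.sum_singleton]
      show φ i y = φ i (if i = i then y else 0)
      rw [if_pos rfl]
  · exact ⟨∅, fun _ => 0, fun j => ⟨Submodule.zero_mem _, Submodule.zero_mem _⟩,
      fun _ _ => rfl, by simp⟩
  · rintro e e' ⟨s, x, hx, hs, rfl⟩ ⟨s', x', hx', hs', rfl⟩
    refine ⟨s ∪ s', fun j => x j + x' j, fun j => ⟨Submodule.add_mem _ (hx j).1 (hx' j).1,
      Submodule.add_mem _ (hx j).2 (hx' j).2⟩, ?_, ?_⟩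
    · intro j hj
      rw [Finset.mem_union, not_or] at hj
      show x j + x' j = 0
      rw [hs j hj.1, hs' j hj.2, add_zero]
    · have h1 : ∑ j ∈ s, φ j (x j) = ∑ j ∈ s ∪ s', φ j (x j) := by
        refine Finset.sum_subset Finset.subset_union_left fun j _ hj => ?_
        rw [hs j hj, map_zero]
      have h2 : ∑ j ∈ s', φ j (x' j) = ∑ j ∈ s ∪ s', φ j (x' j) := by
        refine Finset.sum_subset Finset.subset_union_right fun j _ hj => ?_
        rw [hs' j hj, map_zero]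
      rw [h1, h2, ← Finset.sum_add_distrib]
      exact Finset.sum_congr rfl fun j _ => (map_add _ _ _).symm

/-- the graded subring -/
def V5_G {V : Submodule k D} {C : ℕ} (hV : Quad V C) {ν : D → ℤ} (h : DVal k ν)
    {φ : ℤ → D →ₗ[k] E} (hφ : ZSymb h.U φ) : Subring E where
  carrier := {e | ∃ n, e ∈ grs h.U φ (V ^ n)}
  mul_mem' := by
    rintro e e' ⟨m, hm⟩ ⟨n, hn⟩
    refine ⟨m + n, ?_⟩
    rw [pow_add]
    exact hφ.grs_mul h _ _ (Submodule.mul_mem_mul hm hn)
  one_mem' := by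
    refine ⟨0, Submodule.mem_iSup_of_mem 0 ⟨1, ⟨hV.one_mem_pow 0, ?_⟩, hφ.one⟩⟩
    right
    rw [h.rules.1]
  add_mem' := by
    rintro e e' ⟨m, hm⟩ ⟨n, hn⟩
    exact ⟨max m n, Submodule.add_mem _ (V5_mono _ _ (hV.pow_mono (le_max_left m n)) hm)
      (V5_mono _ _ (hV.pow_mono (le_max_right m n)) hn)⟩
  zero_mem' := ⟨0, Submodule.zero_mem _⟩
  neg_mem' := by
    rintro e ⟨n, hn⟩
    exact ⟨n, Submodule.neg_mem _ hn⟩

theorem V5_pow {V : Submodule k D} {C : ℕ} (hV : Quad V C) {ν : D → ℤ} (h : DVal k ν)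
    {φ : ℤ → D →ₗ[k] E} (hφ : ZSymb h.U φ) (c n : ℕ) {e : E}
    (he : e ∈ grs h.U φ (V ^ c) ^ n) : e ∈ V5_G hV h hφ := by
  induction n generalizing e with
  | zero =>
    rw [pow_zero, Submodule.mem_one] at he
    obtain ⟨c', rfl⟩ := he
    have h1 : algebraMap k E c' = c' • (1 : E) := Algebra.algebraMap_eq_smul_one c'
    rw [h1]
    obtain ⟨m, hm⟩ := (V5_G hV h hφ).one_mem
    exact ⟨m, Submodule.smul_mem _ _ hm⟩
  | succ n ih =>
    rw [pow_succ] at he
    refine Submodule.mul_induction_on he ?_ ?_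
    · intro x hx y hy
      exact (V5_G hV h hφ).mul_mem (ih hx) ⟨c, hy⟩
    · intro x y hx hy
      exact (V5_G hV h hφ).add_mem hx hy

/-- the components of a central element commute with the homogeneous elements -/
theorem V5_comm {ν : D → ℤ} (h : DVal k ν) {φ : ℤ → D →ₗ[k] E} (hφ : ZSymb h.U φ)
    {s : Finset ℤ} {x : ℤ → D} (hx : ∀ j, x j ∈ h.U j) (hs : ∀ j, j ∉ s → x j = 0) {ρ : ℤ}
    {r : D} (hr : r ∈ h.U ρ)
    (hc : (1 + φ ρ r) * ∑ j ∈ s, φ j (x j) ∈ Subring.center E) (i j : ℤ) {z : D}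
    (hz : z ∈ h.U i) :
    (x j + r * x (j - ρ)) * z - z * (x j + r * x (j - ρ)) ∈ h.U (j + i + 1) := by
  classical
  obtain ⟨w, hw⟩ : ∃ w : ℤ → D, w = fun j => x j + r * x (j - ρ) := ⟨_, rfl⟩
  have hwj : ∀ j, w j = x j + r * x (j - ρ) := fun j => by rw [hw]
  rw [← hwj]
  have hwU : ∀ j, w j ∈ h.U j := by
    intro j
    rw [hwj]
    refine Submodule.add_mem _ (hx j) ?_
    have h1 := V5_Umul h hr (hx (j - ρ))
    have h2 : ρ + (j - ρ) = j := by ring
    rwa [h2] at h1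
  obtain ⟨T, hT⟩ : ∃ T : Finset ℤ, T = s ∪ s.image (fun j => ρ + j) := ⟨_, rfl⟩
  have hw0 : ∀ j, j ∉ T → w j = 0 := by
    intro j hj
    rw [hT, Finset.mem_union, not_or] at hj
    have h1 : j - ρ ∉ s := fun h2 => hj.2 (Finset.mem_image.2 ⟨j - ρ, h2, by ring⟩)
    rw [hwj, hs j hj.1, hs _ h1, mul_zero, add_zero]
  have hsum : (1 + φ ρ r) * ∑ j ∈ s, φ j (x j) = ∑ j ∈ T, φ j (w j) := by
    have h1 : ∑ j ∈ T, φ j (w j) = ∑ j ∈ T, φ j (x j) + ∑ j ∈ T, φ j (r * x (j - ρ)) := by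
      rw [← Finset.sum_add_distrib]
      exact Finset.sum_congr rfl fun j _ => by rw [hwj, map_add]
    have h2 : ∑ j ∈ s, φ j (x j) = ∑ j ∈ T, φ j (x j) := by
      refine Finset.sum_subset ?_ fun j _ hj => ?_
      · rw [hT]
        exact Finset.subset_union_left
      · rw [hs j hj, map_zero]
    have h3 : ∑ j ∈ s.image (fun j => ρ + j), φ j (r * x (j - ρ)) =
        ∑ j ∈ T, φ j (r * x (j - ρ)) := by
      refine Finset.sum_subset ?_ fun j _ hj => ?_
      · rw [hT]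
        exact Finset.subset_union_right
      · have h4 : j - ρ ∉ s := fun h5 => hj (Finset.mem_image.2 ⟨j - ρ, h5, by ring⟩)
        rw [hs _ h4, mul_zero, map_zero]
    have h4 : ∑ j ∈ s.image (fun j => ρ + j), φ j (r * x (j - ρ)) =
        φ ρ r * ∑ j ∈ s, φ j (x j) := by
      rw [Finset.sum_image (fun a _ b _ hab => by
        have hab' : ρ + a = ρ + b := hab
        omega), Finset.mul_sum]
      refine Finset.sum_congr rfl fun j _ => ?_
      rw [add_sub_cancel_left]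
      exact hφ.mul ρ j r hr (x j) (hx j)
    rw [h1, ← h2, ← h3, h4, add_mul, one_mul]
  by_cases hjT : j ∈ T
  · have hzero : ∑ l ∈ T.image (fun j => j + i), φ l (w (l - i) * z - z * w (l - i)) = 0 := by
      rw [Finset.sum_image (fun a _ b _ hab => by
        have hab' : a + i = b + i := hab
        omega)]
      have h1 : ∀ l ∈ T, φ (l + i) (w (l + i - i) * z - z * w (l + i - i)) =
          φ l (w l) * φ i z - φ i z * φ l (w l) := by
        intro l _
        rw [add_sub_cancel_right, map_sub, hφ.mul l i _ (hwU l) z hz, add_comm l i,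
          hφ.mul i l z hz _ (hwU l)]
      rw [Finset.sum_congr rfl h1, Finset.sum_sub_distrib, ← Finset.sum_mul, ← Finset.mul_sum,
        ← hsum, Subring.mem_center_iff.1 hc (φ i z), sub_self]
    have hmem : ∀ l : ℤ, w (l - i) * z - z * w (l - i) ∈ h.U l := by
      intro l
      refine Submodule.sub_mem _ ?_ ?_
      · have h1 := V5_Umul h (hwU (l - i)) hz
        rwa [sub_add_cancel] at h1
      · have h1 := V5_Umul h hz (hwU (l - i))
        rwa [add_sub_cancel] at h1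
    have h1 := hφ.indep _ (fun l => w (l - i) * z - z * w (l - i)) hmem hzero (j + i)
      (Finset.mem_image.2 ⟨j, hjT, rfl⟩)
    have h2 := (hφ.ker (j + i) _ (hmem (j + i))).1 h1
    have h3 : w (j + i - i) * z - z * w (j + i - i) ∈ h.U (j + i + 1) := h2
    rwa [add_sub_cancel_right] at h3
  · rw [hw0 j hjT, zero_mul, mul_zero, sub_zero]
    exact Submodule.zero_mem _

/-- An element `v` of `R = ⋃ V^n` with `ν v ≠ 0` and central symbol.

Let `G = ⨆ n, grs (V^n)` (a subring of `E`, by `grs_mul`, directed union). `E` consists of right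
fractions (`Quad.frac` for `grs (V^c)`, whose powers are in `G`) and of left fractions
(`Quad.leftFrac`) of `G`. Let `r₁ ∈ V^m`, `ν r₁ = ρ ≠ 0` (exists, as `D` consists of fractions and
`ν` is not trivial). Apply `exists_central_mul` to `h := 1 + φ ρ r₁ ∈ G` (nonzero by
`hφ.indep`): `y ∈ G`, `c = h y` central, nonzero. `y = ∑_{j ∈ s} y_j` with
`y_j = φ j (x_j) `, `x_j ∈ R ∩ U j`, all `y_j ≠ 0` for `j ∈ s`, `s ≠ ∅`.
The component of `c` in degree `j` is `y_j + φ ρ r₁ y_{j-ρ}`, and the components of a central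
element are central: `c` commutes with `φ i x`, compare the degrees by `hφ.indep`. Let
`ρ > 0` (the other case is symmetric), `j₀ = min s`, `j₁ = max s`. The component in degree
`j₀` is `y_{j₀} = φ j₀ (x_{j₀})`, the component in degree `j₁ + ρ` is
`φ ρ r₁ y_{j₁} = φ (ρ + j₁) (r₁ x_{j₁})`, both nonzero and central, and
`j₀ < j₁ + ρ`, so one of the two degrees is not zero. This gives `v ∈ R` with `ν v = j ≠ 0` and
`φ j v` central. For `x ≠ 0`, `ν x = i`: `φ (j+i) (v x - x v) = 0`, so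
`v x - x v ∈ U (j + i + 1)` (`ker`). -/
theorem ZSymb.exists_central (hE : FinCent E) {V : Submodule k D} {C : ℕ} (hV : Quad V C)
    {ν : D → ℤ} (h : DVal k ν) (hnt : ∃ x : D, x ≠ 0 ∧ ν x ≠ 0) {φ : ℤ → D →ₗ[k] E}
    (hφ : ZSymb h.U φ) {c C' : ℕ} (hQ : Quad (grs h.U φ (V ^ c)) C') :
    ∃ (d : ℕ) (v : D), v ∈ V ^ d ∧ v ≠ 0 ∧ ν v ≠ 0 ∧
      ∀ x : D, x ≠ 0 → v * x - x * v ∈ h.U (ν v + ν x + 1) := by
  classical
  -- an element of nonzero valuation
  obtain ⟨n0, r, hrV, hr0, hρ⟩ : ∃ (n : ℕ) (r : D), r ∈ V ^ n ∧ r ≠ 0 ∧ ν r ≠ 0 := by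
    obtain ⟨x, hx0, hx⟩ := hnt
    obtain ⟨n, u, hu, v, hv, hv0, rfl⟩ := hV.frac x
    have hu0 : u ≠ 0 := fun h1 => hx0 (by rw [h1, zero_mul])
    rw [h.mul _ _ hu0 (inv_ne_zero hv0), h.rules.2.1 v hv0] at hx
    by_cases h1 : ν u = 0
    · exact ⟨n, v, hv, hv0, by omega⟩
    · exact ⟨n, u, hu, hu0, h1⟩
  obtain ⟨ρ, hρdef⟩ : ∃ ρ, ρ = ν r := ⟨_, rfl⟩
  rw [← hρdef] at hρ
  have hrU : r ∈ h.U ρ := Or.inr hρdef.le
  have h1U : (1 : D) ∈ h.U 0 := by
    right
    rw [h.rules.1]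
  have hsym : ∀ {j : ℤ} {x : D}, x ∈ h.U j → φ j x ≠ 0 → x ≠ 0 ∧ ν x = j := by
    intro j x hx hne
    have hx0 : x ≠ 0 := fun h1 => hne (by rw [h1, map_zero])
    refine ⟨hx0, ?_⟩
    have h1 : j ≤ ν x := hx.resolve_left hx0
    have h2 : ¬ (j + 1 ≤ ν x) := fun h3 => hne ((hφ.ker j x hx).2 (Or.inr h3))
    omega
  have hh0 : (1 : E) + φ ρ r ≠ 0 := by
    intro h1
    have h2 := hφ.indep {0, ρ} (fun j => if j = 0 then 1 else if j = ρ then r else 0)
      (fun j => by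
        by_cases hj : j = 0
        · subst hj
          simpa using h1U
        · by_cases hj' : j = ρ
          · subst hj'
            simp only [if_neg hj, if_true]
            exact hrU
          · simp only [if_neg hj, if_neg hj']
            exact Submodule.zero_mem _)
      (by
        rw [Finset.sum_pair hρ.symm]
        simp only [if_true, if_neg hρ]
        rw [hφ.one]
        exact h1) 0 (Finset.mem_insert_self _ _)
    simp only [if_true] at h2
    rw [hφ.one] at h2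
    exact one_ne_zero h2
  have hhG : (1 : E) + φ ρ r ∈ V5_G hV h hφ := by
    refine (V5_G hV h hφ).add_mem (V5_G hV h hφ).one_mem ?_
    exact ⟨n0, Submodule.mem_iSup_of_mem ρ ⟨r, ⟨hrV, hrU⟩, rfl⟩⟩
  obtain ⟨y, ⟨n1, hy⟩, hyc, hyne⟩ := exists_central_mul hE (V5_G hV h hφ)
    (fun e => by
      obtain ⟨n, u, hu, v, hv, hv0, he⟩ := hQ.frac e
      exact ⟨u, V5_pow hV h hφ c n hu, v, V5_pow hV h hφ c n hv, hv0, he⟩)
    (fun e => by
      obtain ⟨n, u, hu, v, hv, hv0, he⟩ := hQ.leftFrac e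
      refine ⟨u, V5_pow hV h hφ c n hu, v, V5_pow hV h hφ c n hv, hv0, ?_⟩
      rw [← he, ← mul_assoc, inv_mul_cancel₀ hv0, one_mul]) hhG hh0
  obtain ⟨s0, x0, hx0, hs0, rfl⟩ := V5_dec hy
  -- remove the zero components
  obtain ⟨s, hs⟩ : ∃ s : Finset ℤ, s = s0.filter fun j => φ j (x0 j) ≠ 0 := ⟨_, rfl⟩
  obtain ⟨x, hx⟩ : ∃ x : ℤ → D, x = fun j => if j ∈ s then x0 j else 0 := ⟨_, rfl⟩
  have hxs : ∀ j ∈ s, x j = x0 j := fun j hj => by rw [hx]; exact if_pos hj
  have hxn : ∀ j, j ∉ s → x j = 0 := fun j hj => by rw [hx]; exact if_neg hj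
  have hxV : ∀ j, x j ∈ V ^ n1 := by
    intro j
    by_cases hj : j ∈ s
    · rw [hxs j hj]
      exact (hx0 j).1
    · rw [hxn j hj]
      exact Submodule.zero_mem _
  have hxU : ∀ j, x j ∈ h.U j := by
    intro j
    by_cases hj : j ∈ s
    · rw [hxs j hj]
      exact (hx0 j).2
    · rw [hxn j hj]
      exact Submodule.zero_mem _
  have hne : ∀ j ∈ s, φ j (x j) ≠ 0 := by
    intro j hj
    rw [hxs j hj]
    rw [hs] at hj
    exact (Finset.mem_filter.1 hj).2
  have hsum : ∑ j ∈ s0, φ j (x0 j) = ∑ j ∈ s, φ j (x j) := by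
    have h1 : ∑ j ∈ s, φ j (x j) = ∑ j ∈ s, φ j (x0 j) :=
      Finset.sum_congr rfl fun j hj => by rw [hxs j hj]
    rw [h1, hs]
    exact (Finset.sum_filter_ne_zero (f := fun j => φ j (x0 j)) s0).symm
  rw [hsum] at hyc hyne
  have hsne : s.Nonempty := by
    rw [Finset.nonempty_iff_ne_empty]
    intro h1
    apply hyne
    rw [h1, Finset.sum_empty, mul_zero]
  obtain ⟨j, hj, hj'⟩ := V5_ext hsne hρ
  obtain ⟨l, hl, hl'⟩ := V5_ext hsne (neg_ne_zero.2 hρ)
  rw [sub_neg_eq_add] at hl'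
  by_cases hj0 : j = 0
  · -- the element `r * x l` of degree `l + ρ`
    have hl0 : ρ + l ≠ 0 := by
      intro h1
      apply hl'
      have h2 : l + ρ = j := by omega
      rw [h2]
      exact hj
    have hrx : r * x l ∈ h.U (ρ + l) := V5_Umul h hrU (hxU l)
    have hne2 : φ (ρ + l) (r * x l) ≠ 0 := by
      rw [hφ.mul ρ l r hrU _ (hxU l)]
      refine mul_ne_zero ?_ (hne l hl)
      intro h1
      have h2 := (hφ.ker ρ r hrU).1 h1
      rcases h2 with h2 | h2
      · exact hr0 h2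
      · omega
    obtain ⟨hv0, hνv⟩ := hsym hrx hne2
    refine ⟨n0 + n1, r * x l, ?_, hv0, by rw [hνv]; exact hl0, ?_⟩
    · rw [pow_add]
      exact Submodule.mul_mem_mul hrV (hxV l)
    · intro z _
      have h1 := V5_comm h hφ hxU hxn hrU hyc (ν z) (ρ + l) (z := z) (Or.inr le_rfl)
      have h2 : x (ρ + l) = 0 := hxn _ (by rwa [add_comm] at hl')
      rw [h2, zero_add, add_sub_cancel_left] at h1
      rw [hνv]
      exact h1
  · obtain ⟨hv0, hνv⟩ := hsym (hxU j) (hne j hj)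
    refine ⟨n1, x j, hxV j, hv0, by rw [hνv]; exact hj0, ?_⟩
    intro z _
    have h1 := V5_comm h hφ hxU hxn hrU hyc (ν z) j (z := z) (Or.inr le_rfl)
    rw [hxn _ hj', mul_zero, add_zero] at h1
    rw [hνv]
    exact h1

end Pool.Agent.BQG
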