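import Pool.Agent.H.MP_fbbc72_al.h23.V5
import Pool.Agent.H.MP_fbbc72_al.h23.V4d
import Pool.Agent.H.MP_fbbc72_al.h23.V2c

set_option autoImplicit false

namespace Pool.Agent.BQG

open Module Polynomial MulOpposite

universe u v

variable {k : Type v} {D : Type u} [Field k] [DivisionRing D] [Algebra k D]
  {E : Type u} [DivisionRing E] [Algebra k E]

/-- THEOREM. `k` finite, `D` of quadratic growth, `ν` a nontrivial valuation, `a` transcendental
with `ν = 0` on `k(a)`. Then `D` is finite over its centre. (Suppose not;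
`DVal.exists_zsymb`, `ZSymb.finCent`, `ZSymb.quad`, `ZSymb.exists_central`, `Quad.valCentral`;
`p` is the characteristic of `k`.) -/
theorem Quad.finCent_of_val [Finite k] {V : Submodule k D} {C : ℕ} (hV : Quad V C) {ν : D → ℤ}
    (h : DVal k ν) (hnt : ∃ x : D, x ≠ 0 ∧ ν x ≠ 0) {a : D} (hat : Transcendental k a)
    (ha : ∀ f ∈ gen k a, f ≠ 0 → ν f = 0) : FinCent D := by
  by_contra hD
  obtain ⟨E, iE, aE, φ, hφ⟩ := h.exists_zsymb hnt
  have hE : FinCent E := ZSymb.finCent hV hD h hnt hφ hat ha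
  obtain ⟨c, C', hQ⟩ := ZSymb.quad hV hD h hnt hφ hat ha
  obtain ⟨d, v, hv, hv0, hνv, hc⟩ := ZSymb.exists_central hE hV h hnt hφ hQ
  obtain ⟨p, hp⟩ := CharP.exists k
  have hpp : p.Prime := CharP.char_is_prime k p
  exact hD (hV.valCentral hpp h hat ha hv hv0 hνv hc)

end Pool.Agent.BQG
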