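import Pool.Agent.H.MP_fbbc72_al.h23.V5b

set_option autoImplicit false

namespace Pool.Agent.BQG

open Module Polynomial

universe u v w

variable {k : Type v} {D : Type u} [Field k] [DivisionRing D] [Algebra k D]
  {Γ : Type w} [AddCommGroup Γ] [LinearOrder Γ] [IsOrderedAddMonoid Γ]

/-- A valuation with values in an ordered abelian group. -/
structure GVal (ν : D → Γ) : Prop where
  mul : ∀ x y : D, x ≠ 0 → y ≠ 0 → ν (x * y) = ν x + ν y
  add : ∀ x y : D, x ≠ 0 → y ≠ 0 → x + y ≠ 0 → min (ν x) (ν y) ≤ ν (x + y)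

theorem GVal.one {ν : D → Γ} (h : GVal ν) : ν 1 = 0 := by
  have h1 := h.mul 1 1 one_ne_zero one_ne_zero
  rw [one_mul] at h1
  exact left_eq_add.mp h1

theorem GVal.inv {ν : D → Γ} (h : GVal ν) {x : D} (hx : x ≠ 0) : ν x⁻¹ = - ν x := by
  have h1 := h.mul x x⁻¹ hx (inv_ne_zero hx)
  rw [mul_inv_cancel₀ hx, h.one] at h1
  exact (neg_eq_of_add_eq_zero_right h1.symm).symm

theorem GVal.neg {ν : D → Γ} (h : GVal ν) {x : D} (hx : x ≠ 0) : ν (-x) = ν x := by
  have h1 : ν (-1) = 0 := by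
    have h2 := h.mul (-1) (-1) (by simp) (by simp)
    have h3 : (-1 : D) * -1 = 1 := by simp
    rw [h3, h.one] at h2
    have h4 : (2 : ℕ) • ν (-1 : D) = 0 := by rw [two_nsmul]; exact h2.symm
    exact (smul_eq_zero.mp h4).resolve_left (by norm_num)
  have h2 : -x = (-1) * x := by simp
  rw [h2, h.mul _ _ (by simp) hx, h1, zero_add]

theorem GVal.pow {ν : D → Γ} (h : GVal ν) {x : D} (hx : x ≠ 0) (n : ℕ) :
    ν (x ^ n) = n • ν x := by
  induction n with
  | zero => rw [pow_zero, h.one, zero_smul]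
  | succ n ih => rw [pow_succ, h.mul _ _ (pow_ne_zero _ hx) hx, ih, succ_nsmul]

/-- the elements of value `> g` -/
def GVal.above {ν : D → Γ} (h : GVal ν) (g : Γ) : AddSubgroup D where
  carrier := {x | x = 0 ∨ g < ν x}
  add_mem' := by
    rintro x y hx hy
    by_cases hx0 : x = 0
    · subst hx0; simpa using hy
    by_cases hy0 : y = 0
    · subst hy0; simpa using hx
    by_cases hs : x + y = 0
    · exact Or.inl hs
    · right
      refine lt_of_lt_of_le (lt_min ?_ ?_) (h.add x y hx0 hy0 hs)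
      · exact hx.resolve_left hx0
      · exact hy.resolve_left hy0
  zero_mem' := Or.inl rfl
  neg_mem' := by
    rintro x (hx | hx)
    · left; simp [hx]
    · by_cases hx0 : x = 0
      · left; simp [hx0]
      · right
        rw [h.neg hx0]
        exact hx

/-- nonzero elements of different values have a nonzero sum -/
theorem GVal.sum_ne {ν : D → Γ} (h : GVal ν) {ι : Type*} (S : Finset ι) (hS : S.Nonempty)
    (z : ι → D) (hz : ∀ i ∈ S, z i ≠ 0) (hinj : ∀ i ∈ S, ∀ j ∈ S, ν (z i) = ν (z j) → i = j) :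
    ∑ i ∈ S, z i ≠ 0 := by
  classical
  intro h0
  obtain ⟨i, hi, hmin⟩ := S.exists_min_image (fun i => ν (z i)) hS
  rw [← Finset.add_sum_erase _ _ hi] at h0
  have h1 : ∑ j ∈ S.erase i, z j ∈ h.above (ν (z i)) := by
    refine AddSubgroup.sum_mem _ fun j hj => ?_
    have hj' := Finset.mem_of_mem_erase hj
    right
    have h2 : ν (z i) ≤ ν (z j) := hmin j hj'
    have h3 : ν (z i) ≠ ν (z j) := fun h3 => (Finset.ne_of_mem_erase hj) (hinj i hi j hj' h3).symm
    exact lt_of_le_of_ne h2 h3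
  have h4 : z i ∈ h.above (ν (z i)) := by
    have h5 : z i = -∑ j ∈ S.erase i, z j := eq_neg_of_add_eq_zero_left h0
    have h6 := AddSubgroup.neg_mem _ h1
    rwa [← h5] at h6
  rcases h4 with h4 | h4
  · exact hz i hi h4
  · exact lt_irrefl _ h4

/-- nonzero elements of different values are independent over `k(a)` if `ν = 0` on `k(a)` -/
theorem GVal.indep {ν : D → Γ} (h : GVal ν) {a : D} (ha : ∀ f ∈ gen k a, f ≠ 0 → ν f = 0)
    {ι : Type*} [Fintype ι] (z : ι → D) (hz : ∀ i, z i ≠ 0)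
    (hinj : ∀ i j, ν (z i) = ν (z j) → i = j) : LinearIndependent (gen k a) z := by
  classical
  rw [Fintype.linearIndependent_iff]
  intro g hg i0
  by_contra hi0
  obtain ⟨S, hS⟩ : ∃ S : Finset ι, S = Finset.univ.filter fun i => g i ≠ 0 := ⟨_, rfl⟩
  have hmem : ∀ i, i ∈ S ↔ g i ≠ 0 := fun i => by rw [hS]; simp
  have hg0 : ∀ i ∈ S, (g i : D) ≠ 0 := fun i hi h0 => (hmem i).1 hi (Subtype.ext h0)
  refine h.sum_ne S ⟨i0, (hmem i0).2 hi0⟩ (fun i => (g i : D) * z i) ?_ ?_ ?_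
  · intro i hi
    exact mul_ne_zero (hg0 i hi) (hz i)
  · intro i hi j hj hij
    apply hinj
    have h1 : ν ((g i : D) * z i) = ν ((g j : D) * z j) := hij
    rwa [h.mul _ _ (hg0 i hi) (hz i), h.mul _ _ (hg0 j hj) (hz j), ha _ (g i).2 (hg0 i hi),
      ha _ (g j).2 (hg0 j hj), zero_add, zero_add] at h1
  · rw [← hg]
    refine Finset.sum_subset (Finset.subset_univ _) fun i _ hi => ?_
    have h1 : g i = 0 := by
      by_contra h2
      exact hi ((hmem i).2 h2)
    simp [h1]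

/-- the value group has rank one -/
theorem Quad.value_rank {V : Submodule k D} {C : ℕ} (hV : Quad V C) (hD : ¬ FinCent D)
    {ν : D → Γ} (h : GVal ν) {a : D} (hat : Transcendental k a)
    (ha : ∀ f ∈ gen k a, f ≠ 0 → ν f = 0) {d : ℕ} {v : D} (hv : v ∈ V ^ d) (hv0 : v ≠ 0)
    (hνv : ν v ≠ 0) :
    ∃ N : ℕ, ∀ x : D, x ≠ 0 → ∃ i : ℕ, 1 ≤ i ∧ i ≤ N ∧ ∃ m : ℤ, i • ν x = m • ν v := by
  classical
  obtain ⟨B, hB⟩ := hV.linear hD hat
  refine ⟨B * d, fun x hx => ?_⟩
  by_contra hcon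
  push Not at hcon
  obtain ⟨m, u, hu0, hu, hxu⟩ := hV.commonDen (B * d + 1) (fun i : Fin (B * d + 1) => x ^ (i : ℕ))
  have key : ∀ n : ℕ, (B * d + 1) * (n + 1) ≤ B * (m + 1 + d * n) := by
    intro n
    let z : Fin (B * d + 1) × Fin (n + 1) → D := fun p => x ^ (p.1 : ℕ) * u * v ^ (p.2 : ℕ)
    have hz : ∀ p, z p ≠ 0 := fun p =>
      mul_ne_zero (mul_ne_zero (pow_ne_zero _ hx) hu0) (pow_ne_zero _ hv0)
    have hνz : ∀ p, ν (z p) = (p.1 : ℕ) • ν x + ν u + (p.2 : ℕ) • ν v := fun p => by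
      simp only [z]
      rw [h.mul _ _ (mul_ne_zero (pow_ne_zero _ hx) hu0) (pow_ne_zero _ hv0),
        h.mul _ _ (pow_ne_zero _ hx) hu0, h.pow hx, h.pow hv0]
    have hsub : ∀ (i i' l l' : ℕ), i' < i → i ≤ B * d →
        i • ν x + ν u + l • ν v ≠ i' • ν x + ν u + l' • ν v := by
      intro i i' l l' hlt hle heq
      have h1 : i • ν x + l • ν v = i' • ν x + l' • ν v := by
        have h2 : ν u + (i • ν x + l • ν v) = ν u + (i' • ν x + l' • ν v) := by
          calc ν u + (i • ν x + l • ν v) = i • ν x + ν u + l • ν v := by abel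
            _ = i' • ν x + ν u + l' • ν v := heq
            _ = _ := by abel
        exact add_left_cancel h2
      refine hcon (i - i') (by omega) (by omega) ((l' : ℤ) - l) ?_
      have h3 : i • ν x = (i - i') • ν x + i' • ν x := by
        rw [← add_nsmul]; congr 1; omega
      rw [h3] at h1
      rw [sub_zsmul, natCast_zsmul, natCast_zsmul]
      have h4 : (i - i') • ν x + (i' • ν x + l • ν v) = i' • ν x + l' • ν v := by
        rw [← add_assoc]; exact h1
      have h5 : (i - i') • ν x = i' • ν x + l' • ν v - (i' • ν x + l • ν v) :=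
        eq_sub_of_add_eq h4
      rw [h5]; abel
    have hinj : ∀ p q, ν (z p) = ν (z q) → p = q := by
      intro p q hpq
      rw [hνz, hνz] at hpq
      rcases lt_trichotomy (p.1 : ℕ) (q.1 : ℕ) with h1 | h1 | h1
      · exact absurd hpq.symm (hsub _ _ _ _ h1 (by have := q.1.2; omega))
      · have h2 : p.1 = q.1 := Fin.ext h1
        rw [h2] at hpq
        have h3 : (p.2 : ℕ) • ν v = (q.2 : ℕ) • ν v := add_left_cancel hpq
        have h4 : ((p.2 : ℕ) : ℤ) • ν v = ((q.2 : ℕ) : ℤ) • ν v := by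
          rw [natCast_zsmul, natCast_zsmul]; exact h3
        have h5 : (((p.2 : ℕ) : ℤ) - ((q.2 : ℕ) : ℤ)) • ν v = 0 := by
          rw [sub_zsmul, h4, add_neg_cancel]
        have h6 := (smul_eq_zero.mp h5).resolve_right hνv
        have h7 : (p.2 : ℕ) = (q.2 : ℕ) := by omega
        exact Prod.ext h2 (Fin.ext h7)
      · exact absurd hpq (hsub _ _ _ _ h1 (by have := p.1.2; omega))
    have h1 := h.indep ha z hz hinj
    have h2 := h1.comp (finProdFinEquiv.symm : Fin ((B * d + 1) * (n + 1)) → _)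
      finProdFinEquiv.symm.injective
    refine hB _ _ (by omega) _ h2 fun t => ?_
    have h3 : v ^ ((finProdFinEquiv.symm t).2 : ℕ) ∈ V ^ (d * n) := by
      refine hV.pow_mono (Nat.mul_le_mul_left d (Nat.lt_succ_iff.1 (finProdFinEquiv.symm t).2.2))
        (Quad.pow_mem hv _)
    exact hV.pow_mono (by omega) (Quad.mul_mem (hxu (finProdFinEquiv.symm t).1) h3)
  have h2 := key (B * (m + 1))
  have h4 : B * (m + 1 + d * (B * (m + 1))) = B * (m + 1) + B * d * (B * (m + 1)) := by ring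
  have h5 : (B * d + 1) * (B * (m + 1) + 1) =
      B * (m + 1) + B * d * (B * (m + 1)) + B * d + 1 := by ring
  omega

/-- reduction to integer-valued valuations -/
theorem Quad.exists_intVal {V : Submodule k D} {C : ℕ} (hV : Quad V C) (hD : ¬ FinCent D)
    {ν : D → Γ} (h : GVal ν) (hnt : ∃ x : D, x ≠ 0 ∧ ν x ≠ 0) {a : D} (hat : Transcendental k a)
    (ha : ∀ f ∈ gen k a, f ≠ 0 → ν f = 0) :
    ∃ ν' : D → ℤ, DVal k ν' ∧ (∃ x : D, x ≠ 0 ∧ ν' x ≠ 0) ∧
      ∀ f ∈ gen k a, f ≠ 0 → ν' f = 0 := by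
  classical
  obtain ⟨d, v, hv, hv0, hνv⟩ : ∃ d, ∃ v ∈ V ^ d, v ≠ 0 ∧ ν v ≠ 0 := by
    obtain ⟨x, hx0, hνx⟩ := hnt
    obtain ⟨n, p, hp, q, hq, hq0, hpq⟩ := hV.frac x
    have hp0 : p ≠ 0 := by
      rintro rfl
      rw [zero_mul] at hpq
      exact hx0 hpq
    by_cases h1 : ν p = 0
    · refine ⟨n, q, hq, hq0, fun h2 => hνx ?_⟩
      rw [hpq, h.mul _ _ hp0 (inv_ne_zero hq0), h.inv hq0, h1, h2, neg_zero, add_zero]
    · exact ⟨n, p, hp, hp0, h1⟩
  obtain ⟨N, hN⟩ := hV.value_rank hD h hat ha hv hv0 hνv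
  have hg : 0 < |ν v| := abs_pos.mpr hνv
  have hex : ∀ x : D, ∃ m : ℤ, x ≠ 0 → (N.factorial : ℤ) • ν x = m • |ν v| := by
    intro x
    by_cases hx : x = 0
    · exact ⟨0, fun h1 => absurd hx h1⟩
    obtain ⟨i, hi1, hiN, m, hm⟩ := hN x hx
    obtain ⟨c, hc⟩ := Nat.dvd_factorial hi1 hiN
    have h1 : (N.factorial : ℤ) • ν x = ((c : ℤ) * m) • ν v := by
      rw [hc, natCast_zsmul, mul_comm i c, mul_nsmul', hm, mul_zsmul', natCast_zsmul]
      rw [← natCast_zsmul, ← natCast_zsmul, zsmul_comm]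
    rcases abs_choice (ν v) with h2 | h2
    · exact ⟨c * m, fun _ => by rw [h2]; exact h1⟩
    · exact ⟨-(c * m), fun _ => by rw [h2, neg_zsmul, zsmul_neg, neg_neg]; exact h1⟩
  choose μ hμ using hex
  have hfac : (0 : ℤ) < N.factorial := by exact_mod_cast N.factorial_pos
  have huniq : ∀ {m m' : ℤ}, m • |ν v| = m' • |ν v| → m = m' := by
    intro m m' he
    have h1 : (m - m') • |ν v| = 0 := by rw [sub_zsmul, he, add_neg_cancel]
    have h2 := (smul_eq_zero.mp h1).resolve_right hg.ne'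
    omega
  have hmono : ∀ {x y : D}, x ≠ 0 → y ≠ 0 → (ν x ≤ ν y ↔ μ x ≤ μ y) := by
    intro x y hx hy
    rw [← zsmul_le_zsmul_iff_right hfac, hμ x hx, hμ y hy, zsmul_le_zsmul_iff_left hg]
  have hzero : ∀ {x : D}, x ≠ 0 → (ν x = 0 ↔ μ x = 0) := by
    intro x hx
    constructor
    · intro h0
      apply huniq
      rw [← hμ x hx, h0, zsmul_zero, zero_zsmul]
    · intro h0
      have h1 := hμ x hx
      rw [h0, zero_zsmul] at h1
      exact (smul_eq_zero.mp h1).resolve_left hfac.ne'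
  have ht : ∀ c : k, c ≠ 0 → μ (algebraMap k D c) = 0 := by
    intro c hc
    have hc' : algebraMap k D c ≠ 0 := by simpa using hc
    exact (hzero hc').1 (ha _ (algebraMap_mem_gen a c) hc')
  refine ⟨μ, ⟨?_, ?_, ht⟩, ⟨v, hv0, fun h0 => hνv ((hzero hv0).2 h0)⟩, fun f hf hf0 =>
    (hzero hf0).1 (ha f hf hf0)⟩
  · intro x y hx hy
    apply huniq
    rw [← hμ _ (mul_ne_zero hx hy), h.mul x y hx hy, zsmul_add, hμ x hx, hμ y hy, add_zsmul]
  · intro x y hx hy hxy
    rcases min_le_iff.1 (h.add x y hx hy hxy) with h1 | h1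
    · exact min_le_of_left_le ((hmono hx hxy).1 h1)
    · exact min_le_of_right_le ((hmono hy hxy).1 h1)

/-- THEOREM (values in an ordered abelian group). -/
theorem Quad.finCent_of_gval [Finite k] {V : Submodule k D} {C : ℕ} (hV : Quad V C)
    {ν : D → Γ} (h : GVal ν) (hnt : ∃ x : D, x ≠ 0 ∧ ν x ≠ 0) {a : D} (hat : Transcendental k a)
    (ha : ∀ f ∈ gen k a, f ≠ 0 → ν f = 0) : FinCent D := by
  by_contra hD
  obtain ⟨ν', h', hnt', ha'⟩ := hV.exists_intVal hD h hnt hat ha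
  exact hD (hV.finCent_of_val h' hnt' hat ha')

end Pool.Agent.BQG
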