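import Pool.Agent.H.MP_fbbc72_al.h41.Core10

set_option autoImplicit false

namespace Pool.Agent.BQG

open Module Pool.Agent.BQG

theorem W1_filter (p J : ℕ) (hp : p.Prime) :
    (Finset.Icc 1 (p ^ (J + 1))).filter (fun i => p ∣ i) =
      (Finset.Icc 1 (p ^ J)).image (fun m => p * m) := by
  ext i
  simp only [Finset.mem_filter, Finset.mem_Icc, Finset.mem_image]
  constructor
  · rintro ⟨⟨h1, h2⟩, m, rfl⟩
    refine ⟨m, ⟨?_, ?_⟩, rfl⟩
    · rcases Nat.eq_zero_or_pos m with h | h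
      · rw [h, Nat.mul_zero] at h1
        exact absurd h1 (by norm_num)
      · exact h
    · rw [pow_succ, mul_comm (p ^ J) p] at h2
      exact Nat.le_of_mul_le_mul_left h2 hp.pos
  · rintro ⟨m, ⟨h1, h2⟩, rfl⟩
    refine ⟨⟨?_, ?_⟩, Dvd.intro m rfl⟩
    · exact Nat.succ_le_of_lt (Nat.mul_pos hp.pos h1)
    · rw [pow_succ, mul_comm (p ^ J) p]
      exact Nat.mul_le_mul_left p h2

theorem W1_step (p J : ℕ) (hp : p.Prime) :
    p * (∑ i ∈ Finset.Icc 1 (p ^ J), p ^ (padicValNat p i)) + p ^ (J + 1) ≤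
      (∑ i ∈ Finset.Icc 1 (p ^ (J + 1)), p ^ (padicValNat p i)) + p ^ J := by
  have : Fact p.Prime := ⟨hp⟩
  have hinj : Function.Injective (fun m : ℕ => p * m) := by
    intro a b h
    exact Nat.eq_of_mul_eq_mul_left hp.pos h
  have hF := W1_filter p J hp
  have hcardF : ((Finset.Icc 1 (p ^ (J + 1))).filter (fun i => p ∣ i)).card = p ^ J := by
    rw [hF, Finset.card_image_of_injective _ hinj, Nat.card_Icc]
    omega
  have hcard := Finset.card_filter_add_card_filter_not (s := Finset.Icc 1 (p ^ (J + 1)))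
    (fun i => p ∣ i)
  rw [hcardF, Nat.card_Icc, Nat.add_sub_cancel] at hcard
  have h1 : ∑ i ∈ (Finset.Icc 1 (p ^ (J + 1))).filter (fun i => p ∣ i), p ^ (padicValNat p i) =
      p * ∑ i ∈ Finset.Icc 1 (p ^ J), p ^ (padicValNat p i) := by
    rw [hF, Finset.sum_image (fun a _ b _ h => hinj h), Finset.mul_sum]
    refine Finset.sum_congr rfl fun m hm => ?_
    have hm0 : m ≠ 0 := by
      have := (Finset.mem_Icc.1 hm).1
      omega
    rw [padicValNat.mul hp.ne_zero hm0, padicValNat_self, pow_add, pow_one]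
  have h2 : ((Finset.Icc 1 (p ^ (J + 1))).filter (fun i => ¬ p ∣ i)).card ≤
      ∑ i ∈ (Finset.Icc 1 (p ^ (J + 1))).filter (fun i => ¬ p ∣ i), p ^ (padicValNat p i) := by
    rw [Finset.card_eq_sum_ones]
    exact Finset.sum_le_sum fun i _ => Nat.one_le_pow _ _ hp.pos
  rw [← Finset.sum_filter_add_sum_filter_not (Finset.Icc 1 (p ^ (J + 1))) (fun i => p ∣ i), h1]
  omega

variable {k D : Type*} [Field k] [DivisionRing D] [Algebra k D]

/-- Counting of `p`-adic valuations: among `1, ..., p^J` there are `p^(J-j) - p^(J-j-1)` numbers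
with valuation exactly `j` for `j < J`, and one with valuation `J`. So the sum is
`∑_{j<J} p^j (p^(J-j) - p^(J-j-1)) + p^J = J (p^J - p^(J-1)) + p^J`, and `p^J - p^(J-1) ≥ p^J / 2`.
(Or by induction on `J`: splitting `1..p^(J+1)` in multiples of `p` and the rest,
`S (J+1) = p * S J + (p^(J+1) - p^J)`.) -/
theorem sum_pow_val (p J : ℕ) (hp : p.Prime) :
    J * p ^ J ≤ 2 * ∑ i ∈ Finset.Icc 1 (p ^ J), p ^ (padicValNat p i) := by
  induction J with
  | zero => simp
  | succ J ih =>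
    have h1 := W1_step p J hp
    have h2 : p * (J * p ^ J) ≤ p * (2 * ∑ i ∈ Finset.Icc 1 (p ^ J), p ^ (padicValNat p i)) :=
      Nat.mul_le_mul_left p ih
    have h3 : 2 * p ^ J ≤ p ^ (J + 1) := by
      rw [pow_succ, mul_comm (p ^ J) p]
      exact Nat.mul_le_mul_right _ hp.two_le
    have h4 : (J + 1) * p ^ (J + 1) = p * (J * p ^ J) + p ^ (J + 1) := by ring
    have h5 : p * (2 * ∑ i ∈ Finset.Icc 1 (p ^ J), p ^ (padicValNat p i)) =
      2 * (p * ∑ i ∈ Finset.Icc 1 (p ^ J), p ^ (padicValNat p i)) := by ring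
    rw [h5] at h2
    rw [h4]
    omega

end Pool.Agent.BQG
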